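import Pool.Agent.MP_0e6a9f_ag.H36.Hon

/-! Restriction along a graded ring map that is an isomorphism on charts. -/

set_option linter.unusedSectionVars false

noncomputable section
namespace FMD
open DG

variable {K G R R' : Type} [Field K] [AddCommGroup G] [CommRing R] [Algebra K R] [CharP K 2]
  [CommRing R'] [Algebra K R'] {A : G → Submodule K R} {A' : G → Submodule K R'} {U : Set G}

/-- A graded algebra map. -/
structure GH (A : G → Submodule K R) (A' : G → Submodule K R') where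
  φ : R →ₐ[K] R'
  mem : ∀ {g r}, r ∈ A g → φ r ∈ A' g

lemma DG.homO_tg_sh_qis (P Z : DG A) (a : G) (k : ℤ) :
    Qis (homO ((P.tg a).sh k) Z) (((homO P Z).tg (-a)).sh (-k)) LinearMap.id := by
  have hh : IsHom (homO ((P.tg a).sh k) Z) (((homO P Z).tg (-a)).sh (-k)) LinearMap.id :=
    ⟨fun h g' n' m hm => mem_cast (h (g' - a) (n' - k) m (mem_cast (M := P) hm (by abel) (by ring)))
      (by abel) (by ring), fun _ => rfl⟩
  exact ⟨hh, fun g _ => Cx.Qis.of_bij (hh.cx g) (fun _ _ _ h => h) fun _ w hw =>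
    ⟨w, fun g' n' m hm => mem_cast (hw _ _ m hm) (by abel) (by ring), rfl⟩⟩

lemma DG.QisOn.tg_sh {M N : DG A} {f : M.M →ₗ[R] N.M} (h : Qis M N f) (a : G) (k : ℤ) :
    Qis ((M.tg a).sh k) ((N.tg a).sh k) f :=
  (DGF.good_sh k).qis ((DGF.good_tg a fun _ _ => Set.mem_univ _).qis h)

namespace GH
variable (φ : GH A A') {L M N T Z : DG A'}

/-- Restriction of scalars. -/
def res (M : DG A') : DG A where
  M := M.M
  mod := Module.compHom M.M φ.φ.toRingHom
  gr := M.gr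
  smul_mem hr hm := M.smul_mem (φ.mem hr) hm
  d := @LinearMap.mk R R _ _ _ M.M M.M _ _ (_) (_) M.d.toAddHom fun r m => M.d.map_smul (φ.φ r) m
  d_mem := M.d_mem
  d_d := M.d_d

/-- Restriction of scalars on maps. -/
def map (M N : DG A') : (M.M →ₗ[R'] N.M) →+ ((φ.res M).M →ₗ[R] (φ.res N).M) :=
  AddMonoidHom.mk' (fun f => ⟨f.toAddHom, fun r m => f.map_smul (φ.φ r) m⟩) fun _ _ => rfl

lemma smul_def (r : R) (m : (φ.res M).M) : r • m = φ.φ r • (show M.M from m) := rfl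

/-- The image of a homogeneous element. -/
def he (x : HE A) : HE A' := ⟨φ.φ x.x, x.deg, φ.mem x.mem⟩

lemma pow_smul (x : HE A) (k : ℕ) (m : (φ.res M).M) :
    x.x ^ k • m = (φ.he x).x ^ k • (show M.M from m) := by
  rw [smul_def, map_pow]; rfl

lemma isHom {f : M.M →ₗ[R'] N.M} (hf : IsHom M N f) : IsHom (φ.res M) (φ.res N) (φ.map M N f) :=
  ⟨hf.mem, hf.comm⟩

lemma qisOn {f : M.M →ₗ[R'] N.M} (hf : QisOn U M N f) : QisOn U (φ.res M) (φ.res N) (φ.map M N f) :=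
  ⟨φ.isHom hf.isHom, hf.qis⟩

lemma hon (h : M.Hon) : (φ.res M).Hon := ⟨h.span, h.ind⟩

lemma pieces {J : Type} [Fintype J] {Q : J → DG A'} {ht : J → ℤ} {p : ∀ j, M.M →ₗ[R'] (Q j).M}
    {s : ∀ j, (Q j).M →ₗ[R'] M.M} (H : Pieces M Q ht p s) :
    Pieces (φ.res M) (fun j => φ.res (Q j)) ht (fun j => φ.map _ _ (p j))
      (fun j => φ.map _ _ (s j)) where
  hp := H.hp
  hs := H.hs
  tot := (map_sum (φ.map M M) (fun j => s j ∘ₗ p j) _).symm.trans (congrArg _ H.tot)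
  ps j := congrArg (φ.map _ _) (H.ps j)
  ps' i j h := congrArg (φ.map _ _) (H.ps' i j h)
  tri i j h := congrArg (φ.map _ _) (H.tri i j h)

/-- Restriction of a representation. -/
@[reducible] def rep {C : DGR} (ρ : Rep C T) : Rep C (φ.res T) where
  ρ :=
    { toFun b := φ.map T T (ρ.ρ b)
      map_one' := by rw [map_one]; rfl
      map_mul' a b := by rw [map_mul]; rfl
      map_zero' := by rw [map_zero]; rfl
      map_add' a b := by rw [map_add]; rfl }
  ρ_mem h := ρ.ρ_mem h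
  ρ_d b := congrArg (φ.map T T) (ρ.ρ_d b)

lemma map_algebraMap (c : K) (f : M.M →ₗ[R'] N.M) :
    φ.map M N (algebraMap K R' c • f) = algebraMap K R c • φ.map M N f :=
  LinearMap.ext fun m => by
    change algebraMap K R' c • f m = φ.φ (algebraMap K R c) • f m
    rw [φ.φ.commutes]

variable [SetLike.GradedMonoid A] [SetLike.GradedMonoid A'] {xs : List (HE A)}

lemma tors {x : HE A} : Tors x (φ.res M) ↔ Tors (φ.he x) M := by
  simp only [Tors, TorsOn, φ.pow_smul]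
  rfl

lemma torsL : TorsL xs (φ.res M) ↔ TorsL (xs.map φ.he) M := by
  simp only [TorsL, φ.tors, List.forall_mem_map]

lemma isW {f : M.M →ₗ[R'] N.M} (hf : IsW (xs.map φ.he) M N f) :
    IsW xs (φ.res M) (φ.res N) (φ.map M N f) :=
  (isW_iff (φ.isHom hf.isHom)).2 fun _ hx =>
    (φ.tors (M := cone hf.isHom)).2 ((isW_iff hf.isHom).1 hf _ (List.mem_map_of_mem hx))

lemma exists_loc (x : HE A) (N : DG A') : ∃ l, Qis (DG.loc x (φ.res N)) (φ.res (DG.loc (φ.he x) N)) l ∧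
    ∀ m, l (toLoc x (φ.res N) m) = toLoc (φ.he x) N m := by
  have inj : ∀ (k : ℕ) (u : (φ.res (DG.loc (φ.he x) N)).M), x.x ^ k • u = 0 → u = 0 :=
    fun k u h => loc_inj (φ.he x) k ((φ.pow_smul x k u).symm.trans h)
  let l := IsLocalizedModule.lift (Submonoid.powers x.x) (toLoc x (φ.res N))
    (φ.map N (DG.loc (φ.he x) N) (toLoc (φ.he x) N)) (by
      rintro ⟨_, k, rfl⟩
      refine (Module.End.isUnit_iff _).2 ⟨(injective_iff_map_eq_zero _).2 (inj k), fun u => ?_⟩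
      obtain ⟨v, hv⟩ := loc_div (φ.he x) k u
      exact ⟨v, (φ.pow_smul (M := DG.loc (φ.he x) N) x k v).trans hv⟩)
  have hl : ∀ m, l (toLoc x (φ.res N) m) = toLoc (φ.he x) N m :=
    IsLocalizedModule.lift_apply _ _ _ _
  have hh : IsHom (DG.loc x (φ.res N)) (φ.res (DG.loc (φ.he x) N)) l := by
    refine ⟨?_, fun u => ?_⟩
    · rintro g n u ⟨k, m, hm, e⟩
      exact ⟨k, m, hm, (φ.pow_smul x k (l u)).symm.trans (by rw [← map_smul, e, hl])⟩
    · obtain ⟨k, m, e⟩ := loc_surj x u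
      refine sub_eq_zero.1 (inj k _ ?_)
      rw [smul_sub, ← map_smul, ← map_smul, ← map_smul, ← map_smul, e, hl, sub_eq_zero]
      exact (locMap_toLoc (φ.he x) N.d m).trans
        ((hl _).symm.trans (congrArg l (locMap_toLoc x (φ.res N).d m).symm))
  refine ⟨l, ⟨hh, fun g _ => Cx.Qis.of_bij (hh.cx g) (fun n u _ h => ?_) ?_⟩, hl⟩
  · obtain ⟨k, m, e⟩ := loc_surj x u
    obtain ⟨j, hj⟩ := toLoc_eq_zero (φ.he x) (M := N) (m := m)
      (by rw [← hl, ← e, map_smul, show l u = 0 from h, smul_zero]; rfl)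
    exact loc_inj x (j + k) (by
      rw [pow_add, mul_smul, e, ← map_smul, (φ.pow_smul x j m).trans hj]; exact map_zero _)
  · rintro n w ⟨k, m, hm, e⟩
    obtain ⟨t, ht⟩ := loc_div x k (toLoc x (φ.res N) m)
    refine ⟨t, ⟨k, m, hm, ht⟩, sub_eq_zero.1 (inj k _ ?_)⟩
    change x.x ^ k • (l t - show (φ.res (DG.loc (φ.he x) N)).M from w) = 0
    rw [smul_sub, ← map_smul, ht, hl, sub_eq_zero]
    exact e.symm.trans (φ.pow_smul (M := DG.loc (φ.he x) N) x k w).symm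

lemma exists_gam : ∀ (xs : List (HE A)) (M : DG A'),
    ∃ c, Qis ((gamF xs).obj (φ.res M)) (φ.res ((gamF (xs.map φ.he)).obj M)) c
  | [], _ => ⟨_, QisOn.id _⟩
  | x :: xs, M => by
    obtain ⟨c, hc⟩ := exists_gam xs M
    obtain ⟨l, hl, e⟩ := φ.exists_loc x ((gamF (xs.map φ.he)).obj M)
    have S := ext_ses (U := Set.univ) (toLoc_isHom x (φ.res ((gamF (xs.map φ.he)).obj M))).fibTw
    have S' := ext_ses (U := Set.univ) (toLoc_isHom (φ.he x) ((gamF (xs.map φ.he)).obj M)).fibTw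
    let c' : ((gam1 x).obj (φ.res ((gamF (xs.map φ.he)).obj M))).M →ₗ[R]
        (φ.res ((gamF ((x :: xs).map φ.he)).obj M)).M :=
      ⟨⟨fun v => (v.1, l v.2), fun u v => Prod.ext rfl (map_add l _ _)⟩,
        fun r v => Prod.ext rfl (map_smul l _ _)⟩
    have hh : IsHom _ _ c' := ⟨fun h => ⟨h.1, hl.isHom.mem h.2⟩, fun v => Prod.ext rfl
      ((congrArg₂ (· + ·) (e v.1).symm (hl.isHom.comm v.2)).trans (map_add l _ _).symm)⟩
    exact ⟨_, QisOn.comp ⟨hh, fun g _ => (S.ses g trivial).qis₂ (S'.ses g trivial)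
      (((DGF.good_sh (-1)).qis hl).qis g trivial) (hh.cx g) (Cx.Qis.id _)
      (fun _ _ _ => rfl) fun _ _ _ => rfl⟩ ((good_gam1 x (stab_univ _)).qis hc)⟩

lemma acycOn_gam : AcycOn U ((gamF xs).obj (φ.res M)) ↔ AcycOn U ((gamF (xs.map φ.he)).obj M) :=
  let ⟨_, hc⟩ := φ.exists_gam xs M
  ⟨(hc.mono (Set.subset_univ U)).acyc_right, (hc.mono (Set.subset_univ U)).acyc_left⟩

lemma isLocal : IsLocal xs (φ.res M) ↔ IsLocal (xs.map φ.he) M := φ.acycOn_gam

/-- `R / I → R'` becomes bijective on every chart. -/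
structure Chart (I : Ideal R) (xs : List (HE A)) : Prop where
  kill : ∀ r ∈ I, φ.φ r = 0
  ker : ∀ x ∈ xs, ∀ r, φ.φ r = 0 → ∃ k : ℕ, x.x ^ k * r ∈ I
  surj : ∀ x ∈ xs, ∀ g, ∀ r ∈ A' g, ∃ k : ℕ, ∃ s ∈ A (k • x.deg + g), φ.φ x.x ^ k * r = φ.φ s
  span : (ring A').Span

variable {φ} {I : Ideal R} (H : φ.Chart I xs)
include H

lemma Chart.kill_res (M : DG A') : Kill I (φ.res M) := fun r hr m => by
  rw [smul_def, H.kill r hr]; exact zero_smul R' (show M.M from m)

lemma Chart.ev_qis {Y : DG A} (hY : SL xs I Y) :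
    Qis (homO (φ.res (ring A')) Y) Y (LinearMap.applyₗ (show (φ.res (ring A')).M from (1 : R'))) := by
  let u : (cyc A I).M →ₗ[R] (φ.res (ring A')).M := Submodule.liftQ I
    (LinearMap.toSpanSingleton R (φ.res (ring A')).M (1 : R'))
      fun r hr => H.kill_res (ring A') r hr (1 : R')
  have hu' : ∀ r, u (I.mkQ r) = φ.φ r := fun r => mul_one (φ.φ r)
  have hu : IsHom (cyc A I) (φ.res (ring A')) u := by
    refine ⟨?_, fun m => ?_⟩
    · rintro g n _ ⟨r, hr, rfl⟩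
      exact mem_cast (ring_smul_mem (Z := φ.res (ring A')) hr (one_mem_ring (A := A')))
        (zero_add _) (add_zero _)
    · obtain ⟨r, rfl⟩ := I.mkQ_surjective m
      exact (map_zero u).symm
  have := (ev_cyc_qis hY.kill).comp (hY.pre_qis hu fun x hx => pre_loc_qis x hu H.span
    (fun g n v hv => ?_) fun m hm => ?_)
  · convert this using 1
    exact LinearMap.ext fun v => congrArg v ((hu' 1).trans (map_one φ.φ)).symm
  · by_cases hn : n = 0
    · subst hn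
      obtain ⟨k, s, hs, e⟩ := H.surj x hx g v hv
      exact ⟨k, I.mkQ s, ⟨s, hs, rfl⟩, (φ.pow_smul x k v).trans (e.trans (hu' s).symm)⟩
    · exact ⟨0, 0, zero_mem _, by
        rw [pow_zero, one_smul, map_zero]; exact eq_zero_of_mem_ring (A := A') hv hn⟩
  · obtain ⟨r, rfl⟩ := I.mkQ_surjective m
    obtain ⟨k, hk⟩ := H.ker x hx r ((hu' r).symm.trans hm)
    exact ⟨k, (Submodule.Quotient.mk_eq_zero _).2 hk⟩

variable {J : Type} [Fintype J] [DecidableEq J] {a : J → G} {n : J → ℤ} {p : J → T.M →ₗ[R'] R'}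
  {s : J → T.M}

lemma Chart.kp (hT : Free T a n p s) : KP (SL xs I) (φ.res T) :=
  (φ.pieces hT.pieces).kp fun _ => (KP.tg (P := φ.res (ring A'))
    (fun _ hY ha => (H.ev_qis hY).acyc_left ha) _).sh _

lemma Chart.hom_qis (hT : Free T a n p s) {Y : DG A} (hY : SL xs I Y) {j : (φ.res Z).M →ₗ[R] Y.M}
    (hj : Qis (φ.res Z) Y j) : Cx.Qis (hom T Z) (hom (φ.res T) Y)
      ((LinearMap.llcomp R _ _ _ j).toAddMonoidHom.comp (φ.map T Z)) := by
  have hm : ∀ P : DG A', Cx.IsMap (hom P Z) (hom (φ.res P) Y)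
      ((LinearMap.llcomp R _ _ _ j).toAddMonoidHom.comp (φ.map P Z)) := fun P =>
    (hj.isHom.post _).comp ⟨fun h => h, fun _ => rfl⟩
  refine ((hT.pieces.pre Z).cx 0).qis (((φ.pieces hT.pieces).pre Y).cx 0) (hm T)
    (g := fun i => (LinearMap.llcomp R _ _ _ j).toAddMonoidHom.comp (φ.map _ Z)) (fun i => ?_)
    (fun _ _ => rfl) fun _ _ => rfl
  exact Cx.Qis.of_comp_left ((((H.ev_qis hY).tg_sh _ _).comp
    (homO_tg_sh_qis (φ.res (ring A')) Y (-a i) (-n i))).qis 0 trivial) (hm _)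
    (((hj.tg_sh _ _).qis 0 trivial).comp ((((ev_ring_qis Z).tg_sh _ _).comp
      (homO_tg_sh_qis (ring A') Z (-a i) (-n i))).qis 0 trivial))

/-- Full faithfulness over the Cox ring gives full faithfulness over `R / I`. -/
lemma Chart.unit_qis (hT : Free T a n p s) {C : DGR} (ρ : Rep C T) {j : T.M →ₗ[R'] Z.M}
    (hj : IsW (xs.map φ.he) T Z j) (hZ : IsLocal (xs.map φ.he) Z)
    (h : Cx.Qis C.self.cx (hom T Z) (ρ.unitMap j)) :
    Cx.Qis C.self.cx (hom (φ.res T) ((cechF xs).obj (φ.res T)))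
      ((φ.rep ρ).unitMap ((cechEta xs).app (φ.res T))) := by
  have h1 := (H.hom_qis hT (sl_cech (H.kill_res Z)) (cechEta_qisOn (φ.isLocal.2 hZ))).comp h
  have h2 := ((H.kp hT).post_qis (φ.isW hj).cech_qis (SL.ext _ ((sl_cech (H.kill_res T)).sh 1)
    (sl_cech (H.kill_res Z)))).qis 0 trivial
  exact h2.of_comp_left (((φ.rep ρ).unitMap_isHom ((φ.rep ρ).mapF (cechF xs))
    ((cechEta xs).isHom _) fun b => LinearMap.ext ((cechEta xs).nat _ _ _)).isMap)
    (h1.congr fun _ b _ => LinearMap.ext fun t => ((cechEta xs).nat _ _ (φ.map T Z j) _).symm)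

end GH
end FMD
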