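import Pool.Agent.MP_0e6a9f_ag.H36.Cx

/-! Small DG categories of characteristic 2 as rings with idempotents; twisted complexes;
bimodules. -/

open MulOpposite

noncomputable section
namespace FMD

/-- A DG category with finitely many objects, as a ring with orthogonal idempotents. -/
structure DGR where
  B : Type
  [ring : Ring B]
  O : Type
  [fin : Fintype O]
  [dec : DecidableEq O]
  e : O → B
  gr : ℤ → AddSubgroup B
  d : B →+ B
  two : ∀ b : B, b + b = 0
  e_mul : ∀ a b, e a * e b = if a = b then e a else 0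
  e_sum : ∑ a, e a = 1
  e_mem : ∀ a, e a ∈ gr 0
  d_e : ∀ a, d (e a) = 0
  mul_mem : ∀ {m n a b}, a ∈ gr m → b ∈ gr n → a * b ∈ gr (m + n)
  d_mem : ∀ {n b}, b ∈ gr n → d b ∈ gr (n + 1)
  d_d : ∀ b, d (d b) = 0
  d_mul : ∀ a b, d (a * b) = d a * b + a * d b

attribute [instance] DGR.ring DGR.fin DGR.dec

namespace DGR
variable (C : DGR)

lemma e_mul_self (a : C.O) : C.e a * C.e a = C.e a := by simp [C.e_mul]

/-- Every element is a sum of homogeneous ones. -/
def Span : Prop := ∀ b, b ∈ ⨆ n, C.gr n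

end DGR

/-- A `C'`-`C`-bimodule (left `C'`, right `C`). -/
structure Bimod (C C' : DGR) where
  H : Type
  [acg : AddCommGroup H]
  [modL : Module C'.B H]
  [modR : Module C.Bᵐᵒᵖ H]
  [comm : SMulCommClass C'.B C.Bᵐᵒᵖ H]
  gr : ℤ → AddSubgroup H
  d : H →+ H
  d_mem : ∀ {n h}, h ∈ gr n → d h ∈ gr (n + 1)
  d_d : ∀ h, d (d h) = 0
  l_mem : ∀ {m n b h}, b ∈ C'.gr m → h ∈ gr n → b • h ∈ gr (m + n)
  r_mem : ∀ {m n b h}, b ∈ C.gr m → h ∈ gr n → op b • h ∈ gr (n + m)
  d_l : ∀ (b : C'.B) h, d (b • h) = C'.d b • h + b • d h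
  d_r : ∀ (b : C.B) h, d (op b • h) = op b • d h + op (C.d b) • h

attribute [instance] Bimod.acg Bimod.modL Bimod.modR Bimod.comm

/-- The diagonal bimodule. -/
@[reducible] def DGR.self (C : DGR) : Bimod C C where
  H := C.B
  gr := C.gr
  d := C.d
  d_mem := C.d_mem
  d_d := C.d_d
  l_mem := C.mul_mem
  r_mem hb hh := C.mul_mem hh hb
  d_l := C.d_mul
  d_r b h := C.d_mul h b

namespace Bimod
variable {C C' : DGR} (H : Bimod C C')

lemma two (h : H.H) : h + h = 0 := by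
  rw [← one_smul C'.B h, ← add_smul, C'.two, zero_smul]

lemma mem_cast {m n : ℤ} {v : H.H} (hv : v ∈ H.gr m) (h : m = n) : v ∈ H.gr n := h ▸ hv

/-- The underlying complex. -/
@[reducible] def cx : Cx where
  V := H.H
  gr := H.gr
  d := H.d
  two := H.two
  d_mem := H.d_mem
  d_d _ := H.d_d _

/-- The projection to the corner of maps from `a` to `b`. -/
def pr (a : C.O) (b : C'.O) : H.H →+ H.H :=
  (DistribSMul.toAddMonoidHom H.H (C'.e b)).comp (DistribSMul.toAddMonoidHom H.H (op (C.e a)))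

lemma pr_apply (a : C.O) (b : C'.O) (h : H.H) : H.pr a b h = C'.e b • op (C.e a) • h := rfl

lemma pr_pr (a : C.O) (b : C'.O) (h : H.H) : H.pr a b (H.pr a b h) = H.pr a b h := by
  rw [pr_apply, pr_apply, ← smul_comm (C'.e b), smul_smul, smul_smul (op _), ← op_mul,
    C.e_mul_self, C'.e_mul_self]

lemma d_pr (a : C.O) (b : C'.O) (h : H.H) : H.d (H.pr a b h) = H.pr a b (H.d h) := by
  simp [pr_apply, H.d_l, H.d_r, C.d_e, C'.d_e]

lemma pr_mem (a : C.O) (b : C'.O) {n : ℤ} {h : H.H} (hh : h ∈ H.gr n) : H.pr a b h ∈ H.gr n :=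
  H.mem_cast (H.l_mem (C'.e_mem b) (H.r_mem (C.e_mem a) hh)) (by ring)

/-- Elements of degree `n` in the corner from `a` to `b`. -/
def cor (a : C.O) (b : C'.O) (n : ℤ) : AddSubgroup H.H where
  carrier := {h | h ∈ H.gr n ∧ H.pr a b h = h}
  add_mem' hf hg := ⟨add_mem hf.1 hg.1, by rw [map_add, hf.2, hg.2]⟩
  zero_mem' := ⟨zero_mem _, map_zero _⟩
  neg_mem' hf := ⟨neg_mem hf.1, by rw [map_neg, hf.2]⟩

variable {H} in
lemma cor_cast {a : C.O} {b : C'.O} {m n : ℤ} {v : H.H} (hv : v ∈ H.cor a b m) (h : m = n) :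
    v ∈ H.cor a b n := h ▸ hv

lemma pr_mem_cor (a : C.O) (b : C'.O) {n : ℤ} {h : H.H} (hh : h ∈ H.gr n) :
    H.pr a b h ∈ H.cor a b n := ⟨H.pr_mem a b hh, H.pr_pr a b h⟩

variable {H} in
lemma cor_l {a : C.O} {b : C'.O} {n : ℤ} {h : H.H} (hh : h ∈ H.cor a b n) : C'.e b • h = h := by
  rw [← hh.2, pr_apply, smul_smul, C'.e_mul_self]

variable {H} in
lemma cor_r {a : C.O} {b : C'.O} {n : ℤ} {h : H.H} (hh : h ∈ H.cor a b n) :
    op (C.e a) • h = h := by
  rw [← hh.2, pr_apply, ← smul_comm (C'.e b), smul_smul (op _), ← op_mul, C.e_mul_self]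

lemma mem_cor {a : C.O} {b : C'.O} {n : ℤ} {h : H.H} (h0 : h ∈ H.gr n) (h1 : C'.e b • h = h)
    (h2 : op (C.e a) • h = h) : h ∈ H.cor a b n := ⟨h0, by rw [pr_apply, h2, h1]⟩

lemma d_mem_cor {a : C.O} {b : C'.O} {n : ℤ} {h : H.H} (hh : h ∈ H.cor a b n) :
    H.d h ∈ H.cor a b (n + 1) := ⟨H.d_mem hh.1, by rw [← H.d_pr, hh.2]⟩

lemma l_mem_cor {a : C.O} {b c : C'.O} {m n : ℤ} {f : C'.B} {h : H.H}
    (hf : f ∈ C'.self.cor b c m) (hh : h ∈ H.cor a b n) : f • h ∈ H.cor a c (m + n) :=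
  H.mem_cor (H.l_mem hf.1 hh.1) (by rw [smul_smul]; exact congrArg (· • h) (cor_l hf))
    (by rw [← smul_comm, cor_r hh])

lemma r_mem_cor {a b : C.O} {c : C'.O} {m n : ℤ} {f : C.B} {h : H.H}
    (hf : f ∈ C.self.cor a b m) (hh : h ∈ H.cor b c n) : op f • h ∈ H.cor a c (n + m) :=
  H.mem_cor (H.r_mem hf.1 hh.1) (by rw [smul_comm, cor_l hh])
    (by rw [smul_smul, ← op_mul]; exact congrArg (op · • h) (cor_r hf))

/-- The complex of maps from `a` to `b`. -/
@[reducible] def corCx (a : C.O) (b : C'.O) : Cx where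
  V := H.H
  gr := H.cor a b
  d := H.d
  two := H.two
  d_mem := H.d_mem_cor
  d_d _ := H.d_d _

lemma corCx_acycAt {n : ℤ} (h : H.cx.AcycAt n) (a : C.O) (b : C'.O) : (H.corCx a b).AcycAt n := by
  intro z hz h0
  obtain ⟨w, hw, h1⟩ := h z hz.1 h0
  exact ⟨H.pr a b w, H.pr_mem_cor a b hw, (H.d_pr a b w).trans ((congrArg _ h1).trans hz.2)⟩

lemma sum_pr (h : H.H) : ∑ a, ∑ b, H.pr a b h = h := by
  simp only [pr_apply, ← Finset.sum_smul, C'.e_sum, one_smul, ← Finset.op_sum, C.e_sum, op_one]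

lemma acycAt_of_cor {n : ℤ} (h : ∀ a b, (H.corCx a b).AcycAt n) : H.cx.AcycAt n := by
  intro z hz h0
  choose w hw h1 using fun a b => h a b (H.pr a b z) (H.pr_mem_cor a b hz)
    ((H.d_pr a b z).trans (by rw [show H.d z = 0 from h0, map_zero]))
  refine ⟨∑ a, ∑ b, w a b, sum_mem fun a _ => sum_mem fun b _ => (hw a b).1, ?_⟩
  simp only [map_sum]
  exact (Finset.sum_congr rfl fun a _ => Finset.sum_congr rfl fun b _ => h1 a b).trans (H.sum_pr z)

/-- A closed bimodule map of degree 0. -/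
structure IsHom (H H' : Bimod C C') (f : H.H →+ H'.H) : Prop where
  mem : ∀ {n h}, h ∈ H.gr n → f h ∈ H'.gr n
  comm : ∀ h, H'.d (f h) = f (H.d h)
  l : ∀ (b : C'.B) h, f (b • h) = b • f h
  r : ∀ (b : C.B) h, f (op b • h) = op b • f h

variable {H} {H' : Bimod C C'}

lemma IsHom.isMap {f : H.H →+ H'.H} (hf : IsHom H H' f) : Cx.IsMap H.cx H'.cx f :=
  ⟨hf.mem, fun _ => hf.comm _⟩

lemma IsHom.pr {f : H.H →+ H'.H} (hf : IsHom H H' f) (a : C.O) (b : C'.O) (h : H.H) :
    f (H.pr a b h) = H'.pr a b (f h) := by rw [pr_apply, pr_apply, hf.l, hf.r]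

lemma IsHom.mem_cor {f : H.H →+ H'.H} (hf : IsHom H H' f) {a : C.O} {b : C'.O} {n : ℤ} {h : H.H}
    (hh : h ∈ H.cor a b n) : f h ∈ H'.cor a b n := ⟨hf.mem hh.1, by rw [← hf.pr, hh.2]⟩

/-- The shift. -/
@[reducible] def shift (H : Bimod C C') (k : ℤ) : Bimod C C' where
  H := H.H
  gr n := H.gr (n + k)
  d := H.d
  d_mem h := H.mem_cast (H.d_mem h) (by ring)
  d_d := H.d_d
  l_mem hb h := H.mem_cast (H.l_mem hb h) (by ring)
  r_mem hb h := H.mem_cast (H.r_mem hb h) (by ring)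
  d_l := H.d_l
  d_r := H.d_r

/-- The cone. -/
@[reducible] def cone {f : H.H →+ H'.H} (hf : IsHom H H' f) : Bimod C C' where
  H := H.H × H'.H
  gr := (Cx.cone hf.isMap).gr
  d := (Cx.cone hf.isMap).d
  d_mem := (Cx.cone hf.isMap).d_mem
  d_d v := Prod.ext (H.d_d _) (by
    change f (H.d v.1) + H'.d (f v.1 + H'.d v.2) = 0
    rw [map_add, hf.comm, H'.d_d, add_zero, H'.two])
  l_mem hb h := ⟨H.mem_cast (H.l_mem hb h.1) (by ring), H'.l_mem hb h.2⟩
  r_mem hb h := ⟨H.mem_cast (H.r_mem hb h.1) (by ring), H'.r_mem hb h.2⟩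
  d_l b v := Prod.ext (H.d_l b v.1) (by
    change f (b • v.1) + H'.d (b • v.2) = C'.d b • v.2 + b • (f v.1 + H'.d v.2)
    rw [hf.l, H'.d_l, smul_add, add_left_comm])
  d_r b v := Prod.ext (H.d_r b v.1) (by
    change f (op b • v.1) + H'.d (op b • v.2) = op b • (f v.1 + H'.d v.2) + op (C.d b) • v.2
    rw [hf.r, H'.d_r, smul_add, add_assoc])

/-- Matrices with entries in `C'` act on the left on matrices with entries in `H`. -/
def lmul (H : Bimod C C') {I J L : Type} [Fintype J] (g : Matrix L J C'.B) (h : Matrix J I H.H) :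
    Matrix L I H.H := fun i j => ∑ k, g i k • h k j

/-- Matrices with entries in `C` act on the right on matrices with entries in `H`. -/
def rmul (H : Bimod C C') {I J L : Type} [Fintype I] (h : Matrix J I H.H) (f : Matrix I L C.B) :
    Matrix J L H.H := fun i j => ∑ k, op (f k j) • h i k

section
variable (H : Bimod C C') {I J L I' J' : Type}

lemma lmul_add [Fintype J] (g : Matrix L J C'.B) (h h' : Matrix J I H.H) :
    H.lmul g (h + h') = H.lmul g h + H.lmul g h' := by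
  ext i j; simp [lmul, Finset.sum_add_distrib]

lemma add_lmul [Fintype J] (g g' : Matrix L J C'.B) (h : Matrix J I H.H) :
    H.lmul (g + g') h = H.lmul g h + H.lmul g' h := by
  ext i j; simp [lmul, Finset.sum_add_distrib, add_smul]

lemma rmul_add [Fintype I] (h : Matrix J I H.H) (f f' : Matrix I L C.B) :
    H.rmul h (f + f') = H.rmul h f + H.rmul h f' := by
  ext i j; simp [rmul, Finset.sum_add_distrib, add_smul]

lemma add_rmul [Fintype I] (h h' : Matrix J I H.H) (f : Matrix I L C.B) :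
    H.rmul (h + h') f = H.rmul h f + H.rmul h' f := by
  ext i j; simp [rmul, Finset.sum_add_distrib]

@[simp] lemma lmul_zero [Fintype J] (g : Matrix L J C'.B) :
    H.lmul g (0 : Matrix J I H.H) = 0 := by ext i j; simp [lmul]

@[simp] lemma zero_lmul [Fintype J] (h : Matrix J I H.H) :
    H.lmul (0 : Matrix L J C'.B) h = 0 := by ext i j; simp [lmul]

@[simp] lemma rmul_zero [Fintype I] (h : Matrix J I H.H) :
    H.rmul h (0 : Matrix I L C.B) = 0 := by ext i j; simp [rmul]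

@[simp] lemma zero_rmul [Fintype I] (f : Matrix I L C.B) :
    H.rmul (0 : Matrix J I H.H) f = 0 := by ext i j; simp [rmul]

lemma lmul_lmul [Fintype J] [Fintype L] (g' : Matrix J' L C'.B) (g : Matrix L J C'.B)
    (h : Matrix J I H.H) : H.lmul g' (H.lmul g h) = H.lmul (g' * g) h := by
  ext i j
  simp only [lmul, Matrix.mul_apply, Finset.smul_sum, Finset.sum_smul, smul_smul]
  exact Finset.sum_comm

lemma rmul_rmul [Fintype I] [Fintype L] (h : Matrix J I H.H) (f : Matrix I L C.B)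
    (f' : Matrix L I' C.B) : H.rmul (H.rmul h f) f' = H.rmul h (f * f') := by
  ext i j
  simp only [rmul, Matrix.mul_apply, Finset.smul_sum, Finset.op_sum, Finset.sum_smul, smul_smul,
    op_mul]
  exact Finset.sum_comm

lemma lmul_rmul [Fintype I] [Fintype J] (g : Matrix L J C'.B) (h : Matrix J I H.H)
    (f : Matrix I I' C.B) : H.lmul g (H.rmul h f) = H.rmul (H.lmul g h) f := by
  ext i j
  simp only [lmul, rmul, Finset.smul_sum, smul_comm (g _ _)]
  exact Finset.sum_comm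

lemma map_d_lmul [Fintype J] (g : Matrix L J C'.B) (h : Matrix J I H.H) :
    (H.lmul g h).map H.d = H.lmul (g.map C'.d) h + H.lmul g (h.map H.d) := by
  ext i j; simp [lmul, H.d_l, Finset.sum_add_distrib]

lemma map_d_rmul [Fintype I] (h : Matrix J I H.H) (f : Matrix I L C.B) :
    (H.rmul h f).map H.d = H.rmul (h.map H.d) f + H.rmul h (f.map C.d) := by
  ext i j; simp [rmul, H.d_r, Finset.sum_add_distrib]

lemma mat_two (h : Matrix J I H.H) : h + h = 0 := by ext i j; exact H.two _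

end

lemma self_lmul {I J L : Type} [Fintype J] (g : Matrix L J C.B) (h : Matrix J I C.B) :
    C.self.lmul g h = g * h := by ext i j; simp [lmul, Matrix.mul_apply]

lemma self_rmul {I J L : Type} [Fintype I] (h : Matrix J I C.B) (f : Matrix I L C.B) :
    C.self.rmul h f = h * f := by ext i j; simp [rmul, Matrix.mul_apply]

end Bimod

/-- A one-sided twisted complex: the sum of the `ob i` shifted by `deg i`, twisted by `δ`. -/
structure Tw (C : DGR) where
  I : Type
  [fin : Fintype I]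
  [dec : DecidableEq I]
  ob : I → C.O
  deg : I → ℤ
  ht : I → ℕ
  δ : Matrix I I C.B
  δ_mem : ∀ i j, δ i j ∈ C.self.cor (ob j) (ob i) (1 + deg i - deg j)
  δ_ht : ∀ i j, ¬ ht j < ht i → δ i j = 0
  mc : δ.map C.d = δ * δ

attribute [instance] Tw.fin Tw.dec

namespace Bimod
variable {C C' : DGR} (H : Bimod C C')

/-- Matrices of degree `n` from `x` to `y`. -/
def twGr (x : Tw C) (y : Tw C') (n : ℤ) : AddSubgroup (Matrix y.I x.I H.H) where
  carrier := {h | ∀ i j, h i j ∈ H.cor (x.ob j) (y.ob i) (n + y.deg i - x.deg j)}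
  add_mem' hf hg i j := add_mem (hf i j) (hg i j)
  zero_mem' _ _ := zero_mem _
  neg_mem' hf i j := neg_mem (hf i j)

/-- The twisted differential. -/
def twD (x : Tw C) (y : Tw C') : Matrix y.I x.I H.H →+ Matrix y.I x.I H.H :=
  AddMonoidHom.mk' (fun h => h.map H.d + H.lmul y.δ h + H.rmul h x.δ) fun h h' => by
    rw [Matrix.map_add _ H.d.map_add, lmul_add, add_rmul]; abel

lemma twD_apply (x : Tw C) (y : Tw C') (h : Matrix y.I x.I H.H) :
    H.twD x y h = h.map H.d + H.lmul y.δ h + H.rmul h x.δ := rfl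

lemma self_twD (x y : Tw C) (g : Matrix y.I x.I C.B) :
    C.self.twD x y g = g.map C.d + y.δ * g + g * x.δ := by
  rw [← self_lmul, ← self_rmul]; rfl

lemma lmul_mem {x : Tw C} {y z : Tw C'} {m n : ℤ} {g : Matrix z.I y.I C'.B}
    {h : Matrix y.I x.I H.H} (hg : g ∈ C'.self.twGr y z m) (hh : h ∈ H.twGr x y n) :
    H.lmul g h ∈ H.twGr x z (m + n) := fun i j =>
  sum_mem fun k _ => cor_cast (H.l_mem_cor (hg i k) (hh k j)) (by ring)

lemma rmul_mem {w x : Tw C} {y : Tw C'} {m n : ℤ} {f : Matrix x.I w.I C.B}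
    {h : Matrix y.I x.I H.H} (hf : f ∈ C.self.twGr w x m) (hh : h ∈ H.twGr x y n) :
    H.rmul h f ∈ H.twGr w y (n + m) := fun i j =>
  sum_mem fun k _ => cor_cast (H.r_mem_cor (hf k j) (hh i k)) (by ring)

lemma _root_.FMD.Tw.δ_twGr (x : Tw C) : x.δ ∈ C.self.twGr x x 1 := x.δ_mem

lemma twD_twD (x : Tw C) (y : Tw C') (h : Matrix y.I x.I H.H) : H.twD x y (H.twD x y h) = 0 := by
  have h0 : (h.map H.d).map H.d = 0 := by ext i j; exact H.d_d _
  rw [H.twD_apply x y h, map_add, map_add, twD_apply, twD_apply, twD_apply, h0, map_d_lmul,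
    map_d_rmul, x.mc, y.mc, lmul_lmul, rmul_rmul, lmul_rmul]
  have e1 := H.mat_two (H.lmul y.δ (h.map H.d))
  have e2 := H.mat_two (H.rmul (h.map H.d) x.δ)
  have e3 := H.mat_two (H.lmul (y.δ * y.δ) h)
  have e4 := H.mat_two (H.rmul h (x.δ * x.δ))
  have e5 := H.mat_two (H.rmul (H.lmul y.δ h) x.δ)
  linear_combination (norm := abel) e1 + e2 + e3 + e4 + e5

/-- The complex `H(x, y)` for twisted complexes `x`, `y`. -/
@[reducible] def tw (x : Tw C) (y : Tw C') : Cx where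
  V := Matrix y.I x.I H.H
  gr := H.twGr x y
  d := H.twD x y
  two := H.mat_two
  d_mem {n h} hh := add_mem (add_mem (fun i j => cor_cast (H.d_mem_cor (hh i j)) (by ring))
    (add_comm 1 n ▸ H.lmul_mem y.δ_twGr hh)) (H.rmul_mem x.δ_twGr hh)
  d_d _ := H.twD_twD x y _

lemma twD_lmul {x : Tw C} {y z : Tw C'} (g : Matrix z.I y.I C'.B) (h : Matrix y.I x.I H.H) :
    H.twD x z (H.lmul g h) = H.lmul (C'.self.twD y z g) h + H.lmul g (H.twD x y h) := by
  rw [self_twD]
  simp only [twD_apply, map_d_lmul, add_lmul, lmul_add, lmul_lmul, lmul_rmul]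
  have e1 := H.mat_two (H.lmul (g * y.δ) h)
  linear_combination (norm := abel) -e1

lemma twD_rmul {w x : Tw C} {y : Tw C'} (h : Matrix y.I x.I H.H) (f : Matrix x.I w.I C.B) :
    H.twD w y (H.rmul h f) = H.rmul (H.twD x y h) f + H.rmul h (C.self.twD w x f) := by
  rw [self_twD]
  simp only [twD_apply, map_d_rmul, add_rmul, rmul_add, rmul_rmul, lmul_rmul]
  have e1 := H.mat_two (H.rmul h (x.δ * f))
  linear_combination (norm := abel) -e1

/-- The filtration lemma for twisted complexes. -/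
lemma tw_acycAt (x : Tw C) (y : Tw C') (n : ℤ)
    (h : ∀ i j, (H.corCx (x.ob j) (y.ob i)).AcycAt (n + y.deg i - x.deg j)) :
    (H.tw x y).AcycAt n := by
  classical
  obtain ⟨a, ha⟩ := (Set.finite_range x.ht).bddAbove
  obtain ⟨b, hb⟩ := (Set.finite_range y.ht).bddAbove
  have ha' : ∀ j, x.ht j ≤ a := fun j => ha ⟨j, rfl⟩
  have hb' : ∀ i, y.ht i ≤ b := fun i => hb ⟨i, rfl⟩
  refine Cx.acycAt_of_filt _ n (fun k z => ∀ i j, y.ht i + (a - x.ht j) < k → z i j = 0)
    (a + b + 1) (fun _ _ _ _ h => absurd h (by omega))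
    (fun z _ hz => Matrix.ext fun i j => hz i j (by have := hb' i; omega)) ?_
  intro k z hz h0 hF
  have low : ∀ (u : Matrix y.I x.I H.H) (k : ℕ),
      (∀ i j, y.ht i + (a - x.ht j) < k → u i j = 0) →
      ∀ i j, y.ht i + (a - x.ht j) ≤ k → H.twD x y u i j = H.d (u i j) := by
    intro u k hu i j hij
    have e1 : H.lmul y.δ u i j = 0 := Finset.sum_eq_zero fun l _ => by
      by_cases hl : y.ht l < y.ht i
      · rw [hu l j (by omega), smul_zero]
      · rw [y.δ_ht i l hl, zero_smul]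
    have e2 : H.rmul u x.δ i j = 0 := Finset.sum_eq_zero fun l _ => by
      by_cases hl : x.ht j < x.ht l
      · rw [hu i l (by have := ha' l; omega), smul_zero]
      · rw [x.δ_ht l j hl, op_zero, zero_smul]
    rw [twD_apply, Matrix.add_apply, Matrix.add_apply, e1, e2, add_zero, add_zero,
      Matrix.map_apply]
  have key : ∀ i j, ∃ w ∈ H.cor (x.ob j) (y.ob i) (n - 1 + y.deg i - x.deg j),
      (y.ht i + (a - x.ht j) < k → w = 0) ∧ (y.ht i + (a - x.ht j) ≤ k → H.d w = z i j) := by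
    intro i j
    by_cases hij : y.ht i + (a - x.ht j) = k
    · obtain ⟨w, hw, h1⟩ := h i j (z i j) (hz i j)
        ((low z k hF i j hij.le).symm.trans (congrFun (congrFun h0 i) j))
      exact ⟨w, cor_cast hw (by ring), fun h => absurd h (by omega), fun _ => h1⟩
    · exact ⟨0, zero_mem _, fun _ => rfl, fun h => by rw [map_zero, hF i j (by omega)]⟩
  choose w hw h1 h2 using key
  refine ⟨Matrix.of w, hw, fun i j hij => ?_⟩
  change z i j + H.twD x y (Matrix.of w) i j = 0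
  rw [low (Matrix.of w) k h1 i j (by omega), Matrix.of_apply, h2 i j (by omega), H.two]

lemma tw_acyc (h : H.cx.Acyc) (x : Tw C) (y : Tw C') : (H.tw x y).Acyc :=
  fun n => H.tw_acycAt x y n fun _ _ => H.corCx_acycAt (h _) _ _

variable {H} {H' : Bimod C C'}

lemma IsHom.map_lmul {f : H.H →+ H'.H} (hf : IsHom H H' f) {I J L : Type} [Fintype J]
    (g : Matrix L J C'.B) (h : Matrix J I H.H) : (H.lmul g h).map f = H'.lmul g (h.map f) := by
  ext i j; simp [lmul, hf.l]

lemma IsHom.map_rmul {f : H.H →+ H'.H} (hf : IsHom H H' f) {I J L : Type} [Fintype I]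
    (h : Matrix J I H.H) (g : Matrix I L C.B) : (H.rmul h g).map f = H'.rmul (h.map f) g := by
  ext i j; simp [rmul, hf.r]

lemma IsHom.twD {f : H.H →+ H'.H} (hf : IsHom H H' f) (x : Tw C) (y : Tw C')
    (h : Matrix y.I x.I H.H) : H'.twD x y (h.map f) = (H.twD x y h).map f := by
  rw [twD_apply, twD_apply, Matrix.map_add _ f.map_add, Matrix.map_add _ f.map_add, hf.map_lmul,
    hf.map_rmul]
  congr 2
  ext i j; exact hf.comm _

lemma IsHom.tw {f : H.H →+ H'.H} (hf : IsHom H H' f) (x : Tw C) (y : Tw C') :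
    Cx.IsMap (H.tw x y) (H'.tw x y) f.mapMatrix :=
  ⟨fun hh i j => hf.mem_cor (hh i j), fun _ => hf.twD x y _⟩

/-- A quasi-isomorphism of bimodules stays one on twisted complexes. -/
lemma IsHom.tw_qis {f : H.H →+ H'.H} (hf : IsHom H H' f) (h : Cx.Qis H.cx H'.cx f) (x : Tw C)
    (y : Tw C') : Cx.Qis (H.tw x y) (H'.tw x y) f.mapMatrix := by
  have key := (cone hf).tw_acyc ((Cx.qis_iff_cone hf.isMap).1 h) x y
  refine (Cx.qis_iff_cone (hf.tw x y)).2 fun n => Cx.Qis.acyc_right (C := (cone hf).tw x y)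
    (C' := Cx.cone (hf.tw x y)) (f := ((AddMonoidHom.fst H.H H'.H).mapMatrix).prod (AddMonoidHom.snd H.H H'.H).mapMatrix)
    (Cx.Qis.of_bij ⟨fun hv => ⟨fun i j => ⟨H.mem_cast (hv i j).1.1 (by ring),
      congrArg Prod.fst (hv i j).2⟩, fun i j => ⟨(hv i j).1.2, congrArg Prod.snd (hv i j).2⟩⟩,
      fun {n v} _ => ?_⟩ ?_ ?_) (key n)
  · refine Prod.ext (Matrix.ext fun i j => ?_) (Matrix.ext fun i j => ?_)
    · change H.d (v i j).1 + (∑ k, _) + (∑ k, _) = (_ + (∑ k, _) + (∑ k, _) : H.H × H'.H).1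
      simp only [Prod.fst_add, Prod.fst_sum]
      rfl
    · change f (v i j).1 + (H'.d (v i j).2 + (∑ k, _) + (∑ k, _)) =
        (_ + (∑ k, _) + (∑ k, _) : H.H × H'.H).2
      simp only [Prod.snd_add, Prod.snd_sum, ← add_assoc]
      rfl
  · intro n v _ h0
    obtain ⟨h1, h2⟩ := Prod.ext_iff.1 h0
    exact Matrix.ext fun i j => Prod.ext (congrFun (congrFun h1 i) j) (congrFun (congrFun h2 i) j)
  · rintro n ⟨u, v⟩ ⟨hu, hv⟩
    exact ⟨Matrix.of fun i j => (u i j, v i j), fun i j => ⟨⟨H.mem_cast (hu i j).1 (by ring),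
      (hv i j).1⟩, Prod.ext (hu i j).2 (hv i j).2⟩, rfl⟩

end Bimod
end FMD
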