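import Pool.Agent.MP_0e6a9f_ag.H68.Tors

/-! Functors on complexes that act on cochains of every degree; total complexes. -/

set_option backward.isDefEq.respectTransparency false
set_option linter.unusedSectionVars false

open CategoryTheory Limits CochainComplex HomComplex

noncomputable section
namespace FMD

section
variable (K : Type) [Field K] [CharP K 2] {B C E : Type*} [Category B] [Preadditive B] [Linear K B]
  [Category C] [Preadditive C] [Linear K C] [Category E] [Preadditive E] [Linear K E]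

include K in
lemma hom_two {X Y : B} (f : X ⟶ Y) : f + f = 0 := by
  rw [← one_smul K f, ← add_smul, CharTwo.add_self_eq_zero, zero_smul]

include K in
lemma hom_neg {X Y : B} (f : X ⟶ Y) : -f = f := neg_eq_of_add_eq_zero_left (hom_two K f)

include K in
lemma units_smul_hom {X Y : B} (u : ℤˣ) (f : X ⟶ Y) : u • f = f := by
  rcases Int.units_eq_one_or u with rfl | rfl
  · exact one_smul _ _
  · rw [Units.neg_smul, one_smul, hom_neg K]

include K in
lemma δ_v' {X Y : CochainComplex B ℤ} {n : ℤ} (z : Cochain X Y n) (p q : ℤ) (h : p + (n + 1) = q) :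
    (δ n (n + 1) z).v p q h =
      z.v p (p + n) rfl ≫ Y.d (p + n) q + X.d p (p + 1) ≫ z.v (p + 1) q (by omega) := by
  rw [δ_v n (n + 1) rfl z p q h (p + n) (p + 1) (by omega) rfl, units_smul_hom K]

/-- A functor on complexes with a compatible linear action on cochains. -/
structure CF (Φ : CochainComplex B ℤ ⥤ CochainComplex C ℤ) where
  co : ∀ {X Y : CochainComplex B ℤ} (n : ℤ), Cochain X Y n →ₗ[K] Cochain (Φ.obj X) (Φ.obj Y) n
  co_ofHom : ∀ {X Y} (f : X ⟶ Y), co 0 (Cochain.ofHom f) = Cochain.ofHom (Φ.map f)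
  co_comp : ∀ {X Y Z : CochainComplex B ℤ} {a b c : ℤ} (z : Cochain X Y a) (z' : Cochain Y Z b)
    (h : a + b = c), co c (z.comp z' h) = (co a z).comp (co b z') h
  co_δ : ∀ {X Y : CochainComplex B ℤ} (n : ℤ) (z : Cochain X Y n),
    δ n (n + 1) (co n z) = co (n + 1) (δ n (n + 1) z)

variable {K}

/-- The composition. -/
def CF.comp {Φ : CochainComplex B ℤ ⥤ CochainComplex C ℤ}
    {Ψ : CochainComplex C ℤ ⥤ CochainComplex E ℤ} (a : CF K Φ) (b : CF K Ψ) : CF K (Φ ⋙ Ψ) where
  co n := b.co n ∘ₗ a.co n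
  co_ofHom f := (congrArg _ (a.co_ofHom f)).trans (b.co_ofHom _)
  co_comp z z' h := (congrArg _ (a.co_comp z z' h)).trans (b.co_comp _ _ h)
  co_δ n z := (b.co_δ n _).trans (congrArg _ (a.co_δ n z))

end

variable {K G R : Type} [Field K] [CharP K 2] [AddCommGroup G] [DecidableEq G] [CommRing R]
  [Algebra K R] {A : G → Submodule K R} [GradedAlgebra A] {I : HomogeneousIdeal A}
  {B : Type*} [Category B] [Preadditive B] [Linear K B]
  (F : B ⥤ CochainComplex (GrMod A I) ℤ) [F.Additive] [F.Linear K]

/-- The double complex. -/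
abbrev dbl (X : CochainComplex B ℤ) : HomologicalComplex₂ (GrMod A I) (.up ℤ) (.up ℤ) :=
  (F.mapHomologicalComplex (.up ℤ)).obj X

/-- The inclusions into the total complex. -/
abbrev tι (X : CochainComplex B ℤ) (i j p : ℤ) (h : i + j = p) :
    (F.obj (X.X i)).X j ⟶ ((tot F).obj X).X p := (dbl F X).ιTotal (.up ℤ) i j p h

lemma tι_d (X : CochainComplex B ℤ) (i j p q i' : ℤ) (h : i + j = p) (h' : p + 1 = q)
    (hi : i + 1 = i') : tι F X i j p h ≫ ((tot F).obj X).d p q =
      (F.map (X.d i i')).f j ≫ tι F X i' j q (by omega) +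
        (F.obj (X.X i)).d j (j + 1) ≫ tι F X i (j + 1) q (by omega) := by
  subst hi
  change (dbl F X).ιTotal (.up ℤ) i j p h ≫ ((dbl F X).D₁ _ p q + (dbl F X).D₂ _ p q) = _
  rw [Preadditive.comp_add, HomologicalComplex₂.ι_D₁, HomologicalComplex₂.ι_D₂,
    HomologicalComplex₂.d₁_eq _ _ (show (ComplexShape.up ℤ).Rel i (i + 1) from rfl) _ _
      (show i + 1 + j = q by omega),
    HomologicalComplex₂.d₂_eq _ _ _ (show (ComplexShape.up ℤ).Rel j (j + 1) from rfl) _
      (show i + (j + 1) = q by omega), units_smul_hom K, units_smul_hom K]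
  rfl

variable {X Y Z : CochainComplex B ℤ}

/-- The action of `tot F` on cochains. -/
def totCo {n : ℤ} (z : Cochain X Y n) : Cochain ((tot F).obj X) ((tot F).obj Y) n :=
  Cochain.mk fun p q h => (dbl F X).totalDesc fun i j (hij : i + j = p) =>
    (F.map (z.v i (i + n) rfl)).f j ≫ tι F Y (i + n) j q (by omega)

@[reassoc]
lemma tι_totCo {n : ℤ} (z : Cochain X Y n) (i j p q k : ℤ) (h : i + j = p) (h' : p + n = q)
    (hk : i + n = k) : tι F X i j p h ≫ (totCo F z).v p q h' =
      (F.map (z.v i k hk)).f j ≫ tι F Y k j q (by omega) := by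
  subst hk
  exact HomologicalComplex₂.ι_totalDesc (dbl F X) _ _ _ _

lemma tot_ext {p : ℤ} {W : GrMod A I} {f g : ((tot F).obj X).X p ⟶ W}
    (h : ∀ i j (hij : i + j = p), tι F X i j p hij ≫ f = tι F X i j p hij ≫ g) : f = g :=
  HomologicalComplex₂.total.hom_ext (K := dbl F X) _ h

/-- `tot F` acts on cochains. -/
def totCF : CF K (tot F) where
  co n :=
    { toFun := totCo F
      map_add' z z' := Cochain.ext _ _ fun p q h => tot_ext F fun i j hij => by
        simp [tι_totCo F _ i j p q _ hij h rfl]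
      map_smul' c z := Cochain.ext _ _ fun p q h => tot_ext F fun i j hij => by
        simp [tι_totCo F _ i j p q _ hij h rfl] }
  co_ofHom f := Cochain.ext₀ _ _ fun p => tot_ext F fun i j hij => by
    refine (tι_totCo F _ i j p p i hij _ (add_zero i)).trans ?_
    rw [Cochain.ofHom_v, Cochain.ofHom_v]
    exact (HomologicalComplex₂.ιTotal_map (dbl F _) (dbl F _)
      ((F.mapHomologicalComplex _).map f) _ i j p hij).symm
  co_comp {_ _ _ a b c} z z' h := Cochain.ext _ _ fun p q hpq => tot_ext F fun i j hij => by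
    refine (tι_totCo F _ i j p q (i + c) hij _ rfl).trans ?_
    change _ = _ ≫ ((totCo F z).comp (totCo F z') h).v p q hpq
    rw [Cochain.comp_v _ _ h p (p + a) q rfl (by omega),
      Cochain.comp_v _ _ h i (i + a) (i + c) rfl (by omega),
      tι_totCo_assoc F _ i j p _ (i + a) hij _ rfl,
      tι_totCo F _ (i + a) j _ q (i + c) _ _ (by omega), F.map_comp, HomologicalComplex.comp_f,
      Category.assoc]
  co_δ n z := Cochain.ext _ _ fun p q hpq => tot_ext F fun i j hij => by
    refine Eq.trans ?_ (tι_totCo F _ i j p q (i + (n + 1)) hij _ rfl).symm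
    change _ ≫ (δ n (n + 1) (totCo F z)).v p q hpq = _
    rw [δ_v' K, δ_v' K, Preadditive.comp_add, tι_totCo_assoc F _ i j p _ (i + n) hij _ rfl,
      tι_d F _ _ _ _ _ (i + (n + 1)) _ (by omega) (by omega), ← Category.assoc,
      tι_d F _ _ _ _ _ _ _ rfl rfl,
      Preadditive.add_comp, Category.assoc, Category.assoc,
      tι_totCo F _ (i + 1) j _ q (i + (n + 1)) _ _ (by omega),
      tι_totCo F _ i (j + 1) _ q (i + n) _ _ rfl, Preadditive.comp_add,
      HomologicalComplex.Hom.comm_assoc, add_add_add_comm, hom_two K, add_zero, F.map_add,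
      F.map_comp, F.map_comp, HomologicalComplex.add_f_apply, Preadditive.add_comp,
      HomologicalComplex.comp_f, HomologicalComplex.comp_f, Category.assoc, Category.assoc]

/-- The Fourier-Mukai functor on complexes acts on cochains. -/
def phiCF {X Y : MP K} (E : CochainComplex (MP.prod X Y).Gr ℤ) : CF K (MP.phi E) :=
  (totCF (MP.tensCx E)).comp (totCF MP.push)

end FMD
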