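import Pool.Agent.MP_0e6a9f_ag.H36.Hon
import Pool.Agent.MP_0e6a9f_ag.H36.Tot
import Pool.Agent.MP_0e6a9f_ag.H32.GrKit

/-! From differential modules to complexes of graded modules and back. -/

set_option backward.isDefEq.respectTransparency false
set_option linter.unusedSectionVars false

open CategoryTheory Limits CochainComplex HomComplex DirectSum

noncomputable section
namespace FMD
open DG

variable {K G R : Type} [Field K] [CharP K 2] [AddCommGroup G] [DecidableEq G] [CommRing R]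
  [Algebra K R] {A : G → Submodule K R} [GradedAlgebra A] {I : HomogeneousIdeal A}
  {L M N P : DG A}

/-- Killed by `I`. -/
abbrev KI (I : HomogeneousIdeal A) (M : DG A) : Prop := Kill (I.toIdeal : Set R) M

/-- The linear map underlying a morphism of graded modules. -/
def ap {X Y : GrMod A I} (f : X ⟶ Y) : X.obj.M →ₗ[R] Y.obj.M := f.hom.1

lemma ap_mem {X Y : GrMod A I} (f : X ⟶ Y) {g : G} {m : X.obj.M} (h : m ∈ X.obj.gr g) :
    ap f m ∈ Y.obj.gr g := f.hom.2 g m h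

@[simp] lemma ap_comp {X Y Z : GrMod A I} (f : X ⟶ Y) (g : Y ⟶ Z) (m : X.obj.M) :
    ap (f ≫ g) m = ap g (ap f m) := rfl

@[simp] lemma ap_add {X Y : GrMod A I} (f g : X ⟶ Y) (m : X.obj.M) :
    ap (f + g) m = ap f m + ap g m := rfl

@[simp] lemma ap_zero {X Y : GrMod A I} (m : X.obj.M) : ap (0 : X ⟶ Y) m = 0 := rfl

@[simp] lemma ap_id {X : GrMod A I} (m : X.obj.M) : ap (𝟙 X) m = m := rfl

@[simp] lemma ap_smul {X Y : GrMod A I} (c : K) (f : X ⟶ Y) (m : X.obj.M) :
    ap (c • f) m = algebraMap K R c • ap f m := rfl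

section toCx
variable (hL : KI I L) (hM : KI I M) (hN : KI I N) (hP : KI I P)

/-- The part of cohomological degree `n`. -/
def slice (n : ℤ) : Pre A I where
  M := M.M
  gr g := M.gr g n
  smul_mem := M.smul_mem
  kill := hM

/-- A homogeneous element as an element of the external sum. -/
def inc {g : G} {n : ℤ} (m : M.M) (h : m ∈ M.gr g n) : (sumObj (slice hM n)).obj.M :=
  of (fun d => (slice hM n).gr d) g ⟨m, h⟩

/-- The sum map. -/
def evs (n : ℤ) : (sumObj (slice hM n)).obj.M →ₗ[R] M.M := (eps (slice hM n)).1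

@[simp] lemma ev_inc {g : G} {n : ℤ} (m : M.M) (h : m ∈ M.gr g n) : evs hM n (inc hM m h) = m :=
  eps_of (slice hM n) g ⟨m, h⟩

lemma inc_mem {g : G} {n : ℤ} (m : M.M) (h : m ∈ M.gr g n) :
    inc hM m h ∈ (sumObj (slice hM n)).obj.gr g := ⟨_, rfl⟩

lemma exists_inc {g : G} {n : ℤ} {u : (sumObj (slice hM n)).obj.M}
    (hu : u ∈ (sumObj (slice hM n)).obj.gr g) : ∃ m h, inc hM (g := g) m h = u :=
  let ⟨m, e⟩ := hu
  ⟨m.1, m.2, e⟩

lemma evs_inj {g : G} {n : ℤ} {u v : (sumObj (slice hM n)).obj.M}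
    (hu : u ∈ (sumObj (slice hM n)).obj.gr g) (hv : v ∈ (sumObj (slice hM n)).obj.gr g)
    (h : evs hM n u = evs hM n v) : u = v := by
  obtain ⟨m, hm, rfl⟩ := exists_inc hM hu
  obtain ⟨m', hm', rfl⟩ := exists_inc hM hv
  obtain rfl : m = m' := by simpa using h
  rfl

lemma sl_ext' {i : ℤ} {W : GrMod A I} {φ ψ : sumObj (slice hM i) ⟶ W}
    (h : ∀ g m (hm : m ∈ M.gr g i), ap φ (inc hM m hm) = ap ψ (inc hM m hm)) : φ = ψ :=
  ObjectProperty.hom_ext _ (sum_ext fun g m => h g m.1 m.2)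

lemma sl_ext {i j : ℤ} {φ ψ : sumObj (slice hM i) ⟶ sumObj (slice hN j)}
    (h : ∀ g m (hm : m ∈ M.gr g i),
      evs hN j (ap φ (inc hM m hm)) = evs hN j (ap ψ (inc hM m hm))) : φ = ψ :=
  sl_ext' hM fun g m hm => evs_inj hN (ap_mem φ (inc_mem hM m hm))
    (ap_mem ψ (inc_mem hM m hm)) (h g m hm)

/-- The component of a linear map. -/
def cmp (f : M.M →ₗ[R] N.M) {i j : ℤ} (h : ∀ g m, m ∈ M.gr g i → f m ∈ N.gr g j) :
    sumObj (slice hM i) ⟶ sumObj (slice hN j) := sumF.map (⟨f, h⟩ : slice hM i ⟶ slice hN j)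

@[simp] lemma cmp_inc (f : M.M →ₗ[R] N.M) {i j : ℤ} (h : ∀ g m, m ∈ M.gr g i → f m ∈ N.gr g j)
    {g : G} (m : M.M) (hm : m ∈ M.gr g i) :
    ap (cmp hM hN f h) (inc hM m hm) = inc hN (f m) (h g m hm) := sumMap_of _ _ _

lemma ev_cmp (f : M.M →ₗ[R] N.M) {i j : ℤ} (h : ∀ g m, m ∈ M.gr g i → f m ∈ N.gr g j) (u) :
    evs hN j (ap (cmp hM hN f h) u) = f (evs hM i u) :=
  congr(($(eps_nat (⟨f, h⟩ : slice hM i ⟶ slice hN j))).1 u)

/-- The complex of graded modules of a differential module. -/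
@[reducible] def toCx : CochainComplex (GrMod A I) ℤ where
  X n := sumObj (slice hM n)
  d i j := if h : i + 1 = j then cmp hM hM M.d fun _ _ hm => h ▸ M.d_mem hm else 0
  shape _ _ h := dif_neg h
  d_comp_d' i j k h h' := by
    rw [dif_pos (show i + 1 = j from h), dif_pos (show j + 1 = k from h')]
    exact sl_ext hM hM fun g m hm => by simp [M.d_d]

lemma toCx_d {i j : ℤ} (h : i + 1 = j) :
    (toCx hM).d i j = cmp hM hM M.d fun _ _ hm => h ▸ M.d_mem hm := dif_pos h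

lemma XIso_eq {i j : ℤ} (h : i = j) :
    ((toCx hM).XIsoOfEq h).hom = cmp hM hM LinearMap.id fun _ _ hm => h ▸ hm := by
  subst h
  exact sl_ext hM hM fun g m hm => by simp

variable {n : ℤ} {f f' : M.M →ₗ[R] N.M}

/-- The cochain of a homogeneous map. -/
def toCo (hf : f ∈ deg M N 0 n) : Cochain (toCx hM) (toCx hN) n :=
  Cochain.mk fun p _ h => cmp hM hN f fun g m hm => mem_cast (hf g p m hm) (zero_add g) h

lemma toCo_v (hf : f ∈ deg M N 0 n) (p q : ℤ) (h : p + n = q) : (toCo hM hN hf).v p q h =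
    cmp hM hN f fun g m hm => mem_cast (hf g p m hm) (zero_add g) h := rfl

lemma toCo_add (hf : f ∈ deg M N 0 n) (hf' : f' ∈ deg M N 0 n) :
    toCo hM hN (add_mem hf hf') = toCo hM hN hf + toCo hM hN hf' :=
  Cochain.ext _ _ fun p q h => sl_ext hM hN fun g m hm => by simp [toCo_v]

lemma toCo_smul (c : K) (hf : f ∈ deg M N 0 n) (h) :
    toCo hM hN (f := algebraMap K R c • f) h = c • toCo hM hN hf :=
  Cochain.ext _ _ fun p q h => sl_ext hM hN fun g m hm => by simp [toCo_v]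

lemma toCo_comp {k l : ℤ} {g : N.M →ₗ[R] P.M} (hf : f ∈ deg M N 0 n) (hg : g ∈ deg N P 0 k)
    (e : n + k = l) (h : g ∘ₗ f ∈ deg M P 0 l) :
    toCo hM hP h = (toCo hM hN hf).comp (toCo hN hP hg) e :=
  Cochain.ext _ _ fun p q h => by
    rw [Cochain.comp_v _ _ e p (p + n) q rfl (by omega)]
    exact sl_ext hM hP fun g m hm => by simp [toCo_v]

lemma δ_toCo (hf : f ∈ deg M N 0 n) (h) :
    δ n (n + 1) (toCo hM hN hf) = toCo hM hN (f := homD M N f) h :=
  Cochain.ext _ _ fun p q h => by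
    rw [δ_v' K, toCx_d hN (by omega), toCx_d hM rfl]
    exact sl_ext hM hN fun g m hm => by simp [toCo_v, homD_apply]

lemma toCo_inj (h : M.Span) (hf : f ∈ deg M N 0 n) (hf' : f' ∈ deg M N 0 n)
    (e : toCo hM hN hf = toCo hM hN hf') : f = f' := h.ext fun g p m hm => by
  simpa [toCo_v] using congr(evs hN _ (ap $(Cochain.congr_v e p _ rfl) (inc hM m hm)))

/-- The chain map of a closed map. -/
def toMap (hf : IsHom M N f) : toCx hM ⟶ toCx hN where
  f _ := cmp hM hN f fun _ _ hm => hf.mem hm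
  comm' i j h := by
    rw [toCx_d hM h, toCx_d hN h]
    exact sl_ext hM hN fun g m hm => by simp [hf.comm]

lemma toMap_f (hf : IsHom M N f) (i : ℤ) :
    (toMap hM hN hf).f i = cmp hM hN f fun _ _ hm => hf.mem hm := rfl

lemma ofHom_toMap (hf : IsHom M N f) : Cochain.ofHom (toMap hM hN hf) = toCo hM hN hf.deg :=
  Cochain.ext₀ _ _ fun _ => Cochain.ofHom_v _ _

lemma toMap_id : toMap hM hM (IsHom.id M) = 𝟙 _ :=
  HomologicalComplex.hom_ext _ _ fun i => sl_ext hM hM fun g m hm => by simp [toMap_f]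

lemma toMap_comp {g : N.M →ₗ[R] P.M} (hf : IsHom M N f) (hg : IsHom N P g) :
    toMap hM hP (hg.comp hf) = toMap hM hN hf ≫ toMap hN hP hg :=
  HomologicalComplex.hom_ext _ _ fun i => sl_ext hM hP fun g m hm => by simp [toMap_f]

lemma toMap_add (hf : IsHom M N f) (hf' : IsHom M N f') :
    toMap hM hN (hf.add hf') = toMap hM hN hf + toMap hM hN hf' :=
  HomologicalComplex.hom_ext _ _ fun i => sl_ext hM hN fun g m hm => by simp [toMap_f]

lemma toMap_smul (c : K) (hf : IsHom M N f) (h : IsHom M N (algebraMap K R c • f)) :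
    toMap hM hN h = c • toMap hM hN hf :=
  HomologicalComplex.hom_ext _ _ fun i => sl_ext hM hN fun g m hm => by simp [toMap_f]

lemma toMap_congr (hf : IsHom M N f) (hf' : IsHom M N f') (e : f = f') :
    toMap hM hN hf = toMap hM hN hf' := by subst e; rfl

end toCx

section ofCx
variable {X Y Z : CochainComplex (GrMod A I) ℤ} {n : ℤ}

/-- The inclusion of the term of degree `p`. -/
abbrev tin (X : CochainComplex (GrMod A I) ℤ) (p : ℤ) :
    (X.X p).obj.M →ₗ[R] ⨁ n, (X.X n).obj.M := lof R ℤ (fun n => (X.X n).obj.M) p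

/-- The linear map of a cochain. -/
def ofCo (z : Cochain X Y n) : (⨁ n, (X.X n).obj.M) →ₗ[R] ⨁ n, (Y.X n).obj.M :=
  toModule R _ _ fun p => tin Y (p + n) ∘ₗ ap (z.v p (p + n) rfl)

lemma ofCo_tin (z : Cochain X Y n) (p q : ℤ) (h : p + n = q) (m : (X.X p).obj.M) :
    ofCo z (tin X p m) = tin Y q (ap (z.v p q h) m) := by
  subst h
  exact toModule_lof R (M := fun n => (X.X n).obj.M) p m

/-- The projection to the term of degree `p`. -/
abbrev tout (X : CochainComplex (GrMod A I) ℤ) (p : ℤ) :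
    (⨁ n, (X.X n).obj.M) →ₗ[R] (X.X p).obj.M := component R ℤ (fun n => (X.X n).obj.M) p

lemma tout_tin (p : ℤ) (m : (X.X p).obj.M) : tout X p (tin X p m) = m :=
  component.lof_self (M := fun n => (X.X n).obj.M) R p m

lemma tin_ext {V : Type} [AddCommGroup V] [Module R V] {f g : (⨁ n, (X.X n).obj.M) →ₗ[R] V}
    (h : ∀ p m, f (tin X p m) = g (tin X p m)) : f = g :=
  linearMap_ext R fun p => LinearMap.ext (h p)

/-- The differential module of a complex. -/
@[reducible] def ofCx (X : CochainComplex (GrMod A I) ℤ) : DG A where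
  M := ⨁ n, (X.X n).obj.M
  gr g n := ((X.X n).obj.gr g).map (tin X n).toAddMonoidHom
  smul_mem := by
    rintro a g n r _ hr ⟨m, hm, rfl⟩
    exact ⟨r • m, (X.X n).obj.smul_mem hr hm, (tin X n).map_smul r m⟩
  d := ofCo (Cochain.diff X)
  d_mem := by
    rintro g n _ ⟨m, hm, rfl⟩
    exact ⟨_, ap_mem (X.d n (n + 1)) hm, (ofCo_tin (Cochain.diff X) n _ rfl m).symm⟩
  d_d := LinearMap.congr_fun (tin_ext (f := ofCo (Cochain.diff X) ∘ₗ ofCo (Cochain.diff X)) (g := 0)
    fun p m => by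
      rw [LinearMap.comp_apply, ofCo_tin _ p _ rfl, ofCo_tin _ _ _ rfl, Cochain.diff_v,
        Cochain.diff_v, ← ap_comp, X.d_comp_d, ap_zero, map_zero, LinearMap.zero_apply])

lemma ofCx_d (p q : ℤ) (h : p + 1 = q) (m : (X.X p).obj.M) :
    (ofCx X).d (tin X p m) = tin X q (ap (X.d p q) m) := ofCo_tin _ p q h m

lemma ki_ofCx (X : CochainComplex (GrMod A I) ℤ) : KI I (ofCx X) := fun r hr _ =>
  DFinsupp.ext fun n => (X.X n).obj.kill r hr _

lemma hon_ofCx (X : CochainComplex (GrMod A I) ℤ) : (ofCx X).Hon where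
  span m := by
    induction m using DirectSum.induction_on with
    | zero => exact zero_mem _
    | add x y hx hy => exact add_mem hx hy
    | of n m =>
      induction m using FMX.gr_ind (X.X n).property with
      | zero => rw [map_zero]; exact zero_mem _
      | add x y hx hy => rw [map_add]; exact add_mem hx hy
      | hom g m hm => exact AddSubgroup.mem_iSup_of_mem (g, n) ⟨m, hm, rfl⟩
  ind := ind_of_proj (fun p => (tin X p.2).toAddMonoidHom.comp ((FMX.pr (X.X p.2) p.1).comp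
    (tout X p.2).toAddMonoidHom))
    (by
      rintro ⟨g, n⟩ _ ⟨m, hm, rfl⟩
      change tin X n (FMX.pr _ g (tout X n (tin X n m))) = tin X n m
      rw [tout_tin, FMX.prj_same _ hm])
    (by
      rintro ⟨g, n⟩ ⟨g', n'⟩ hne _ ⟨m, hm, rfl⟩
      change tin X n (FMX.pr _ g (tout X n (tin X n' m))) = 0
      by_cases h : n' = n
      · subst h
        rw [tout_tin, FMX.prj_ne _ hm fun e => hne (Prod.ext e rfl), map_zero]
      · rw [component.of, dif_neg h, map_zero, map_zero])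

lemma ofCo_deg (z : Cochain X Y n) : ofCo z ∈ deg (ofCx X) (ofCx Y) 0 n := by
  rintro g p _ ⟨m, hm, rfl⟩
  exact ⟨_, (zero_add g).symm ▸ ap_mem (z.v p _ rfl) hm, (ofCo_tin _ p _ rfl m).symm⟩

lemma ofCo_add (z z' : Cochain X Y n) : ofCo (z + z') = ofCo z + ofCo z' :=
  tin_ext fun p m => by simp [ofCo_tin _ p _ rfl]

lemma ofCo_smul (c : K) (z : Cochain X Y n) : ofCo (c • z) = algebraMap K R c • ofCo z :=
  tin_ext fun p m => by simp [ofCo_tin _ p _ rfl]

lemma ofCo_comp {k l : ℤ} (z : Cochain X Y n) (z' : Cochain Y Z k) (e : n + k = l) :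
    ofCo (z.comp z' e) = ofCo z' ∘ₗ ofCo z := tin_ext fun p m => by
  rw [LinearMap.comp_apply, ofCo_tin _ p _ rfl, ofCo_tin _ p _ rfl,
    ofCo_tin _ (p + n) (p + l) (by omega), Cochain.comp_v _ _ e p (p + n) _ rfl (by omega), ap_comp]

lemma ofCo_id : ofCo (Cochain.ofHom (𝟙 X)) = LinearMap.id := tin_ext fun p m => by
  rw [ofCo_tin _ p p (add_zero p), Cochain.ofHom_v]; rfl

lemma ofCo_δ (z : Cochain X Y n) : homD (ofCx X) (ofCx Y) (ofCo z) = ofCo (δ n (n + 1) z) :=
  tin_ext fun p m => by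
    rw [ofCo_tin _ p _ rfl, δ_v' K, ap_add, map_add, ap_comp, ap_comp,
      ← ofCx_d _ _ (by omega), ← ofCo_tin, ← ofCo_tin, ← ofCx_d _ _ rfl]
    rfl

lemma ofCo_isHom (φ : X ⟶ Y) : IsHom (ofCx X) (ofCx Y) (ofCo (Cochain.ofHom φ)) :=
  isHom_of (ofCo_deg _) (by
    rw [ofCo_δ, δ_ofHom]
    exact tin_ext fun p m => by simp [ofCo_tin _ p _ rfl])

/-- The comparison map in degree `p`. -/
def kap (X : CochainComplex (GrMod A I) ℤ) (p : ℤ) : (toCx (ki_ofCx X)).X p ⟶ X.X p :=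
  FMX.mkHom (tout X p ∘ₗ evs (ki_ofCx X) p) fun g u hu => by
    obtain ⟨_, ⟨m, hm, rfl⟩, rfl⟩ := exists_inc _ hu
    rw [LinearMap.comp_apply, ev_inc]
    exact (tout_tin p m).symm ▸ hm

lemma kap_inc {p : ℤ} {g : G} (m : (X.X p).obj.M) (h : tin X p m ∈ (ofCx X).gr g p) :
    ap (kap X p) (inc (ki_ofCx X) _ h) = m :=
  (congrArg (tout X p) (ev_inc _ _ h)).trans (tout_tin p m)

instance (p : ℤ) : IsIso (kap X p) := by
  have key : ∀ u, (sumMap (⟨tin X p, fun g m hm => ⟨m, hm, rfl⟩⟩ :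
      (X.X p).obj ⟶ slice (ki_ofCx X) p)).1 ((inv (eps (X.X p).obj)).1 (ap (kap X p) u)) = u := by
    intro u
    induction u using FMX.gr_ind ((toCx (ki_ofCx X)).X p).property with
    | zero => simp
    | add x y hx hy => simp only [map_add, hx, hy]
    | hom g u hu =>
      obtain ⟨_, ⟨m, hm, rfl⟩, rfl⟩ := exists_inc _ hu
      have : (inv (eps (X.X p).obj)).1 m = of (fun d => (X.X p).obj.gr d) g ⟨m, hm⟩ := by
        conv_lhs => rw [← show _ = m from eps_of (X.X p).obj g ⟨m, hm⟩]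
        exact congr(($(IsIso.hom_inv_id (eps (X.X p).obj))).1 _)
      exact (congrArg _ ((congrArg _ (kap_inc m _)).trans this)).trans (sumMap_of _ _ _)
  refine FMX.isIso_of_bij _ ⟨fun u v (e : ap _ u = ap _ v) => by rw [← key u, e, key], fun m => ?_⟩
  induction m using FMX.gr_ind (X.X p).property with
  | zero => exact ⟨0, map_zero _⟩
  | add x y hx hy =>
    obtain ⟨a, rfl⟩ := hx
    obtain ⟨b, rfl⟩ := hy
    exact ⟨a + b, map_add _ _ _⟩
  | hom g m hm => exact ⟨_, kap_inc m ⟨m, hm, rfl⟩⟩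

lemma toCo_ofCo_kap (z : Cochain X Y n) (p q : ℤ) (h : p + n = q) :
    (toCo (ki_ofCx X) (ki_ofCx Y) (ofCo_deg z)).v p q h ≫ kap Y q = kap X p ≫ z.v p q h :=
  sl_ext' _ (by
    rintro g _ ⟨m, hm, rfl⟩
    rw [ap_comp, ap_comp, toCo_v, cmp_inc]
    refine Eq.trans ?_ (congrArg _ (kap_inc m _).symm)
    exact (congrArg (tout Y q) ((ev_inc (ki_ofCx Y) _ _).trans (ofCo_tin z p q h m))).trans
      (tout_tin q _))

/-- `toCx (ofCx X) ≅ X`. -/
def kapIso (X : CochainComplex (GrMod A I) ℤ) : toCx (ki_ofCx X) ≅ X :=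
  HomologicalComplex.Hom.isoOfComponents (fun p => asIso (kap X p)) fun p q h => by
    rw [toCx_d _ h]
    exact (toCo_ofCo_kap (Cochain.diff X) p q h).symm

lemma kapIso_nat (φ : X ⟶ Y) :
    toMap _ _ (ofCo_isHom φ) ≫ (kapIso Y).hom = (kapIso X).hom ≫ φ :=
  HomologicalComplex.hom_ext _ _ fun p =>
    (toCo_ofCo_kap (Cochain.ofHom φ) p p (add_zero p)).trans (by rw [Cochain.ofHom_v]; rfl)

end ofCx

section lift
variable (hM : KI I M) (hN : KI I N)

/-- The sum map `ofCx (toCx M) → M`. -/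
def epsM : (ofCx (toCx hM)).M →ₗ[R] M.M := toModule R _ _ fun n => evs hM n

lemma epsM_tin (p : ℤ) (u : ((toCx hM).X p).obj.M) : epsM hM (tin (toCx hM) p u) = evs hM p u :=
  toModule_lof R (M := fun n => ((toCx hM).X n).obj.M) p u

lemma epsM_bij (h : M.Hon) : Function.Bijective (epsM hM) := by
  refine ⟨(injective_iff_map_eq_zero _).2 fun u hu => ?_, fun m => ?_⟩
  · obtain ⟨s, v, hv, rfl, -⟩ := exists_sum_of_mem_iSup ((hon_ofCx _).span u)
    have := h.ind s (fun p => epsM hM (v p)) (fun p _ => by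
      obtain ⟨w, hw, e⟩ := hv p
      obtain ⟨m, hm, rfl⟩ := exists_inc hM hw
      rw [← e]
      exact ((epsM_tin hM _ _).trans (ev_inc hM m hm)).symm ▸ hm) (by rw [← map_sum, hu])
    refine Finset.sum_eq_zero fun p hp => ?_
    obtain ⟨w, hw, e⟩ := hv p
    have h0 := this p hp
    rw [← e] at h0 ⊢
    rw [evs_inj hM hw (zero_mem _) (((epsM_tin hM _ _).symm.trans h0).trans (map_zero _).symm)]
    exact map_zero _
  · induction h.span m using AddSubgroup.iSup_induction' with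
    | hp p m hm => exact ⟨_, (epsM_tin hM _ _).trans (ev_inc hM m hm)⟩
    | h1 => exact ⟨0, map_zero _⟩
    | hadd x y _ _ hx hy =>
      obtain ⟨a, rfl⟩ := hx
      obtain ⟨b, rfl⟩ := hy
      exact ⟨a + b, map_add _ _ _⟩

lemma exists_toCo (h : M.Hon) {n : ℤ} (z : Cochain (toCx hM) (toCx hN) n) :
    ∃ f, ∃ hf : f ∈ deg M N 0 n, toCo hM hN hf = z := by
  let e := LinearEquiv.ofBijective _ (epsM_bij hM h)
  have key : ∀ g p m (hm : m ∈ M.gr g p) q (hq : p + n = q),
      (epsM hN ∘ₗ ofCo z ∘ₗ e.symm.toLinearMap) m =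
      evs hN q (ap (z.v p q hq) (inc hM m hm)) := fun g p m hm q hq => by
    have : e.symm m = tin (toCx hM) p (inc hM m hm) :=
      e.symm_apply_eq.2 ((epsM_tin hM _ _).trans (ev_inc hM m hm)).symm
    change epsM hN (ofCo z (e.symm m)) = _
    rw [this, ofCo_tin z p q hq, epsM_tin]
  refine ⟨epsM hN ∘ₗ ofCo z ∘ₗ e.symm.toLinearMap, fun g p m hm => ?_, Cochain.ext _ _ fun p q hq =>
    sl_ext hM hN fun g m hm => by rw [toCo_v, cmp_inc, ev_inc, key g p m hm q hq]⟩
  obtain ⟨m', hm', e'⟩ := exists_inc hN (ap_mem (z.v p _ rfl) (inc_mem hM m hm))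
  rw [key g p m hm _ rfl, ← e', ev_inc, zero_add]
  exact hm'

lemma exists_toMap (h : M.Hon) (φ : toCx hM ⟶ toCx hN) :
    ∃ f, ∃ hf : IsHom M N f, toMap hM hN hf = φ := by
  obtain ⟨f, hf, e⟩ := exists_toCo hM hN h (Cochain.ofHom φ)
  have hf' : IsHom M N f := isHom_of hf (toCo_inj hM hN h.span ((hom M N).d_mem hf) (zero_mem _) (by
    rw [← δ_toCo hM hN hf, e, δ_ofHom]
    exact Cochain.ext _ _ fun p q _ => sl_ext hM hN fun g m hm => by simp [toCo_v]))
  exact ⟨f, hf', Cochain.ofHom_injective ((ofHom_toMap hM hN hf').trans e)⟩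

variable {f : M.M →ₗ[R] N.M} (hf : IsHom M N f)

lemma quot_eq_zero (h : (hom M N).Bd 0 f) :
    (HomotopyCategory.quotient _ _).map (toMap hM hN hf) = 0 := by
  obtain ⟨s, hs, e⟩ := h
  rw [← (HomotopyCategory.quotient _ _).map_zero]
  refine HomotopyCategory.eq_of_homotopy _ _ ((Cochain.equivHomotopy _ _).symm
    ⟨toCo hM hN (n := -1) hs, ?_⟩)
  rw [Cochain.ofHom_zero, add_zero, ofHom_toMap]
  subst e
  exact (δ_toCo hM hN (n := -1) hs _).symm

lemma bd_of_quot_eq_zero (h : M.Hon)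
    (e : (HomotopyCategory.quotient _ _).map (toMap hM hN hf) = 0) : (hom M N).Bd 0 f := by
  rw [← (HomotopyCategory.quotient _ _).map_zero] at e
  obtain ⟨z, hz⟩ := Cochain.equivHomotopy _ _ (HomotopyCategory.homotopyOfEq _ _ e)
  obtain ⟨s, hs, rfl⟩ := exists_toCo hM hN h z
  rw [Cochain.ofHom_zero, add_zero, ofHom_toMap] at hz
  exact ⟨s, hs, toCo_inj hM hN h.span (n := 0) ((hom M N).d_mem hs) hf.deg
    ((δ_toCo hM hN (n := -1) hs _).symm.trans hz.symm)⟩

end lift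
end FMD
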