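import Mathlib

/-! Complexes of abelian groups of exponent 2 whose grading is only a family of subgroups. -/

noncomputable section
namespace FMD

/-- An abelian group of exponent 2 with subgroups `gr n` and a differential. -/
structure Cx where
  V : Type
  [acg : AddCommGroup V]
  gr : ℤ → AddSubgroup V
  d : V →+ V
  two : ∀ v : V, v + v = 0
  d_mem : ∀ {n v}, v ∈ gr n → d v ∈ gr (n + 1)
  d_d : ∀ {n v}, v ∈ gr n → d (d v) = 0

attribute [instance] Cx.acg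

namespace Cx

variable {C C' C'' : Cx}

lemma add_add_cancel (C : Cx) (a b : C.V) : a + (a + b) = b := by
  rw [← add_assoc, C.two, zero_add]

lemma add_add_cancel' (C : Cx) (a b : C.V) : a + b + b = a := by
  rw [add_assoc, C.two, add_zero]

lemma eq_of_add (C : Cx) {a b : C.V} (h : a + b = 0) : a = b := by
  rw [← C.add_add_cancel' a b, h, zero_add]

lemma add_eq_zero_iff (C : Cx) {a b : C.V} : a + b = 0 ↔ a = b :=
  ⟨C.eq_of_add, fun h => h ▸ C.two a⟩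

lemma mem_cast {m n : ℤ} {v : C.V} (hv : v ∈ C.gr m) (h : m = n) : v ∈ C.gr n := h ▸ hv

lemma d_mem' {n : ℤ} {v : C.V} (hv : v ∈ C.gr (n - 1)) : C.d v ∈ C.gr n :=
  mem_cast (C.d_mem hv) (by ring)

/-- `z` is the boundary of an element of degree `n - 1`. -/
def Bd (C : Cx) (n : ℤ) (z : C.V) : Prop := ∃ w ∈ C.gr (n - 1), C.d w = z

/-- No cohomology in degree `n`. -/
def AcycAt (C : Cx) (n : ℤ) : Prop := ∀ z ∈ C.gr n, C.d z = 0 → C.Bd n z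

/-- No cohomology. -/
def Acyc (C : Cx) : Prop := ∀ n, C.AcycAt n

lemma Bd.zero (n : ℤ) : C.Bd n 0 := ⟨0, zero_mem _, map_zero _⟩

lemma Bd.add {n : ℤ} {a b : C.V} (ha : C.Bd n a) (hb : C.Bd n b) : C.Bd n (a + b) := by
  obtain ⟨u, hu, rfl⟩ := ha
  obtain ⟨v, hv, rfl⟩ := hb
  exact ⟨u + v, add_mem hu hv, map_add _ _ _⟩

lemma Bd.mem {n : ℤ} {a : C.V} (ha : C.Bd n a) : a ∈ C.gr n := by
  obtain ⟨u, hu, rfl⟩ := ha
  exact d_mem' hu

lemma Bd.d_eq {n : ℤ} {a : C.V} (ha : C.Bd n a) : C.d a = 0 := by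
  obtain ⟨u, hu, rfl⟩ := ha
  exact C.d_d hu

lemma Bd.of_add {n : ℤ} {a b : C.V} (h : C.Bd n (a + b)) (hb : C.Bd n b) : C.Bd n a := by
  simpa [C.add_add_cancel'] using h.add hb

/-- A chain map of degree 0. -/
structure IsMap (C C' : Cx) (f : C.V →+ C'.V) : Prop where
  mem : ∀ {n v}, v ∈ C.gr n → f v ∈ C'.gr n
  comm : ∀ {n v}, v ∈ C.gr n → C'.d (f v) = f (C.d v)

lemma IsMap.id (C : Cx) : IsMap C C (AddMonoidHom.id _) := ⟨fun h => h, fun _ => rfl⟩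

lemma IsMap.comp {g : C'.V →+ C''.V} {f : C.V →+ C'.V} (hg : IsMap C' C'' g) (hf : IsMap C C' f) :
    IsMap C C'' (g.comp f) :=
  ⟨fun h => hg.mem (hf.mem h), fun h => (hg.comm (hf.mem h)).trans (congrArg g (hf.comm h))⟩

lemma IsMap.bd {f : C.V →+ C'.V} (hf : IsMap C C' f) {n : ℤ} {z : C.V} (hz : C.Bd n z) :
    C'.Bd n (f z) := by
  obtain ⟨w, hw, rfl⟩ := hz
  exact ⟨f w, hf.mem hw, hf.comm hw⟩

lemma IsMap.cyc {f : C.V →+ C'.V} (hf : IsMap C C' f) {n : ℤ} {z : C.V} (hz : z ∈ C.gr n)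
    (h : C.d z = 0) : C'.d (f z) = 0 := by rw [hf.comm hz, h, map_zero]

/-- Onto on cohomology in degree `n`. -/
def SurjAt (C C' : Cx) (f : C.V →+ C'.V) (n : ℤ) : Prop :=
  ∀ w ∈ C'.gr n, C'.d w = 0 → ∃ y ∈ C.gr n, C.d y = 0 ∧ C'.Bd n (f y + w)

/-- Injective on cohomology in degree `n`. -/
def InjAt (C C' : Cx) (f : C.V →+ C'.V) (n : ℤ) : Prop :=
  ∀ z ∈ C.gr n, C.d z = 0 → C'.Bd n (f z) → C.Bd n z

/-- A quasi-isomorphism. -/
structure Qis (C C' : Cx) (f : C.V →+ C'.V) : Prop extends IsMap C C' f where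
  surj : ∀ n, SurjAt C C' f n
  inj : ∀ n, InjAt C C' f n

lemma Qis.id (C : Cx) : Qis C C (AddMonoidHom.id _) :=
  ⟨IsMap.id C, fun n w hw h => ⟨w, hw, h, by simpa [C.two] using Bd.zero n⟩, fun _ _ _ _ h => h⟩

lemma Qis.comp {g : C'.V →+ C''.V} {f : C.V →+ C'.V} (hg : Qis C' C'' g) (hf : Qis C C' f) :
    Qis C C'' (g.comp f) where
  toIsMap := hg.toIsMap.comp hf.toIsMap
  surj n w hw h := by
    obtain ⟨y, hy, hy', hb⟩ := hg.surj n w hw h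
    obtain ⟨x, hx, hx', hb'⟩ := hf.surj n y hy hy'
    refine ⟨x, hx, hx', ?_⟩
    have := (hg.toIsMap.bd hb').add hb
    rwa [map_add, add_assoc, C''.add_add_cancel] at this
  inj n z hz h hb := hf.inj n z hz h (hg.inj n _ (hf.mem hz) (hf.toIsMap.cyc hz h) hb)

lemma Qis.of_comp_left {g : C'.V →+ C''.V} {f : C.V →+ C'.V} (hg : Qis C' C'' g)
    (hf : IsMap C C' f) (h : Qis C C'' (g.comp f)) : Qis C C' f where
  toIsMap := hf
  surj n w hw h0 := by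
    obtain ⟨y, hy, hy', hb⟩ := h.surj n (g w) (hg.mem hw) (hg.toIsMap.cyc hw h0)
    refine ⟨y, hy, hy', hg.inj n _ (add_mem (hf.mem hy) hw) ?_ (by simpa using hb)⟩
    rw [map_add, hf.cyc hy hy', h0, add_zero]
  inj n z hz h0 hb := h.inj n z hz h0 (hg.toIsMap.bd hb)

lemma Qis.of_comp_right {g : C'.V →+ C''.V} {f : C.V →+ C'.V} (hg : IsMap C' C'' g)
    (hf : Qis C C' f) (h : Qis C C'' (g.comp f)) : Qis C' C'' g where
  toIsMap := hg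
  surj n w hw h0 := by
    obtain ⟨y, hy, hy', hb⟩ := h.surj n w hw h0
    exact ⟨f y, hf.mem hy, hf.toIsMap.cyc hy hy', hb⟩
  inj n z hz h0 hb := by
    obtain ⟨y, hy, hy', hb'⟩ := hf.surj n z hz h0
    have h1 : C''.Bd n (g (f y)) := by
      have := (hg.bd hb').add hb
      rwa [map_add, C''.add_add_cancel'] at this
    have h2 := (hf.toIsMap.bd (h.inj n y hy hy' h1)).add hb'
    rwa [C'.add_add_cancel] at h2

lemma Qis.acyc_right {f : C.V →+ C'.V} (hf : Qis C C' f) {n : ℤ} (h : C.AcycAt n) :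
    C'.AcycAt n := fun w hw h0 => by
  obtain ⟨y, hy, hy', hb⟩ := hf.surj n w hw h0
  have := (hf.toIsMap.bd (h y hy hy')).add hb
  rwa [C'.add_add_cancel] at this

lemma Qis.acyc_left {f : C.V →+ C'.V} (hf : Qis C C' f) {n : ℤ} (h : C'.AcycAt n) :
    C.AcycAt n := fun z hz h0 => hf.inj n z hz h0 (h _ (hf.mem hz) (hf.toIsMap.cyc hz h0))

lemma Qis.of_acyc {f : C.V →+ C'.V} (hf : IsMap C C' f) (h : C.Acyc) (h' : C'.Acyc) :
    Qis C C' f :=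
  ⟨hf, fun n w hw h0 => ⟨0, zero_mem _, map_zero _, by simpa using h' n w hw h0⟩,
    fun n z hz h0 _ => h n z hz h0⟩

/-- Two maps that agree on the graded pieces. -/
lemma Qis.congr {f g : C.V →+ C'.V} (hf : Qis C C' f) (h : ∀ n, ∀ v ∈ C.gr n, g v = f v) :
    Qis C C' g where
  mem hv := h _ _ hv ▸ hf.mem hv
  comm hv := by rw [h _ _ hv, h _ _ (C.d_mem hv), hf.comm hv]
  surj n w hw h0 := by
    obtain ⟨y, hy, hy', hb⟩ := hf.surj n w hw h0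
    exact ⟨y, hy, hy', (h _ _ hy).symm ▸ hb⟩
  inj n z hz h0 hb := hf.inj n z hz h0 (h _ _ hz ▸ hb)

/-- A map homotopic to a quasi-isomorphism. -/
lemma Qis.homotopic {f g : C.V →+ C'.V} (hf : Qis C C' f) (hg : IsMap C C' g) (s : C.V → C'.V)
    (hs : ∀ n, ∀ v ∈ C.gr n, s v ∈ C'.gr (n - 1))
    (h : ∀ n, ∀ v ∈ C.gr n, C.d v = 0 → g v = f v + C'.d (s v)) : Qis C C' g where
  toIsMap := hg
  surj n w hw h0 := by
    obtain ⟨y, hy, hy', hb⟩ := hf.surj n w hw h0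
    refine ⟨y, hy, hy', ?_⟩
    rw [h n y hy hy', add_right_comm]
    exact hb.add ⟨_, hs n y hy, rfl⟩
  inj n z hz h0 hb := hf.inj n z hz h0 (Bd.of_add (h n z hz h0 ▸ hb) ⟨_, hs n z hz, rfl⟩)

/-- A chain map that is bijective on the graded pieces. -/
lemma Qis.of_bij {f : C.V →+ C'.V} (hf : IsMap C C' f)
    (hi : ∀ n, ∀ v ∈ C.gr n, f v = 0 → v = 0) (hs : ∀ n, ∀ w ∈ C'.gr n, ∃ v ∈ C.gr n, f v = w) :
    Qis C C' f where
  toIsMap := hf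
  surj n w hw h0 := by
    obtain ⟨v, hv, rfl⟩ := hs n w hw
    exact ⟨v, hv, hi _ _ (C.d_mem hv) (by rw [← hf.comm hv, h0]), by
      simpa [C'.two] using Bd.zero n⟩
  inj n z hz _ := by
    rintro ⟨w, hw, h⟩
    obtain ⟨v, hv, rfl⟩ := hs _ w hw
    refine ⟨v, hv, C.eq_of_add (hi n _ (add_mem (d_mem' hv) hz) ?_)⟩
    rw [map_add, ← hf.comm hv, h, C'.two]

/-- The shift: degree `n` is the old degree `n + k`. -/
def shift (C : Cx) (k : ℤ) : Cx where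
  V := C.V
  gr n := C.gr (n + k)
  d := C.d
  two := C.two
  d_mem h := mem_cast (C.d_mem h) (by ring)
  d_d h := C.d_d h

lemma shift_acycAt (C : Cx) (k n : ℤ) : (C.shift k).AcycAt n ↔ C.AcycAt (n + k) := by
  have e : n - 1 + k = n + k - 1 := by ring
  simp only [AcycAt, Bd, shift, e]
  rfl

/-- The cone of a chain map. -/
def cone {f : C.V →+ C'.V} (hf : IsMap C C' f) : Cx where
  V := C.V × C'.V
  gr n := (C.gr (n + 1)).prod (C'.gr n)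
  d := (C.d.comp (AddMonoidHom.fst _ _)).prod
    (f.comp (AddMonoidHom.fst C.V C'.V) + C'.d.comp (AddMonoidHom.snd C.V C'.V))
  two v := Prod.ext (C.two _) (C'.two _)
  d_mem h := ⟨C.d_mem h.1, add_mem (hf.mem h.1) (C'.d_mem h.2)⟩
  d_d {n v} h := Prod.ext (C.d_d h.1) (by
    change f (C.d v.1) + C'.d (f v.1 + C'.d v.2) = 0
    rw [map_add, hf.comm h.1, C'.d_d h.2, add_zero, C'.two])

lemma cone_d {f : C.V →+ C'.V} (hf : IsMap C C' f) (v : C.V × C'.V) :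
    (cone hf).d v = (C.d v.1, f v.1 + C'.d v.2) := rfl

lemma cone_acycAt {f : C.V →+ C'.V} (hf : IsMap C C' f) {n : ℤ} (hs : SurjAt C C' f n)
    (hi : InjAt C C' f (n + 1)) : (cone hf).AcycAt n := by
  rintro ⟨z, w⟩ ⟨hz, hw⟩ h
  obtain ⟨h1, h2⟩ := Prod.ext_iff.1 h
  change C.d z = 0 at h1
  change f z + C'.d w = 0 at h2
  obtain ⟨y, hy, rfl⟩ := hi z hz h1 ⟨w, mem_cast hw (by ring), (C'.eq_of_add h2).symm⟩
  have hy' : y ∈ C.gr n := mem_cast hy (by ring)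
  obtain ⟨x, hx, hx', u, hu, h3⟩ := hs (f y + w) (add_mem (hf.mem hy') hw)
    (by rw [map_add, hf.comm hy', h2])
  refine ⟨(x + y, u), ⟨mem_cast (add_mem hx hy') (by ring), hu⟩, Prod.ext ?_ ?_⟩
  · change C.d (x + y) = C.d y
    rw [map_add, hx', zero_add]
  · change f (x + y) + C'.d u = w
    rw [h3, map_add, ← add_assoc (f x), C'.add_add_cancel]

lemma surjAt_of_cone {f : C.V →+ C'.V} (hf : IsMap C C' f) {n : ℤ} (h : (cone hf).AcycAt n) :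
    SurjAt C C' f n := fun w hw h0 => by
  obtain ⟨⟨y, u⟩, ⟨hy, hu⟩, h1⟩ := h (0, w) ⟨zero_mem _, hw⟩ (by simp [cone_d, h0]; rfl)
  obtain ⟨h1, h2⟩ := Prod.ext_iff.1 h1
  change f y + C'.d u = w at h2
  exact ⟨y, mem_cast hy (by ring), h1, u, hu, by rw [← h2, C'.add_add_cancel]⟩

lemma injAt_of_cone {f : C.V →+ C'.V} (hf : IsMap C C' f) {n : ℤ}
    (h : (cone hf).AcycAt (n - 1)) : InjAt C C' f n := by
  rintro z hz h0 ⟨w, hw, h1⟩
  obtain ⟨⟨y, u⟩, ⟨hy, hu⟩, h2⟩ := h (z, w) ⟨mem_cast hz (by ring), hw⟩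
    (by simp [cone_d, h0, h1, C'.two]; rfl)
  exact ⟨y, mem_cast hy (by ring), (Prod.ext_iff.1 h2).1⟩

lemma qis_iff_cone {f : C.V →+ C'.V} (hf : IsMap C C' f) : Qis C C' f ↔ (cone hf).Acyc :=
  ⟨fun h n => cone_acycAt hf (h.surj n) (h.inj _),
    fun h => ⟨hf, fun n => surjAt_of_cone hf (h n), fun _ => injAt_of_cone hf (h _)⟩⟩

/-- The filtration lemma: `F h` is a decreasing condition, empty at `0`, forcing `0` at `N`. -/
lemma acycAt_of_filt (C : Cx) (n : ℤ) (F : ℕ → C.V → Prop) (N : ℕ)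
    (h0 : ∀ z ∈ C.gr n, F 0 z) (hN : ∀ z ∈ C.gr n, F N z → z = 0)
    (step : ∀ h, ∀ z ∈ C.gr n, C.d z = 0 → F h z → ∃ w ∈ C.gr (n - 1), F (h + 1) (z + C.d w)) :
    C.AcycAt n := by
  intro z hz hd
  have key : ∀ h, ∃ w ∈ C.gr (n - 1), F h (z + C.d w) := by
    intro h
    induction h with
    | zero => exact ⟨0, zero_mem _, by simpa using h0 z hz⟩
    | succ h ih =>
      obtain ⟨w, hw, hF⟩ := ih
      obtain ⟨w', hw', hF'⟩ := step h _ (add_mem hz (d_mem' hw))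
        (by rw [map_add, hd, C.d_d hw, add_zero]) hF
      exact ⟨w + w', add_mem hw hw', by rwa [map_add, ← add_assoc]⟩
  obtain ⟨w, hw, hF⟩ := key N
  exact ⟨w, hw, (C.eq_of_add (hN _ (add_mem hz (d_mem' hw)) hF)).symm⟩

/-- `0 → C → C' → C'' → 0` is exact on the graded pieces. -/
structure SES (C C' C'' : Cx) (i : C.V →+ C'.V) (p : C'.V →+ C''.V) : Prop where
  mi : IsMap C C' i
  mp : IsMap C' C'' p
  inj : ∀ n, ∀ v ∈ C.gr n, i v = 0 → v = 0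
  zero : ∀ n, ∀ v ∈ C.gr n, p (i v) = 0
  ex : ∀ n, ∀ v ∈ C'.gr n, p v = 0 → ∃ u ∈ C.gr n, i u = v
  surj : ∀ n, ∀ w ∈ C''.gr n, ∃ v ∈ C'.gr n, p v = w

variable {i : C.V →+ C'.V} {p : C'.V →+ C''.V}

lemma SES.acyc₂ (S : SES C C' C'' i p) {n : ℤ} (h₁ : C.AcycAt n) (h₃ : C''.AcycAt n) :
    C'.AcycAt n := fun z hz h0 => by
  obtain ⟨w, hw, h1⟩ := h₃ _ (S.mp.mem hz) (S.mp.cyc hz h0)
  obtain ⟨v, hv, rfl⟩ := S.surj _ w hw
  obtain ⟨u, hu, h2⟩ := S.ex n (z + C'.d v) (add_mem hz (d_mem' hv))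
    (by rw [map_add, ← S.mp.comm hv, h1, C''.two])
  have h3 : C.d u = 0 := S.inj _ _ (C.d_mem hu)
    (by rw [← S.mi.comm hu, h2, map_add, h0, C'.d_d hv, add_zero])
  exact Bd.of_add (h2 ▸ S.mi.bd (h₁ u hu h3)) ⟨v, hv, rfl⟩

lemma SES.acyc₃ (S : SES C C' C'' i p) {n : ℤ} (h₁ : C.AcycAt (n + 1)) (h₂ : C'.AcycAt n) :
    C''.AcycAt n := fun z hz h0 => by
  obtain ⟨v, hv, rfl⟩ := S.surj _ z hz
  obtain ⟨u, hu, h2⟩ := S.ex _ (C'.d v) (C'.d_mem hv) (by rw [← S.mp.comm hv, h0])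
  obtain ⟨t, ht, rfl⟩ := h₁ u hu (S.inj _ _ (C.d_mem hu) (by rw [← S.mi.comm hu, h2, C'.d_d hv]))
  have ht' : t ∈ C.gr n := mem_cast ht (by ring)
  have := S.mp.bd (h₂ (v + i t) (add_mem hv (S.mi.mem ht'))
    (by rw [map_add, S.mi.comm ht', h2, C'.two]))
  rwa [map_add, S.zero n t ht', add_zero] at this

lemma SES.acyc₁ (S : SES C C' C'' i p) {n : ℤ} (h₂ : C'.AcycAt n) (h₃ : C''.AcycAt (n - 1)) :
    C.AcycAt n := fun z hz h0 => by
  obtain ⟨v, hv, h1⟩ := h₂ _ (S.mi.mem hz) (S.mi.cyc hz h0)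
  obtain ⟨w, hw, h2⟩ := h₃ _ (S.mp.mem hv) (by rw [S.mp.comm hv, h1, S.zero n z hz])
  obtain ⟨t, ht, rfl⟩ := S.surj _ w hw
  obtain ⟨u, hu, h3⟩ := S.ex _ (v + C'.d t) (add_mem hv (d_mem' ht))
    (by rw [map_add, ← S.mp.comm ht, h2, C''.two])
  refine ⟨u, hu, C.eq_of_add (S.inj n _ (add_mem (d_mem' hu) hz) ?_)⟩
  rw [map_add, ← S.mi.comm hu, h3, map_add, h1, C'.d_d ht, add_zero, C'.two]

lemma SES.qis_p (S : SES C C' C'' i p) (h : C.Acyc) : Qis C' C'' p where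
  toIsMap := S.mp
  surj n z hz h0 := by
    obtain ⟨v, hv, rfl⟩ := S.surj _ z hz
    obtain ⟨u, hu, h2⟩ := S.ex _ (C'.d v) (C'.d_mem hv) (by rw [← S.mp.comm hv, h0])
    obtain ⟨t, ht, rfl⟩ := h _ u hu
      (S.inj _ _ (C.d_mem hu) (by rw [← S.mi.comm hu, h2, C'.d_d hv]))
    have ht' : t ∈ C.gr n := mem_cast ht (by ring)
    refine ⟨v + i t, add_mem hv (S.mi.mem ht'), by rw [map_add, S.mi.comm ht', h2, C'.two], ?_⟩
    rw [map_add, S.zero n t ht', add_zero, C''.two]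
    exact Bd.zero n
  inj n z hz h0 := by
    rintro ⟨w, hw, h1⟩
    obtain ⟨v, hv, rfl⟩ := S.surj _ w hw
    obtain ⟨u, hu, h2⟩ := S.ex n (z + C'.d v) (add_mem hz (d_mem' hv))
      (by rw [map_add, ← S.mp.comm hv, h1, C''.two])
    have h3 : C.d u = 0 := S.inj _ _ (C.d_mem hu)
      (by rw [← S.mi.comm hu, h2, map_add, h0, C'.d_d hv, add_zero])
    exact Bd.of_add (h2 ▸ S.mi.bd (h n u hu h3)) ⟨v, hv, rfl⟩

lemma SES.qis_i (S : SES C C' C'' i p) (h : C''.Acyc) : Qis C C' i where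
  toIsMap := S.mi
  surj n z hz h0 := by
    obtain ⟨w, hw, h1⟩ := h n _ (S.mp.mem hz) (S.mp.cyc hz h0)
    obtain ⟨v, hv, rfl⟩ := S.surj _ w hw
    obtain ⟨u, hu, h2⟩ := S.ex n (z + C'.d v) (add_mem hz (d_mem' hv))
      (by rw [map_add, ← S.mp.comm hv, h1, C''.two])
    refine ⟨u, hu, S.inj _ _ (C.d_mem hu)
      (by rw [← S.mi.comm hu, h2, map_add, h0, C'.d_d hv, add_zero]), v, hv, ?_⟩
    rw [h2, add_right_comm, C'.two, zero_add]
  inj n z hz _ := by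
    rintro ⟨v, hv, h1⟩
    obtain ⟨w, hw, h2⟩ := h _ _ (S.mp.mem hv) (by rw [S.mp.comm hv, h1, S.zero n z hz])
    obtain ⟨t, ht, rfl⟩ := S.surj _ w hw
    obtain ⟨u, hu, h3⟩ := S.ex _ (v + C'.d t) (add_mem hv (d_mem' ht))
      (by rw [map_add, ← S.mp.comm ht, h2, C''.two])
    refine ⟨u, hu, C.eq_of_add (S.inj n _ (add_mem (d_mem' hu) hz) ?_)⟩
    rw [map_add, ← S.mi.comm hu, h3, map_add, h1, C'.d_d ht, add_zero, C'.two]

/-- A map of short exact sequences gives a short exact sequence of cones. -/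
lemma SES.cone {D D' D'' : Cx} {j : D.V →+ D'.V} {q : D'.V →+ D''.V} (S : SES C C' C'' i p)
    (T : SES D D' D'' j q) {f : C.V →+ D.V} {f' : C'.V →+ D'.V} {f'' : C''.V →+ D''.V}
    (hf : IsMap C D f) (hf' : IsMap C' D' f') (hf'' : IsMap C'' D'' f'')
    (h₁ : ∀ n, ∀ v ∈ C.gr n, f' (i v) = j (f v)) (h₂ : ∀ n, ∀ v ∈ C'.gr n, f'' (p v) = q (f' v)) :
    SES (cone hf) (cone hf') (cone hf'') (i.prodMap j) (p.prodMap q) where
  mi := ⟨fun h => ⟨S.mi.mem h.1, T.mi.mem h.2⟩, fun {n v} h => Prod.ext (S.mi.comm h.1) (by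
    change f' (i v.1) + D'.d (j v.2) = j (f v.1 + D.d v.2)
    rw [map_add, h₁ _ _ h.1, T.mi.comm h.2])⟩
  mp := ⟨fun h => ⟨S.mp.mem h.1, T.mp.mem h.2⟩, fun {n v} h => Prod.ext (S.mp.comm h.1) (by
    change f'' (p v.1) + D''.d (q v.2) = q (f' v.1 + D'.d v.2)
    rw [map_add, h₂ _ _ h.1, T.mp.comm h.2])⟩
  inj n v h h0 := Prod.ext (S.inj _ _ h.1 (Prod.ext_iff.1 h0).1) (T.inj _ _ h.2 (Prod.ext_iff.1 h0).2)
  zero n v h := Prod.ext (S.zero _ _ h.1) (T.zero _ _ h.2)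
  ex n v h h0 := by
    obtain ⟨a, ha, e1⟩ := S.ex _ _ h.1 (Prod.ext_iff.1 h0).1
    obtain ⟨b, hb, e2⟩ := T.ex _ _ h.2 (Prod.ext_iff.1 h0).2
    exact ⟨(a, b), ⟨ha, hb⟩, Prod.ext e1 e2⟩
  surj n v h := by
    obtain ⟨a, ha, e1⟩ := S.surj _ _ h.1
    obtain ⟨b, hb, e2⟩ := T.surj _ _ h.2
    exact ⟨(a, b), ⟨ha, hb⟩, Prod.ext e1 e2⟩

/-- Five lemma: the middle map. -/
lemma SES.qis₂ {D D' D'' : Cx} {j : D.V →+ D'.V} {q : D'.V →+ D''.V} (S : SES C C' C'' i p)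
    (T : SES D D' D'' j q) {f : C.V →+ D.V} {f' : C'.V →+ D'.V} {f'' : C''.V →+ D''.V}
    (hf : Qis C D f) (hf' : IsMap C' D' f') (hf'' : Qis C'' D'' f'')
    (h₁ : ∀ n, ∀ v ∈ C.gr n, f' (i v) = j (f v)) (h₂ : ∀ n, ∀ v ∈ C'.gr n, f'' (p v) = q (f' v)) :
    Qis C' D' f' :=
  (qis_iff_cone hf').2 fun n => (S.cone T hf.toIsMap hf' hf''.toIsMap h₁ h₂).acyc₂
    ((qis_iff_cone _).1 hf n) ((qis_iff_cone _).1 hf'' n)

end Cx
end FMD
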