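import Pool.Agent.MP_0e6a9f_ag.H36.Cx

/-! Differential modules over a graded ring of characteristic 2; the bigrading is a predicate. -/

noncomputable section
namespace FMD

variable {K G R : Type} [Field K] [AddCommGroup G] [CommRing R] [Algebra K R]

/-- An `R`-module with subgroups `gr g n` and an `R`-linear differential of degree `(0, 1)`. -/
structure DG (A : G → Submodule K R) where
  M : Type
  [acg : AddCommGroup M]
  [mod : Module R M]
  gr : G → ℤ → AddSubgroup M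
  smul_mem : ∀ {a g n r m}, r ∈ A a → m ∈ gr g n → r • m ∈ gr (a + g) n
  d : M →ₗ[R] M
  d_mem : ∀ {g n m}, m ∈ gr g n → d m ∈ gr g (n + 1)
  d_d : ∀ m, d (d m) = 0

attribute [instance] DG.acg DG.mod

variable (K R) in
lemma two_mod [CharP K 2] {M : Type} [AddCommGroup M] [Module R M] (m : M) : m + m = 0 := by
  have h : (1 + 1 : R) = 0 := by
    rw [← map_one (algebraMap K R), ← map_add, CharTwo.add_self_eq_zero, map_zero]
  rw [← one_smul R m, ← add_smul, h, zero_smul]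

namespace DG

variable {A : G → Submodule K R} {L M N P : DG A}

lemma mem_cast {g g' : G} {n n' : ℤ} {m : M.M} (h : m ∈ M.gr g n) (hg : g = g') (hn : n = n') :
    m ∈ M.gr g' n' := hg ▸ hn ▸ h

/-- Linear maps of bidegree `(a, k)`. -/
def deg (M N : DG A) (a : G) (k : ℤ) : AddSubgroup (M.M →ₗ[R] N.M) where
  carrier := {f | ∀ g n m, m ∈ M.gr g n → f m ∈ N.gr (a + g) (n + k)}
  add_mem' hf hg g n m hm := add_mem (hf g n m hm) (hg g n m hm)
  zero_mem' _ _ _ _ := zero_mem _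
  neg_mem' hf g n m hm := neg_mem (hf g n m hm)

lemma deg_cast {a a' : G} {k k' : ℤ} {f : M.M →ₗ[R] N.M} (h : f ∈ deg M N a k) (ha : a = a')
    (hk : k = k') : f ∈ deg M N a' k' := ha ▸ hk ▸ h

lemma comp_deg {a b : G} {k l : ℤ} {f : M.M →ₗ[R] N.M} {g : N.M →ₗ[R] P.M}
    (hg : g ∈ deg N P b l) (hf : f ∈ deg M N a k) : g ∘ₗ f ∈ deg M P (b + a) (l + k) :=
  fun _ _ _ hm => mem_cast (hg _ _ _ (hf _ _ _ hm)) (by abel) (by ring)

lemma d_deg (M : DG A) : M.d ∈ deg M M 0 1 :=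
  fun _ _ _ hm => mem_cast (M.d_mem hm) (by abel) rfl

lemma smul_deg {a b : G} {k : ℤ} {r : R} (hr : r ∈ A b) {f : M.M →ₗ[R] N.M}
    (hf : f ∈ deg M N a k) : r • f ∈ deg M N (b + a) k :=
  fun _ _ _ hm => mem_cast (N.smul_mem hr (hf _ _ _ hm)) (by abel) rfl

/-- The differential on linear maps. -/
def homD (M N : DG A) : (M.M →ₗ[R] N.M) →ₗ[R] (M.M →ₗ[R] N.M) :=
  LinearMap.llcomp R _ _ _ N.d + (LinearMap.llcomp R _ _ _).flip M.d

lemma homD_apply (f : M.M →ₗ[R] N.M) (m : M.M) : homD M N f m = N.d (f m) + f (M.d m) := rfl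

lemma homD_def (f : M.M →ₗ[R] N.M) : homD M N f = N.d ∘ₗ f + f ∘ₗ M.d := rfl

/-- A chain map of bidegree `(0, 0)`. -/
structure IsHom (M N : DG A) (f : M.M →ₗ[R] N.M) : Prop where
  mem : ∀ {g n m}, m ∈ M.gr g n → f m ∈ N.gr g n
  comm : ∀ m, N.d (f m) = f (M.d m)

lemma IsHom.id (M : DG A) : IsHom M M LinearMap.id := ⟨fun h => h, fun _ => rfl⟩

lemma IsHom.zero (M N : DG A) : IsHom M N 0 := ⟨fun _ => zero_mem _, fun _ => map_zero _⟩

lemma IsHom.comp {g : N.M →ₗ[R] P.M} {f : M.M →ₗ[R] N.M} (hg : IsHom N P g) (hf : IsHom M N f) :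
    IsHom M P (g ∘ₗ f) :=
  ⟨fun h => hg.mem (hf.mem h), fun m => (hg.comm _).trans (congrArg g (hf.comm m))⟩

lemma IsHom.add {f g : M.M →ₗ[R] N.M} (hf : IsHom M N f) (hg : IsHom M N g) :
    IsHom M N (f + g) :=
  ⟨fun h => add_mem (hf.mem h) (hg.mem h), fun m => by simp [hf.comm, hg.comm]⟩

lemma IsHom.deg {f : M.M →ₗ[R] N.M} (hf : IsHom M N f) : f ∈ deg M N 0 0 :=
  fun _ _ _ hm => mem_cast (hf.mem hm) (by abel) (by ring)

/-- Every element is a sum of homogeneous ones. -/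
def Span (M : DG A) : Prop := ∀ m, m ∈ ⨆ p : G × ℤ, M.gr p.1 p.2

lemma Span.ext (h : M.Span) {V : Type} [AddCommGroup V] [Module R V] {f f' : M.M →ₗ[R] V}
    (e : ∀ g n, ∀ m ∈ M.gr g n, f m = f' m) : f = f' := LinearMap.ext fun m => by
  induction h m using AddSubgroup.iSup_induction' with
  | hp p x hx => exact e _ _ _ hx
  | h1 => simp
  | hadd x y _ _ hx hy => simp [hx, hy]

/-- The shift `M[k]`. -/
@[reducible] def sh (M : DG A) (k : ℤ) : DG A where
  M := M.M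
  gr g n := M.gr g (n + k)
  smul_mem := M.smul_mem
  d := M.d
  d_mem h := mem_cast (M.d_mem h) rfl (by ring)
  d_d := M.d_d

/-- The twist `M(a)`. -/
@[reducible] def tg (M : DG A) (a : G) : DG A where
  M := M.M
  gr g n := M.gr (g + a) n
  smul_mem hr h := mem_cast (M.smul_mem hr h) (by abel) rfl
  d := M.d
  d_mem := M.d_mem
  d_d := M.d_d

/-- Finite or infinite products. -/
@[reducible] def pi {J : Type} (M : J → DG A) : DG A where
  M := ∀ j, (M j).M
  gr g n := AddSubgroup.pi Set.univ fun j => (M j).gr g n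
  smul_mem hr h j hj := (M j).smul_mem hr (h j hj)
  d := LinearMap.pi fun j => (M j).d ∘ₗ LinearMap.proj j
  d_mem h j hj := (M j).d_mem (h j hj)
  d_d m := funext fun j => (M j).d_d (m j)

/-- A graded module placed in degree 0. -/
@[reducible] def single (V : Type) [AddCommGroup V] [Module R V] (gr : G → AddSubgroup V)
    (h : ∀ {a g r m}, r ∈ A a → m ∈ gr g → r • m ∈ gr (a + g)) : DG A where
  M := V
  gr g n := if n = 0 then gr g else ⊥
  smul_mem {a g n r m} hr hm := by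
    split_ifs at hm ⊢
    · exact h hr hm
    · rw [AddSubgroup.mem_bot.1 hm, smul_zero]; exact zero_mem _
  d := 0
  d_mem _ := zero_mem _
  d_d _ := rfl

variable (A) in
/-- The ring itself, in degree 0. -/
@[reducible] def ring [SetLike.GradedMonoid A] : DG A :=
  single R (fun g => (A g).toAddSubgroup) fun hr hm => SetLike.mul_mem_graded hr hm

/-- A submodule closed under the differential. -/
@[reducible] def sub (M : DG A) (S : Submodule R M.M) (hS : ∀ m ∈ S, M.d m ∈ S) : DG A where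
  M := S
  gr g n := (M.gr g n).comap S.subtype.toAddMonoidHom
  smul_mem hr h := M.smul_mem hr h
  d := M.d.restrict hS
  d_mem h := M.d_mem h
  d_d m := Subtype.ext (M.d_d m)

/-- The quotient by a submodule closed under the differential. -/
@[reducible] def quo (M : DG A) (S : Submodule R M.M) (hS : ∀ m ∈ S, M.d m ∈ S) : DG A where
  M := M.M ⧸ S
  gr g n := (M.gr g n).map S.mkQ.toAddMonoidHom
  smul_mem := by
    rintro a g n r _ hr ⟨m, hm, rfl⟩
    exact ⟨r • m, M.smul_mem hr hm, rfl⟩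
  d := S.mapQ S M.d hS
  d_mem := by
    rintro g n _ ⟨m, hm, rfl⟩
    exact ⟨M.d m, M.d_mem hm, rfl⟩
  d_d m := by
    obtain ⟨m, rfl⟩ := S.mkQ_surjective m
    exact (congrArg S.mkQ (M.d_d m)).trans (map_zero _)

variable [CharP K 2]

lemma two (M : DG A) (m : M.M) : m + m = 0 := two_mod K R m

/-- The complex in degree `g`. -/
@[reducible] def cx (M : DG A) (g : G) : Cx where
  V := M.M
  gr := M.gr g
  d := M.d.toAddMonoidHom
  two := M.two
  d_mem := M.d_mem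
  d_d _ := M.d_d _

/-- Acyclic in the degrees of `U`. -/
def AcycOn (U : Set G) (M : DG A) : Prop := ∀ g ∈ U, (M.cx g).Acyc

/-- Acyclic. -/
abbrev Acyc (M : DG A) : Prop := AcycOn Set.univ M

lemma homD_homD (f : M.M →ₗ[R] N.M) : homD M N (homD M N f) = 0 := LinearMap.ext fun m => by
  simp [homD_apply, N.d_d, M.d_d, N.two]

lemma homD_comp (g : N.M →ₗ[R] P.M) (f : M.M →ₗ[R] N.M) :
    homD M P (g ∘ₗ f) = homD N P g ∘ₗ f + g ∘ₗ homD M N f := LinearMap.ext fun m => by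
  have := P.two (g (N.d (f m)))
  simp only [homD_apply, LinearMap.comp_apply, LinearMap.add_apply, map_add]
  linear_combination (norm := abel) -this

/-- The complex of maps of bidegree `(0, *)`. -/
@[reducible] def hom (M N : DG A) : Cx where
  V := M.M →ₗ[R] N.M
  gr := deg M N 0
  d := (homD M N).toAddMonoidHom
  two := two_mod K R
  d_mem hf := add_mem (deg_cast (comp_deg N.d_deg hf) (by abel) (by ring))
    (deg_cast (comp_deg hf M.d_deg) (by abel) rfl)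
  d_d _ := homD_homD _

lemma IsHom.homD {f : M.M →ₗ[R] N.M} (hf : IsHom M N f) : homD M N f = 0 :=
  LinearMap.ext fun m => by rw [homD_apply, hf.comm, N.two]; rfl

lemma comm_of_homD {f : M.M →ₗ[R] N.M} (h : homD M N f = 0) (m : M.M) :
    N.d (f m) = f (M.d m) := (N.cx 0).eq_of_add (LinearMap.congr_fun h m)

lemma isHom_of {f : M.M →ₗ[R] N.M} (h : f ∈ deg M N 0 0) (h' : homD M N f = 0) : IsHom M N f :=
  ⟨fun hm => mem_cast (h _ _ _ hm) (by abel) (by ring), comm_of_homD h'⟩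

lemma IsHom.cx {f : M.M →ₗ[R] N.M} (hf : IsHom M N f) (g : G) :
    Cx.IsMap (M.cx g) (N.cx g) f.toAddMonoidHom := ⟨hf.mem, fun _ => hf.comm _⟩

/-- Composition with a chain map on the left. -/
lemma IsHom.post {f : M.M →ₗ[R] N.M} (hf : IsHom M N f) (P : DG A) :
    Cx.IsMap (hom P M) (hom P N) (LinearMap.llcomp R _ _ _ f).toAddMonoidHom :=
  ⟨fun h => deg_cast (comp_deg hf.deg h) (by abel) (by ring), fun {_ v} _ => by
    change DG.homD P N (f ∘ₗ v) = f ∘ₗ DG.homD P M v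
    rw [homD_comp, hf.homD, LinearMap.zero_comp, zero_add]⟩

/-- Composition with a chain map on the right. -/
lemma IsHom.pre {f : M.M →ₗ[R] N.M} (hf : IsHom M N f) (P : DG A) :
    Cx.IsMap (hom N P) (hom M P) ((LinearMap.llcomp R _ _ _).flip f).toAddMonoidHom :=
  ⟨fun h => deg_cast (comp_deg h hf.deg) (by abel) (by ring), fun {_ v} _ => by
    change DG.homD M P (v ∘ₗ f) = DG.homD N P v ∘ₗ f
    rw [homD_comp, hf.homD, LinearMap.comp_zero, add_zero]⟩

/-- A quasi-isomorphism in the degrees of `U`. -/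
structure QisOn (U : Set G) (M N : DG A) (f : M.M →ₗ[R] N.M) : Prop where
  isHom : IsHom M N f
  qis : ∀ g ∈ U, Cx.Qis (M.cx g) (N.cx g) f.toAddMonoidHom

/-- A quasi-isomorphism. -/
abbrev Qis (M N : DG A) (f : M.M →ₗ[R] N.M) : Prop := QisOn Set.univ M N f

variable {U : Set G}

lemma QisOn.id (M : DG A) : QisOn U M M LinearMap.id := ⟨IsHom.id M, fun _ _ => Cx.Qis.id _⟩

lemma QisOn.comp {g : N.M →ₗ[R] P.M} {f : M.M →ₗ[R] N.M} (hg : QisOn U N P g)
    (hf : QisOn U M N f) : QisOn U M P (g ∘ₗ f) :=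
  ⟨hg.isHom.comp hf.isHom, fun a ha => (hg.qis a ha).comp (hf.qis a ha)⟩

lemma QisOn.of_comp_left {g : N.M →ₗ[R] P.M} {f : M.M →ₗ[R] N.M} (hg : QisOn U N P g)
    (hf : IsHom M N f) (h : QisOn U M P (g ∘ₗ f)) : QisOn U M N f :=
  ⟨hf, fun a ha => (hg.qis a ha).of_comp_left (hf.cx a) (h.qis a ha)⟩

lemma QisOn.of_comp_right {g : N.M →ₗ[R] P.M} {f : M.M →ₗ[R] N.M} (hg : IsHom N P g)
    (hf : QisOn U M N f) (h : QisOn U M P (g ∘ₗ f)) : QisOn U N P g :=
  ⟨hg, fun a ha => Cx.Qis.of_comp_right (hg.cx a) (hf.qis a ha) (h.qis a ha)⟩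

lemma QisOn.mono {V : Set G} {f : M.M →ₗ[R] N.M} (hf : QisOn U M N f) (h : V ⊆ U) :
    QisOn V M N f := ⟨hf.isHom, fun a ha => hf.qis a (h ha)⟩

lemma AcycOn.mono {V : Set G} (hM : AcycOn U M) (h : V ⊆ U) : AcycOn V M :=
  fun a ha => hM a (h ha)

lemma QisOn.acyc_right {f : M.M →ₗ[R] N.M} (hf : QisOn U M N f) (h : AcycOn U M) : AcycOn U N :=
  fun a ha n => (hf.qis a ha).acyc_right (h a ha n)

lemma QisOn.acyc_left {f : M.M →ₗ[R] N.M} (hf : QisOn U M N f) (h : AcycOn U N) : AcycOn U M :=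
  fun a ha n => (hf.qis a ha).acyc_left (h a ha n)

lemma QisOn.of_acyc {f : M.M →ₗ[R] N.M} (hf : IsHom M N f) (h : AcycOn U M) (h' : AcycOn U N) :
    QisOn U M N f := ⟨hf, fun a ha => Cx.Qis.of_acyc (hf.cx a) (h a ha) (h' a ha)⟩

lemma acycOn_sh (k : ℤ) : AcycOn U (M.sh k) ↔ AcycOn U M :=
  ⟨fun h g hg n => by
    have := ((M.cx g).shift_acycAt k (n - k)).1 (h g hg (n - k))
    rwa [sub_add_cancel] at this,
  fun h g hg n => ((M.cx g).shift_acycAt k n).2 (h g hg _)⟩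

/-- A closed map of bidegree `(0, 1)`. -/
structure IsTw (M N : DG A) (f : M.M →ₗ[R] N.M) : Prop where
  mem : ∀ {g n m}, m ∈ M.gr g n → f m ∈ N.gr g (n + 1)
  comm : ∀ m, N.d (f m) = f (M.d m)

/-- The extension `0 → N → ext → M → 0` twisted by `f`. -/
@[reducible] def ext {f : M.M →ₗ[R] N.M} (hf : IsTw M N f) : DG A where
  M := M.M × N.M
  gr g n := (M.gr g n).prod (N.gr g n)
  smul_mem hr h := ⟨M.smul_mem hr h.1, N.smul_mem hr h.2⟩
  d := (M.d ∘ₗ LinearMap.fst R M.M N.M).prod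
    (f ∘ₗ LinearMap.fst R M.M N.M + N.d ∘ₗ LinearMap.snd R M.M N.M)
  d_mem h := ⟨M.d_mem h.1, add_mem (hf.mem h.1) (N.d_mem h.2)⟩
  d_d v := Prod.ext (M.d_d _) (by
    change f (M.d v.1) + N.d (f v.1 + N.d v.2) = 0
    rw [map_add, hf.comm, N.d_d, add_zero, N.two])

lemma ext_d {f : M.M →ₗ[R] N.M} (hf : IsTw M N f) (v : M.M × N.M) :
    (ext hf).d v = (M.d v.1, f v.1 + N.d v.2) := rfl

omit [CharP K 2] in
lemma IsHom.coneTw {f : M.M →ₗ[R] N.M} (hf : IsHom M N f) : IsTw (M.sh 1) N f :=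
  ⟨hf.mem, hf.comm⟩

omit [CharP K 2] in
lemma IsHom.fibTw {f : M.M →ₗ[R] N.M} (hf : IsHom M N f) : IsTw M (N.sh (-1)) f :=
  ⟨fun h => mem_cast (M := N) (hf.mem h) rfl (by ring), hf.comm⟩

/-- The cone `M[1] ⊕ N`. -/
abbrev cone {f : M.M →ₗ[R] N.M} (hf : IsHom M N f) : DG A := ext hf.coneTw

/-- The fibre `M ⊕ N[-1]`. -/
abbrev fib {f : M.M →ₗ[R] N.M} (hf : IsHom M N f) : DG A := ext hf.fibTw

/-- The direct sum. -/
abbrev prod (M N : DG A) : DG A :=
  ext (M := M) (N := N) (f := 0) ⟨fun _ => zero_mem _, fun _ => map_zero _⟩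

lemma qisOn_iff_cone {f : M.M →ₗ[R] N.M} (hf : IsHom M N f) :
    QisOn U M N f ↔ AcycOn U (cone hf) :=
  ⟨fun h a ha => (Cx.qis_iff_cone (hf.cx a)).1 (h.qis a ha),
    fun h => ⟨hf, fun a ha => (Cx.qis_iff_cone (hf.cx a)).2 (h a ha)⟩⟩

/-- A short exact sequence in the degrees of `U`. -/
structure SESOn (U : Set G) (L M N : DG A) (i : L.M →ₗ[R] M.M) (p : M.M →ₗ[R] N.M) : Prop where
  hi : IsHom L M i
  hp : IsHom M N p
  ses : ∀ g ∈ U, Cx.SES (L.cx g) (M.cx g) (N.cx g) i.toAddMonoidHom p.toAddMonoidHom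

variable {i : L.M →ₗ[R] M.M} {p : M.M →ₗ[R] N.M}

lemma SESOn.acyc₁ (S : SESOn U L M N i p) (h : AcycOn U M) (h' : AcycOn U N) : AcycOn U L :=
  fun a ha n => (S.ses a ha).acyc₁ (h a ha n) (h' a ha _)

lemma SESOn.acyc₂ (S : SESOn U L M N i p) (h : AcycOn U L) (h' : AcycOn U N) : AcycOn U M :=
  fun a ha n => (S.ses a ha).acyc₂ (h a ha n) (h' a ha n)

lemma SESOn.acyc₃ (S : SESOn U L M N i p) (h : AcycOn U L) (h' : AcycOn U M) : AcycOn U N :=
  fun a ha n => (S.ses a ha).acyc₃ (h a ha _) (h' a ha n)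

lemma SESOn.qis_p (S : SESOn U L M N i p) (h : AcycOn U L) : QisOn U M N p :=
  ⟨S.hp, fun a ha => (S.ses a ha).qis_p (h a ha)⟩

lemma SESOn.qis_i (S : SESOn U L M N i p) (h : AcycOn U N) : QisOn U L M i :=
  ⟨S.hi, fun a ha => (S.ses a ha).qis_i (h a ha)⟩

lemma SESOn.mono {V : Set G} (S : SESOn U L M N i p) (h : V ⊆ U) : SESOn V L M N i p :=
  ⟨S.hi, S.hp, fun a ha => S.ses a (h ha)⟩

/-- A sequence split by maps of degree 0 that need not be closed. -/
lemma sesOn_of_split (hi : IsHom L M i) (hp : IsHom M N p) (r : M.M →ₗ[R] L.M)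
    (s : N.M →ₗ[R] M.M) (hr : r ∈ deg M L 0 0) (hs : s ∈ deg N M 0 0)
    (ri : r ∘ₗ i = LinearMap.id) (ps : p ∘ₗ s = LinearMap.id) (pi0 : p ∘ₗ i = 0)
    (tot : i ∘ₗ r + s ∘ₗ p = LinearMap.id) : SESOn U L M N i p :=
  ⟨hi, hp, fun g _ => ⟨hi.cx g, hp.cx g,
    fun _ v _ h => (LinearMap.congr_fun ri v).symm.trans ((congrArg r h).trans (map_zero _)),
    fun _ v _ => LinearMap.congr_fun pi0 v,
    fun _ v hv h => ⟨r v, mem_cast (hr _ _ _ hv) (by abel) (by ring), by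
      have := LinearMap.congr_fun tot v
      change i (r v) + s (p v) = v at this
      rwa [show p v = 0 from h, map_zero, add_zero] at this⟩,
    fun _ w hw => ⟨s w, mem_cast (hs _ _ _ hw) (by abel) (by ring), LinearMap.congr_fun ps w⟩⟩⟩

section ext
variable {f : M.M →ₗ[R] N.M} (hf : IsTw M N f)

lemma ext_inr : IsHom N (ext hf) (LinearMap.inr R M.M N.M) :=
  ⟨fun h => ⟨zero_mem _, h⟩, fun m => by simp⟩

lemma ext_fst : IsHom (ext hf) M (LinearMap.fst R M.M N.M) := ⟨fun h => h.1, fun _ => rfl⟩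

lemma ext_inl_deg : LinearMap.inl R M.M N.M ∈ deg M (ext hf) 0 0 :=
  fun _ _ _ h => ⟨mem_cast h (by abel) (by ring), zero_mem _⟩

lemma ext_snd_deg : LinearMap.snd R M.M N.M ∈ deg (ext hf) N 0 0 :=
  fun _ _ _ h => mem_cast h.2 (by abel) (by ring)

lemma homD_inl : homD M (ext hf) (LinearMap.inl R M.M N.M) = LinearMap.inr R M.M N.M ∘ₗ f :=
  LinearMap.ext fun m => by
    change ((M.d m, f m + N.d 0) + (M.d m, 0) : M.M × N.M) = (0, f m)
    simp [M.two]

lemma homD_snd : homD (ext hf) N (LinearMap.snd R M.M N.M) = f ∘ₗ LinearMap.fst R M.M N.M :=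
  LinearMap.ext fun m => by
    change N.d m.2 + (f m.1 + N.d m.2) = f m.1
    rw [add_left_comm, N.two, add_zero]

lemma ext_ses : SESOn U N (ext hf) M (LinearMap.inr R M.M N.M) (LinearMap.fst R M.M N.M) :=
  sesOn_of_split (ext_inr hf) (ext_fst hf) _ _ (ext_snd_deg hf) (ext_inl_deg hf) rfl rfl rfl
    (by ext <;> simp)

end ext

lemma acycOn_fib {f : M.M →ₗ[R] N.M} (hf : IsHom M N f) :
    AcycOn U (fib hf) ↔ AcycOn U (cone hf) := by
  rw [← acycOn_sh (M := fib hf) 1]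
  simp only [AcycOn, Cx.Acyc, Cx.AcycAt, Cx.Bd, add_neg_cancel_right]

lemma sub_ses (S : Submodule R M.M) (hS : ∀ m ∈ S, M.d m ∈ S) :
    SESOn U (M.sub S hS) M (M.quo S hS) S.subtype S.mkQ := by
  have hi : IsHom (M.sub S hS) M S.subtype := ⟨fun h => h, fun _ => rfl⟩
  have hp : IsHom M (M.quo S hS) S.mkQ := ⟨fun h => ⟨_, h, rfl⟩, fun _ => rfl⟩
  refine ⟨hi, hp, fun g _ => ⟨hi.cx g, hp.cx g, fun _ v _ h => Subtype.ext h,
    fun _ v _ => (Submodule.Quotient.mk_eq_zero S).2 v.2,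
    fun _ v hv h => ⟨⟨v, (Submodule.Quotient.mk_eq_zero S).1 h⟩, hv, rfl⟩, fun _ _ h => h⟩⟩

/-- K-projective: maps into acyclic modules are null-homotopic. -/
def KProj (P : DG A) : Prop := ∀ Z : DG A, Z.Acyc → (hom P Z).Acyc

end DG
end FMD
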