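import Pool.Agent.MP_0e6a9f_ag.H36.TwCat

/-! Every twisted complex is an iterated cone of its objects. -/

set_option linter.unusedSectionVars false

open CategoryTheory Limits Pretriangulated

noncomputable section
namespace FMD
namespace Tw
variable {C : DGR} {x y : Tw C}

/-- Renumbering the summands. -/
def reIso (e : y.I ≃ x.I) (ho : ∀ i, y.ob i = x.ob (e i)) (hd : ∀ i, y.deg i = x.deg (e i))
    (hδ : y.δ = x.δ.submatrix e e) : x ≅ y where
  hom := mkHom (x.idm.submatrix e id)
    (fun i j => by rw [ho, hd]; exact x.idm_mem (e i) j) (by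
      rw [Bimod.self_twD, hδ, ← Matrix.submatrix_map, map_d_idm, Matrix.submatrix_mul_equiv,
        mul_idm x.δ_twGr, ← Matrix.submatrix_id_id x.δ, Matrix.submatrix_mul _ _ _ id _
          Function.bijective_id |>.symm.trans (congrArg (·.submatrix e id) (idm_mul x.δ_twGr))]
      exact (congrArg (· + _) (zero_add _)).trans (C.self.mat_two _))
  inv := mkHom (x.idm.submatrix id e)
    (fun i j => by rw [ho, hd]; exact x.idm_mem i (e j)) (by
      rw [Bimod.self_twD, hδ, ← Matrix.submatrix_map, map_d_idm, Matrix.submatrix_mul_equiv,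
        idm_mul x.δ_twGr, ← Matrix.submatrix_id_id x.δ, Matrix.submatrix_mul _ _ id id _
          Function.bijective_id |>.symm.trans (congrArg (·.submatrix id e) (mul_idm x.δ_twGr))]
      exact (congrArg (· + _) (zero_add _)).trans (C.self.mat_two _))
  hom_inv_id := Subtype.ext ((Matrix.submatrix_mul_equiv _ _ _ e _).trans
    (congrArg (·.submatrix id id) x.idm_idm))
  inv_hom_id := Subtype.ext ((Matrix.submatrix_mul _ _ _ id _ Function.bijective_id).symm.trans
    ((congrArg (·.submatrix e e) x.idm_idm).trans ((Matrix.submatrix_diagonal_equiv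
      (fun i => C.e (x.ob i)) e).trans (congrArg Matrix.diagonal (funext fun i =>
        show C.e (x.ob (e i)) = C.e (y.ob i) from congrArg C.e (ho i).symm)))))

variable (x) {j : x.I} (hj : ∀ i, x.ht i ≤ x.ht j)
include hj

lemma mc_top (a b : x.I) : C.d (x.δ a b) = ∑ k : {i // i ≠ j}, x.δ a k * x.δ k b := by
  have e : C.d (x.δ a b) = ∑ k, x.δ a k * x.δ k b := congrFun (congrFun x.mc a) b
  rw [e, Fintype.sum_eq_add_sum_subtype_ne _ j, x.δ_ht a j (hj a).not_gt, zero_mul, zero_add]

/-- Removing a summand of maximal height. -/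
@[reducible] def low : Tw C where
  I := {i // i ≠ j}
  ob i := x.ob i
  deg i := x.deg i + -1
  ht i := x.ht i
  δ := x.δ.submatrix Subtype.val Subtype.val
  δ_mem a b := Bimod.cor_cast (x.δ_mem a b) (by ring)
  δ_ht a b := x.δ_ht a b
  mc := Matrix.ext fun a b => x.mc_top hj a b

/-- The attaching map. -/
def att : x.low hj ⟶ (one (x.ob j)).sft (x.deg j) :=
  mkHom (Matrix.of fun _ b => x.δ j b) (fun _ b => Bimod.cor_cast (x.δ_mem j b) (by dsimp; ring))
    (by
      rw [Bimod.self_twD, Matrix.zero_mul, add_zero]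
      exact Matrix.ext fun _ b => (congrArg (· + _) (x.mc_top hj j b)).trans (C.two _))

/-- A twisted complex is the cone of the attaching map. -/
def attIso : x ≅ cn (x.att hj) :=
  reIso ((Equiv.optionEquivSumPUnit _).symm.trans (Equiv.optionSubtypeNe j))
    (by rintro (i | i) <;> rfl) (by rintro (i | i) <;> simp) (by
      ext (a | a) (b | b)
      · rfl
      · exact (x.δ_ht a j (hj a).not_gt).symm
      · rfl
      · exact (x.δ_ht j j (lt_irrefl _)).symm)

omit hj in
theorem devissage {D : Type*} [Category D] [Preadditive D] [HasZeroObject D] [HasShift D ℤ]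
    [∀ n : ℤ, (shiftFunctor D n).Additive] [Pretriangulated D] (G : Tw C ⥤ D) [G.CommShift ℤ]
    [G.Additive] (hG : ∀ {x y : Tw C} (f : x ⟶ y), G.mapTriangle.obj
      (Triangle.mk f (cnInr f) (cnFst f : cn f ⟶ x⟦(1 : ℤ)⟧)) ∈ distTriang D)
    (P : ObjectProperty D) [P.IsTriangulated] [P.IsClosedUnderIsomorphisms]
    (h : ∀ o, P (G.obj (one o))) : P (G.obj x) := by
  induction hn : Fintype.card x.I using Nat.strong_induction_on generalizing x with | _ n ih =>
  cases isEmpty_or_nonempty x.I with
  | inl _ =>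
    exact P.prop_of_isZero (G.map_isZero ((IsZero.iff_id_eq_zero x).2
      (Subtype.ext (Matrix.ext fun i => isEmptyElim i))))
  | inr _ =>
    obtain ⟨j, hj⟩ := Finite.exists_max x.ht
    refine P.prop_of_iso (G.mapIso (x.attIso hj)).symm
      (P.ext_of_isTriangulatedClosed₃ _ (hG (x.att hj)) (ih _ ?_ (x.low hj) rfl) ?_)
    · exact hn ▸ Fintype.card_subtype_lt (x := j) (by simp)
    · exact P.prop_of_iso ((G.commShiftIso (x.deg j)).app (one (x.ob j))).symm
        (P.le_shift _ _ (h _))

end Tw
end FMD
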