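import Pool.Agent.MP_0e6a9f_ag.H36.LemH
import Pool.Agent.MP_0e6a9f_ag.H36.Res

/-! Bounded, flat and almost finitely generated differential modules. -/

set_option linter.unusedSectionVars false

open CategoryTheory Limits

noncomputable section
namespace FMD
open DG

section flat
variable {R : Type} [CommRing R] (I : Ideal R) (x : R) (V : Type) [AddCommGroup V] [Module R V]

/-- `V[1/x]` is a flat `R / I`-module. -/
def Fl : Prop := ∃ h : Module.IsTorsionBySet R V I, letI := h.module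
  Module.Flat (R ⧸ I) (LocalizedModule (.powers (Ideal.Quotient.mk I x)) V)

variable {I x V}

lemma Fl.of_maps {J : Type} [Fintype J] {W : J → Type} [∀ j, AddCommGroup (W j)]
    [∀ j, Module R (W j)] (p : ∀ j, V →ₗ[R] W j) (s : ∀ j, W j →ₗ[R] V)
    (tot : ∀ v, ∑ j, s j (p j v) = v) (h0 : Module.IsTorsionBySet R V I) (h : ∀ j, Fl I x (W j)) :
    Fl I x V := by
  classical
  choose h1 h2 using h
  let := h0.module
  let := fun j => (h1 j).module
  have : IsScalarTower R (R ⧸ I) V := h0.isScalarTower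
  have : ∀ j, IsScalarTower R (R ⧸ I) (W j) := fun j => (h1 j).isScalarTower
  let S := Submonoid.powers (Ideal.Quotient.mk I x)
  have : ∀ j, Module.Flat (R ⧸ I) (LocalizedModule S (W j)) := h2
  have hs : Function.Surjective (algebraMap R (R ⧸ I)) := Ideal.Quotient.mk_surjective
  have := Module.Flat.of_linearEquiv
    (DirectSum.linearEquivFunOnFintype (R ⧸ I) J fun j => LocalizedModule S (W j)).symm
  refine ⟨h0, Module.Flat.of_retract (M := ∀ j, LocalizedModule S (W j))
    (LinearMap.pi fun j => IsLocalizedModule.map S (LocalizedModule.mkLinearMap S V)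
      (LocalizedModule.mkLinearMap S _) ((p j).extendScalarsOfSurjective hs))
    (∑ j, IsLocalizedModule.map S (LocalizedModule.mkLinearMap S _) (LocalizedModule.mkLinearMap S V)
      ((s j).extendScalarsOfSurjective hs) ∘ₗ LinearMap.proj j)
    (IsLocalizedModule.linearMap_ext S (LocalizedModule.mkLinearMap S V)
      (LocalizedModule.mkLinearMap S V) (LinearMap.ext fun m => ?_))⟩
  simp only [LinearMap.comp_apply, LinearMap.sum_apply, LinearMap.proj_apply, LinearMap.pi_apply,
    IsLocalizedModule.map_apply, LinearMap.id_apply, ← map_sum]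
  exact congrArg _ (tot m)

lemma Fl.of_cyc (h : Module.IsTorsionBySet R V I) (e : V)
    (surj : ∀ v, ∃ (k : ℕ) (r : R), x ^ k • v = r • e)
    (ker : ∀ r : R, r • e = 0 → ∃ k : ℕ, x ^ k * r ∈ I) : Fl I x V := by
  let := h.module
  let S := Submonoid.powers (Ideal.Quotient.mk I x)
  have sm : ∀ (r : R) (v : V), Ideal.Quotient.mk I r • v = r • v := fun _ _ => rfl
  have : IsLocalizedModule S (LocalizedModule.mkLinearMap S V ∘ₗ
      LinearMap.toSpanSingleton (R ⧸ I) V e) :=
    { map_units := IsLocalizedModule.map_units (LocalizedModule.mkLinearMap S V)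
      surj := fun w => by
        obtain ⟨⟨v, s⟩, hv⟩ := IsLocalizedModule.surj S (LocalizedModule.mkLinearMap S V) w
        obtain ⟨k, r, hr⟩ := surj v
        refine ⟨(Ideal.Quotient.mk I r, ⟨_, k, rfl⟩ * s), ?_⟩
        rw [mul_smul, hv, Submonoid.smul_def, ← map_smul]
        exact congrArg _ (show Ideal.Quotient.mk I x ^ k • v = r • e by rw [← map_pow, sm, hr])
      exists_of_eq := fun {a b} hab => by
        obtain ⟨a, rfl⟩ := Ideal.Quotient.mk_surjective a
        obtain ⟨b, rfl⟩ := Ideal.Quotient.mk_surjective b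
        obtain ⟨⟨_, k, rfl⟩, hk⟩ := IsLocalizedModule.exists_of_eq (S := S)
          (f := LocalizedModule.mkLinearMap S V) hab
        obtain ⟨l, hl⟩ := ker (x ^ k * (a - b)) (by
          rw [mul_smul, sub_smul, smul_sub, sub_eq_zero, ← sm (x ^ k), ← sm (x ^ k), map_pow]
          exact hk)
        refine ⟨⟨_, l + k, rfl⟩, ?_⟩
        change Ideal.Quotient.mk I x ^ (l + k) * _ = Ideal.Quotient.mk I x ^ (l + k) * _
        rw [← map_pow, ← map_mul, ← map_mul, Ideal.Quotient.eq, ← mul_sub, pow_add, mul_assoc]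
        exact hl }
  have := Module.Flat.of_isLocalizedModule (Localization S) S
    (LocalizedModule.mkLinearMap S V ∘ₗ LinearMap.toSpanSingleton (R ⧸ I) V e)
  exact ⟨h, Module.Flat.trans _ (Localization S) _⟩

end flat

variable {K G R R' : Type} [Field K] [CharP K 2] [AddCommGroup G] [CommRing R]
  [Algebra K R] [CommRing R'] [Algebra K R'] {A : G → Submodule K R} {A' : G → Submodule K R'}
  {L M N : DG A}

section perf
variable [SetLike.GradedMonoid A] {I : Ideal R} {xs : List (HE A)}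

/-- Bounded, finitely generated and flat on the charts. -/
structure Perf (I : Ideal R) (xs : List (HE A)) (M : DG A) : Prop where
  kill : Kill I M
  bdd : ∃ s : Set ℤ, s.Finite ∧ ∀ g n, n ∉ s → ∀ m ∈ M.gr g n, m = 0
  fg : ∃ S : Set M.M, S.Finite ∧ (∀ b ∈ S, ∃ g n, b ∈ M.gr g n) ∧
    ∀ y ∈ xs, ∀ g n, ∀ m ∈ M.gr g n, ∃ k : ℕ, y.x ^ k • m ∈ Submodule.span R S
  fl : ∀ y ∈ xs, Fl I y.x M.M

lemma Perf.of_maps {J : Type} [Fintype J] {Q : J → DG A} (p : ∀ j, M.M →ₗ[R] (Q j).M)
    (s : ∀ j, (Q j).M →ₗ[R] M.M) {a a' : J → G} {k k' : J → ℤ}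
    (hp : ∀ j, p j ∈ deg M (Q j) (a j) (k j)) (hs : ∀ j, s j ∈ deg (Q j) M (a' j) (k' j))
    (h : ∀ m, ∑ j, s j (p j m) = m) (hQ : ∀ j, Perf I xs (Q j)) : Perf I xs M := by
  have hk : Kill I M := fun r hr m => by
    rw [← h m, Finset.smul_sum]
    exact Finset.sum_eq_zero fun j _ => by rw [← map_smul, (hQ j).kill r hr, map_zero]
  choose t ht ht' using fun j => (hQ j).bdd
  choose S hS hS' hS'' using fun j => (hQ j).fg
  refine ⟨hk, ⟨⋃ j, (· - k j) '' t j, Set.finite_iUnion fun j => (ht j).image _,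
    fun g n hn m hm => ?_⟩, ⟨⋃ j, s j '' S j, Set.finite_iUnion fun j => (hS j).image _, ?_,
    fun y hy g n m hm => ?_⟩, fun y hy => Fl.of_maps p s h (fun m r => hk r r.2 m)
      fun j => (hQ j).fl y hy⟩
  · rw [← h m]
    exact Finset.sum_eq_zero fun j _ => by
      rw [ht' j _ _ (fun e => hn (Set.mem_iUnion.2 ⟨j, _, e, by simp⟩)) _ (hp j _ _ _ hm), map_zero]
  · intro b hb
    obtain ⟨j, c, hc, rfl⟩ := Set.mem_iUnion.1 hb
    obtain ⟨g, n, e⟩ := hS' j c hc
    exact ⟨_, _, hs j _ _ _ e⟩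
  · choose l hl using fun j => hS'' j y hy _ _ _ (hp j _ _ _ hm)
    refine ⟨Finset.univ.sup l, ?_⟩
    rw [← h m, Finset.smul_sum]
    refine sum_mem fun j _ => ?_
    rw [← Nat.sub_add_cancel (Finset.le_sup (f := l) (Finset.mem_univ j)), pow_add, mul_smul,
      ← map_smul]
    exact Submodule.smul_mem _ _ (Submodule.span_mono (Set.subset_iUnion (fun j => s j '' S j) j)
      (Submodule.apply_mem_span_image_of_mem_span _ (hl j)))

lemma Perf.sh_tg (h : Perf I xs M) (a : G) (k : ℤ) : Perf I xs ((M.tg a).sh k) :=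
  Perf.of_maps (J := Unit) (Q := fun _ => M) (fun _ => LinearMap.id) (fun _ => LinearMap.id)
    (a := fun _ => a) (a' := fun _ => -a) (k := fun _ => k) (k' := fun _ => -k)
    (fun _ _ _ _ h => mem_cast (M := M) h (by abel) rfl)
    (fun _ _ _ _ h => mem_cast (M := M) h (by abel) (by ring)) (by simp) fun _ => h

lemma Rep.IsReal.perf {C : DGR} {T : DG A} {ρ : Rep C T} {x : Tw C} {ι π}
    (H : Rep.IsReal ρ x M ι π) (h : Perf I xs T) : Perf I xs M :=
  Perf.of_maps (Q := fun _ => T) π ι H.hπ H.hι H.sum_apply fun _ => h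

variable [SetLike.GradedMonoid A'] {φ : GH A A'} (H : φ.Chart I xs)
include H

lemma GH.Chart.perf_ring : Perf I xs (φ.res (ring A')) := by
  have key : ∀ y ∈ xs, ∀ g n, ∀ m ∈ (φ.res (ring A')).gr g n, ∃ (k : ℕ) (r : R),
      y.x ^ k • m = r • (show (φ.res (ring A')).M from (1 : R')) := fun y hy g n m hm => by
    by_cases hn : n = 0
    · subst hn
      obtain ⟨k, s, -, e⟩ := H.surj y hy g m hm
      exact ⟨k, s, (φ.pow_smul y k m).trans (e.trans (mul_one _).symm)⟩
    · exact ⟨0, 0, by rw [pow_zero, one_smul, zero_smul]; exact eq_zero_of_mem_ring (A := A') hm hn⟩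
  refine ⟨H.kill_res _, ⟨{0}, Set.finite_singleton _, fun g n hn m hm =>
    eq_zero_of_mem_ring (A := A') hm hn⟩, ⟨{(1 : R')}, Set.finite_singleton _, ?_,
    fun y hy g n m hm => ?_⟩, fun y hy => Fl.of_cyc (fun m r => H.kill_res _ r r.2 m) (1 : R')
      (fun v => ?_) fun r hr => H.ker y hy r ((mul_one _).symm.trans hr)⟩
  · rintro _ rfl
    exact ⟨0, 0, one_mem_ring (A := A')⟩
  · obtain ⟨k, r, e⟩ := key y hy g n m hm
    exact ⟨k, e ▸ Submodule.smul_mem _ _ (Submodule.subset_span rfl)⟩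
  · induction H.span v using AddSubgroup.iSup_induction' with
    | hp p v hv => exact key y hy _ _ v hv
    | h1 => exact key y hy 0 0 0 (zero_mem _)
    | hadd v w _ _ hv hw =>
      obtain ⟨k, r, e⟩ := hv
      obtain ⟨l, t, e'⟩ := hw
      exact ⟨l + k, y.x ^ l * r + y.x ^ k * t, by
        rw [add_smul, mul_smul, mul_smul, ← e, ← e', smul_smul, smul_smul, ← pow_add,
          ← pow_add, add_comm k l]
        exact smul_add _ _ _⟩

lemma GH.Chart.perf {T : DG A'} {J : Type} [Fintype J] [DecidableEq J] {a : J → G} {n : J → ℤ}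
    {p : J → T.M →ₗ[R'] R'} {s : J → T.M} (hT : Free T a n p s) : Perf I xs (φ.res T) :=
  have P := φ.pieces hT.pieces
  Perf.of_maps _ _ P.hp P.hs (fun m => by simpa using LinearMap.congr_fun P.tot m)
    fun j => H.perf_ring.sh_tg (-a j) (-n j)

end perf

variable [DecidableEq G] [GradedAlgebra A] {I : HomogeneousIdeal A} {xs : List (HE A)}
  {X : Type} {c : X → R}

lemma smul_mem_iSup (r : R) {u : M.M} (hu : u ∈ ⨆ p : G × ℤ, M.gr p.1 p.2) :
    r • u ∈ ⨆ p : G × ℤ, M.gr p.1 p.2 := by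
  induction r using DirectSum.Decomposition.inductionOn A with
  | zero => rw [zero_smul]; exact zero_mem _
  | add r s hr hs => rw [add_smul]; exact add_mem hr hs
  | @homogeneous g r =>
    induction hu using AddSubgroup.iSup_induction' with
    | hp p v hv => exact AddSubgroup.mem_iSup_of_mem (g + p.1, p.2) (M.smul_mem r.2 hv)
    | h1 => rw [smul_zero]; exact zero_mem _
    | hadd v w _ _ hv hw => rw [smul_add]; exact add_mem hv hw

lemma bdd_toCx (hM : KI I M) {s : Set ℤ} (hs : s.Finite)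
    (h : ∀ g n, n ∉ s → ∀ m ∈ M.gr g n, m = 0) : Bdd (toCx hM) :=
  hs.subset fun n hn => by_contra fun e => hn ((IsZero.iff_id_eq_zero _).2
    (sl_ext hM hM fun g m hm => by simpa using h g n e m hm))

lemma Perf.flatCx (h : Perf I.toIdeal xs M) (h' : M.Hon) (hx : Charts c xs) :
    FlatCx I c (toCx h.kill) := by
  obtain ⟨s, hs, hs'⟩ := h.bdd
  refine ⟨bdd_toCx _ hs hs', fun n i => ?_⟩
  obtain ⟨y, hy, e⟩ := hx.sub i
  let E := LinearEquiv.ofBijective _ (epsM_bij h.kill h')
  exact (Fl.of_maps (J := Unit) (fun _ => E.toLinearMap ∘ₗ tin (toCx h.kill) n)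
    (fun _ => tout (toCx h.kill) n ∘ₗ E.symm.toLinearMap) (fun v => by simp)
    (fun m r => ((toCx h.kill).X n).obj.kill r r.2 m) fun _ => e ▸ h.fl y hy).2

lemma Perf.db (h : Perf I.toIdeal xs M) (h' : M.Hon) (hx : Charts c xs) :
    Db I c ((Q I c).obj (toCx h.kill)) := by
  obtain ⟨s, hs, hs'⟩ := h.bdd
  obtain ⟨S, hS, hS', hS''⟩ := h.fg
  let N := Submodule.span R (S ∪ M.d '' S)
  have hN : ∀ m ∈ N, M.d m ∈ N := fun m hm => Submodule.span_le (p := N.comap M.d) |>.2 (by
    rintro b (hb | ⟨b, -, rfl⟩)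
    · exact Submodule.subset_span (Or.inr ⟨b, hb, rfl⟩)
    · exact show M.d (M.d b) ∈ N from M.d_d b ▸ zero_mem _) hm
  have hk : KI I (M.sub N hN) := h.kill.of_inj N.subtype Subtype.val_injective
  have hh : (M.sub N hN).Hon := by
    refine ⟨fun ⟨m, hm⟩ => ?_, ind_of_maps (J := Unit) (Q := fun _ => M) (fun _ => N.subtype)
      (a := 0) (k := 0) (fun _ _ _ _ h => mem_cast (M := M) h (by simp) (by simp))
      (fun m hm => Subtype.ext (hm ())) fun _ => h'.ind⟩
    induction hm using Submodule.span_induction with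
    | mem b hb =>
      rcases hb with hb | ⟨b, hb, rfl⟩ <;> obtain ⟨g, n, e⟩ := hS' b hb
      exacts [AddSubgroup.mem_iSup_of_mem (g, n) e,
        AddSubgroup.mem_iSup_of_mem (g, n + 1) (M.d_mem e)]
    | zero => exact zero_mem _
    | add _ _ _ _ a b => exact add_mem a b
    | smul r _ _ a => exact smul_mem_iSup (M := M.sub N hN) r a
  have hW : IsW xs (M.sub N hN) M N.subtype := (sub_ses N hN).isW_i (by
    rintro y hy g - n _ ⟨m, hm, rfl⟩ -
    obtain ⟨k, e⟩ := hS'' y hy g n m hm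
    exact ⟨k, bd_cast (Cx.Bd.zero n) rfl ((Submodule.Quotient.mk_eq_zero N).2
      (Submodule.span_mono Set.subset_union_left e)).symm⟩)
  have := isIso_dm hk h.kill hx hW
  have : Module.Finite R (M.sub N hN).M := Module.Finite.span_of_finite R (hS.union (hS.image _))
  refine ⟨toCx hk, bdd_toCx hk hs fun g n hn m hm => Subtype.ext (hs' g n hn _ hm), fun n => ?_,
    ⟨asIso (dm hk h.kill c hW.isHom)⟩⟩
  let E := LinearEquiv.ofBijective _ (epsM_bij hk hh)
  exact Module.Finite.of_surjective (tout (toCx hk) n ∘ₗ E.symm.toLinearMap)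
    fun u => ⟨E (tin (toCx hk) n u), by simp⟩

end FMD
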