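import Pool.Agent.MP_0e6a9f_ag.H36.IV
import Pool.Agent.MP_0e6a9f_ag.H36.Perf
import Pool.Agent.MP_0e6a9f_ag.H32.GeoSpec
import Pool.Agent.MP_0e6a9f_ag.H32.Fin
import Pool.Agent.MP_0e6a9f_ag.H68.Goal

/-! From the algebra and the geometry to the final statement. -/

set_option backward.isDefEq.respectTransparency false
set_option linter.unusedSectionVars false

open CategoryTheory Limits MulOpposite

noncomputable section
namespace FMD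
open DG

section cat
variable {B V D D' : Type*} [Category B] [Category V] [Category D] [Category D']

lemma whisker_lift (T : B ⥤ V) (Q : V ⥤ D) {P : ObjectProperty V} (h : ∀ Z, P (T.obj Z))
    {h' : ∀ X : P.FullSubcategory, (T ⋙ Q).essImage ((P.ι ⋙ Q).obj X)}
    {W : (T ⋙ Q).essImage.FullSubcategory ⥤ D'} {Ψ : V ⥤ D'}
    (τ : (T ⋙ Q).essImage.lift (P.ι ⋙ Q) h' ⋙ W ≅ P.ι ⋙ Ψ) :
    Nonempty ((T ⋙ Q).toEssImage ⋙ W ≅ T ⋙ Ψ) := ⟨Functor.isoWhiskerLeft (P.lift T h) τ⟩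

lemma transfer (G : B ⥤ D) [G.Full] (H : B ⥤ D') {P : ObjectProperty D'}
    [P.IsClosedUnderIsomorphisms] (F : G.essImage.FullSubcategory ⥤ P.FullSubcategory)
    [F.IsEquivalence] (e : G.toEssImage ⋙ F ⋙ P.ι ≅ H) : H.Full ∧
      (∀ {y z} (g g' : y ⟶ z), H.map g = H.map g' → G.map g = G.map g') ∧ H.essImage = P := by
  refine ⟨Functor.Full.of_iso e, fun g g' h => congrArg G.essImage.ι.map
    ((F ⋙ P.ι).map_injective (X := G.toEssImage.obj _) (Y := G.toEssImage.obj _)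
      ((cancel_mono (e.hom.app _)).1 ((e.hom.naturality g).trans
        ((congrArg _ h).trans (e.hom.naturality g').symm)))), le_antisymm
    (fun Y ⟨x, ⟨i⟩⟩ => P.prop_of_iso (e.app x ≪≫ i) (F.obj _).property) fun Y hY => ?_⟩
  exact ⟨_, ⟨(e.app _).symm ≪≫ P.ι.mapIso ((G.toEssImage ⋙ F).objObjPreimageIso ⟨Y, hY⟩)⟩⟩

lemma equiv_congr (K : Type) [Field K] [Preadditive D] [HasZeroObject D] [HasShift D ℤ]
    [∀ n : ℤ, (shiftFunctor D n).Additive] [Pretriangulated D] [Linear K D] [Preadditive D']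
    [HasZeroObject D'] [HasShift D' ℤ] [∀ n : ℤ, (shiftFunctor D' n).Additive] [Pretriangulated D']
    [Linear K D'] {P Q : ObjectProperty D} {P' Q' : ObjectProperty D'} (e : P = Q) (e' : P' = Q')
    (h : ∃ (_ : P.IsTriangulated) (_ : P'.IsTriangulated)
      (F : P.FullSubcategory ⥤ P'.FullSubcategory) (_ : F.CommShift ℤ),
      F.IsEquivalence ∧ F.IsTriangulated ∧ F.Linear K) :
    ∃ (_ : Q.IsTriangulated) (_ : Q'.IsTriangulated)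
      (F : Q.FullSubcategory ⥤ Q'.FullSubcategory) (_ : F.CommShift ℤ),
      F.IsEquivalence ∧ F.IsTriangulated ∧ F.Linear K := by
  subst e e'; exact h

end cat

variable {K : Type} [Field K] [CharP K 2]

section img
variable {G R G' R' : Type} [AddCommGroup G] [DecidableEq G] [CommRing R]
  [Algebra K R] {A : G → Submodule K R} [GradedAlgebra A] {I : HomogeneousIdeal A}
  [AddCommGroup G'] [DecidableEq G'] [CommRing R'] [Algebra K R'] {A' : G' → Submodule K R'}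
  [GradedAlgebra A'] {I' : HomogeneousIdeal A'} {T : DG A} {T' : DG A'} {C C' : DGR}
  {Φ : CochainComplex (GrMod A I) ℤ ⥤ CochainComplex (GrMod A' I') ℤ} (cf : CF K Φ)
  (ρ : Rep C T) (hC : C.Span) (hT : KH I T) (xs : List (HE A'))

namespace Rep

lemma IsReal.iso_nat {ρ : Rep C T} {x y : Tw C} {M M' N N' : DG A} {ι π ι' π' κ μ κ' μ'}
    (H₁ : IsReal ρ x M ι π) (H₁' : IsReal ρ x M' ι' π') (H₂ : IsReal ρ y N κ μ)
    (H₂' : IsReal ρ y N' κ' μ') (hM : KI I M) (hM' : KI I M') (hN : KI I N) (hN' : KI I N')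
    (f : x ⟶ y) : toMap hM hN (H₁.rmap_isHom H₂ f) ≫ (H₂.iso H₂' hN hN').hom =
      (H₁.iso H₁' hM hM').hom ≫ toMap hM' hN' (H₁'.rmap_isHom H₂' f) :=
  (toMap_comp hM hN hN' _ (H₂.rmap_isHom H₂' (𝟙 y))).symm.trans ((toMap_congr _ _ _ _
    ((H₂.rmap_mul (Tw.hom_mem f) κ' y.idm).symm.trans ((congrArg _ (Tw.idm_comm f)).trans
      (H₁'.rmap_mul x.idm_mem κ' f.1)))).trans (toMap_comp hM hM' hN' (H₁.rmap_isHom H₁' (𝟙 x)) _))

/-- The image of a representation under `Φ`, made local. -/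
abbrev img : Rep C ((cechF xs).obj (cf.pf.obj T hT)) := (ρ.map hC cf.pf hT).mapF (cechF xs)

include hT in
lemma kh_real (x : Tw C) : KH I (ρ.real x) :=
  ⟨ρ.ki_real hT.1 x, (ρ.isReal_real x).pieces.hon fun _ => hT.2.sh _⟩

lemma sl_img (M : DG A) (hM : KH I M) : SL xs I'.toIdeal ((cechF xs).obj (cf.pf.obj M hM)) :=
  sl_cech (ki_ofCx _)

lemma isReal_img (x : Tw C) : IsReal (img cf ρ hC hT xs) x
    ((cechF xs).obj (cf.pf.obj _ (ρ.kh_real hT x)))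
    (fun i => (cechF xs).map _ _ (cf.pf.map hT (ρ.kh_real hT x) (ρ.realι x i)))
    fun i => (cechF xs).map _ _ (cf.pf.map (ρ.kh_real hT x) hT (ρ.realπ x i)) :=
  ((ρ.isReal_real x).map hC cf.pf hT _).mapF _

/-- The comparison map. -/
def imgT : ρ.toC hT.1 ⋙ Φ ⟶ (img cf ρ hC hT xs).toC (sl_img cf xs T hT).kill where
  app x := (kapIso _).inv ≫ toMap (ki_ofCx _) (sl_img cf xs _ (ρ.kh_real hT x)).kill
    ((cechEta xs).isHom _) ≫ ((isReal_img cf ρ hC hT xs x).iso (isReal_real _ x) _ _).hom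
  naturality x y f := by
    have e := cf.pf_nat (ρ.kh_real hT x) (ρ.kh_real hT y) (ρ.rm_isHom f)
    rw [← Iso.eq_comp_inv, Category.assoc, ← Iso.inv_comp_eq] at e
    have e' : toMap (ki_ofCx _) (ki_ofCx _) (cf.pf.isHom (ρ.kh_real hT x) (ρ.kh_real hT y)
        (ρ.rm_isHom f)) ≫ toMap (ki_ofCx _) (sl_img cf xs _ (ρ.kh_real hT y)).kill
          ((cechEta xs).isHom _) = toMap (ki_ofCx _) (sl_img cf xs _ (ρ.kh_real hT x)).kill
            ((cechEta xs).isHom _) ≫ toMap _ _ ((isReal_img cf ρ hC hT xs x).rmap_isHom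
              (isReal_img cf ρ hC hT xs y) f) :=
      (toMap_comp _ _ _ _ _).symm.trans ((toMap_congr _ _ _ _ (LinearMap.ext fun m =>
        ((cechEta xs).nat _ _ _ m).trans (LinearMap.congr_fun ((congrArg _ ((ρ.isReal_real x).map_rmap
          (ρ.isReal_real y) hC cf.pf hT _ _ f.1)).trans (mapF_rmap _ _ _ _ _)) _))).trans
            (toMap_comp _ _ _ _ _))
    refine (Category.assoc _ _ _).symm.trans ((congrArg (· ≫ _) e.symm).trans ?_)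
    rw [Category.assoc, Category.assoc, Category.assoc, reassoc_of% e',
      (isReal_img cf ρ hC hT xs x).iso_nat (isReal_real _ x)]
    rfl

variable {xs} {X : Type} {c : X → R'} (hx : Charts c xs)

/-- `Φ` on realizations is the realization functor of the image. -/
def imgIso : ρ.toC hT.1 ⋙ Φ ⋙ Q I' c ≅ (img cf ρ hC hT xs).toD (sl_img cf xs T hT).kill c :=
  have : ∀ x, IsIso ((Functor.whiskerRight (imgT cf ρ hC hT xs) (Q I' c)).app x) := fun x => by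
    have := isIso_dm (ki_ofCx _) (sl_img cf xs _ (ρ.kh_real hT x)).kill hx (cechEta_isW xs _)
    change IsIso ((Q I' c).map (_ ≫ _ ≫ _))
    rw [Functor.map_comp, Functor.map_comp]
    infer_instance
  have := NatIso.isIso_of_isIso_app (Functor.whiskerRight (imgT cf ρ hC hT xs) (Q I' c))
  asIso (Functor.whiskerRight (imgT cf ρ hC hT xs) (Q I' c))

include hx hC cf in
theorem not_iso [Algebra K C.B] [Algebra K C'.B] {ys : List (HE A)} {Y : Type} {b : Y → R}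
    (hy : Charts b ys) (H : FF I ys ρ) {ρ' : Rep C' T'} (H' : FF I' xs ρ') (hC' : C'.Span)
    (lin : ∀ a, ρ.ρ (algebraMap K C.B a) = algebraMap K R a • LinearMap.id)
    (lin' : ∀ a, ρ'.ρ (algebraMap K C'.B a) = algebraMap K R' a • LinearMap.id) {x : Tw C'}
    (nov : NoV K C' C x) (F : (ρ.toD H.ki b).essImage.FullSubcategory ⥤
      (ρ'.toD H'.ki c).essImage.FullSubcategory) [F.IsEquivalence]
    (e : (ρ.toD H.ki b).toEssImage ⋙ F ⋙ ObjectProperty.ι _ ≅ ρ.toC H.ki ⋙ Φ ⋙ Q I' c) : False := by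
  have hT : KH I T := ⟨H.ki, H.hon⟩
  have h₁ := (hon_ofCx (Φ.obj (toCx hT.1))).cech xs
  have h₂ := sl_img cf xs T hT
  have := H.full hy
  obtain ⟨_, hk, he⟩ := transfer _ _ F (e ≪≫ imgIso cf ρ hC hT hx)
  obtain ⟨X₀, ⟨i₀⟩⟩ : (ρ'.toD H'.ki c).essImage _ := he ▸ Functor.obj_mem_essImage _ (Tw.tot C)
  obtain ⟨Z, ⟨i⟩⟩ : ((img cf ρ hC hT xs).toD h₂.kill c).essImage _ :=
    he ▸ Functor.obj_mem_essImage _ x
  obtain ⟨φ₀, m₀, d₀, e₀⟩ := bt_surj hx H' h₁ h₂ i₀.hom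
  obtain ⟨φ, m, d, e⟩ := bt_surj hx H' h₁ h₂ i.inv
  have : IsIso (bt H'.ki h₂.kill c m₀ d₀) := e₀ ▸ inferInstance
  have : IsIso (bt H'.ki h₂.kill c m d) := e ▸ inferInstance
  refine nov.elim hC' hC _ (ind_deg H'.hon.span h₁) (fun a v => ?_) m₀ d₀
    (rmul_qis hx H' h₁ h₂ m₀ d₀ _) (lmul_qis hx H' h₁ h₂ m₀ d₀ (fun g hg => (H.map_eq_zero hy g).1
      ((hk g 0 (hg.trans (Functor.map_zero _ _ _).symm)).trans (Functor.map_zero _ _ _))) _) m d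
    ((rmul_qis hx H' h₁ h₂ m d x).inj _)
  change v ∘ₗ ρ'.ρ _ = (cechF xs).map _ _ (cf.pf.map hT hT (ρ.ρ _)) ∘ₗ v
  rw [lin, unop_op, lin', cf.pf.map_smul _ _ _ (mem_pres (IsHom.id T).deg), cf.pf.map_id, map_smul,
    DGF.map_id, LinearMap.comp_smul, LinearMap.smul_comp, LinearMap.comp_id, LinearMap.id_comp]

end Rep
end img

end FMD

namespace FMX.Geo
open FMD FMD.DG
variable {K : Type} [Field K] [CharP K 2] {C : DGR} [Algebra K C.B] (Γ : Geo K C)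

/-- The representation over the polynomial ring. -/
abbrev rep : Rep C (Γ.φ.res Γ.T) := Γ.φ.rep Γ.ρ

lemma charts : Charts Γ.X.x Γ.xs := ⟨Γ.sub, Γ.sup⟩

lemma ff : Rep.FF Γ.X.I Γ.xs Γ.rep := by
  obtain ⟨J, _, _, a, n, p, s, h⟩ := Γ.free
  exact ⟨Γ.chart.kill_res _, Γ.φ.hon (h.pieces.hon fun _ => (Γ.hon.tg _).sh _), Γ.chart.kp h,
    Γ.chart.unit_qis h Γ.ρ Γ.isW Γ.isLocal Γ.qis⟩

lemma perf (x : Tw C) : Perf Γ.X.I.toIdeal Γ.xs (Γ.rep.real x) := by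
  obtain ⟨J, _, _, a, n, p, s, h⟩ := Γ.free
  exact (Γ.rep.isReal_real x).perf (Γ.chart.perf h)

lemma lin' (a : K) : Γ.rep.ρ (algebraMap K C.B a) = algebraMap K Γ.X.S a • LinearMap.id :=
  (congrArg (Γ.φ.map _ _) (Γ.lin a)).trans (Γ.φ.map_algebraMap a _)

/-- The realization functor. -/
abbrev G : Tw C ⥤ D Γ.X.I Γ.X.x := Γ.rep.toD Γ.ff.ki Γ.X.x

lemma adm [C.KL K] {ht : C.O → ℕ} (h : Directed K C ht) [Γ.G.essImage.IsTriangulated] :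
    Adm _ _ Γ.G.essImage := by
  have := Γ.ff.full Γ.charts
  refine Γ.reg.adm (isExc_one Γ.G h) _ (fun Y ⟨x, ⟨e⟩⟩ => ?_) (fun o => Γ.G.obj_mem_essImage _)
    fun P _ _ hS Y ⟨x, ⟨e⟩⟩ => P.prop_of_iso e
      (x.devissage _ (Γ.rep.toD_cone _ _) P fun o => hS _ ⟨o, rfl⟩)
  obtain ⟨P, h1, h2, ⟨i⟩⟩ := (Γ.perf x).db (Γ.ff.hon_real x) Γ.charts
  exact ⟨P, h1, h2, ⟨i ≪≫ e⟩⟩

end FMX.Geo

namespace FMD

theorem goal_of (K : Type) [Field K] [CharP K 2] {C C₀ C₁ : DGR} [Algebra K C₀.B] [C₀.KL K]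
    [Algebra K C₁.B] [C₁.KL K] (g₀ : DHom C C₀) (g₁ : DHom C C₁) {o₀ : C.O → C₀.O}
    {o₁ : C.O → C₁.O} (h₀ : ∀ a, g₀.f (C.e a) = C₀.e (o₀ a)) (h₁ : ∀ a, g₁.f (C.e a) = C₁.e (o₁ a))
    (s₀ : Function.Surjective o₀) (s₁ : Function.Surjective o₁)
    (q₀ : Cx.Qis C.self.cx C₀.self.cx g₀.f.toAddMonoidHom)
    (q₁ : Cx.Qis C.self.cx C₁.self.cx g₁.f.toAddMonoidHom) (Γ₀ : FMX.Geo K C₀) (Γ₁ : FMX.Geo K C₁)
    (p₀ : C₀.Span) (p₁ : C₁.Span) {t₀ t₁} (d₀ : Directed K C₀ t₀) (d₁ : Directed K C₁ t₁)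
    (sc : ∀ (c : K) (X : Tw C), ∃ l ∈ C.self.twGr X X 0, C.self.twD X X l = 0 ∧
      (C₀.self.tw ((g₀.toFun o₀ h₀).tw X) ((g₀.toFun o₀ h₀).tw X)).Bd 0
        (l.map (g₀.toFun o₀ h₀).f + c • ((g₀.toFun o₀ h₀).tw X).idm) ∧
      (C₁.self.tw ((g₁.toFun o₁ h₁).tw X) ((g₁.toFun o₁ h₁).tw X)).Bd 0
        (l.map (g₁.toFun o₁ h₁).f + c • ((g₁.toFun o₁ h₁).tw X).idm))
    {x : Tw C₀} (nov : NoV K C₀ C₁ x) : Goal := by
  have f₀ := Γ₀.ff.pull q₀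
  have f₁ := Γ₁.ff.pull q₁
  have := f₀.full Γ₀.charts
  have := f₁.full Γ₁.charts
  have h := exists_equiv_of_ker ((Γ₁.rep.pull g₁).toD f₁.ki Γ₁.X.x)
    ((Γ₀.rep.pull g₀).toD f₀.ki Γ₀.X.x) K
    (fun f => (f₁.map_eq_zero Γ₁.charts f).trans (f₀.map_eq_zero Γ₀.charts f).symm)
    (fun f => ⟨_, _, _, Rep.toD_cone _ _ _ f, Rep.toD_cone _ _ _ f⟩) fun c X =>
      let ⟨l, a, b, u, v⟩ := sc c X
      ⟨Tw.mkHom l a b, Rep.pull_smul h₁ _ _ (Γ₁.lin' c) _ v, Rep.pull_smul h₀ _ _ (Γ₀.lin' c) _ u⟩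
  have e₁ := h.elim fun i _ => Rep.essImage_pull (ρ := Γ₁.rep) h₁ f₁.ki Γ₁.X.x s₁
  have e₀ := h.elim fun _ h => h.elim fun i _ => Rep.essImage_pull (ρ := Γ₀.rep) h₀ f₀.ki Γ₀.X.x s₀
  obtain ⟨i₁, i₀, h⟩ := equiv_congr K e₁ e₀ h
  refine ⟨K, inferInstance, Γ₁.X, Γ₀.X, _, _, i₁, i₀, Γ₁.smooth, Γ₀.smooth, Γ₁.adm d₁, Γ₀.adm d₀, h,
    fun F _ ⟨E, ⟨τ⟩⟩ => ?_⟩
  obtain ⟨e⟩ := whisker_lift (Γ₁.rep.toC Γ₁.ff.ki) (Q _ Γ₁.X.x) (fun Z =>
    ⟨(Γ₁.perf Z).flatCx (Γ₁.ff.hon_real Z) Γ₁.charts, Γ₁.G.obj_mem_essImage Z⟩) τ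
  exact Rep.not_iso (phiCF E) Γ₁.rep p₁ Γ₀.charts Γ₁.charts Γ₁.ff Γ₀.ff p₀ Γ₁.lin' Γ₀.lin' nov F e

end FMD
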