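import Pool.Agent.MP_0e6a9f_ag.H36.DG

/-! `R`-linear DG endofunctors of the category of differential modules. -/

noncomputable section
namespace FMD
open DG

variable {K G R : Type} [Field K] [AddCommGroup G] [CommRing R] [Algebra K R] [CharP K 2]

/-- A DG functor: it acts on all linear maps, keeps bidegrees and commutes with `homD`. -/
structure DGF (A : G → Submodule K R) where
  obj : DG A → DG A
  map : ∀ M N : DG A, (M.M →ₗ[R] N.M) →ₗ[R] ((obj M).M →ₗ[R] (obj N).M)
  map_id : ∀ M, map M M LinearMap.id = LinearMap.id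
  map_comp : ∀ M N P g f, map M P (g ∘ₗ f) = map N P g ∘ₗ map M N f
  map_deg : ∀ {M N a k f}, f ∈ deg M N a k → map M N f ∈ deg (obj M) (obj N) a k
  map_d : ∀ M N f, homD (obj M) (obj N) (map M N f) = map M N (homD M N f)

namespace DGF
variable {A : G → Submodule K R} (F F' : DGF A) {L M N : DG A} {U : Set G}

/-- The identity. -/
@[reducible] def id (A : G → Submodule K R) : DGF A where
  obj M := M
  map _ _ := LinearMap.id
  map_id _ := rfl
  map_comp _ _ _ _ _ := rfl
  map_deg h := h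
  map_d _ _ _ := rfl

/-- First `F'`, then `F`. -/
@[reducible] def comp : DGF A where
  obj M := F.obj (F'.obj M)
  map M N := F.map _ _ ∘ₗ F'.map M N
  map_id M := (congrArg _ (F'.map_id M)).trans (F.map_id _)
  map_comp M N P g f := (congrArg _ (F'.map_comp M N P g f)).trans (F.map_comp _ _ _ _ _)
  map_deg h := F.map_deg (F'.map_deg h)
  map_d M N f := (F.map_d _ _ _).trans (congrArg _ (F'.map_d M N f))

/-- The shift. -/
@[reducible] def sh (A : G → Submodule K R) (k : ℤ) : DGF A where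
  obj M := M.sh k
  map _ _ := LinearMap.id
  map_id _ := rfl
  map_comp _ _ _ _ _ := rfl
  map_deg {_ N _ _ _} h _ _ _ hm := mem_cast (M := N) (h _ _ _ hm) rfl (by ring)
  map_d _ _ _ := rfl

/-- The twist. -/
@[reducible] def tg (A : G → Submodule K R) (a : G) : DGF A where
  obj M := M.tg a
  map _ _ := LinearMap.id
  map_id _ := rfl
  map_comp _ _ _ _ _ := rfl
  map_deg {_ N _ _ _} h _ _ _ hm := mem_cast (M := N) (h _ _ _ hm) (by abel) rfl
  map_d _ _ _ := rfl

omit [CharP K 2] in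
lemma comp_apply {P : DG A} (g : N.M →ₗ[R] P.M) (f : M.M →ₗ[R] N.M) (m : (F.obj M).M) :
    F.map N P g (F.map M N f m) = F.map M P (g ∘ₗ f) m := by rw [F.map_comp]; rfl

omit [CharP K 2] in
lemma id_apply (m : (F.obj M).M) : F.map M M LinearMap.id m = m := by rw [F.map_id]; rfl

lemma d_apply (f : M.M →ₗ[R] N.M) (m : (F.obj M).M) :
    (F.obj N).d (F.map M N f m) = F.map M N f ((F.obj M).d m) + F.map M N (homD M N f) m := by
  rw [← F.map_d, homD_apply, add_left_comm, DG.two, add_zero]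

lemma isHom {f : M.M →ₗ[R] N.M} (hf : IsHom M N f) : IsHom (F.obj M) (F.obj N) (F.map M N f) :=
  isHom_of (F.map_deg hf.deg) (by rw [F.map_d, hf.homD, map_zero])

lemma isTw {f : M.M →ₗ[R] N.M} (hf : IsTw M N f) : IsTw (F.obj M) (F.obj N) (F.map M N f) :=
  ⟨fun hm => mem_cast (F.map_deg (a := 0) (k := 1)
      (fun _ _ _ h => mem_cast (hf.mem h) (by abel) rfl) _ _ _ hm) (by abel) rfl,
    comm_of_homD (by
      rw [F.map_d, show homD M N f = 0 from LinearMap.ext fun m => by
        rw [homD_apply, hf.comm, N.two]; rfl, map_zero])⟩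

/-- `F` commutes with homotopies and composition, so it acts on the complexes of maps. -/
lemma hom_isMap (M N : DG A) :
    Cx.IsMap (hom M N) (hom (F.obj M) (F.obj N)) (F.map M N).toAddMonoidHom :=
  ⟨F.map_deg, fun _ => F.map_d M N _⟩

lemma ext_ses {f : M.M →ₗ[R] N.M} (hf : IsTw M N f) :
    SESOn U (F.obj N) (F.obj (ext hf)) (F.obj M) (F.map N (ext hf) (LinearMap.inr R M.M N.M))
      (F.map (ext hf) M (LinearMap.fst R M.M N.M)) :=
  sesOn_of_split (F.isHom (ext_inr hf)) (F.isHom (ext_fst hf)) _ _ (F.map_deg (ext_snd_deg hf))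
    (F.map_deg (ext_inl_deg hf)) ((F.map_comp _ _ _ _ _).symm.trans (F.map_id _))
    ((F.map_comp _ _ _ _ _).symm.trans (F.map_id _))
    ((F.map_comp _ _ _ _ _).symm.trans (map_zero _)) (by
      rw [← F.map_comp, ← F.map_comp, ← map_add, ← F.map_id]
      congr 1
      ext <;> simp)

/-- `F` commutes with regradings. -/
lemma mem_of_regrade {M' : DG A} (f : M.M →ₗ[R] M'.M) (f' : M'.M →ₗ[R] M.M) {a : G} {k : ℤ}
    (hf : f ∈ deg M M' a k) (hf' : f' ∈ deg M' M (-a) (-k)) (h : f' ∘ₗ f = LinearMap.id)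
    (h' : f ∘ₗ f' = LinearMap.id) (hd : homD M M' f = 0) {g : G} {n : ℤ}
    (H : ((F.obj M').cx (a + g)).AcycAt (n + k)) : ((F.obj M).cx g).AcycAt n := by
  intro z hz h0
  have hd' : homD M' M f' = 0 := LinearMap.ext fun m => by
    have e1 := comm_of_homD hd (f' m)
    have e2 : f (f' m) = m := LinearMap.congr_fun h' m
    have e3 : f' (f (M.d (f' m))) = M.d (f' m) := LinearMap.congr_fun h _
    rw [homD_apply, ← e3, ← e1, e2, M.two]; rfl
  obtain ⟨w, hw, h1⟩ := H (F.map M M' f z) (F.map_deg hf _ _ _ hz) (by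
    change (F.obj M').d _ = 0
    rw [d_apply, hd, map_zero, show (F.obj M).d z = 0 from h0, map_zero, LinearMap.zero_apply,
      add_zero])
  refine ⟨F.map M' M f' w, mem_cast (F.map_deg hf' _ _ _ hw) (by abel) (by ring), ?_⟩
  change (F.obj M).d _ = z
  rw [d_apply, hd', map_zero, show (F.obj M').d w = _ from h1, comp_apply, h, id_apply,
    LinearMap.zero_apply, add_zero]

lemma acycOn_sh (k : ℤ) : AcycOn U (F.obj (M.sh k)) ↔ AcycOn U (F.obj M) :=
  ⟨fun h g hg n => F.mem_of_regrade (M := M) (M' := M.sh k) (a := 0) (k := -k) LinearMap.id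
      LinearMap.id (fun _ _ _ h => mem_cast (M := M) h (by abel) (by ring))
      (fun _ _ _ h => mem_cast (M := M) h (by abel) (by ring)) rfl rfl (IsHom.id M).homD
      ((zero_add g).symm ▸ h g hg _),
    fun h g hg n => F.mem_of_regrade (M := M.sh k) (M' := M) (a := 0) (k := k) LinearMap.id
      LinearMap.id (fun _ _ _ h => mem_cast (M := M) h (by abel) (by ring))
      (fun _ _ _ h => mem_cast (M := M) h (by abel) (by ring)) rfl rfl (IsHom.id M).homD
      ((zero_add g).symm ▸ h g hg _)⟩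

lemma acyc_tg (a g : G) : ((F.obj (M.tg a)).cx g).Acyc ↔ ((F.obj M).cx (g + a)).Acyc :=
  ⟨fun h n => F.mem_of_regrade (M := M) (M' := M.tg a) (a := -a) (k := 0) LinearMap.id
      LinearMap.id (fun _ _ _ h => mem_cast (M := M) h (by abel) (by ring))
      (fun _ _ _ h => mem_cast (M := M) h (by abel) (by ring)) rfl rfl (IsHom.id M).homD
      ((show g = -a + (g + a) by abel) ▸ h _),
    fun h n => F.mem_of_regrade (M := M.tg a) (M' := M) (a := a) (k := 0) LinearMap.id
      LinearMap.id (fun _ _ _ h => mem_cast (M := M) h (by abel) (by ring))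
      (fun _ _ _ h => mem_cast (M := M) h (by abel) (by ring)) rfl rfl (IsHom.id M).homD
      (add_comm g a ▸ h _)⟩

/-- `F` commutes with cones. -/
lemma cone_qis {f : M.M →ₗ[R] N.M} (hf : IsHom M N f) :
    QisOn U (F.obj (cone hf)) (cone (F.isHom hf))
      ((F.map (cone hf) M (LinearMap.fst R M.M N.M)).prod
        (F.map (cone hf) N (LinearMap.snd R M.M N.M))) := by
  have h1 : LinearMap.fst R M.M N.M ∈ deg (cone hf) M 0 1 :=
    fun _ _ _ h => mem_cast (M := M) h.1 (by abel) rfl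
  have h2 : LinearMap.inl R M.M N.M ∈ deg M (cone hf) 0 (-1) :=
    fun _ _ _ h => ⟨mem_cast (M := M) h (by abel) (by ring), zero_mem _⟩
  have tot : ∀ v, F.map M (cone hf) (LinearMap.inl R M.M N.M)
      (F.map (cone hf) M (LinearMap.fst R M.M N.M) v) + F.map N (cone hf) (LinearMap.inr R M.M N.M)
      (F.map (cone hf) N (LinearMap.snd R M.M N.M) v) = v := fun v => by
    rw [comp_apply, comp_apply, ← LinearMap.add_apply, ← map_add]
    refine Eq.trans ?_ (F.id_apply v)
    congr 2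
    ext <;> simp
  have hh : IsHom (F.obj (cone hf)) (cone (F.isHom hf))
      ((F.map (cone hf) M (LinearMap.fst R M.M N.M)).prod
        (F.map (cone hf) N (LinearMap.snd R M.M N.M))) :=
    ⟨fun h => ⟨mem_cast (M := F.obj M) (F.map_deg h1 _ _ _ h) (by abel) rfl,
      mem_cast (F.map_deg (ext_snd_deg hf.coneTw) _ _ _ h) (by abel) (by ring)⟩, fun v =>
      Prod.ext (by
        change (F.obj M).d (F.map (cone hf) M _ v) = F.map _ _ _ _
        rw [d_apply,
          show homD (cone hf) M (LinearMap.fst R M.M N.M) = 0 from (ext_fst hf.coneTw).homD,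
          map_zero, LinearMap.zero_apply, add_zero]) (by
        change F.map M N f (F.map (cone hf) M _ v) + (F.obj N).d (F.map (cone hf) N _ v) =
          F.map _ _ _ _
        rw [d_apply, homD_snd hf.coneTw, comp_apply, add_left_comm, DG.two, add_zero])⟩
  refine ⟨hh, fun g _ => Cx.Qis.of_bij (hh.cx g) (fun n v _ h => ?_) ?_⟩
  · obtain ⟨e1, e2⟩ := Prod.ext_iff.1 h
    rw [← tot v, show F.map (cone hf) M (LinearMap.fst R M.M N.M) v = 0 from e1,
      show F.map (cone hf) N (LinearMap.snd R M.M N.M) v = 0 from e2, map_zero, map_zero, add_zero]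
  · rintro n ⟨u, v⟩ ⟨hu, hv⟩
    refine ⟨F.map M (cone hf) (LinearMap.inl R M.M N.M) u +
      F.map N (cone hf) (LinearMap.inr R M.M N.M) v, add_mem
        (mem_cast (F.map_deg h2 _ _ _ hu) (by abel) (by ring))
        ((F.isHom (ext_inr hf.coneTw)).mem hv), Prod.ext ?_ ?_⟩
    · change F.map (cone hf) M _ (_ + _) = u
      rw [map_add, comp_apply, comp_apply, LinearMap.fst_comp_inl, LinearMap.fst_comp_inr, id_apply,
        map_zero, LinearMap.zero_apply, add_zero]
    · change F.map (cone hf) N _ (_ + _) = v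
      rw [map_add, comp_apply, comp_apply, LinearMap.snd_comp_inl, LinearMap.snd_comp_inr, id_apply,
        map_zero, LinearMap.zero_apply, zero_add]

lemma qisOn_iff {f : M.M →ₗ[R] N.M} (hf : IsHom M N f) :
    QisOn U (F.obj M) (F.obj N) (F.map M N f) ↔ AcycOn U (F.obj (cone hf)) :=
  (qisOn_iff_cone (F.isHom hf)).trans ⟨(F.cone_qis hf).acyc_left, (F.cone_qis hf).acyc_right⟩

/-- `F` is exact and keeps acyclicity in the degrees of `U`. -/
structure Good (F : DGF A) (U : Set G) : Prop where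
  ses : ∀ {L M N i p}, SESOn U L M N i p →
    SESOn U (F.obj L) (F.obj M) (F.obj N) (F.map L M i) (F.map M N p)
  acyc : ∀ {M}, AcycOn U M → AcycOn U (F.obj M)

variable {F F'}

lemma Good.qis (h : F.Good U) {f : M.M →ₗ[R] N.M} (hf : QisOn U M N f) :
    QisOn U (F.obj M) (F.obj N) (F.map M N f) :=
  (F.qisOn_iff hf.isHom).2 (h.acyc ((qisOn_iff_cone hf.isHom).1 hf))

lemma good_id : (id A).Good U := ⟨fun h => h, fun h => h⟩

lemma Good.comp (h : F.Good U) (h' : F'.Good U) : (F.comp F').Good U :=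
  ⟨fun S => h.ses (h'.ses S), fun S => h.acyc (h'.acyc S)⟩

lemma good_sh (k : ℤ) : (sh A k).Good U :=
  ⟨fun S => ⟨⟨S.hi.mem, S.hi.comm⟩, ⟨S.hp.mem, S.hp.comm⟩, fun g hg =>
    ⟨⟨S.hi.mem, fun _ => S.hi.comm _⟩, ⟨S.hp.mem, fun _ => S.hp.comm _⟩,
      fun _ => (S.ses g hg).inj _, fun _ => (S.ses g hg).zero _, fun _ => (S.ses g hg).ex _,
      fun _ => (S.ses g hg).surj _⟩⟩, fun h => (DG.acycOn_sh k).2 h⟩

lemma good_tg (a : G) (hU : ∀ g ∈ U, g + a ∈ U) : (tg A a).Good U :=
  ⟨fun S => ⟨⟨S.hi.mem, S.hi.comm⟩, ⟨S.hp.mem, S.hp.comm⟩, fun g hg => S.ses _ (hU g hg)⟩,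
    fun h g hg => h _ (hU g hg)⟩

end DGF

variable {A : G → Submodule K R}

/-- A closed natural transformation of degree 1. -/
structure NatTw (F F' : DGF A) where
  app : ∀ M, (F.obj M).M →ₗ[R] (F'.obj M).M
  isTw : ∀ M, IsTw (F.obj M) (F'.obj M) (app M)
  nat : ∀ M N f m, app N (F.map M N f m) = F'.map M N f (app M m)

/-- A closed natural transformation of degree 0. -/
structure NatT (F F' : DGF A) where
  app : ∀ M, (F.obj M).M →ₗ[R] (F'.obj M).M
  isHom : ∀ M, IsHom (F.obj M) (F'.obj M) (app M)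
  nat : ∀ M N f m, app N (F.map M N f m) = F'.map M N f (app M m)

variable {F F' : DGF A} {U : Set G}

/-- The extension of two functors. -/
@[reducible] def NatTw.ext (τ : NatTw F F') : DGF A where
  obj M := DG.ext (τ.isTw M)
  map M N :=
    { toFun f := (F.map M N f).prodMap (F'.map M N f)
      map_add' f g := by ext <;> simp
      map_smul' r f := by ext <;> simp }
  map_id M := by
    change (F.map M M _).prodMap (F'.map M M _) = _
    rw [F.map_id, F'.map_id]; rfl
  map_comp M N P g f := by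
    change (F.map M P _).prodMap (F'.map M P _) = _
    rw [F.map_comp, F'.map_comp]; rfl
  map_deg h _ _ _ hm := ⟨F.map_deg h _ _ _ hm.1, F'.map_deg h _ _ _ hm.2⟩
  map_d M N f := LinearMap.ext fun v => Prod.ext (LinearMap.congr_fun (F.map_d M N f) v.1) (by
    change τ.app N (F.map M N f v.1) + (F'.obj N).d (F'.map M N f v.2) +
      F'.map M N f (τ.app M v.1 + (F'.obj M).d v.2) = F'.map M N (homD M N f) v.2
    rw [τ.nat, map_add, ← F'.map_d, homD_apply, add_add_add_comm, DG.two, zero_add])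

lemma NatTw.good (τ : NatTw F F') (h : F.Good U) (h' : F'.Good U) : τ.ext.Good U := by
  refine ⟨fun {L M N i p} S => ⟨τ.ext.isHom S.hi, τ.ext.isHom S.hp, fun g hg => ?_⟩,
    fun {M} hM => (ext_ses (τ.isTw M)).acyc₂ (h'.acyc hM) (h.acyc hM)⟩
  have S₁ := (h.ses S).ses g hg
  have S₂ := (h'.ses S).ses g hg
  refine ⟨(τ.ext.isHom S.hi).cx g, (τ.ext.isHom S.hp).cx g,
    fun n v hv h0 => Prod.ext (S₁.inj _ _ hv.1 (Prod.ext_iff.1 h0).1)
      (S₂.inj _ _ hv.2 (Prod.ext_iff.1 h0).2),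
    fun n v hv => Prod.ext (S₁.zero _ _ hv.1) (S₂.zero _ _ hv.2), fun n v hv h0 => ?_,
    fun n v hv => ?_⟩
  · obtain ⟨a, ha, e1⟩ := S₁.ex _ _ hv.1 (Prod.ext_iff.1 h0).1
    obtain ⟨b, hb, e2⟩ := S₂.ex _ _ hv.2 (Prod.ext_iff.1 h0).2
    exact ⟨(a, b), ⟨ha, hb⟩, Prod.ext e1 e2⟩
  · obtain ⟨a, ha, e1⟩ := S₁.surj _ _ hv.1
    obtain ⟨b, hb, e2⟩ := S₂.surj _ _ hv.2
    exact ⟨(a, b), ⟨ha, hb⟩, Prod.ext e1 e2⟩

/-- The data of the cone of a natural transformation. -/
@[reducible] def NatT.coneTw (τ : NatT F F') : NatTw ((DGF.sh A 1).comp F) F' :=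
  ⟨τ.app, fun M => (τ.isHom M).coneTw, τ.nat⟩

/-- The data of the fibre of a natural transformation. -/
@[reducible] def NatT.fibTw (τ : NatT F F') : NatTw F ((DGF.sh A (-1)).comp F') :=
  ⟨τ.app, fun M => (τ.isHom M).fibTw, τ.nat⟩

end FMD
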