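import Pool.Agent.MP_0e6a9f_ag.H19.TwOps
import Pool.Agent.MP_0e6a9f_ag.H32.Exact

/-! The category of twisted complexes and closed maps, with shifts and cones. -/

set_option linter.unusedSectionVars false

open CategoryTheory Limits Pretriangulated

noncomputable section
namespace FMD

section ker
variable {C D D' : Type*} [Category C] [Preadditive C] [HasZeroObject C] [HasShift C ℤ]
  [Category D] [Preadditive D] [HasZeroObject D] [HasShift D ℤ]
  [∀ n : ℤ, (shiftFunctor D n).Additive] [Pretriangulated D]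
  [Category D'] [Preadditive D'] [HasZeroObject D'] [HasShift D' ℤ]
  [∀ n : ℤ, (shiftFunctor D' n).Additive] [Pretriangulated D']
  (G : C ⥤ D) [G.CommShift ℤ] [G.Additive] [G.Full]
  (G' : C ⥤ D') [G'.CommShift ℤ] [G'.Additive] [G'.Full]

lemma lift_dist (r : HomRel C) [r.IsCompatibleWithShift ℤ] (H : C ⥤ D) [H.CommShift ℤ]
    (hH : ∀ (X Y : C) (f g : X ⟶ Y), r f g → H.map f = H.map g) (T : Triangle C)
    (hT : H.mapTriangle.obj T ∈ distTriang D) : (CategoryTheory.Quotient.lift _ H hH).mapTriangle.obj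
      ((Quotient.functor r).mapTriangle.obj T) ∈ distTriang D :=
  isomorphic_distinguished _ hT _ (((Functor.mapTriangleCompIso _ _).app T).symm ≪≫
    (Functor.mapTriangleIso (Quotient.lift.isLift _ H hH)).app T)

set_option backward.isDefEq.respectTransparency false in
/-- Two full functors with the same kernel and common cones have equivalent essential images. -/
theorem exists_equiv_of_ker (K : Type*) [Field K] [Linear K D] [Linear K D']
    (hk : ∀ {X Y : C} (f : X ⟶ Y), G.map f = 0 ↔ G'.map f = 0)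
    (h : ∀ {X Y : C} (f : X ⟶ Y), ∃ (Z : C) (g : Y ⟶ Z) (h : Z ⟶ X⟦(1 : ℤ)⟧),
      G.mapTriangle.obj (Triangle.mk f g h) ∈ distTriang D ∧
      G'.mapTriangle.obj (Triangle.mk f g h) ∈ distTriang D')
    (lin : ∀ (c : K) (X : C), ∃ l : X ⟶ X, G.map l = c • 𝟙 _ ∧ G'.map l = c • 𝟙 _) :
    ∃ (_ : G.essImage.IsTriangulated) (_ : G'.essImage.IsTriangulated)
      (F : G.essImage.FullSubcategory ⥤ G'.essImage.FullSubcategory) (_ : F.CommShift ℤ),
      F.IsEquivalence ∧ F.IsTriangulated ∧ F.Linear K := by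
  have hk' : ∀ (X Y : C) (f g : X ⟶ Y), G.map f = G.map g ↔ G'.map f = G'.map g := fun X Y f g => by
    rw [← sub_eq_zero, ← G.map_sub, hk, G'.map_sub, sub_eq_zero]
  have hr : ∀ ⦃X Y : C⦄ (f₁ f₂ g₁ g₂ : X ⟶ Y), G.homRel f₁ f₂ → G.homRel g₁ g₂ →
      G.homRel (f₁ + g₁) (f₂ + g₂) := fun X Y f₁ f₂ g₁ g₂ (a : G.map _ = G.map _)
      (b : G.map _ = G.map _) => show G.map _ = G.map _ by rw [G.map_add, G.map_add, a, b]
  have : G.homRel.IsCompatibleWithShift ℤ := ⟨fun a X Y f g (e : G.map _ = G.map _) =>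
    (cancel_mono ((G.commShiftIso a).hom.app Y)).1 (by
      rw [G.commShiftIso_hom_naturality, G.commShiftIso_hom_naturality, e])⟩
  let := Quotient.preadditive _ hr
  have := Quotient.functor_additive _ hr
  have : HasZeroObject (CategoryTheory.Quotient G.homRel) :=
    ⟨_, (Quotient.functor G.homRel).map_isZero (isZero_zero C)⟩
  let L := CategoryTheory.Quotient.lift G.homRel G fun _ _ _ _ e => e
  let L' := CategoryTheory.Quotient.lift G.homRel G' fun X Y f g e => (hk' X Y f g).1 e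
  have : L.Full := ⟨fun f => let ⟨g, hg⟩ := G.map_surjective f; ⟨(Quotient.functor _).map g, hg⟩⟩
  have : L'.Full := ⟨fun f => let ⟨g, hg⟩ := G'.map_surjective f; ⟨(Quotient.functor _).map g, hg⟩⟩
  have : L.Faithful := ⟨by rintro X Y ⟨f⟩ ⟨g⟩ e; exact CategoryTheory.Quotient.sound _ e⟩
  have : L'.Faithful := ⟨by rintro X Y ⟨f⟩ ⟨g⟩ e; exact CategoryTheory.Quotient.sound _ ((hk' _ _ f g).2 e)⟩
  have : L.Additive := ⟨by rintro X Y ⟨f⟩ ⟨g⟩; exact G.map_add⟩
  have : L'.Additive := ⟨by rintro X Y ⟨f⟩ ⟨g⟩; exact G'.map_add⟩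
  have h' : ∀ {X Y : CategoryTheory.Quotient G.homRel} (f : X ⟶ Y), ∃ (Z : _) (g : Y ⟶ Z)
      (h : Z ⟶ X⟦(1 : ℤ)⟧), L.mapTriangle.obj (Triangle.mk f g h) ∈ distTriang D ∧
      L'.mapTriangle.obj (Triangle.mk f g h) ∈ distTriang D' := by
    rintro X Y ⟨f⟩
    obtain ⟨Z, a, b, c, d⟩ := h f
    exact ⟨_, _, _, lift_dist _ G _ _ c, lift_dist _ G' _ _ d⟩
  have e : G.essImage = L.essImage := funext fun Y => propext
    ⟨fun ⟨X, e⟩ => ⟨⟨X⟩, e⟩, fun ⟨X, e⟩ => ⟨X.as, e⟩⟩
  have e' : G'.essImage = L'.essImage := funext fun Y => propext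
    ⟨fun ⟨X, e⟩ => ⟨⟨X⟩, e⟩, fun ⟨X, e⟩ => ⟨X.as, e⟩⟩
  rw [e, e']
  have i := FMX.essImage_isTriangulated L fun f => let ⟨Z, a, b, c, _⟩ := h' f; ⟨Z, a, b, c⟩
  have i' := FMX.essImage_isTriangulated L' fun f => let ⟨Z, a, b, _, c⟩ := h' f; ⟨Z, a, b, c⟩
  obtain ⟨F, j, h1, h2, _, h3, -⟩ := FMX.exists_exact_equivalence L L' K h' fun c X =>
    let ⟨l, a, b⟩ := lin c X.as; ⟨(Quotient.functor _).map l, a, b⟩
  exact ⟨i, i', F, j, h2, h1, h3⟩

end ker

namespace Tw
variable {C C' : DGR} {w x y z : Tw C}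

lemma idm_idm (x : Tw C) : x.idm * x.idm = x.idm := idm_mul x.idm_mem

lemma map_d_idm (x : Tw C) : x.idm.map C.d = 0 := by
  rw [idm, Matrix.diagonal_map (map_zero _)]
  simp [C.d_e]

/-- Closed matrices of degree 0. -/
def cyc (x y : Tw C) : AddSubgroup (Matrix y.I x.I C.B) :=
  C.self.twGr x y 0 ⊓ (C.self.twD x y).ker

instance : Category (Tw C) where
  Hom x y := cyc x y
  id x := ⟨x.idm, x.idm_mem, x.twD_idm⟩
  comp f g := ⟨g.1 * f.1, mul_mem (m := 0) (n := 0) g.2.1 f.2.1, (twD_mul _ _).trans (by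
    rw [show C.self.twD _ _ g.1 = 0 from g.2.2, show C.self.twD _ _ f.1 = 0 from f.2.2,
      Matrix.zero_mul, Matrix.mul_zero, add_zero])⟩
  id_comp f := Subtype.ext (mul_idm f.2.1)
  comp_id f := Subtype.ext (idm_mul f.2.1)
  assoc _ _ _ := Subtype.ext (Matrix.mul_assoc _ _ _).symm

instance : Preadditive (Tw C) where
  homGroup x y := inferInstanceAs (AddCommGroup (cyc x y))
  add_comp _ _ _ _ _ _ := Subtype.ext (Matrix.mul_add _ _ _)
  comp_add _ _ _ _ _ _ := Subtype.ext (Matrix.add_mul _ _ _)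

lemma hom_mem (f : x ⟶ y) : f.1 ∈ C.self.twGr x y 0 := f.2.1

lemma hom_d (f : x ⟶ y) : C.self.twD x y f.1 = 0 := f.2.2

/-- A morphism from a closed matrix. -/
def mkHom (f : Matrix y.I x.I C.B) (h : f ∈ C.self.twGr x y 0) (h' : C.self.twD x y f = 0) :
    x ⟶ y := ⟨f, h, h'⟩

lemma idm_comm (f : x ⟶ y) : y.idm * f.1 = f.1 * x.idm :=
  (idm_mul (hom_mem f)).trans (mul_idm (hom_mem f)).symm

instance : HasZeroObject (Tw C) :=
  ⟨nil C, (IsZero.iff_id_eq_zero _).2 (Subtype.ext (Matrix.ext fun i => i.elim))⟩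

/-- The same twisted complex with other degrees. -/
@[reducible] def rd (x : Tw C) (d : x.I → ℤ) (h : ∀ i j, d i - d j = x.deg i - x.deg j) : Tw C :=
  { x with
    deg := d
    δ_mem := fun i j => Bimod.cor_cast (x.δ_mem i j) (by have := h i j; omega) }

/-- The shift. -/
@[reducible] def sft (x : Tw C) (n : ℤ) : Tw C := x.rd (fun i => x.deg i + n) fun _ _ => by ring

/-- The identity matrix between two regradings. -/
def rdHom (x : Tw C) {d d' : x.I → ℤ} {h h'} (e : ∀ i, d i = d' i) : x.rd d h ⟶ x.rd d' h' :=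
  ⟨x.idm, fun i j => Bimod.cor_cast (x.idm_mem i j) (by have := h i j; have := e i; dsimp; omega),
    x.twD_idm⟩

/-- The identity matrix between two regradings. -/
def rdIso (x : Tw C) {d d' : x.I → ℤ} {h h'} (e : ∀ i, d i = d' i) : x.rd d h ≅ x.rd d' h' where
  hom := x.rdHom e
  inv := x.rdHom fun i => (e i).symm
  hom_inv_id := Subtype.ext x.idm_idm
  inv_hom_id := Subtype.ext x.idm_idm

lemma eqToHom_val (x : Tw C) {a b : ℤ} (h : a = b) (h' : x.sft a = x.sft b) :
    (eqToHom h').1 = x.idm := by subst h; rfl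

variable (C) in
/-- The shift functor. -/
def sftF (n : ℤ) : Tw C ⥤ Tw C where
  obj x := x.sft n
  map f := ⟨f.1, fun i j => Bimod.cor_cast (f.2.1 i j) (by dsimp; ring), f.2.2⟩

variable (C) in
/-- The shift functors. -/
def core : ShiftMkCore (Tw C) ℤ where
  F := sftF C
  zero := NatIso.ofComponents
    (fun x => x.rdIso (h := fun _ _ => by ring) (h' := fun _ _ => rfl) fun _ => add_zero _)
    fun f => Subtype.ext (idm_comm f)
  add a b := NatIso.ofComponents
    (fun x => x.rdIso (d' := fun i => x.deg i + a + b) (h := fun _ _ => by ring)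
      (h' := fun _ _ => by ring) fun _ => (add_assoc _ _ _).symm)
    fun {x y} f => Subtype.ext (show y.idm * f.1 = f.1 * x.idm from idm_comm f)
  assoc_hom_app a b c x := Subtype.ext (by
    change x.idm * x.idm = x.idm * x.idm * (eqToHom _ : x.sft _ ⟶ x.sft _).1
    rw [eqToHom_val x (add_assoc a b c), idm_idm]
    exact x.idm_idm.symm)
  zero_add_hom_app a x := Subtype.ext (by
    change x.idm = x.idm * (eqToHom _ : x.sft _ ⟶ x.sft _).1
    rw [eqToHom_val x (zero_add a)]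
    exact x.idm_idm.symm)
  add_zero_hom_app a x := Subtype.ext (by
    change x.idm = x.idm * (eqToHom _ : x.sft _ ⟶ x.sft _).1
    rw [eqToHom_val x (add_zero a)]
    exact x.idm_idm.symm)

instance : HasShift (Tw C) ℤ := hasShiftMk _ _ (core C)

/-- The cone. -/
@[reducible] def cn (f : x ⟶ y) : Tw C where
  I := x.I ⊕ y.I
  ob := Sum.elim x.ob y.ob
  deg := Sum.elim (fun i => x.deg i + 1) y.deg
  ht := Sum.elim x.ht fun i => y.ht i + (Finset.univ.sup x.ht + 1)
  δ := Matrix.fromBlocks x.δ 0 f.1 y.δ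
  δ_mem := by
    rintro (i | i) (j | j)
    · exact Bimod.cor_cast (x.δ_mem i j) (by dsimp; ring)
    · exact zero_mem _
    · exact Bimod.cor_cast (f.2.1 i j) (by dsimp; ring)
    · exact y.δ_mem i j
  δ_ht := by
    rintro (i | i) (j | j) h
    · exact x.δ_ht i j h
    · rfl
    · have := Finset.le_sup (f := x.ht) (Finset.mem_univ j)
      exact absurd (by dsimp; omega) h
    · exact y.δ_ht i j fun h' => h (by dsimp; omega)
  mc := by
    have h := hom_d f
    rw [Bimod.self_twD, add_assoc] at h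
    rw [Matrix.fromBlocks_map, Matrix.fromBlocks_multiply, x.mc, y.mc,
      (C.self.tw x y).eq_of_add h, Matrix.map_zero _ (map_zero _)]
    simp [add_comm]

variable (f : x ⟶ y)

lemma cn_inl_mem : Matrix.fromRows x.idm 0 ∈ C.self.twGr (x.sft 1) (cn f) 0 := by
  rintro (i | i) j
  · exact Bimod.cor_cast (x.idm_mem i j) (by dsimp; ring)
  · exact zero_mem _

lemma cn_snd_mem : Matrix.fromCols 0 y.idm ∈ C.self.twGr (cn f) y 0 := by
  rintro i (j | j)
  · exact zero_mem _
  · exact y.idm_mem i j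

/-- The inclusion into the cone. -/
def cnInr : y ⟶ cn f := mkHom (Matrix.fromRows 0 y.idm) (by
    rintro (i | i) j
    · exact zero_mem _
    · exact y.idm_mem i j) (by
    rw [Bimod.self_twD]
    simp [Matrix.fromRows_map, Matrix.fromBlocks_mul_fromRows, Matrix.fromRows_mul, map_d_idm,
      idm_mul y.δ_twGr, mul_idm y.δ_twGr]
    exact C.self.mat_two _)

/-- The projection from the cone. -/
def cnFst : cn f ⟶ x.sft 1 := mkHom (Matrix.fromCols x.idm 0) (by
    rintro i (j | j)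
    · exact Bimod.cor_cast (x.idm_mem i j) (by dsimp; ring)
    · exact zero_mem _) (by
    rw [Bimod.self_twD]
    simp [Matrix.fromCols_map, Matrix.fromCols_mul_fromBlocks, Matrix.mul_fromCols, map_d_idm,
      idm_mul x.δ_twGr, mul_idm x.δ_twGr]
    exact C.self.mat_two _)

lemma twD_inl : C.self.twD (x.sft 1) (cn f) (Matrix.fromRows x.idm 0) = Matrix.fromRows 0 f.1 := by
  rw [Bimod.self_twD]
  simp [Matrix.fromRows_map, Matrix.fromBlocks_mul_fromRows, Matrix.fromRows_mul, map_d_idm,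
    idm_mul x.δ_twGr, mul_idm x.δ_twGr, mul_idm f.2.1]
  ext (i | i) j <;> simp [C.two]

lemma cn_tot : (Matrix.fromRows 0 y.idm * Matrix.fromCols 0 y.idm +
    Matrix.fromRows x.idm 0 * Matrix.fromCols x.idm 0 : Matrix (x.I ⊕ y.I) (x.I ⊕ y.I) C.B) =
    (cn f).idm := by
  simp only [Matrix.fromRows_mul_fromCols, Matrix.fromBlocks_add, idm_idm, Matrix.zero_mul,
    Matrix.mul_zero, add_zero, zero_add]
  refine (Matrix.fromBlocks_diagonal _ _).trans (congrArg _ (funext ?_))
  rintro (i | i) <;> rfl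

end Tw
end FMD
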