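import Pool.Agent.MP_0e6a9f_ag.H36.LemH
import Pool.Agent.MP_0e6a9f_ag.H36.TwCat

/-! The realization functor from twisted complexes to the derived category. -/

set_option backward.isDefEq.respectTransparency false
set_option linter.unusedSectionVars false

open CategoryTheory Limits CochainComplex HomComplex Pretriangulated

noncomputable section
namespace FMD
open DG

variable {K G R : Type} [Field K] [CharP K 2] [AddCommGroup G] [DecidableEq G] [CommRing R]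
  [Algebra K R] {A : G → Submodule K R} [GradedAlgebra A] {I : HomogeneousIdeal A}
  {L M N P T : DG A} {C : DGR}

/-- The isomorphism of complexes given by inverse closed maps. -/
def toIso (hM : KI I M) (hN : KI I N) {f : M.M →ₗ[R] N.M} {g : N.M →ₗ[R] M.M} (hf : IsHom M N f)
    (hg : IsHom N M g) (e : g ∘ₗ f = LinearMap.id) (e' : f ∘ₗ g = LinearMap.id) :
    toCx hM ≅ toCx hN where
  hom := toMap hM hN hf
  inv := toMap hN hM hg
  hom_inv_id := (toMap_comp _ _ _ hf hg).symm.trans ((toMap_congr _ _ _ _ e).trans (toMap_id _))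
  inv_hom_id := (toMap_comp _ _ _ hg hf).symm.trans ((toMap_congr _ _ _ _ e').trans (toMap_id _))

/-- A `CommShift` structure from componentwise identities. -/
@[reducible] def commShiftOf {B V : Type*} [Category B] [HasShift B ℤ] [Category V] [Preadditive V]
    (F : B ⥤ CochainComplex V ℤ) (e : ∀ n : ℤ, CategoryTheory.shiftFunctor B n ⋙ F ≅
      F ⋙ CategoryTheory.shiftFunctor _ n)
    (h0 : ∀ x i, ((e 0).hom.app x).f i = (F.map ((shiftFunctorZero B ℤ).hom.app x)).f i ≫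
      ((F.obj x).XIsoOfEq (add_zero i).symm).hom)
    (h1 : ∀ a b x i, ((e (a + b)).hom.app x).f i =
      (F.map ((shiftFunctorAdd B a b).hom.app x)).f i ≫ ((e b).hom.app (x⟦a⟧)).f i ≫
        ((e a).hom.app x).f (i + b) ≫ ((F.obj x).XIsoOfEq (p := i + b + a) (q := i + (a + b))
          (by ring)).hom) : F.CommShift ℤ where
  commShiftIso := e
  commShiftIso_zero := by
    ext x i
    rw [Functor.CommShift.isoZero_hom_app, HomologicalComplex.comp_f, shiftFunctorZero_inv_app_f]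
    exact h0 x i
  commShiftIso_add a b := by
    ext x i
    rw [Functor.CommShift.isoAdd_hom_app, HomologicalComplex.comp_f, HomologicalComplex.comp_f,
      HomologicalComplex.comp_f, shiftFunctorAdd_inv_app_f]
    exact h1 a b x i

lemma comp_dist {B V H E : Type*} [Category B] [HasShift B ℤ] [Category V] [Preadditive V]
    [Category H] [Preadditive H] [HasZeroObject H] [HasShift H ℤ]
    [∀ n : ℤ, (CategoryTheory.shiftFunctor H n).Additive] [Pretriangulated H]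
    [Category E] [Preadditive E] [HasZeroObject E] [HasShift E ℤ]
    [∀ n : ℤ, (CategoryTheory.shiftFunctor E n).Additive] [Pretriangulated E]
    (F : B ⥤ CochainComplex V ℤ) [F.CommShift ℤ] (Φ : CochainComplex V ℤ ⥤ H) [Φ.CommShift ℤ]
    (Ψ : H ⥤ E) [Ψ.CommShift ℤ] [Ψ.IsTriangulated] {x y z : B} (f : x ⟶ y) (g : y ⟶ z)
    (h : z ⟶ x⟦(1 : ℤ)⟧) {X Y Z : CochainComplex V ℤ} (hX : F.obj x = X) (hY : F.obj y = Y)
    (hZ : F.obj z = Z) {f' : X ⟶ Y} {g' : Y ⟶ Z} {h' : Z ⟶ X⟦(1 : ℤ)⟧}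
    (hT : Φ.mapTriangle.obj (Triangle.mk f' g' h') ∈ distTriang _) (ef : HEq (F.map f) f')
    (eg : HEq (F.map g) g') (eh : ∀ i, HEq ((F.map h).f i ≫
      ((F.commShiftIso (1 : ℤ)).hom.app x).f i) (h'.f i)) :
    (F ⋙ Φ ⋙ Ψ).mapTriangle.obj (Triangle.mk f g h) ∈ distTriang _ := by
  subst hX hY hZ
  obtain rfl := eq_of_heq ef
  obtain rfl := eq_of_heq eg
  obtain rfl : F.map h ≫ (F.commShiftIso (1 : ℤ)).hom.app x = h' :=
    HomologicalComplex.hom_ext _ _ fun i => eq_of_heq (eh i)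
  exact isomorphic_distinguished _ (Ψ.map_distinguished _ hT) _
    ((Functor.mapTriangleCompIso _ _).app _ ≪≫ (Functor.mapTriangleCompIso _ _).app _)

namespace Rep
variable (ρ : Rep C T) (hT : KI I T) {x y z : Tw C}

lemma IsReal.rmap_isHom {ρ : Rep C T} {ι π κ μ} (H : IsReal ρ x M ι π) (H' : IsReal ρ y N κ μ)
    (f : x ⟶ y) : IsHom M N (ρ.rmap π κ f.1) :=
  isHom_of ((H.rmap_isMap H').mem (Tw.hom_mem f)) (((H.rmap_isMap H').comm (Tw.hom_mem f)).trans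
    ((congrArg _ (Tw.hom_d f)).trans (map_zero _)))

/-- The realization of a matrix. -/
def rm (x y : Tw C) (g : Matrix y.I x.I C.B) : (ρ.real x).M →ₗ[R] (ρ.real y).M :=
  ρ.rmap (ρ.realπ x) (ρ.realι y) g

lemma rm_add (f g : Matrix y.I x.I C.B) : ρ.rm x y (f + g) = ρ.rm x y f + ρ.rm x y g :=
  map_add (ρ.rmap _ _) f g

lemma rm_zero : ρ.rm x y 0 = 0 := map_zero (ρ.rmap _ _)

lemma rm_deg {n : ℤ} {g : Matrix y.I x.I C.B} (hg : g ∈ C.self.twGr x y n) :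
    ρ.rm x y g ∈ deg (ρ.real x) (ρ.real y) 0 n :=
  ((ρ.isReal_real x).rmap_isMap (ρ.isReal_real y)).mem hg

lemma rm_d {n : ℤ} {g : Matrix y.I x.I C.B} (hg : g ∈ C.self.twGr x y n) :
    homD _ _ (ρ.rm x y g) = ρ.rm x y (C.self.twD x y g) :=
  ((ρ.isReal_real x).rmap_isMap (ρ.isReal_real y)).comm hg

lemma rm_isHom (f : x ⟶ y) : IsHom (ρ.real x) (ρ.real y) (ρ.rm x y f.1) :=
  (ρ.isReal_real x).rmap_isHom (ρ.isReal_real y) f

lemma rm_mul {n : ℤ} {g : Matrix y.I x.I C.B} (hg : g ∈ C.self.twGr x y n)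
    (f : Matrix z.I y.I C.B) : ρ.rm x z (f * g) = ρ.rm y z f ∘ₗ ρ.rm x y g :=
  (ρ.isReal_real y).rmap_mul hg _ f

lemma rm_idm (x : Tw C) : ρ.rm x x x.idm = LinearMap.id := (ρ.isReal_real x).rmap_one

lemma rm_rd (x : Tw C) {d d' : x.I → ℤ} {h h'} (m : (ρ.real x).M) :
    ρ.rm (x.rd d h) (x.rd d' h') x.idm m = m := LinearMap.congr_fun (ρ.rm_idm x) m

include hT in
lemma ki_real (x : Tw C) : KI I (ρ.real x) := (ρ.isReal_real x).pieces.kill fun _ => hT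

/-- The realization functor to complexes. -/
def toC : Tw C ⥤ CochainComplex (GrMod A I) ℤ where
  obj x := toCx (ρ.ki_real hT x)
  map f := toMap _ _ (ρ.rm_isHom f)
  map_id x := (toMap_congr _ _ _ _ (ρ.rm_idm x)).trans (toMap_id _)
  map_comp f g := (toMap_congr _ _ _ _ (ρ.rm_mul (Tw.hom_mem f) g.1)).trans
    (toMap_comp _ _ _ (ρ.rm_isHom f) (ρ.rm_isHom g))

instance : (ρ.toC hT).Additive where
  map_add {_ _ f g} := (toMap_congr _ _ (ρ.rm_isHom (f + g)) _ (ρ.rm_add f.1 g.1)).trans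
    (toMap_add _ _ (ρ.rm_isHom f) (ρ.rm_isHom g))

lemma sft_isHom (x : Tw C) (n : ℤ) : IsHom (ρ.real (x.sft n)) ((ρ.real x).sh n) LinearMap.id :=
  ⟨fun h i hi => mem_cast (M := T) (h i hi) rfl (by dsimp; ring), fun _ => rfl⟩

lemma sft_isHom' (x : Tw C) (n : ℤ) : IsHom ((ρ.real x).sh n) (ρ.real (x.sft n)) LinearMap.id :=
  ⟨fun h i hi => mem_cast (M := T) (h i hi) rfl (by dsimp; ring), fun _ => rfl⟩

/-- The realization commutes with shifts. -/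
def sftIso (x : Tw C) (n : ℤ) : (ρ.toC hT).obj (x.sft n) ≅ ((ρ.toC hT).obj x)⟦n⟧ :=
  toIso (ρ.ki_real hT (x.sft n)) ((ρ.ki_real hT x).sh n) (ρ.sft_isHom x n) (ρ.sft_isHom' x n)
    rfl rfl ≪≫ shIso (ρ.ki_real hT x) n

lemma ev_sftIso (x : Tw C) (n i : ℤ) (u) : evs (ρ.ki_real hT x) (i + n)
    (ap ((ρ.sftIso hT x n).hom.f i) u) = evs (ρ.ki_real hT (x.sft n)) i u :=
  ev_cmp (ρ.ki_real hT (x.sft n)) ((ρ.ki_real hT x).sh n) LinearMap.id
    (fun _ _ h => (ρ.sft_isHom x n).mem h) u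

lemma ev_toC (f : x ⟶ y) (i : ℤ) (u) : evs (ρ.ki_real hT y) i (ap (((ρ.toC hT).map f).f i) u) =
    ρ.rm x y f.1 (evs (ρ.ki_real hT x) i u) := ev_cmp _ _ _ _ _

lemma ev_XIso (hM : KI I M) {i j : ℤ} (h : i = j) (u) :
    evs hM j (ap ((toCx hM).XIsoOfEq h).hom u) = evs hM i u := by subst h; rfl

lemma sft_nat (f : x ⟶ y) (n : ℤ) :
    (ρ.toC hT).map (X := x.sft n) (Y := y.sft n) ((Tw.sftF C n).map f) ≫ (ρ.sftIso hT y n).hom =
    (ρ.sftIso hT x n).hom ≫ ((ρ.toC hT).map f)⟦n⟧' := HomologicalComplex.hom_ext _ _ fun i =>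
  sl_ext (ρ.ki_real hT (x.sft n)) (ρ.ki_real hT y) fun _ m hm =>
    ((ρ.ev_sftIso hT y n i _).trans (ρ.ev_toC hT ((Tw.sftF C n).map f) i
      (inc (ρ.ki_real hT (x.sft n)) m hm))).trans
        ((ρ.ev_toC hT f (i + n) _).trans (congrArg (ρ.rm x y f.1) (ρ.ev_sftIso hT x n i _))).symm

lemma sft_zero (x : Tw C) {n : ℤ} (f : x.sft n ⟶ x) (hf : f.1 = x.idm) (i : ℤ) (e : i = i + n) :
    (ρ.sftIso hT x n).hom.f i = ((ρ.toC hT).map f).f i ≫ (((ρ.toC hT).obj x).XIsoOfEq e).hom := by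
  refine sl_ext (i := i) (j := i + n) (ρ.ki_real hT (x.sft n)) (ρ.ki_real hT x) fun _ m hm => ?_
  refine (ρ.ev_sftIso hT x n i _).trans (Eq.symm ?_)
  rw [ap_comp]
  refine (ev_XIso (ρ.ki_real hT x) e _).trans ((ρ.ev_toC hT f i _).trans ?_)
  rw [hf]
  exact ρ.rm_rd x (h' := fun _ _ => rfl) _

lemma sft_add (x : Tw C) (a b : ℤ) {n : ℤ} (f : x.sft n ⟶ (x.sft a).sft b) (hf : f.1 = x.idm)
    (i : ℤ) (e : i + b + a = i + n) : (ρ.sftIso hT x n).hom.f i = ((ρ.toC hT).map f).f i ≫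
      (ρ.sftIso hT (x.sft a) b).hom.f i ≫ (ρ.sftIso hT x a).hom.f (i + b) ≫
        (((ρ.toC hT).obj x).XIsoOfEq e).hom := by
  refine sl_ext (i := i) (j := i + n) (ρ.ki_real hT (x.sft n)) (ρ.ki_real hT x) fun _ m hm => ?_
  refine (ρ.ev_sftIso hT x n i _).trans (Eq.symm ?_)
  rw [ap_comp, ap_comp, ap_comp]
  refine (ev_XIso (ρ.ki_real hT x) e _).trans ?_
  refine (ρ.ev_sftIso hT x a (i + b) _).trans ?_
  refine (ρ.ev_sftIso hT (x.sft a) b i _).trans ((ρ.ev_toC hT f i _).trans ?_)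
  rw [hf]
  exact ρ.rm_rd x (h' := fun _ _ => by dsimp; ring) _

/-- The realization commutes with shifts. -/
def csIso (n : ℤ) : CategoryTheory.shiftFunctor (Tw C) n ⋙ ρ.toC hT ≅
    ρ.toC hT ⋙ CategoryTheory.shiftFunctor _ n :=
  NatIso.ofComponents (fun x => ρ.sftIso hT x n) fun f => ρ.sft_nat hT f n

instance : (ρ.toC hT).CommShift ℤ := commShiftOf _ (ρ.csIso hT)
  (fun x i => ρ.sft_zero hT x ((shiftFunctorZero (Tw C) ℤ).hom.app x) rfl i _)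
  fun a b x i => ρ.sft_add hT x a b ((shiftFunctorAdd (Tw C) a b).hom.app x) rfl i _

lemma csIso_app (x : Tw C) (n : ℤ) :
    ((ρ.toC hT).commShiftIso n).hom.app x = (ρ.sftIso hT x n).hom := rfl

variable {X : Type} (c : X → R)

/-- The realization functor to the derived category. -/
abbrev toD : Tw C ⥤ D I c := ρ.toC hT ⋙ Q I c

lemma toD_cone (f : x ⟶ y) : (ρ.toD hT c).mapTriangle.obj
    (Triangle.mk f (Tw.cnInr f) (Tw.cnFst f : Tw.cn f ⟶ x⟦(1 : ℤ)⟧)) ∈ distTriang _ := by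
  have e1 : ρ.rm (Tw.cn f) y (Matrix.fromCols 0 y.idm) ∘ₗ ρ.rm y _ (Tw.cnInr f).1 = .id := by
    rw [← ρ.rm_mul (Tw.hom_mem (Tw.cnInr f)), ← ρ.rm_idm y]
    exact congrArg _ (by simp [Tw.cnInr, Tw.mkHom, Matrix.fromCols_mul_fromRows, Tw.idm_idm])
  have e2 : ρ.rm (Tw.cn f) (x.sft 1) (Tw.cnFst f).1 ∘ₗ
      ρ.rm (x.sft 1) (Tw.cn f) (Matrix.fromRows x.idm 0) = .id := by
    rw [← ρ.rm_mul (Tw.cn_inl_mem f), ← ρ.rm_idm (x.sft 1)]
    exact congrArg _ (by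
      simp [Tw.cnFst, Tw.mkHom, Matrix.fromCols_mul_fromRows, Tw.idm_idm]; rfl)
  have e3 : ρ.rm (Tw.cn f) (x.sft 1) (Tw.cnFst f).1 ∘ₗ ρ.rm y _ (Tw.cnInr f).1 = 0 := by
    rw [← ρ.rm_mul (Tw.hom_mem (Tw.cnInr f)), ← ρ.rm_zero]
    exact congrArg _ (by simp [Tw.cnInr, Tw.cnFst, Tw.mkHom, Matrix.fromCols_mul_fromRows])
  have e4 : ρ.rm y _ (Tw.cnInr f).1 ∘ₗ ρ.rm (Tw.cn f) y (Matrix.fromCols 0 y.idm) +
      ρ.rm (x.sft 1) (Tw.cn f) (Matrix.fromRows x.idm 0) ∘ₗ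
        ρ.rm (Tw.cn f) (x.sft 1) (Tw.cnFst f).1 = .id := by
    rw [← ρ.rm_mul (Tw.cn_snd_mem f), ← ρ.rm_mul (Tw.hom_mem (Tw.cnFst f)), ← ρ.rm_add,
      ← ρ.rm_idm]
    exact congrArg _ (Tw.cn_tot f)
  have e5 : ρ.rm (Tw.cn f) y (Matrix.fromCols 0 y.idm) ∘ₗ
      ρ.rm (x.sft 1) (Tw.cn f) (Matrix.fromRows x.idm 0) = 0 := by
    rw [← ρ.rm_mul (Tw.cn_inl_mem f), ← ρ.rm_zero]
    exact congrArg _ (by simp [Matrix.fromCols_mul_fromRows])
  have e6 : ρ.rm (Tw.cn f) y (Matrix.fromCols 0 y.idm) ∘ₗ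
      homD _ _ (ρ.rm (x.sft 1) (Tw.cn f) (Matrix.fromRows x.idm 0)) = ρ.rm (x.sft 1) y f.1 := by
    rw [ρ.rm_d (Tw.cn_inl_mem f), ← ρ.rm_mul ((C.self.tw _ _).d_mem (Tw.cn_inl_mem f)),
      Tw.twD_inl]
    exact congrArg _ (by simp [Matrix.fromCols_mul_fromRows, Tw.idm_mul (Tw.hom_mem f)])
  refine comp_dist _ _ _ _ _ _ rfl rfl rfl (cone_dist (ρ.ki_real hT x) (ρ.ki_real hT y)
    (ρ.ki_real hT (Tw.cn f)) (ρ.rm_isHom f) (ρ.rm_isHom (Tw.cnInr f))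
    ((ρ.sft_isHom x 1).comp (ρ.rm_isHom (Tw.cnFst f))) (ρ.rm_deg (Tw.cn_snd_mem f))
    (s := ρ.rm (x.sft 1) (Tw.cn f) (Matrix.fromRows x.idm 0))
    (fun g n m h => ρ.rm_deg (Tw.cn_inl_mem f) g n m ((ρ.sft_isHom' x 1).mem h)) e1 e2 e3 e4
    fun m => ?_) HEq.rfl HEq.rfl fun i => heq_of_eq ?_
  · refine Eq.trans ?_ (LinearMap.congr_fun e6 m)
    rw [LinearMap.comp_apply, homD_apply, map_add]
    exact (add_zero _).symm.trans (congrArg _ (LinearMap.congr_fun e5 _).symm)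
  · refine sl_ext (i := i) (j := i + 1) (ρ.ki_real hT (Tw.cn f)) (ρ.ki_real hT x) fun _ m hm => ?_
    rw [ap_comp]
    exact ((ρ.ev_sftIso hT x 1 i _).trans (ρ.ev_toC hT (Tw.cnFst f) i _)).trans
      (ev_cmp (ρ.ki_real hT (Tw.cn f)) ((ρ.ki_real hT x).sh 1) _ _ _).symm

lemma toD_smul (l : x ⟶ x) (a : K)
    (h : (hom (ρ.real x) (ρ.real x)).Bd 0 (ρ.rm x x l.1 + algebraMap K R a • LinearMap.id)) :
    (ρ.toD hT c).map l = a • 𝟙 _ := by
  have hh : IsHom (ρ.real x) (ρ.real x) (algebraMap K R a • LinearMap.id) :=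
    ⟨fun h => mem_cast ((ρ.real x).smul_mem (SetLike.algebraMap_mem_graded A a) h) (zero_add _) rfl,
      fun m => ((ρ.real x).d.map_smul _ _)⟩
  refine (dm_eq _ _ (ρ.rm_isHom l) hh h).trans ?_
  rw [dm, toMap_smul _ _ a (IsHom.id _), toMap_id]
  exact ((Q I c).map_smul _ _).trans (congrArg _ ((Q I c).map_id _))

variable (I) in
/-- A representation whose realization functor is fully faithful. -/
structure FF (xs : List (HE A)) (ρ : Rep C T) : Prop where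
  ki : KI I T
  hon : T.Hon
  kp : KP (SL xs I.toIdeal) T
  ff : Cx.Qis C.self.cx (hom T ((cechF xs).obj T)) (ρ.unitMap ((cechEta xs).app T))

variable {ρ c} {xs : List (HE A)} (hx : Charts c xs) (H : FF I xs ρ)
include H

lemma FF.hon_real (x : Tw C) : (ρ.real x).Hon := (ρ.isReal_real x).pieces.hon fun _ => H.hon.sh _

lemma FF.kp_real (x : Tw C) : KP (SL xs I.toIdeal) (ρ.real x) :=
  (ρ.isReal_real x).pieces.kp fun _ => H.kp.sh _

include hx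

lemma FF.full : (ρ.toD H.ki c).Full := ⟨fun {x y} φ => by
  have hη := cechEta_isW xs (ρ.real y)
  have hY := sl_cech (xs := xs) (ρ.ki_real H.ki y)
  have := isIso_dm (ρ.ki_real H.ki y) hY.kill hx hη
  obtain ⟨f, hf, e⟩ := dm_surj (ρ.ki_real H.ki x) hx (H.hon_real x) (H.kp_real x)
    ((H.hon_real y).cech xs) hY (φ ≫ dm _ _ c hη.isHom)
  obtain ⟨g, hg, h0, hb⟩ := ((ρ.isReal_real x).unit_qis (ρ.isReal_real y) _ H.ff).surj 0 f hf.deg
    hf.homD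
  refine ⟨Tw.mkHom g hg h0, (cancel_mono (dm _ hY.kill c hη.isHom)).1 ?_⟩
  rw [← e]
  exact (dm_comp _ _ _ (ρ.rm_isHom (Tw.mkHom g hg h0)) hη.isHom).symm.trans (dm_eq _ _ _ hf hb)⟩

lemma FF.map_eq_zero (f : x ⟶ y) : (ρ.toD H.ki c).map f = 0 ↔ (C.self.tw x y).Bd 0 f.1 := by
  refine ⟨fun h => ?_, fun h => dm_eq_zero _ _ (ρ.rm_isHom f)
    (((ρ.isReal_real x).rmap_isMap (ρ.isReal_real y)).bd h)⟩
  have hη := cechEta_isW xs (ρ.real y)
  have hY := sl_cech (xs := xs) (ρ.ki_real H.ki y)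
  exact ((ρ.isReal_real x).unit_qis (ρ.isReal_real y) _ H.ff).inj 0 f.1 (Tw.hom_mem f) (Tw.hom_d f)
    (dm_inj (ρ.ki_real H.ki x) hx (H.hon_real x) (H.kp_real x) ((H.hon_real y).cech xs) hY
      (hη.isHom.comp (ρ.rm_isHom f)) ((dm_comp _ (ρ.ki_real H.ki y) _ (ρ.rm_isHom f) hη.isHom).trans
        ((congrArg (· ≫ _) h).trans zero_comp)))

end Rep
end FMD
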