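import Pool.Agent.MP_0e6a9f_ag.H36.Loc

/-! Stable Koszul complexes, Cech complexes, local objects. -/

set_option linter.unusedSectionVars false

noncomputable section
namespace FMD
open DG

variable {K G R : Type} [Field K] [AddCommGroup G] [CommRing R] [Algebra K R] [CharP K 2]
  {A : G → Submodule K R} [SetLike.GradedMonoid A] {U : Set G} {L M N : DG A}

/-- `M → M[1/x]` as a complex. -/
abbrev gam1 (x : HE A) : DGF A := (toLocT x).fibTw.ext

/-- The stable Koszul complex of a list of homogeneous elements. -/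
def gamF : List (HE A) → DGF A
  | [] => DGF.id A
  | x :: xs => (gam1 x).comp (gamF xs)

/-- The projection from the stable Koszul complex. -/
def gamEps : ∀ xs : List (HE A), NatT (gamF xs) (DGF.id A)
  | [] => ⟨fun _ => LinearMap.id, IsHom.id, fun _ _ _ _ => rfl⟩
  | x :: xs => ⟨fun M => (gamEps xs).app M ∘ₗ LinearMap.fst R _ _,
      fun M => ((gamEps xs).isHom M).comp (ext_fst (toLoc_isHom x _).fibTw),
      fun M N f m => (gamEps xs).nat M N f m.1⟩

/-- The Cech complex, as the cone of `gamEps`. -/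
abbrev cechF (xs : List (HE A)) : DGF A := (gamEps xs).coneTw.ext

/-- The map to the Cech complex. -/
@[reducible] def cechEta (xs : List (HE A)) : NatT (DGF.id A) (cechF xs) :=
  ⟨fun _ => LinearMap.inr R _ _, fun M => ext_inr ((gamEps xs).isHom M).coneTw,
    fun M N f _ => Prod.ext ((gamF xs).map M N f).map_zero.symm rfl⟩

/-- `U` is closed under adding the degrees of the list. -/
def StabL (U : Set G) (xs : List (HE A)) : Prop := ∀ x ∈ xs, Stab U x.deg

lemma stabL_univ (xs : List (HE A)) : StabL Set.univ xs := fun _ _ => stab_univ _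

lemma good_gam1 (x : HE A) (hU : Stab U x.deg) : (gam1 x).Good U :=
  NatTw.good _ DGF.good_id ((DGF.good_sh _).comp (good_loc x hU))

lemma pl_gam1 (x : HE A) : (gam1 x).PL := NatTw.pl _ DGF.pl_id ((DGF.pl_sh _).comp (pl_loc x))

lemma good_gam : ∀ {xs : List (HE A)}, StabL U xs → (gamF xs).Good U
  | [], _ => DGF.good_id
  | x :: _, h => (good_gam1 x (h x (by simp))).comp (good_gam fun y hy => h y (by simp [hy]))

lemma pl_gam : ∀ xs : List (HE A), (gamF xs).PL
  | [] => DGF.pl_id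
  | x :: xs => (pl_gam1 x).comp (pl_gam xs)

lemma good_cech {xs : List (HE A)} (h : StabL U xs) : (cechF xs).Good U :=
  NatTw.good _ ((DGF.good_sh _).comp (good_gam h)) DGF.good_id

lemma pl_cech (xs : List (HE A)) : (cechF xs).PL :=
  NatTw.pl _ ((DGF.pl_sh _).comp (pl_gam xs)) DGF.pl_id

lemma tors_gam1 (x : HE A) (M : DG A) : Tors x ((gam1 x).obj M) := by
  rintro g - n ⟨m, u⟩ ⟨hm, k, m', hm', e⟩ h0
  obtain ⟨h1, h2⟩ := Prod.ext_iff.1 h0
  change toLoc x M m + locMap x M M M.d u = 0 at h2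
  obtain ⟨l, hl⟩ := toLoc_eq_zero x (M := M) (m := x.x ^ k • m + M.d m') (by
    rw [map_add, ← locMap_toLoc, ← e, map_smul, map_smul, ← smul_add, h2, smul_zero])
  refine ⟨l + k, (x.x ^ l • m', 0), ⟨mem_cast (M := M) (pow_smul_mem x l hm')
    (by rw [add_nsmul]; abel) (by ring), zero_mem _⟩, Prod.ext ?_ ?_⟩
  · change M.d (x.x ^ l • m') = x.x ^ (l + k) • m
    rw [map_smul, pow_add, mul_smul]
    exact ((M.cx 0).eq_of_add (by rw [← smul_add]; exact hl)).symm
  · change toLoc x M (x.x ^ l • m') + locMap x M M M.d 0 = x.x ^ (l + k) • u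
    rw [map_zero, add_zero, map_smul, ← e, pow_add, mul_smul]

lemma tors_gam : ∀ {xs : List (HE A)} {x : HE A}, x ∈ xs → ∀ M, Tors x ((gamF xs).obj M)
  | y :: xs, x, h, M => by
    rcases List.mem_cons.1 h with rfl | h
    · exact tors_gam1 _ _
    · exact (pl_gam1 y).tors (good_gam1 y (stab_univ _)) (tors_gam h M)

/-- Every element of the list kills the cohomology up to a power. -/
def TorsL (xs : List (HE A)) (M : DG A) : Prop := ∀ x ∈ xs, Tors x M

/-- Local with respect to the list. -/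
def IsLocal (xs : List (HE A)) (M : DG A) : Prop := ((gamF xs).obj M).Acyc

lemma torsL_gam (xs : List (HE A)) (M : DG A) : TorsL xs ((gamF xs).obj M) :=
  fun _ h => tors_gam h M

lemma gam1_fst_qis {x : HE A} (h : Tors x M) : Qis ((gam1 x).obj M) M (LinearMap.fst R _ _) :=
  (ext_ses (toLoc_isHom x M).fibTw).qis_p ((acycOn_sh _).2 (tors_iff.1 h))

lemma gamEps_qis : ∀ {xs : List (HE A)}, TorsL xs M → Qis ((gamF xs).obj M) M ((gamEps xs).app M)
  | [], _ => QisOn.id M
  | x :: xs, h => (gamEps_qis fun y hy => h y (by simp [hy])).comp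
      (gam1_fst_qis ((pl_gam xs).tors (good_gam (stabL_univ xs)) (h x (by simp))))

lemma cech_acyc {xs : List (HE A)} (h : TorsL xs M) : ((cechF xs).obj M).Acyc :=
  (qisOn_iff_cone ((gamEps xs).isHom M)).1 (gamEps_qis h)

lemma cechEta_qisOn {xs : List (HE A)} (h : AcycOn U ((gamF xs).obj M)) :
    QisOn U M ((cechF xs).obj M) ((cechEta xs).app M) :=
  (ext_ses ((gamEps xs).isHom M).coneTw).qis_i ((acycOn_sh _).2 h)

lemma acyc_of_torsL_local {xs : List (HE A)} (h : TorsL xs M) (h' : IsLocal xs M) : M.Acyc :=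
  (gamEps_qis h).acyc_right h'

section tors
variable {x : HE A} {i : L.M →ₗ[R] M.M} {p : M.M →ₗ[R] N.M}

lemma DG.SESOn.tors₁ (S : SESOn Set.univ L M N i p) (h : Tors x M) (h' : Tors x N) : Tors x L :=
  tors_iff.2 (((good_loc x (stab_univ _)).ses S).acyc₁ (tors_iff.1 h) (tors_iff.1 h'))

lemma DG.SESOn.tors₂ (S : SESOn Set.univ L M N i p) (h : Tors x L) (h' : Tors x N) : Tors x M :=
  tors_iff.2 (((good_loc x (stab_univ _)).ses S).acyc₂ (tors_iff.1 h) (tors_iff.1 h'))

lemma DG.SESOn.tors₃ (S : SESOn Set.univ L M N i p) (h : Tors x L) (h' : Tors x M) : Tors x N :=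
  tors_iff.2 (((good_loc x (stab_univ _)).ses S).acyc₃ (tors_iff.1 h) (tors_iff.1 h'))

lemma tors_sh (k : ℤ) : Tors x (M.sh k) ↔ Tors x M :=
  tors_iff.trans (((locF x).acycOn_sh k).trans tors_iff.symm)

lemma tors_cone_iff {f : M.M →ₗ[R] N.M} (hf : IsHom M N f) :
    Tors x (cone hf) ↔ Qis (loc x M) (loc x N) (locMap x M N f) :=
  tors_iff.trans ((locF x).qisOn_iff hf).symm

end tors

/-- A chain map that becomes a quasi-isomorphism after inverting any element of the list. -/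
structure IsW (xs : List (HE A)) (M N : DG A) (f : M.M →ₗ[R] N.M) : Prop where
  isHom : IsHom M N f
  qis : ∀ x ∈ xs, Qis (loc x M) (loc x N) (locMap x M N f)

section W
variable {xs : List (HE A)} {f : M.M →ₗ[R] N.M} {g : L.M →ₗ[R] M.M}

lemma isW_iff (hf : IsHom M N f) : IsW xs M N f ↔ TorsL xs (cone hf) :=
  ⟨fun h x hx => (tors_cone_iff hf).2 (h.qis x hx),
    fun h => ⟨hf, fun x hx => (tors_cone_iff hf).1 (h x hx)⟩⟩

lemma IsW.of_qis (h : Qis M N f) : IsW xs M N f :=
  ⟨h.isHom, fun x _ => (good_loc x (stab_univ _)).qis h⟩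

lemma IsW.id (M : DG A) : IsW xs M M LinearMap.id := IsW.of_qis (QisOn.id M)

lemma IsW.comp (hf : IsW xs M N f) (hg : IsW xs L M g) : IsW xs L N (f ∘ₗ g) :=
  ⟨hf.isHom.comp hg.isHom, fun x hx =>
    (locF x).map_comp L M N f g ▸ (hf.qis x hx).comp (hg.qis x hx)⟩

lemma IsW.of_comp_left (hf : IsW xs M N f) (hg : IsHom L M g) (h : IsW xs L N (f ∘ₗ g)) :
    IsW xs L M g :=
  ⟨hg, fun x hx => (hf.qis x hx).of_comp_left ((locF x).isHom hg)
    ((locF x).map_comp L M N f g ▸ h.qis x hx)⟩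

lemma IsW.of_comp_right (hf : IsHom M N f) (hg : IsW xs L M g) (h : IsW xs L N (f ∘ₗ g)) :
    IsW xs M N f :=
  ⟨hf, fun x hx => QisOn.of_comp_right ((locF x).isHom hf) (hg.qis x hx)
    ((locF x).map_comp L M N f g ▸ h.qis x hx)⟩

lemma IsW.torsL_right (hf : IsW xs M N f) (h : TorsL xs M) : TorsL xs N :=
  fun x hx => tors_iff.2 ((hf.qis x hx).acyc_right (tors_iff.1 (h x hx)))

lemma IsW.torsL_left (hf : IsW xs M N f) (h : TorsL xs N) : TorsL xs M :=
  fun x hx => tors_iff.2 ((hf.qis x hx).acyc_left (tors_iff.1 (h x hx)))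

lemma DG.SESOn.isW_i {p : M.M →ₗ[R] N.M} (S : SESOn Set.univ L M N g p) (h : TorsL xs N) :
    IsW xs L M g :=
  ⟨S.hi, fun x hx => ((good_loc x (stab_univ _)).ses S).qis_i (tors_iff.1 (h x hx))⟩

lemma DG.SESOn.isW_p {p : M.M →ₗ[R] N.M} (S : SESOn Set.univ L M N g p) (h : TorsL xs L) :
    IsW xs M N p :=
  ⟨S.hp, fun x hx => ((good_loc x (stab_univ _)).ses S).qis_p (tors_iff.1 (h x hx))⟩

lemma IsW.map {F : DGF A} (h : F.PL) (h' : F.Good Set.univ) (hf : IsW xs M N f) :
    IsW xs (F.obj M) (F.obj N) (F.map M N f) :=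
  (isW_iff (F.isHom hf.isHom)).2 ((IsW.of_qis (F.cone_qis hf.isHom)).torsL_right
    fun x hx => h.tors h' ((isW_iff hf.isHom).1 hf x hx))

/-- The Cech complex for `ys` is a `W`-replacement when the `xs` kill what the `ys` kill. -/
lemma cechEta_isW' {ys : List (HE A)} (h : TorsL xs ((gamF ys).obj M)) :
    IsW xs M ((cechF ys).obj M) ((cechEta ys).app M) :=
  (ext_ses ((gamEps ys).isHom M).coneTw).isW_i fun x hx => (tors_sh _).2 (h x hx)

lemma cechEta_isW (xs : List (HE A)) (M : DG A) :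
    IsW xs M ((cechF xs).obj M) ((cechEta xs).app M) := cechEta_isW' (torsL_gam xs M)

lemma IsW.cech_qis (hf : IsW xs M N f) :
    Qis ((cechF xs).obj M) ((cechF xs).obj N) ((cechF xs).map M N f) :=
  ((cechF xs).qisOn_iff hf.isHom).2 (cech_acyc ((isW_iff hf.isHom).1 hf))

end W

section loc
variable {xs : List (HE A)}

lemma isLocal_of_inv {x : HE A} (hx : x ∈ xs) (h : Inv x M) : IsLocal xs M :=
  ((pl_gam xs).inv h).acycOn (stab_univ _) (tors_gam hx M)

lemma isLocal_of_acyc (h : M.Acyc) : IsLocal xs M := (good_gam (stabL_univ xs)).acyc h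

lemma IsLocal.of_qis_right {f : M.M →ₗ[R] N.M} (hf : Qis M N f) (h : IsLocal xs M) :
    IsLocal xs N := ((good_gam (stabL_univ xs)).qis hf).acyc_right h

lemma IsLocal.of_qis_left {f : M.M →ₗ[R] N.M} (hf : Qis M N f) (h : IsLocal xs N) :
    IsLocal xs M := ((good_gam (stabL_univ xs)).qis hf).acyc_left h

/-- The class of modules that a fixed functor makes acyclic is closed under extensions, -/
lemma DGF.acyc_ext (F : DGF A) {f : M.M →ₗ[R] N.M} (hf : IsTw M N f) (h : AcycOn U (F.obj M))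
    (h' : AcycOn U (F.obj N)) : AcycOn U (F.obj (ext hf)) := (F.ext_ses hf).acyc₂ h' h

/-- under stable Koszul complexes, -/
lemma DGF.PL.acyc_gam {F : DGF A} (hF : F.PL) (h : (F.obj M).Acyc) :
    ∀ ys : List (HE A), (F.obj ((gamF ys).obj M)).Acyc
  | [] => h
  | y :: ys => F.acyc_ext (toLoc_isHom y _).fibTw (hF.acyc_gam h ys)
      ((F.acycOn_sh _).2 (hF.acyc_loc (hF.acyc_gam h ys)))

/-- and under Cech complexes. -/
lemma DGF.PL.acyc_cech {F : DGF A} (hF : F.PL) (h : (F.obj M).Acyc) (ys : List (HE A)) :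
    (F.obj ((cechF ys).obj M)).Acyc :=
  F.acyc_ext ((gamEps ys).isHom M).coneTw ((F.acycOn_sh _).2 (hF.acyc_gam h ys)) h

lemma IsLocal.ext {f : M.M →ₗ[R] N.M} (hf : IsTw M N f) (h : IsLocal xs M) (h' : IsLocal xs N) :
    IsLocal xs (ext hf) := (gamF xs).acyc_ext hf h h'

lemma IsLocal.sh (h : IsLocal xs M) (k : ℤ) : IsLocal xs (M.sh k) := ((gamF xs).acycOn_sh k).2 h

lemma IsLocal.tg (h : IsLocal xs M) (a : G) : IsLocal xs (M.tg a) :=
  fun g _ => ((gamF xs).acyc_tg a g).2 (h _ trivial)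

lemma IsLocal.loc (h : IsLocal xs M) (y : HE A) : IsLocal xs (loc y M) := (pl_gam xs).acyc_loc h

lemma IsLocal.gam (h : IsLocal xs M) (ys : List (HE A)) : IsLocal xs ((gamF ys).obj M) :=
  (pl_gam xs).acyc_gam h ys

lemma IsLocal.cech (h : IsLocal xs M) (ys : List (HE A)) : IsLocal xs ((cechF ys).obj M) :=
  (pl_gam xs).acyc_cech h ys

/-- If `F` kills every module on which an element of `ys` is invertible, it inverts `gamEps`. -/
lemma DGF.gamEps_qis (F : DGF A) : ∀ (ys : List (HE A)),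
    (∀ y ∈ ys, ∀ M' : DG A, AcycOn U (F.obj (DG.loc y M'))) → ∀ M : DG A,
    QisOn U (F.obj ((gamF ys).obj M)) (F.obj M) (F.map _ _ ((gamEps ys).app M))
  | [], _, M => (F.map_id M).symm ▸ QisOn.id _
  | y :: ys, h, M => by
    have h1 := (F.ext_ses (U := U) (toLoc_isHom y ((gamF ys).obj M)).fibTw).qis_p
      ((F.acycOn_sh _).2 (h y (by simp) _))
    have h2 := (F.gamEps_qis ys (fun z hz => h z (by simp [hz])) M).comp h1
    rwa [← F.map_comp] at h2

lemma isLocal_cech (xs : List (HE A)) (M : DG A) : IsLocal xs ((cechF xs).obj M) :=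
  ((gamF xs).qisOn_iff ((gamEps xs).isHom M)).1
    ((gamF xs).gamEps_qis xs (fun y hy _ => isLocal_of_inv hy (inv_loc y _)) M)

lemma IsW.qis_of_local {f : M.M →ₗ[R] N.M} (hf : IsW xs M N f) (h : IsLocal xs M)
    (h' : IsLocal xs N) : Qis M N f :=
  (qisOn_iff_cone hf.isHom).2 (acyc_of_torsL_local ((isW_iff hf.isHom).1 hf)
    (IsLocal.ext hf.isHom.coneTw (h.sh 1) h'))

lemma tors_one (h : Tors (HE.one A) M) : M.Acyc := fun g _ n z hz h0 => by
  obtain ⟨k, hk⟩ := h g trivial n z hz h0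
  exact bd_cast hk (by simp [HE.one]) (by simp [HE.one])

lemma tors_of_mul {x y : HE A} (h : Tors (x.mul y) M) (hx : Inv x M) : Tors y M := by
  intro g _ n z hz h0
  obtain ⟨k, w, hw, e⟩ := h g trivial n z hz h0
  obtain ⟨v, hv, rfl⟩ := hx.pow_div k (g := k • y.deg + g)
    (mem_cast hw (by simp [HE.mul, add_assoc]) rfl)
  refine ⟨k, v, hv, (M.cx 0).eq_of_add (hx.pow_inj k
    (add_mem (Cx.d_mem' (C := M.cx _) hv) (pow_smul_mem y k hz)) ?_)⟩
  change _ • (M.d v + _) = 0
  rw [smul_add, ← map_smul, show M.d _ = _ from e, smul_smul, ← mul_pow]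
  exact M.two _

/-- Local for every block and torsion for every product of one element per block: acyclic. -/
lemma acyc_of_blocks : ∀ (Js : List (List (HE A))) (T : DG A), (∀ J ∈ Js, IsLocal J T) →
    (∀ zs, List.Forall₂ (· ∈ ·) zs Js → Tors (zs.foldr HE.mul (HE.one A)) T) → T.Acyc
  | [], _, _, h => tors_one (h [] List.Forall₂.nil)
  | J :: Js, T, h, h' => acyc_of_torsL_local (fun z hz => tors_iff.2 (acyc_of_blocks Js _
      (fun J' hJ => (h J' (by simp [hJ])).loc z) fun zs hzs => tors_of_mul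
        ((pl_loc z).tors (good_loc z (stab_univ _)) (h' (z :: zs) (List.Forall₂.cons hz hzs)))
        (inv_loc z T))) (h J (by simp))

lemma isLocal_of_blocks (Js : List (List (HE A))) (h : ∀ J ∈ Js, IsLocal J M)
    (h' : ∀ zs, List.Forall₂ (· ∈ ·) zs Js → ∀ T : DG A, TorsL xs T →
      Tors (zs.foldr HE.mul (HE.one A)) T) : IsLocal xs M :=
  acyc_of_blocks Js _ (fun J hJ => (h J hJ).gam xs) fun zs hzs => h' zs hzs _ (torsL_gam xs M)

/-- One step along a regular sequence. -/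
lemma reg_step {U' : Set G} {z : HE A} (hz : z ∈ xs) (hU : Stab U z.deg) (hU' : StabL U' xs)
    (h : ∀ g ∈ U, z.deg + g ∈ U') {p : M.M →ₗ[R] N.M}
    (S : SESOn U' (M.tg (-z.deg)) M N (z.x • LinearMap.id) p) (hN : AcycOn U' ((gamF xs).obj N)) :
    AcycOn U ((gamF xs).obj M) := by
  have q := ((good_gam hU').ses S).qis_i hN
  have key : ∀ g ∈ U, ∀ n, ∀ u ∈ ((gamF xs).obj M).gr g n, ((gamF xs).obj M).d u = 0 →
      (((gamF xs).obj M).cx (z.deg + g)).Bd n (z.x • u) → (((gamF xs).obj M).cx g).Bd n u := by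
    intro g hg n u hu h0 hb
    have a1 : (LinearMap.id : M.M →ₗ[R] M.M) ∈ deg M (M.tg (-z.deg)) z.deg 0 :=
      fun _ _ _ h => mem_cast (M := M) h (by abel) (by ring)
    have a2 : (LinearMap.id : M.M →ₗ[R] M.M) ∈ deg (M.tg (-z.deg)) M (-z.deg) 0 :=
      fun _ _ _ h => mem_cast (M := M) h (by abel) (by ring)
    have d1 : homD M (M.tg (-z.deg)) LinearMap.id = 0 := (IsHom.id M).homD
    have d2 : homD (M.tg (-z.deg)) M LinearMap.id = 0 := (IsHom.id M).homD
    obtain ⟨w, hw, e⟩ := (q.qis _ (h g hg)).inj n ((gamF xs).map M (M.tg (-z.deg)) LinearMap.id u)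
      (mem_cast ((gamF xs).map_deg a1 _ _ _ hu) rfl (by ring)) (by
        change ((gamF xs).obj _).d _ = 0
        rw [DGF.d_apply, d1, h0, map_zero, map_zero, LinearMap.zero_apply, add_zero]) (by
        refine bd_cast hb rfl ?_
        change _ = (gamF xs).map _ _ _ _
        rw [DGF.comp_apply, LinearMap.comp_id, map_smul, LinearMap.smul_apply, DGF.id_apply])
    refine ⟨(gamF xs).map (M.tg (-z.deg)) M LinearMap.id w,
      mem_cast ((gamF xs).map_deg a2 _ _ _ hw) (by abel) (by ring), ?_⟩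
    change ((gamF xs).obj _).d _ = u
    rw [DGF.d_apply, d2, map_zero, LinearMap.zero_apply, add_zero,
      show ((gamF xs).obj _).d w = _ from e, DGF.comp_apply, LinearMap.comp_id, DGF.id_apply]
  intro g hg n u hu h0
  obtain ⟨k, hk⟩ := tors_gam hz M g trivial n u hu h0
  induction k with
  | zero => exact bd_cast hk (by simp) (by simp)
  | succ k ih =>
    exact ih (key _ (hU.nsmul k g hg) n _ (pow_smul_mem z k hu)
      (by rw [map_smul, show ((gamF xs).obj M).d u = 0 from h0, smul_zero])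
      (bd_cast hk (by rw [succ_nsmul]; abel) (by rw [smul_smul, pow_succ'])))

end loc
end FMD
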