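import Pool.Agent.MP_0e6a9f_ag.H36.Rep

/-! Honestly graded modules, free modules, strongly local modules. -/

set_option linter.unusedSectionVars false

noncomputable section
namespace FMD
open DG

/-- The subgroups `gr i` are independent. -/
def Ind {ι V : Type} [AddCommGroup V] (gr : ι → AddSubgroup V) : Prop :=
  ∀ (s : Finset ι) (v : ι → V), (∀ i ∈ s, v i ∈ gr i) → ∑ i ∈ s, v i = 0 → ∀ i ∈ s, v i = 0

lemma Ind.reidx {ι κ V : Type} [AddCommGroup V] {gr : ι → AddSubgroup V} (h : Ind gr) {σ : κ → ι}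
    (hσ : Function.Injective σ) (s : Finset κ) (v : κ → V) (hv : ∀ k ∈ s, v k ∈ gr (σ k))
    (h0 : ∑ k ∈ s, v k = 0) : ∀ k ∈ s, v k = 0 := fun k hk => by
  have := h (s.map ⟨σ, hσ⟩) (Function.extend σ v 0) (fun i hi => by
    obtain ⟨k, hk, rfl⟩ := Finset.mem_map.1 hi
    exact (hσ.extend_apply v 0 k).symm ▸ hv k hk) (by
    rw [Finset.sum_map, ← h0]
    exact Finset.sum_congr rfl fun k _ => hσ.extend_apply v 0 k) (σ k) (Finset.mem_map_of_mem _ hk)
  rwa [hσ.extend_apply] at this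

lemma exists_sum_of_mem_iSup {ι V : Type} [AddCommGroup V] {gr : ι → AddSubgroup V} {m : V}
    (h : m ∈ ⨆ i, gr i) : ∃ (s : Finset ι) (v : ι → V), (∀ i, v i ∈ gr i) ∧ ∑ i ∈ s, v i = m ∧
      ∀ i ∉ s, v i = 0 := by
  classical
  induction h using AddSubgroup.iSup_induction' with
  | hp i x hx =>
    refine ⟨{i}, Pi.single i x, fun j => ?_, by simp, fun j hj => Pi.single_eq_of_ne (by simpa using hj) _⟩
    by_cases hj : j = i
    · subst hj; simpa using hx
    · simp [hj]
  | h1 => exact ⟨∅, 0, fun _ => zero_mem _, rfl, fun _ _ => rfl⟩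
  | hadd x y _ _ hx hy =>
    obtain ⟨s, v, hv, rfl, hs⟩ := hx
    obtain ⟨t, w, hw, rfl, ht⟩ := hy
    refine ⟨s ∪ t, v + w, fun i => add_mem (hv i) (hw i), ?_, fun i hi => by
      simp [hs i fun h => hi (by simp [h]), ht i fun h => hi (by simp [h])]⟩
    simp only [Pi.add_apply, Finset.sum_add_distrib]
    rw [← Finset.sum_subset Finset.subset_union_left fun i _ hi => hs i hi,
      ← Finset.sum_subset Finset.subset_union_right fun i _ hi => ht i hi]

lemma isInternal_of_ind {ι V : Type} [DecidableEq ι] [AddCommGroup V] {gr : ι → AddSubgroup V}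
    (h : Ind gr) (h' : ∀ m, m ∈ ⨆ i, gr i) : DirectSum.IsInternal gr := by
  classical
  refine ⟨(injective_iff_map_eq_zero _).2 fun x hx => DFinsupp.ext fun i => ?_, fun m => ?_⟩
  · by_cases hi : i ∈ x.support
    · exact Subtype.ext (h x.support (fun i => x i) (fun i _ => (x i).2) (by
        rw [← hx, DirectSum.coeAddMonoidHom_eq_dfinsuppSum]; rfl) i hi)
    · exact DFinsupp.notMem_support_iff.1 hi
  · obtain ⟨s, v, hv, rfl, -⟩ := exists_sum_of_mem_iSup (h' m)
    exact ⟨∑ i ∈ s, DirectSum.of (fun i => gr i) i ⟨v i, hv i⟩, by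
      simp [DirectSum.coeAddMonoidHom_of]⟩

lemma ind_of_proj {ι V : Type} [AddCommGroup V] {gr : ι → AddSubgroup V} (p : ι → V →+ V)
    (same : ∀ i, ∀ v ∈ gr i, p i v = v) (ne : ∀ i j, j ≠ i → ∀ v ∈ gr j, p i v = 0) : Ind gr :=
  fun s v hv h0 i hi => by
    rw [← same i _ (hv i hi), ← Finset.sum_eq_single_of_mem (f := fun j => p i (v j)) i hi
      fun j hj hne => ne i j hne _ (hv j hj), ← map_sum, h0, map_zero]

variable {K G R : Type} [Field K] [AddCommGroup G] [CommRing R] [Algebra K R] [CharP K 2]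
  {A : G → Submodule K R} {U : Set G} {L M N P T Z : DG A}

namespace DG

/-- The bigrading is an honest direct sum decomposition. -/
structure Hon (M : DG A) : Prop where
  span : M.Span
  ind : Ind fun p : G × ℤ => M.gr p.1 p.2

lemma Span.of_maps {J : Type} [Fintype J] {Q : J → DG A} (s : ∀ j, (Q j).M →ₗ[R] M.M) {a : J → G}
    {k : J → ℤ} (hs : ∀ j, s j ∈ deg (Q j) M (a j) (k j))
    (h : ∀ m, ∃ q : ∀ j, (Q j).M, ∑ j, s j (q j) = m)
    (hQ : ∀ j, (Q j).Span) : M.Span := fun m => by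
  obtain ⟨q, rfl⟩ := h m
  refine sum_mem fun j _ => ?_
  generalize q j = t
  induction hQ j t using AddSubgroup.iSup_induction' with
  | hp p x hx => exact AddSubgroup.mem_iSup_of_mem (a j + p.1, p.2 + k j) (hs j _ _ _ hx)
  | h1 => simp
  | hadd x y _ _ hx hy => rw [map_add]; exact add_mem hx hy

lemma ind_of_maps {J : Type} {Q : J → DG A} (p : ∀ j, M.M →ₗ[R] (Q j).M) {a : J → G}
    {k : J → ℤ} (hp : ∀ j, p j ∈ deg M (Q j) (a j) (k j)) (h : ∀ m, (∀ j, p j m = 0) → m = 0)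
    (hQ : ∀ j, Ind fun p : G × ℤ => (Q j).gr p.1 p.2) : Ind fun p : G × ℤ => M.gr p.1 p.2 :=
  fun s v hv h0 i hi => h _ fun j => (hQ j).reidx (σ := fun p : G × ℤ => (a j + p.1, p.2 + k j))
    (fun _ _ e => Prod.ext (add_left_cancel (Prod.ext_iff.1 e).1)
      (add_right_cancel (Prod.ext_iff.1 e).2)) s (fun i => p j (v i))
    (fun i hi => hp j _ _ _ (hv i hi)) (by rw [← map_sum, h0, map_zero]) i hi

lemma Hon.of_maps {J : Type} [Fintype J] {Q : J → DG A} (p : ∀ j, M.M →ₗ[R] (Q j).M)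
    (s : ∀ j, (Q j).M →ₗ[R] M.M) {a a' : J → G} {k k' : J → ℤ}
    (hp : ∀ j, p j ∈ deg M (Q j) (a j) (k j)) (hs : ∀ j, s j ∈ deg (Q j) M (a' j) (k' j))
    (h : ∀ m, ∑ j, s j (p j m) = m) (hQ : ∀ j, (Q j).Hon) : M.Hon :=
  ⟨Span.of_maps s hs (fun m => ⟨_, h m⟩) fun j => (hQ j).span,
    ind_of_maps p hp (fun m hm => by rw [← h m]; simp [hm]) fun j => (hQ j).ind⟩

lemma Hon.sh (h : M.Hon) (k : ℤ) : (M.sh k).Hon :=
  Hon.of_maps (J := Unit) (Q := fun _ => M) (fun _ => LinearMap.id) (fun _ => LinearMap.id)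
    (a := 0) (a' := 0) (k := fun _ => k) (k' := fun _ => -k)
    (fun _ _ _ _ h => mem_cast (M := M) h (by simp) rfl)
    (fun _ _ _ _ h => mem_cast (M := M) h (by simp) (by ring)) (by simp) fun _ => h

lemma Hon.tg (h : M.Hon) (a : G) : (M.tg a).Hon :=
  Hon.of_maps (J := Unit) (Q := fun _ => M) (fun _ => LinearMap.id) (fun _ => LinearMap.id)
    (a := fun _ => a) (a' := fun _ => -a) (k := 0) (k' := 0)
    (fun _ _ _ _ h => mem_cast (M := M) h (by abel) (by simp))
    (fun _ _ _ _ h => mem_cast (M := M) h (by abel) (by simp)) (by simp) fun _ => h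

lemma Pieces.hon {J : Type} [Fintype J] {Q : J → DG A} {ht : J → ℤ} {p : ∀ j, M.M →ₗ[R] (Q j).M}
    {s : ∀ j, (Q j).M →ₗ[R] M.M} (H : Pieces M Q ht p s) (h : ∀ j, (Q j).Hon) : M.Hon :=
  Hon.of_maps p s H.hp H.hs (fun m => by simpa using LinearMap.congr_fun H.tot m) h

lemma Pieces.kill {I : Set R} {J : Type} [Fintype J] {Q : J → DG A} {ht : J → ℤ}
    {p : ∀ j, M.M →ₗ[R] (Q j).M} {s : ∀ j, (Q j).M →ₗ[R] M.M} (H : Pieces M Q ht p s)
    (h : ∀ j, Kill I (Q j)) : Kill I M := fun r hr m => by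
  have e : ∑ j, s j (p j m) = m := by simpa using LinearMap.congr_fun H.tot m
  rw [← e, Finset.smul_sum]
  exact Finset.sum_eq_zero fun j _ => by rw [← map_smul, h j r hr, map_zero]

lemma Hon.ext {f : M.M →ₗ[R] N.M} (hf : IsTw M N f) (h : M.Hon) (h' : N.Hon) : (ext hf).Hon :=
  Hon.of_maps (J := Bool) (Q := fun b => b.rec M N)
    (fun b => b.rec (LinearMap.fst R M.M N.M) (LinearMap.snd R M.M N.M))
    (fun b => b.rec (LinearMap.inl R M.M N.M) (LinearMap.inr R M.M N.M)) (a := 0) (a' := 0) (k := 0)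
    (k' := 0) (fun b => b.rec (ext_fst hf).deg (ext_snd_deg hf))
    (fun b => b.rec (ext_inl_deg hf) (ext_inr hf).deg)
    (fun _ => (Fintype.sum_bool _).trans (Prod.ext (zero_add _) (add_zero _)))
    fun b => b.rec h h'

/-- The maps of degree `(0, n)` out of a spanned module into an honest one are independent. -/
lemma ind_deg (h : M.Span) (h' : N.Hon) : Ind (deg M N 0) := fun s v hv h0 i hi =>
  h.ext fun g n m hm => h'.ind.reidx (σ := fun k : ℤ => (0 + g, n + k))
    (fun _ _ e => add_left_cancel (Prod.ext_iff.1 e).2) s (fun k => v k m)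
    (fun k hk => hv k hk _ _ _ hm) (by rw [← LinearMap.sum_apply, h0]; rfl) i hi

variable [SetLike.GradedMonoid A]

lemma Hon.loc (h : M.Hon) (x : HE A) : (loc x M).Hon where
  span u := by
    obtain ⟨k, m, e⟩ := loc_surj x u
    induction h.span m using AddSubgroup.iSup_induction' generalizing u with
    | hp p m hm =>
      exact AddSubgroup.mem_iSup_of_mem (p.1 - k • x.deg, p.2) ⟨k, m, mem_cast hm (by simp) rfl, e⟩
    | h1 => rw [loc_inj x k (e.trans (map_zero _))]; exact zero_mem _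
    | hadd m m' _ _ ih ih' =>
      obtain ⟨v, hv⟩ := loc_div x k (toLoc x M m)
      have := add_mem (ih v hv) (ih' (u - v) (by rw [smul_sub, e, hv, map_add, add_sub_cancel_left]))
      rwa [add_sub_cancel] at this
  ind s v hv h0 i hi := by
    have : ∀ p, ∃ k : ℕ, ∃ m, p ∈ s → m ∈ M.gr (k • x.deg + p.1) p.2 ∧ x.x ^ k • v p = toLoc x M m :=
      fun p => by
        by_cases hp : p ∈ s
        · obtain ⟨k, m, h1, h2⟩ := hv p hp
          exact ⟨k, m, fun _ => ⟨h1, h2⟩⟩
        · exact ⟨0, 0, fun h => absurd h hp⟩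
    choose k m hm using this
    have le : ∀ p ∈ s, k p ≤ s.sup k := fun p hp => Finset.le_sup hp
    have e : ∀ p ∈ s, toLoc x M (x.x ^ (s.sup k - k p) • m p) = x.x ^ s.sup k • v p :=
      fun p hp => by
        rw [map_smul, ← (hm p hp).2, smul_smul, ← pow_add, Nat.sub_add_cancel (le p hp)]
    obtain ⟨l, hl⟩ := toLoc_eq_zero x (M := M) (m := ∑ p ∈ s, x.x ^ (s.sup k - k p) • m p) (by
      rw [map_sum, Finset.sum_congr rfl e, ← Finset.smul_sum, h0, smul_zero])
    have := h.ind.reidx (σ := fun p : G × ℤ => (l • x.deg + (s.sup k • x.deg + p.1), p.2))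
      (fun _ _ e => Prod.ext (add_left_cancel (add_left_cancel (Prod.ext_iff.1 e).1))
        (Prod.ext_iff.1 e).2) s (fun p => x.x ^ l • x.x ^ (s.sup k - k p) • m p)
      (fun p hp => pow_smul_mem x l (mem_cast (pow_smul_mem x _ (hm p hp).1)
        (by rw [← add_assoc, ← add_nsmul, Nat.sub_add_cancel (le p hp)]) rfl))
      (by rw [← Finset.smul_sum, hl]) i hi
    exact loc_inj x (l + s.sup k) (by rw [pow_add, mul_smul, ← e i hi, ← map_smul, this, map_zero])

lemma Hon.gam (h : M.Hon) : ∀ xs : List (HE A), ((gamF xs).obj M).Hon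
  | [] => h
  | x :: xs => Hon.ext (toLoc_isHom x _).fibTw (h.gam xs) (((h.gam xs).loc x).sh _)

lemma Hon.cech (h : M.Hon) (xs : List (HE A)) : ((cechF xs).obj M).Hon :=
  Hon.ext ((gamEps xs).isHom M).coneTw ((h.gam xs).sh _) h

/-- A basis of homogeneous elements `s j` of bidegree `(a j, n j)` with coordinates `p j`. -/
structure Free (T : DG A) {J : Type} [Fintype J] [DecidableEq J] (a : J → G) (n : J → ℤ)
    (p : J → T.M →ₗ[R] R) (s : J → T.M) : Prop where
  hp : ∀ j {g k m}, m ∈ T.gr g k → p j m ∈ (ring A).gr (g - a j) (k - n j)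
  hs : ∀ j, s j ∈ T.gr (a j) (n j)
  tot : ∀ m, ∑ j, p j m • s j = m
  ps : ∀ i j, p i (s j) = if i = j then 1 else 0

lemma eq_zero_of_mem_ring {g : G} {n : ℤ} {r : R} (h : r ∈ (ring A).gr g n) (hn : n ≠ 0) : r = 0 := by
  change r ∈ (if n = 0 then (A g).toAddSubgroup else ⊥) at h
  rwa [if_neg hn, AddSubgroup.mem_bot] at h

lemma Free.pieces {J : Type} [Fintype J] [DecidableEq J] {a : J → G} {n : J → ℤ}
    {p : J → T.M →ₗ[R] R} {s : J → T.M} (H : Free T a n p s) :
    Pieces T (fun j => ((ring A).tg (-a j)).sh (-n j)) n p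
      (fun j => LinearMap.toSpanSingleton R T.M (s j)) where
  hp j _ _ _ h := mem_cast (M := ring A) (H.hp j h) (by abel) (by ring)
  hs j _ _ _ h := mem_cast (ring_smul_mem h (H.hs j)) (by abel) (by ring)
  tot := LinearMap.ext fun m => by simpa using H.tot m
  ps j := LinearMap.ext fun r => (zero_add _).trans (map_zero (p j ∘ₗ _))
  ps' i j h := LinearMap.ext fun r => by simp [H.ps, h]
  tri i j h := LinearMap.ext fun r => by
    change p i (T.d (r • s j) + (0 : R) • s j) = 0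
    rw [zero_smul, add_zero, map_smul, map_smul,
      eq_zero_of_mem_ring (H.hp i (T.d_mem (H.hs j))) (by omega), smul_zero]

lemma hon_ring {A : G → Submodule K R} [DecidableEq G] [GradedAlgebra A] : (ring A).Hon where
  span r := by
    induction r using DirectSum.Decomposition.inductionOn A with
    | zero => exact zero_mem _
    | @homogeneous g r => exact AddSubgroup.mem_iSup_of_mem (g, (0 : ℤ)) r.2
    | add r s hr hs => exact add_mem hr hs
  ind := ind_of_proj (fun p => if p.2 = 0 then (GradedRing.proj A p.1) else 0)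
    (fun ⟨g, n⟩ v hv => by
      by_cases h : n = 0
      · subst h; exact DirectSum.decompose_of_mem_same A hv
      · rw [eq_zero_of_mem_ring hv h, map_zero])
    (fun ⟨g, n⟩ ⟨g', n'⟩ hne v hv => by
      by_cases h : n' = 0
      · subst h
        by_cases h' : n = 0
        · subst h'; exact DirectSum.decompose_of_mem_ne A hv fun e => hne (Prod.ext e rfl)
        · simp [h']
      · rw [eq_zero_of_mem_ring hv h, map_zero])

end DG

variable [SetLike.GradedMonoid A] {I : Set R} {xs : List (HE A)}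

/-- `DGF.gamEps_qis` for modules killed by `I`. -/
lemma DGF.gamEps_qis' (F : DGF A) : ∀ (ys : List (HE A)),
    (∀ y ∈ ys, ∀ M' : DG A, Kill I M' → AcycOn U (F.obj (DG.loc y M'))) → ∀ M : DG A, Kill I M →
    QisOn U (F.obj ((gamF ys).obj M)) (F.obj M) (F.map _ _ ((gamEps ys).app M))
  | [], _, M, _ => (F.map_id M).symm ▸ QisOn.id _
  | y :: ys, h, M, hM => by
    have h1 := (F.ext_ses (U := U) (toLoc_isHom y ((gamF ys).obj M)).fibTw).qis_p
      ((F.acycOn_sh _).2 (h y (by simp) _ (hM.map _)))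
    have h2 := (F.gamEps_qis' ys (fun z hz => h z (by simp [hz])) M hM).comp h1
    rwa [← F.map_comp] at h2

/-- Strongly local: killed by `I` and by every DG functor that kills the localizations. -/
structure SL (xs : List (HE A)) (I : Set R) (Z : DG A) : Prop where
  kill : Kill I Z
  acyc : ∀ F : DGF A, (∀ x ∈ xs, ∀ M, Kill I M → (F.obj (DG.loc x M)).Acyc) → (F.obj Z).Acyc

lemma SL.isLocal (h : SL xs I Z) : IsLocal xs Z :=
  h.acyc _ fun x hx _ _ => isLocal_of_inv hx (inv_loc x _)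

lemma sl_cech (h : Kill I M) : SL xs I ((cechF xs).obj M) :=
  ⟨h.map _, fun F hF => (F.qisOn_iff ((gamEps xs).isHom M)).1 (F.gamEps_qis' xs hF M h)⟩

lemma SL.ext {f : M.M →ₗ[R] N.M} (hf : IsTw M N f) (h : SL xs I M) (h' : SL xs I N) :
    SL xs I (ext hf) :=
  ⟨h.kill.ext hf h'.kill, fun F hF => F.acyc_ext hf (h.acyc F hF) (h'.acyc F hF)⟩

lemma SL.sh (h : SL xs I M) (k : ℤ) : SL xs I (M.sh k) :=
  ⟨h.kill, fun F hF => (F.acycOn_sh k).2 (h.acyc F hF)⟩

lemma DG.Pieces.sl {J : Type} [Fintype J] {Q : J → DG A} {ht : J → ℤ} {p : ∀ j, M.M →ₗ[R] (Q j).M}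
    {s : ∀ j, (Q j).M →ₗ[R] M.M} (H : Pieces M Q ht p s) (h : ∀ j, SL xs I (Q j)) : SL xs I M :=
  ⟨H.kill fun j => (h j).kill, fun F hF => (H.map F).acycOn fun j => (h j).acyc F hF⟩

/-- Maps in `W` between strongly local modules induce quasi-isomorphisms on `hom (P, -)`. -/
lemma DG.KP.post_isW (hP : KP (SL xs I) P) {f : M.M →ₗ[R] N.M} (hf : IsW xs M N f) (h : SL xs I M)
    (h' : SL xs I N) : Qis (homO P M) (homO P N) (post P f) :=
  hP.post_qis (hf.qis_of_local h.isLocal h'.isLocal) (SL.ext hf.isHom.coneTw (h.sh 1) h')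

lemma pre_loc_qis (x : HE A) {u : M.M →ₗ[R] N.M} (hu : IsHom M N u) (hN : N.Span)
    (surj : ∀ g n, ∀ v ∈ N.gr g n, ∃ k : ℕ, ∃ m ∈ M.gr (k • x.deg + g) n, x.x ^ k • v = u m)
    (ker : ∀ m, u m = 0 → ∃ k : ℕ, x.x ^ k • m = 0) (Y : DG A) :
    Qis (homO N (DG.loc x Y)) (homO M (DG.loc x Y)) (pre _ u) := by
  have surj' : ∀ v, ∃ k : ℕ, ∃ m, x.x ^ k • v = u m := fun v => by
    induction hN v using AddSubgroup.iSup_induction' with
    | hp p v hv => obtain ⟨k, m, -, e⟩ := surj _ _ v hv; exact ⟨k, m, e⟩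
    | h1 => exact ⟨0, 0, by simp⟩
    | hadd v w _ _ hv hw =>
      obtain ⟨k, m, e⟩ := hv
      obtain ⟨l, m', e'⟩ := hw
      exact ⟨l + k, x.x ^ l • m + x.x ^ k • m', by
        rw [map_add, map_smul, map_smul, ← e, ← e', smul_add, smul_smul, smul_smul, ← pow_add,
          ← pow_add, add_comm k l]⟩
  have : IsLocalizedModule (Submonoid.powers x.x) (toLoc x N ∘ₗ u) :=
    { map_units := IsLocalizedModule.map_units (toLoc x N)
      surj := fun w => by
        obtain ⟨k, v, e⟩ := loc_surj x w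
        obtain ⟨l, m, e'⟩ := surj' v
        refine ⟨(m, ⟨_, l + k, rfl⟩), ?_⟩
        change x.x ^ (l + k) • w = toLoc x N (u m)
        rw [pow_add, mul_smul, e, ← e', map_smul]
      exists_of_eq := fun {m m'} e => by
        obtain ⟨k, hk⟩ := toLoc_eq_zero x (M := N) (m := u (m - m'))
          (by rw [map_sub, map_sub]; exact sub_eq_zero.2 e)
        obtain ⟨l, hl⟩ := ker (x.x ^ k • (m - m')) (by rw [map_smul, hk])
        refine ⟨⟨_, l + k, rfl⟩, sub_eq_zero.1 ?_⟩
        change x.x ^ (l + k) • m - x.x ^ (l + k) • m' = 0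
        rw [← smul_sub, pow_add, mul_smul, hl] }
  refine ⟨hu.preO _, fun g _ => Cx.Qis.of_bij ((hu.preO _).cx g) (fun n v _ h => ?_)
    fun n w hw => ?_⟩
  · refine LinearMap.ext fun m => ?_
    obtain ⟨k, m', e⟩ := surj' m
    exact loc_inj x k (by rw [← map_smul, e]; exact LinearMap.congr_fun h m')
  · let W := IsLocalizedModule.lift (Submonoid.powers x.x) (toLoc x N ∘ₗ u) w
      (IsLocalizedModule.map_units (toLoc x Y))
    have hW : ∀ m, W (toLoc x N (u m)) = w m := IsLocalizedModule.lift_apply _ _ _ _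
    refine ⟨W ∘ₗ toLoc x N, fun g' n' v hv => ?_, LinearMap.ext hW⟩
    obtain ⟨k, m, hm, e⟩ := surj _ _ v hv
    obtain ⟨t, ht, e'⟩ := (inv_loc x Y).pow_div k (g := g + g')
      (mem_cast (hw _ _ _ hm) (by abel) rfl)
    have : W (toLoc x N v) = t := sub_eq_zero.1 (loc_inj x k (by
      rw [smul_sub, e', ← map_smul, ← map_smul, e, hW, sub_self]))
    exact this ▸ ht

lemma SL.pre_qis (h : SL xs I Z) {u : M.M →ₗ[R] N.M} (hu : IsHom M N u)
    (H : ∀ x ∈ xs, ∀ Y, Qis (homO N (DG.loc x Y)) (homO M (DG.loc x Y)) (pre _ u)) :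
    Qis (homO N Z) (homO M Z) (pre _ u) :=
  (qisOn_iff_cone (hu.preO Z)).2 (h.acyc (preT hu).coneTw.ext fun x hx Y _ =>
    (qisOn_iff_cone (hu.preO _)).1 (H x hx Y))

end FMD
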