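import Pool.Agent.MP_0e6a9f_ag.H36.GFun
import Pool.Agent.MP_0e6a9f_ag.H36.Dev
import Pool.Agent.MP_0e6a9f_ag.H19.Spec
import Pool.Agent.MP_0e6a9f_ag.H32.Exc

/-! Restriction of realization functors along quasi-isomorphisms; exceptional collections. -/

set_option backward.isDefEq.respectTransparency false
set_option linter.unusedSectionVars false

open CategoryTheory Limits Pretriangulated

noncomputable section
namespace FMD
open DG

variable {K G R : Type} [Field K] [CharP K 2] [AddCommGroup G] [DecidableEq G] [CommRing R]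
  [Algebra K R] {A : G → Submodule K R} [GradedAlgebra A] {I : HomogeneousIdeal A}
  {L M N P T : DG A} {C C' : DGR}

theorem isExc_one {D : Type*} [Category D] [Preadditive D] [HasShift D ℤ] [Algebra K C.B] [C.KL K]
    (F : Tw C ⥤ D) [F.CommShift ℤ] [F.Additive] [F.Full] {ht : C.O → ℕ} (h : Directed K C ht) :
    FMX.IsExc (fun o => F.obj (Tw.one o)) ht := by
  have key : ∀ (i j : C.O) (n : ℤ) (g : F.obj (Tw.one i) ⟶ (F.obj (Tw.one j))⟦n⟧),
      ∃ f : Tw.one i ⟶ (Tw.one j).sft n, f.1 () () ∈ C.self.cor i j n ∧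
        g = F.map f ≫ (F.commShiftIso n).hom.app (Tw.one j) := fun i j n g => by
    obtain ⟨f, hf⟩ := F.map_surjective (g ≫ (F.commShiftIso n).inv.app (Tw.one j))
    exact ⟨f, Bimod.cor_cast (Tw.hom_mem f () ()) (show 0 + (0 + n) - 0 = n by ring), by simp [hf]⟩
  have z : ∀ {i j : C.O} {n : ℤ} (f : Tw.one i ⟶ (Tw.one j).sft n), f.1 () () = 0 → f = 0 :=
    fun f e => Subtype.ext (Matrix.ext fun _ _ => e)
  refine ⟨fun i n g => ?_, fun i j hij hh n g => ?_⟩
  · obtain ⟨f, hf, rfl⟩ := key i i n g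
    obtain ⟨h1, c, hc⟩ := h.self i n _ hf
    by_cases h0 : f.1 () () = 0
    · exact Or.inl (by rw [z f h0, F.map_zero, zero_comp])
    obtain rfl : n = 0 := by_contra fun e => h0 (h1 e)
    have c0 : c ≠ 0 := fun e => h0 (by rw [hc, e, zero_smul])
    have : IsIso f := ⟨Tw.mkHom (Matrix.of fun _ _ => c⁻¹ • C.e i) (fun _ _ => Bimod.cor_cast
      (Bimod.smul_mem_cor (M := C.self) c⁻¹ (C.e_mem_cor i)) (by dsimp)) (by
        rw [Bimod.self_twD, Matrix.zero_mul, Matrix.mul_zero, add_zero, add_zero]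
        exact Matrix.ext fun _ _ => (C.d_smul _ _).trans (by rw [C.d_e, smul_zero]; rfl)),
      Subtype.ext (Matrix.ext fun _ _ => show ∑ _ : Unit, (c⁻¹ • C.e i) * f.1 () () = C.e i by
        simp [hc, C.e_mul_self, smul_smul, c0]),
      Subtype.ext (Matrix.ext fun _ _ => show ∑ _ : Unit, f.1 () () * (c⁻¹ • C.e i) = C.e i by
        simp [hc, C.e_mul_self, smul_smul, c0])⟩
    exact Or.inr inferInstance
  · obtain ⟨f, hf, rfl⟩ := key i j n g
    rw [z f (h.down i j hij hh n _ hf), F.map_zero, zero_comp]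

namespace Rep
variable {ρ : Rep C T} {x y : Tw C}

lemma IsReal.rmap_idm {ι π κ μ} (H' : IsReal ρ x N κ μ) (H : IsReal ρ x M ι π) :
    ρ.rmap μ ι x.idm ∘ₗ ρ.rmap π κ x.idm = LinearMap.id := by
  rw [← H'.rmap_mul x.idm_mem, x.idm_idm]; exact H.rmap_one

/-- Two realizations of a twisted complex are isomorphic. -/
def IsReal.iso {ι π κ μ} (H : IsReal ρ x M ι π) (H' : IsReal ρ x N κ μ) (hM : KI I M)
    (hN : KI I N) : toCx hM ≅ toCx hN :=
  toIso hM hN (H.rmap_isHom H' (𝟙 x)) (H'.rmap_isHom H (𝟙 x)) (H'.rmap_idm H) (H.rmap_idm H')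

lemma IsReal.rmap_smul [Algebra K C.B] {ι π} (H : IsReal ρ x M ι π) {a : K}
    (h : ρ.ρ (algebraMap K C.B a) = algebraMap K R a • LinearMap.id) :
    ρ.rmap π ι (a • x.idm) = algebraMap K R a • LinearMap.id := by
  have e : ∀ b t, ρ.ρ (a • b) t = algebraMap K R a • ρ.ρ b t := fun b t => by
    rw [Algebra.smul_def, map_mul, h]; rfl
  rw [← H.rmap_one]
  refine LinearMap.ext fun m => ?_
  simp only [LinearMap.smul_apply, rmap_apply, Matrix.smul_apply, e, ← Finset.smul_sum, map_smul]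
  rfl

/-- Restriction along a DG ring map. -/
abbrev pull (ρ : Rep C T) (g : DHom C' C) : Rep C' T := ρ.comap g.f g.mem g.comm

variable {g : DHom C' C} {ob : C'.O → C.O} (h : ∀ a, g.f (C'.e a) = C.e (ob a))

lemma IsReal.push {x : Tw C'} {ι π} (H : IsReal (ρ.pull g) x M ι π) :
    IsReal ρ ((g.toFun ob h).tw x) M ι π :=
  ⟨H.hι, H.hπ, fun i => (H.πι i).trans (congrArg ρ.ρ (h _)), H.πι', H.tot, H.dπ⟩

lemma FF.pull {xs : List (HE A)} (H : FF I xs ρ)
    (hg : Cx.Qis C'.self.cx C.self.cx g.f.toAddMonoidHom) : FF I xs (ρ.pull g) :=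
  ⟨H.ki, H.hon, H.kp, H.ff.comp hg⟩

variable (hT : KI I T) {X : Type} (c : X → R)

/-- The restricted realization functor on objects. -/
def pullIso (x : Tw C') :
    ((ρ.pull g).toD hT c).obj x ≅ (ρ.toD hT c).obj ((g.toFun ob h).tw x) :=
  (Q I c).mapIso ((((ρ.pull g).isReal_real x).push h).iso (ρ.isReal_real _) _ _)

include h in
lemma essImage_pull (hs : Function.Surjective ob)
    [((ρ.pull g).toD hT c).essImage.IsTriangulated] :
    ((ρ.pull g).toD hT c).essImage = (ρ.toD hT c).essImage := by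
  refine le_antisymm (fun Y ⟨x, ⟨e⟩⟩ => ⟨_, ⟨(pullIso h hT c x).symm ≪≫ e⟩⟩) fun Y ⟨x, ⟨e⟩⟩ =>
    ObjectProperty.prop_of_iso _ e (x.devissage _ (ρ.toD_cone hT c) _ fun o => ?_)
  obtain ⟨o, rfl⟩ := hs o
  exact ⟨Tw.one o, ⟨pullIso h hT c _ ≪≫ (ρ.toD hT c).mapIso (Tw.reIso (Equiv.refl _)
    (fun _ => rfl) (fun _ => rfl) (Matrix.ext fun _ _ => (map_zero g.f).symm))⟩⟩

lemma pull_smul [Algebra K C.B] {a : K}
    (ha : ρ.ρ (algebraMap K C.B a) = algebraMap K R a • LinearMap.id) {x : Tw C'} (l : x ⟶ x)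
    (hl : (C.self.tw ((g.toFun ob h).tw x) ((g.toFun ob h).tw x)).Bd 0
      (l.1.map (g.toFun ob h).f + a • ((g.toFun ob h).tw x).idm)) :
    ((ρ.pull g).toD hT c).map l = a • 𝟙 _ := by
  have H := ((ρ.pull g).isReal_real x).push h
  have := (H.rmap_isMap H).bd hl
  rw [map_add, H.rmap_smul ha] at this
  exact (ρ.pull g).toD_smul hT c l a this

end Rep
end FMD
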