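import Pool.Agent.MP_0e6a9f_ag.H36.Bridge

/-! A functor on complexes that acts on cochains gives a DG functor on honest modules. -/

set_option backward.isDefEq.respectTransparency false
set_option linter.unusedSectionVars false

open CategoryTheory CochainComplex HomComplex

noncomputable section
namespace FMD
open DG

lemma Ind.exists_ext {ι V W : Type} [AddCommGroup V] [AddCommGroup W] {gr : ι → AddSubgroup V}
    (h : Ind gr) (φ : ∀ i, gr i →+ W) : ∃ ψ : V → W, (∀ i v (hv : v ∈ gr i), ψ v = φ i ⟨v, hv⟩) ∧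
      ∀ u ∈ ⨆ i, gr i, ∀ v ∈ ⨆ i, gr i, ψ (u + v) = ψ u + ψ v := by
  classical
  have inj : Function.Injective (DirectSum.coeAddMonoidHom gr) :=
    (injective_iff_map_eq_zero _).2 fun x hx => DFinsupp.ext fun i => by
      by_cases hi : i ∈ x.support
      · exact Subtype.ext (h x.support (fun i => x i) (fun i _ => (x i).2) (by
          rw [← hx, DirectSum.coeAddMonoidHom_eq_dfinsuppSum]; rfl) i hi)
      · exact DFinsupp.notMem_support_iff.1 hi
  have l := Function.leftInverse_invFun inj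
  have sur : ∀ u ∈ ⨆ i, gr i, ∃ x, DirectSum.coeAddMonoidHom gr x = u := fun u hu => by
    obtain ⟨s, v, hv, rfl, -⟩ := exists_sum_of_mem_iSup hu
    exact ⟨∑ i ∈ s, DirectSum.of (fun i => gr i) i ⟨v i, hv i⟩, by
      simp [DirectSum.coeAddMonoidHom_of]⟩
  refine ⟨fun v => DirectSum.toAddMonoid φ (Function.invFun (DirectSum.coeAddMonoidHom gr) v),
    fun i v hv => ?_, fun u hu v hv => ?_⟩
  · have := l (DirectSum.of (fun i => gr i) i ⟨v, hv⟩)
    rw [DirectSum.coeAddMonoidHom_of] at this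
    exact (congrArg _ this).trans (DirectSum.toAddMonoid_of _ _ _)
  · obtain ⟨x, rfl⟩ := sur u hu
    obtain ⟨y, rfl⟩ := sur v hv
    simp only [← map_add, l _]

variable {K G R G' R' : Type} [Field K] [CharP K 2] [AddCommGroup G] [DecidableEq G] [CommRing R]
  [Algebra K R] {A : G → Submodule K R} [GradedAlgebra A] {I : HomogeneousIdeal A}
  [AddCommGroup G'] [DecidableEq G'] [CommRing R'] [Algebra K R'] {A' : G' → Submodule K R'}
  [GradedAlgebra A'] {I' : HomogeneousIdeal A'} {L M N P : DG A}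
  {Φ : CochainComplex (GrMod A I) ℤ ⥤ CochainComplex (GrMod A' I') ℤ} (c : CF K Φ)

variable (I) in
/-- Killed by `I` and honestly graded. -/
def KH (M : DG A) : Prop := KI I M ∧ M.Hon

lemma smul_deg₀ (a : K) {n : ℤ} {f : M.M →ₗ[R] N.M} (hf : f ∈ deg M N 0 n) :
    algebraMap K R a • f ∈ deg M N 0 n :=
  deg_cast (smul_deg (SetLike.algebraMap_mem_graded A a) hf) (add_zero _) rfl

lemma smul_pres (a : K) {f : M.M →ₗ[R] N.M} (hf : f ∈ pres M N) :
    algebraMap K R a • f ∈ pres M N :=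
  comp_pres (mem_pres (smul_deg₀ a (IsHom.id N).deg)) hf

namespace CF
variable (hM : KH I M) (hN : KH I N) (hP : KH I P)

lemma exists_map : ∃ ψ : (M.M →ₗ[R] N.M) → ((ofCx (Φ.obj (toCx hM.1))).M →ₗ[R']
    (ofCx (Φ.obj (toCx hN.1))).M), (∀ n f (hf : f ∈ deg M N 0 n),
      ψ f = ofCo (c.co n (toCo hM.1 hN.1 hf))) ∧
      ∀ u ∈ pres M N, ∀ v ∈ pres M N, ψ (u + v) = ψ u + ψ v :=
  (ind_deg hM.2.span hN.2).exists_ext fun n => AddMonoidHom.mk'
    (fun f => ofCo (c.co n (toCo hM.1 hN.1 f.2))) fun f g => by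
      rw [← ofCo_add, ← map_add, ← toCo_add]

/-- The action on linear maps. -/
def mp : (M.M →ₗ[R] N.M) → ((ofCx (Φ.obj (toCx hM.1))).M →ₗ[R'] (ofCx (Φ.obj (toCx hN.1))).M) :=
  (c.exists_map hM hN).choose

variable {f g : M.M →ₗ[R] N.M}

lemma mp_eq {n : ℤ} (hf : f ∈ deg M N 0 n) :
    c.mp hM hN f = ofCo (c.co n (toCo hM.1 hN.1 hf)) := (c.exists_map hM hN).choose_spec.1 n f hf

lemma mp_add (hf : f ∈ pres M N) (hg : g ∈ pres M N) :
    c.mp hM hN (f + g) = c.mp hM hN f + c.mp hM hN g := (c.exists_map hM hN).choose_spec.2 f hf g hg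

lemma mp_zero : c.mp hM hN 0 = 0 := by
  have := c.mp_add hM hN (zero_mem _) (zero_mem _)
  rwa [add_zero, left_eq_add] at this

lemma mp_isHom (hf : IsHom M N f) :
    c.mp hM hN f = ofCo (Cochain.ofHom (Φ.map (toMap hM.1 hN.1 hf))) := by
  rw [c.mp_eq hM hN hf.deg, ← ofHom_toMap, c.co_ofHom]

/-- The DG functor on honest modules. -/
@[reducible] def pf : PF (KH I) A' where
  obj _ h := ofCx (Φ.obj (toCx h.1))
  map := c.mp
  map_add hM hN _ _ := c.mp_add hM hN
  map_smul hM hN a f hf := by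
    induction hf using AddSubgroup.iSup_induction' with
    | hp n f hf =>
      rw [c.mp_eq hM hN (smul_deg₀ a hf), c.mp_eq hM hN hf, toCo_smul _ _ a hf, map_smul, ofCo_smul]
    | h1 => rw [smul_zero, mp_zero, smul_zero]
    | hadd u v hu hv iu iv =>
      rw [smul_add, c.mp_add hM hN (smul_pres a hu) (smul_pres a hv), c.mp_add hM hN hu hv, iu, iv,
        smul_add]
  map_id hM := by rw [c.mp_isHom hM hM (IsHom.id _), toMap_id, Φ.map_id, ofCo_id]
  map_comp hM hN hP g f hg hf := by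
    induction hg using AddSubgroup.iSup_induction' with
    | h1 => rw [LinearMap.zero_comp, mp_zero, mp_zero, LinearMap.zero_comp]
    | hadd u v hu hv iu iv =>
      rw [LinearMap.add_comp, c.mp_add hM hP (comp_pres hu hf) (comp_pres hv hf),
        c.mp_add hN hP hu hv, iu, iv, LinearMap.add_comp]
    | hp k g hg =>
      induction hf using AddSubgroup.iSup_induction' with
      | h1 => rw [LinearMap.comp_zero, mp_zero, mp_zero, LinearMap.comp_zero]
      | hadd u v hu hv iu iv =>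
        rw [LinearMap.comp_add, c.mp_add hM hP (comp_pres (mem_pres hg) hu)
          (comp_pres (mem_pres hg) hv), c.mp_add hM hN hu hv, iu, iv, LinearMap.comp_add]
      | hp n f hf =>
        rw [c.mp_eq hM hP (deg_cast (comp_deg hg hf) (add_zero _) (add_comm k n)),
          toCo_comp hM.1 hN.1 hP.1 hf hg rfl, c.co_comp, ofCo_comp, c.mp_eq hM hN hf,
          c.mp_eq hN hP hg]
  map_deg hM hN _ _ hf := (c.mp_eq hM hN hf).symm ▸ ofCo_deg _
  map_d {M N} hM hN f hf := by
    induction hf using AddSubgroup.iSup_induction' with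
    | hp n f hf =>
      rw [c.mp_eq hM hN hf, ofCo_δ, c.co_δ, δ_toCo hM.1 hN.1 hf ((hom M N).d_mem hf)]
      exact (c.mp_eq hM hN _).symm
    | h1 => rw [mp_zero, map_zero, map_zero, mp_zero]
    | hadd u v hu hv iu iv =>
      rw [c.mp_add hM hN hu hv, map_add, iu, iv, map_add,
        c.mp_add hM hN (homD_pres hu) (homD_pres hv)]

lemma pf_nat (hf : IsHom M N f) : toMap (ki_ofCx _) (ki_ofCx _) (c.pf.isHom hM hN hf) ≫
    (kapIso _).hom = (kapIso _).hom ≫ Φ.map (toMap hM.1 hN.1 hf) := by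
  rw [toMap_congr _ _ _ (ofCo_isHom _) (c.mp_isHom hM hN hf), kapIso_nat]

end CF
end FMD
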