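import Pool.Agent.MP_0e6a9f_ag.H36.IG
import Pool.Agent.MP_0e6a9f_ag.H36.PFun

/-! The bimodule of maps between two realization functors. -/

set_option backward.isDefEq.respectTransparency false
set_option linter.unusedSectionVars false

open CategoryTheory Limits MulOpposite

noncomputable section
namespace FMD
open DG

lemma map_mem_iSup {V W : Type} [AddCommGroup V] [AddCommGroup W] (f : V →+ W)
    {g : ℤ → AddSubgroup V} {S : AddSubgroup W} (h : ∀ n, ∀ v ∈ g n, f v ∈ S) {v : V}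
    (hv : v ∈ ⨆ n, g n) : f v ∈ S := (iSup_le h : ⨆ n, g n ≤ S.comap f) hv

namespace Bimod
variable {C C' : DGR} (H : Bimod C C') (hC : C.Span) (hC' : C'.Span)

/-- The span of the homogeneous elements as a left module. -/
def spanL : Submodule C'.B H.H where
  toAddSubmonoid := (⨆ n, H.gr n).toAddSubmonoid
  smul_mem' b v hv := map_mem_iSup ((smulAddHom C'.B H.H).flip v) (fun _ b hb =>
    map_mem_iSup (smulAddHom C'.B H.H b)
      (fun _ _ hv => AddSubgroup.mem_iSup_of_mem _ (H.l_mem hb hv)) hv) (hC' b)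

/-- The span of the homogeneous elements as a right module. -/
def spanR : Submodule C.Bᵐᵒᵖ H.H where
  toAddSubmonoid := (⨆ n, H.gr n).toAddSubmonoid
  smul_mem' b v hv := map_mem_iSup
    (((smulAddHom C.Bᵐᵒᵖ H.H).flip v).comp opAddEquiv.toAddMonoidHom) (fun _ b hb =>
      map_mem_iSup (smulAddHom C.Bᵐᵒᵖ H.H (op b))
        (fun _ _ hv => AddSubgroup.mem_iSup_of_mem _ (H.r_mem hb hv)) hv) (hC b.unop)

/-- The span of the homogeneous elements. -/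
def hon : Bimod C C' where
  H := H.spanL hC'
  modR := (H.spanR hC).module
  comm := @SMulCommClass.mk _ _ _ (_) (_) fun a b v => Subtype.ext (smul_comm a b v.1)
  gr n := (H.gr n).comap (H.spanL hC').subtype.toAddMonoidHom
  d := (H.d.comp (H.spanL hC').subtype.toAddMonoidHom).codRestrict (H.spanL hC') fun v =>
    map_mem_iSup H.d (fun _ _ hv => AddSubgroup.mem_iSup_of_mem _ (H.d_mem hv)) v.2
  d_mem := H.d_mem
  d_d v := Subtype.ext (H.d_d v.1)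
  l_mem := H.l_mem
  r_mem := H.r_mem
  d_l b v := Subtype.ext (H.d_l b v.1)
  d_r b v := Subtype.ext (H.d_r b v.1)

/-- The inclusion. -/
def honι : (H.hon hC hC').H →+ H.H := (H.spanL hC').subtype.toAddMonoidHom

lemma honι_isHom : IsHom (H.hon hC hC') H (H.honι hC hC') :=
  ⟨fun h => h, fun _ => rfl, fun _ _ => rfl, fun _ _ => rfl⟩

lemma hon_honest (h : Ind H.gr) : (H.hon hC hC').Honest := by
  refine isInternal_of_ind (fun s v hv h0 i hi => Subtype.ext (h s (fun i => (v i).1) hv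
    ((map_sum (H.honι hC hC') _ _).symm.trans (congrArg _ h0)) i hi)) fun ⟨v, hv⟩ => ?_
  induction hv using AddSubgroup.iSup_induction' with
  | hp n v hv => exact AddSubgroup.mem_iSup_of_mem n hv
  | h1 => exact zero_mem _
  | hadd _ _ _ _ a b => exact add_mem a b

lemma hon_lift {x : Tw C} {y : Tw C'} {n : ℤ} {v : Matrix y.I x.I H.H} (hv : v ∈ H.twGr x y n) :
    ∃ w ∈ (H.hon hC hC').twGr x y n, w.map (H.honι hC hC') = v :=
  ⟨Matrix.of fun i j => ⟨v i j, AddSubgroup.mem_iSup_of_mem _ (hv i j).1⟩,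
    fun i j => ⟨(hv i j).1, Subtype.ext (hv i j).2⟩, rfl⟩

lemma hon_inj {I J : Type} {w : Matrix I J (H.hon hC hC').H} (h : w.map (H.honι hC hC') = 0) :
    w = 0 := Matrix.ext fun i j => Subtype.ext (congrFun (congrFun h i) j)

lemma hon_qis (x : Tw C) (y : Tw C') :
    Cx.Qis ((H.hon hC hC').tw x y) (H.tw x y) (H.honι hC hC').mapMatrix :=
  Cx.Qis.of_bij ((H.honι_isHom hC hC').tw x y) (fun _ _ _ => H.hon_inj hC hC')
    fun _ _ => H.hon_lift hC hC'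

variable {H} {x : Tw C} {y : Tw C'} {φ : Matrix y.I x.I H.H} (hφ : φ ∈ H.twGr x y 0)
  (hd : H.twD x y φ = 0)
include hφ hd

lemma rmulH_isMap (w : Tw C) : Cx.IsMap (C.self.tw w x) (H.tw w y) (H.rmulH φ w.I) :=
  ⟨fun h => (H.tw w y).mem_cast (H.rmul_mem h hφ) (zero_add _),
    fun _ => (H.twD_rmul φ _).trans (by rw [hd, zero_rmul, zero_add]; rfl)⟩

lemma lmulH_isMap (z : Tw C') : Cx.IsMap (C'.self.tw y z) (H.tw x z) (H.lmulH φ z.I) :=
  ⟨fun h => (H.tw x z).mem_cast (H.lmul_mem h hφ) (add_zero _),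
    fun _ => (H.twD_lmul _ φ).trans (by rw [hd, lmul_zero, add_zero]; rfl)⟩

omit hφ hd

lemma mem_sft_l {n : ℤ} : φ ∈ H.twGr (x.sft (-n)) y 0 ↔ φ ∈ H.twGr x y n :=
  Tw.mem_shift_l H (add_neg_cancel n).symm

lemma mem_sft_r {n : ℤ} : φ ∈ H.twGr x (y.sft n) 0 ↔ φ ∈ H.twGr x y n :=
  Tw.mem_shift_r H (zero_add n)

lemma bd_sft_l {n : ℤ} : (H.tw (x.sft (-n)) y).Bd 0 φ ↔ (H.tw x y).Bd n φ :=
  exists_congr fun _ => and_congr_left' (Tw.mem_shift_l H (by ring))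

lemma bd_sft_r {n : ℤ} : (H.tw x (y.sft n)).Bd 0 φ ↔ (H.tw x y).Bd n φ :=
  exists_congr fun _ => and_congr_left' (Tw.mem_shift_r H (by ring))

end Bimod

variable {K : Type} [Field K]

/-- `NoV` for bimodules that need not be spanned by homogeneous elements. -/
lemma NoV.elim {C₀ C₁ : DGR} [Algebra K C₀.B] [Algebra K C₁.B] {x : Tw C₀} (h : NoV K C₀ C₁ x)
    (h₀ : C₀.Span) (h₁ : C₁.Span) (H : Bimod C₀ C₁) (ind : Ind H.gr)
    (cen : ∀ (a : K) (v : H.H), op (algebraMap K C₀.B a) • v = algebraMap K C₁.B a • v)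
    {X₀ : Tw C₀} {φ₀} (m₀ : φ₀ ∈ H.twGr X₀ (Tw.tot C₁) 0) (d₀ : H.twD X₀ (Tw.tot C₁) φ₀ = 0)
    (r : Cx.Qis (C₀.self.tw (Tw.tot C₀) X₀) (H.tw (Tw.tot C₀) (Tw.tot C₁)) (H.rmulH φ₀ C₀.O))
    (l : Cx.Qis (C₁.self.tw (Tw.tot C₁) (Tw.tot C₁)) (H.tw X₀ (Tw.tot C₁)) (H.lmulH φ₀ C₁.O))
    {Z : Tw C₁} {φ} (m : φ ∈ H.twGr x Z 0) (d : H.twD x Z φ = 0) :
    ¬ Cx.InjAt (C₀.self.tw x x) (H.tw x Z) (H.rmulH φ x.I) (-3) := by
  intro i
  have hι := H.honι_isHom h₀ h₁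
  obtain ⟨φ₀, n₀, rfl⟩ := H.hon_lift h₀ h₁ m₀
  obtain ⟨φ, n, rfl⟩ := H.hon_lift h₀ h₁ m
  replace d₀ := H.hon_inj h₀ h₁ ((hι.twD _ _ _).symm.trans d₀)
  replace d := H.hon_inj h₀ h₁ ((hι.twD _ _ _).symm.trans d)
  let : Module K (H.hon h₀ h₁).H := Module.compHom _ (algebraMap K C₁.B)
  have : IsScalarTower K C₁.B (H.hon h₀ h₁).H := ⟨fun a b v => by
    rw [Algebra.smul_def, mul_smul]; rfl⟩
  have : IsScalarTower K C₀.Bᵐᵒᵖ (H.hon h₀ h₁).H := ⟨fun a b v => by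
    rw [Algebra.smul_def, mul_smul]; exact Subtype.ext (cen a _)⟩
  exact h _ (H.hon_honest h₀ h₁ ind) X₀ φ₀ n₀ d₀
    ((H.hon_qis h₀ h₁ _ _).of_comp_left (Bimod.rmulH_isMap n₀ d₀ _)
      (r.congr fun _ g _ => hι.map_rmul φ₀ g))
    ((H.hon_qis h₀ h₁ _ _).of_comp_left (Bimod.lmulH_isMap n₀ d₀ _)
      (l.congr fun _ g _ => hι.map_lmul g φ₀)) Z φ n d
    fun z hz h0 hb => i z hz h0 ((congrArg _ (hι.map_rmul φ z)).mp ((hι.tw x Z).bd hb))

variable {G R : Type} [CharP K 2] [AddCommGroup G] [DecidableEq G] [CommRing R]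
  [Algebra K R] {A : G → Submodule K R} [GradedAlgebra A] {I : HomogeneousIdeal A}
  {T T' : DG A} {C C' : DGR}

namespace Rep
variable {ρ : Rep C T} {ρ' : Rep C' T'} (hT : KI I T) (hT' : KI I T') {X : Type} (c : X → R)
  {w x : Tw C} {y z : Tw C'} {v v' : Matrix y.I x.I (homB ρ ρ').H}

lemma om_isHom (hv : v ∈ (homB ρ ρ').twGr x y 0) (hd : (homB ρ ρ').twD x y v = 0) :
    IsHom (ρ.real x) (ρ'.real y) (ofMat (ρ.realπ x) (ρ'.realι y) v) :=
  isHom_of ((ρ.isReal_real x).ofMat_mem (ρ'.isReal_real y) hv)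
    (((ρ.isReal_real x).homD_ofMat (ρ'.isReal_real y) hv).trans ((congrArg _ hd).trans (map_zero _)))

/-- The morphism in the derived category given by a closed matrix. -/
def bt (hv : v ∈ (homB ρ ρ').twGr x y 0) (hd : (homB ρ ρ').twD x y v = 0) :
    (ρ.toD hT c).obj x ⟶ (ρ'.toD hT' c).obj y :=
  dm (ρ.ki_real hT x) (ρ'.ki_real hT' y) c (om_isHom hv hd)

variable (hv : v ∈ (homB ρ ρ').twGr x y 0) (hd : (homB ρ ρ').twD x y v = 0)

lemma bt_add (hv' : v' ∈ (homB ρ ρ').twGr x y 0) (hd' : (homB ρ ρ').twD x y v' = 0) (h h') :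
    bt hT hT' c (v := v + v') h h' = bt hT hT' c hv hd + bt hT hT' c hv' hd' :=
  (congrArg (Q I c).map (toMap_congr _ _ (om_isHom h h') _ (map_add _ _ _))).trans
    (dm_add _ _ (om_isHom hv hd) (om_isHom hv' hd'))

lemma bt_rmul (g : w ⟶ x) (h h') : bt hT hT' c (v := (homB ρ ρ').rmul v g.1) h h' =
    (ρ.toD hT c).map g ≫ bt hT hT' c hv hd :=
  (congrArg (Q I c).map (toMap_congr _ _ (om_isHom h h') _
    ((ρ.isReal_real x).ofMat_rmul (Tw.hom_mem g) _ v))).trans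
      (dm_comp _ _ _ (ρ.rm_isHom g) (om_isHom hv hd))

lemma bt_lmul (g : y ⟶ z) (h h') : bt hT hT' c (v := (homB ρ ρ').lmul g.1 v) h h' =
    bt hT hT' c hv hd ≫ (ρ'.toD hT' c).map g :=
  (congrArg (Q I c).map (toMap_congr _ _ (om_isHom h h') _
    ((ρ'.isReal_real y).ofMat_lmul hv _ _ g.1))).trans
      (dm_comp _ _ _ (om_isHom hv hd) (ρ'.rm_isHom g))

lemma bt_eq_zero (h : ((homB ρ ρ').tw x y).Bd 0 v) : bt hT hT' c hv hd = 0 :=
  dm_eq_zero _ _ _ (((ρ.isReal_real x).ofMat_qis (ρ'.isReal_real y)).toIsMap.bd h)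

omit hT hT' hv hd
variable {c} {xs : List (HE A)} (hx : Charts c xs) (H : FF I xs ρ) (h₁ : T'.Hon)
  (h₂ : SL xs I.toIdeal T')
include hx h₁

lemma bd_of_bt (hv : v ∈ (homB ρ ρ').twGr x y 0) (hd : (homB ρ ρ').twD x y v = 0)
    (h : bt H.ki h₂.kill c hv hd = 0) : ((homB ρ ρ').tw x y).Bd 0 v :=
  ((ρ.isReal_real x).ofMat_qis (ρ'.isReal_real y)).inj 0 v hv hd
    (dm_inj _ hx (H.hon_real x) (H.kp_real x)
      ((ρ'.isReal_real y).pieces.hon fun _ => h₁.sh _)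
      ((ρ'.isReal_real y).pieces.sl fun _ => h₂.sh _) _ h)

lemma bt_surj (ψ : (ρ.toD H.ki c).obj x ⟶ (ρ'.toD h₂.kill c).obj y) :
    ∃ v, ∃ hv hd, bt H.ki h₂.kill c (v := v) hv hd = ψ := by
  obtain ⟨f, hf, e⟩ := dm_surj (ρ.ki_real H.ki x) hx (H.hon_real x) (H.kp_real x)
    ((ρ'.isReal_real y).pieces.hon fun _ => h₁.sh _)
    ((ρ'.isReal_real y).pieces.sl fun _ => h₂.sh _) ψ
  exact ⟨_, (ρ.isReal_real x).toMat_mem (ρ'.isReal_real y) hf.deg,
    ((ρ.isReal_real x).twD_toMat (ρ'.isReal_real y) f).trans (by rw [hf.homD, map_zero]),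
    (congrArg (Q I c).map (toMap_congr _ _ _ hf
      ((ρ.isReal_real x).ofMat_toMat (ρ'.isReal_real y) f))).trans e⟩

variable (hv : v ∈ (homB ρ ρ').twGr x y 0) (hd : (homB ρ ρ').twD x y v = 0)

lemma rmul_qis [IsIso (bt H.ki h₂.kill c hv hd)] (w : Tw C) :
    Cx.Qis (C.self.tw w x) ((homB ρ ρ').tw w y) ((homB ρ ρ').rmulH v w.I) := by
  have hm := fun w => Bimod.rmulH_isMap hv hd w
  refine ⟨hm w, fun n u hu h0 => ?_, fun n g hg h0 hb => ?_⟩
  · have := H.full hx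
    obtain ⟨g, hg⟩ := (ρ.toD H.ki c).map_surjective (X := w.sft (-n))
      (bt H.ki h₂.kill c (Bimod.mem_sft_l.2 hu) h0 ≫ inv (bt H.ki h₂.kill c hv hd))
    have m := (hm _).mem (Tw.hom_mem g)
    have d := (hm _).cyc (Tw.hom_mem g) (Tw.hom_d g)
    refine ⟨g.1, Bimod.mem_sft_l.1 (Tw.hom_mem g), Tw.hom_d g, Bimod.bd_sft_l.1 (bd_of_bt hx H h₁ h₂
      (add_mem m (Bimod.mem_sft_l.2 hu)) ((map_add _ _ _).trans ((congrArg₂ (· + ·) d h0).trans
        (add_zero _))) ?_)⟩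
    refine (bt_add _ _ c m d (Bimod.mem_sft_l.2 hu) h0 _ _).trans ?_
    rw [(bt_rmul H.ki h₂.kill c hv hd g m d : bt H.ki h₂.kill c m d = _), hg, Category.assoc,
      IsIso.inv_hom_id, Category.comp_id]
    exact hom_two K _
  · let g' : w.sft (-n) ⟶ x := Tw.mkHom g (Bimod.mem_sft_l.2 hg) h0
    have m := (hm _).mem (Tw.hom_mem g')
    have d := (hm _).cyc (Tw.hom_mem g') (Tw.hom_d g')
    exact Bimod.bd_sft_l.1 ((H.map_eq_zero hx g').1 ((cancel_mono (bt H.ki h₂.kill c hv hd)).1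
      (((bt_rmul H.ki h₂.kill c hv hd g' m d).symm.trans (bt_eq_zero _ _ c m d
        (Bimod.bd_sft_l.2 hb))).trans zero_comp.symm)))

lemma lmul_qis [IsIso (bt H.ki h₂.kill c hv hd)] [(ρ'.toD h₂.kill c).Full]
    (hk : ∀ {y z : Tw C'} (g : y ⟶ z),
      (ρ'.toD h₂.kill c).map g = 0 → (C'.self.tw y z).Bd 0 g.1) (z : Tw C') :
    Cx.Qis (C'.self.tw y z) ((homB ρ ρ').tw x z) ((homB ρ ρ').lmulH v z.I) := by
  have hm := fun z => Bimod.lmulH_isMap hv hd z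
  refine ⟨hm z, fun n u hu h0 => ?_, fun n g hg h0 hb => ?_⟩
  · obtain ⟨g, hg⟩ := (ρ'.toD h₂.kill c).map_surjective (Y := z.sft n)
      (inv (bt H.ki h₂.kill c hv hd) ≫ bt H.ki h₂.kill c (Bimod.mem_sft_r.2 hu) h0)
    have m := (hm _).mem (Tw.hom_mem g)
    have d := (hm _).cyc (Tw.hom_mem g) (Tw.hom_d g)
    refine ⟨g.1, Bimod.mem_sft_r.1 (Tw.hom_mem g), Tw.hom_d g, Bimod.bd_sft_r.1 (bd_of_bt hx H h₁ h₂
      (add_mem m (Bimod.mem_sft_r.2 hu)) ((map_add _ _ _).trans ((congrArg₂ (· + ·) d h0).trans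
        (add_zero _))) ?_)⟩
    refine (bt_add _ _ c m d (Bimod.mem_sft_r.2 hu) h0 _ _).trans ?_
    rw [(bt_lmul H.ki h₂.kill c hv hd g m d : bt H.ki h₂.kill c m d = _), hg,
      IsIso.hom_inv_id_assoc]
    exact hom_two K _
  · let g' : y ⟶ z.sft n := Tw.mkHom g (Bimod.mem_sft_r.2 hg) h0
    have m := (hm _).mem (Tw.hom_mem g')
    have d := (hm _).cyc (Tw.hom_mem g') (Tw.hom_d g')
    exact Bimod.bd_sft_r.1 (hk g' ((cancel_epi (bt H.ki h₂.kill c hv hd)).1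
      (((bt_lmul H.ki h₂.kill c hv hd g' m d).symm.trans (bt_eq_zero _ _ c m d
        (Bimod.bd_sft_r.2 hb))).trans comp_zero.symm)))

end Rep
end FMD
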