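import Pool.Agent.MP_0e6a9f_ag.H36.Gam

/-! Internal Hom, modules killed by an ideal, K-projective modules, finite filtrations. -/

set_option linter.unusedSectionVars false

noncomputable section
namespace FMD
open DG

/-- A complex that is a finite sum of pieces with a triangular differential. -/
structure Cx.Pieces (C : Cx) {J : Type} [Fintype J] (Q : J → Cx) (ht : J → ℤ)
    (p : ∀ j, C.V →+ (Q j).V) (s : ∀ j, (Q j).V →+ C.V) : Prop where
  hp : ∀ j k, ∀ v ∈ C.gr k, p j v ∈ (Q j).gr k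
  hs : ∀ j k, ∀ v ∈ (Q j).gr k, s j v ∈ C.gr k
  tot : ∀ v, ∑ j, s j (p j v) = v
  ps : ∀ j v, (Q j).d (p j (s j v)) = p j (s j ((Q j).d v))
  ps' : ∀ i j v, i ≠ j → p i (s j v) = 0
  dd : ∀ j v, p j (C.d (s j v)) = (Q j).d (p j (s j v))
  dd' : ∀ i j v, i ≠ j → ¬ ht j < ht i → p i (C.d (s j v)) = 0

lemma Cx.Pieces.acycAt {C : Cx} {J : Type} [Fintype J] {Q : J → Cx} {ht : J → ℤ}
    {p : ∀ j, C.V →+ (Q j).V} {s : ∀ j, (Q j).V →+ C.V} (H : C.Pieces Q ht p s) {n : ℤ}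
    (h : ∀ j, (Q j).AcycAt n) : C.AcycAt n := by
  obtain ⟨hp, hs, tot, ps, ps', dd, dd'⟩ := H
  classical
  obtain ⟨a, ha⟩ := (Set.finite_range ht).bddBelow
  obtain ⟨b, hb⟩ := (Set.finite_range ht).bddAbove
  have ha' : ∀ j, a ≤ ht j := fun j => ha ⟨j, rfl⟩
  have hb' : ∀ j, ht j ≤ b := fun j => hb ⟨j, rfl⟩
  refine C.acycAt_of_filt n (fun k z => ∀ j, ht j < a + k → p j z = 0) (b - a + 1).toNat
    (fun _ _ j hj => absurd hj (by have := ha' j; omega))
    (fun z _ hz => (tot z).symm.trans (Finset.sum_eq_zero fun j _ => by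
      rw [hz j (by have := hb' j; omega), map_zero])) ?_
  intro k z hz h0 hF
  have psp : ∀ i u, p i (s i (p i u)) = p i u := fun i u => by
    conv_rhs => rw [← tot u, map_sum]
    rw [Finset.sum_eq_single i (fun j _ hj => ps' i j _ hj.symm) (by simp)]
  have low : ∀ u : C.V, (∀ j, ht j < a + k → p j u = 0) → ∀ i, ht i ≤ a + k →
      p i (C.d u) = (Q i).d (p i u) := by
    intro u hu i hi
    conv_lhs => rw [← tot u, map_sum, map_sum]
    rw [Finset.sum_eq_single i (fun j _ hj => ?_) (by simp), dd, psp]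
    by_cases hl : ht j < ht i
    · rw [hu j (by omega), map_zero, map_zero, map_zero]
    · exact dd' i j _ hj.symm hl
  have key : ∀ j, ∃ w ∈ (Q j).gr (n - 1), (ht j < a + k → w = 0) ∧
      (ht j ≤ a + k → (Q j).d w = p j z) := by
    intro j
    by_cases hj : ht j = a + k
    · obtain ⟨w, hw, h1⟩ := h j (p j z) (hp j n z hz) (by rw [← low z hF j hj.le, h0, map_zero])
      exact ⟨w, hw, fun h => absurd h (by omega), fun _ => h1⟩
    · exact ⟨0, zero_mem _, fun _ => rfl, fun h => by rw [map_zero, hF j (by omega)]⟩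
  choose w hw h1 h2 using key
  have pw : ∀ i, p i (∑ j, s j (w j)) = p i (s i (w i)) := fun i => by
    rw [map_sum, Finset.sum_eq_single i (fun j _ hj => ps' i j _ hj.symm) (by simp)]
  refine ⟨∑ j, s j (w j), sum_mem fun j _ => hs j _ _ (hw j), fun i hi => ?_⟩
  rw [map_add, low _ (fun j hj => by rw [pw, h1 j hj, map_zero, map_zero]) i (by omega), pw, ps,
    h2 i (by omega), psp, (Q i).two]

lemma Cx.Pieces.qis {C C' : Cx} {J : Type} [Fintype J] {Q Q' : J → Cx} {ht : J → ℤ}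
    {p : ∀ j, C.V →+ (Q j).V} {s : ∀ j, (Q j).V →+ C.V} {p' : ∀ j, C'.V →+ (Q' j).V}
    {s' : ∀ j, (Q' j).V →+ C'.V} (H : C.Pieces Q ht p s) (H' : C'.Pieces Q' ht p' s')
    {f : C.V →+ C'.V} (hf : IsMap C C' f) {g : ∀ j, (Q j).V →+ (Q' j).V}
    (hg : ∀ j, Qis (Q j) (Q' j) (g j)) (e : ∀ j v, p' j (f v) = g j (p j v))
    (e' : ∀ j v, f (s j v) = s' j (g j v)) : Qis C C' f := by
  have : (cone hf).Pieces (fun j => cone (hg j).toIsMap) ht (fun j => (p j).prodMap (p' j))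
      (fun j => (s j).prodMap (s' j)) :=
    { hp j _ _ h := ⟨H.hp j _ _ h.1, H'.hp j _ _ h.2⟩
      hs j _ _ h := ⟨H.hs j _ _ h.1, H'.hs j _ _ h.2⟩
      tot v := Prod.ext (Prod.fst_sum.trans (H.tot v.1)) (Prod.snd_sum.trans (H'.tot v.2))
      ps j v := Prod.ext (H.ps j v.1) (by
        change g j (p j (s j v.1)) + (Q' j).d (p' j (s' j v.2)) = p' j (s' j (g j v.1 + (Q' j).d v.2))
        rw [map_add, map_add, H'.ps, ← e, e'])
      ps' i j v h := Prod.ext (H.ps' i j v.1 h) (H'.ps' i j v.2 h)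
      dd j v := Prod.ext (H.dd j v.1) (by
        change p' j (f (s j v.1) + C'.d (s' j v.2)) = g j (p j (s j v.1)) + (Q' j).d (p' j (s' j v.2))
        rw [map_add, H'.dd, e])
      dd' i j v h h' := Prod.ext (H.dd' i j v.1 h h') (by
        change p' i (f (s j v.1) + C'.d (s' j v.2)) = 0
        rw [map_add, H'.dd' i j _ h h', e', H'.ps' i j _ h, add_zero]) }
  exact (qis_iff_cone hf).2 fun n => this.acycAt fun j => (qis_iff_cone _).1 (hg j) n

variable {K G R : Type} [Field K] [AddCommGroup G] [CommRing R] [Algebra K R] [CharP K 2]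
  {A : G → Submodule K R} {U : Set G} {L M N P P' Z : DG A}

namespace DG

/-- The internal Hom. -/
@[reducible] def homO (P Z : DG A) : DG A where
  M := P.M →ₗ[R] Z.M
  gr := deg P Z
  smul_mem hr h := smul_deg hr h
  d := homD P Z
  d_mem hf := add_mem (deg_cast (comp_deg Z.d_deg hf) (by abel) (by ring))
    (deg_cast (comp_deg hf P.d_deg) (by abel) rfl)
  d_d := homD_homD

lemma hom_eq (P Z : DG A) : hom P Z = (homO P Z).cx 0 := rfl

lemma Acyc.hom (h : (homO P Z).Acyc) : (hom P Z).Acyc := h 0 trivial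

/-- Composition on the left. -/
abbrev post (P : DG A) (f : M.M →ₗ[R] N.M) : (homO P M).M →ₗ[R] (homO P N).M :=
  LinearMap.llcomp R P.M M.M N.M f

/-- Composition on the right. -/
abbrev pre (Z : DG A) (f : M.M →ₗ[R] N.M) : (homO N Z).M →ₗ[R] (homO M Z).M :=
  (LinearMap.llcomp R M.M N.M Z.M).flip f

lemma pre_deg {a : G} {k : ℤ} {f : M.M →ₗ[R] N.M} (hf : f ∈ deg M N a k) :
    pre Z f ∈ deg (homO N Z) (homO M Z) a k :=
  fun _ _ _ h => deg_cast (comp_deg h hf) (add_comm _ _) rfl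

lemma homD_pre (f : M.M →ₗ[R] N.M) :
    homD (homO N Z) (homO M Z) (pre Z f) = pre Z (homD M N f) := LinearMap.ext fun v => by
  change homD M Z (v ∘ₗ f) + homD N Z v ∘ₗ f = v ∘ₗ homD M N f
  rw [homD_comp, add_right_comm, (homO M Z).two, zero_add]

lemma IsHom.preO {f : M.M →ₗ[R] N.M} (hf : IsHom M N f) (Z : DG A) :
    IsHom (homO N Z) (homO M Z) (DG.pre Z f) :=
  isHom_of (pre_deg hf.deg) (by rw [homD_pre, hf.homD]; exact map_zero _)

end DG

/-- The internal Hom out of `P` as a DG functor. -/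
@[reducible] def homF (P : DG A) : DGF A where
  obj := homO P
  map M N := LinearMap.llcomp R P.M M.M N.M
  map_id _ := rfl
  map_comp _ _ _ _ _ := rfl
  map_deg h _ _ _ hv := deg_cast (comp_deg h hv) rfl (add_comm _ _)
  map_d M N f := LinearMap.ext fun v => by
    change homD P N (f ∘ₗ v) + f ∘ₗ homD P M v = homD M N f ∘ₗ v
    rw [homD_comp, add_assoc, (homO P N).two, add_zero]

/-- Composition with a chain map as a natural transformation. -/
@[reducible] def preT {f : M.M →ₗ[R] N.M} (hf : IsHom M N f) : NatT (homF N) (homF M) :=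
  ⟨fun Z => pre Z f, hf.preO, fun _ _ _ _ => rfl⟩

namespace DG

lemma pre_ext_ses {f : M.M →ₗ[R] N.M} (hf : IsTw M N f) (Z : DG A) :
    SESOn U (homO M Z) (homO (ext hf) Z) (homO N Z) (pre (M := ext hf) Z (LinearMap.fst R M.M N.M))
      (pre (N := ext hf) Z (LinearMap.inr R M.M N.M)) :=
  sesOn_of_split ((ext_fst hf).preO Z) ((ext_inr hf).preO Z) _ _ (pre_deg (ext_inl_deg hf))
    (pre_deg (ext_snd_deg hf)) rfl rfl (LinearMap.ext fun v => by ext; simp)
    (LinearMap.ext fun v => LinearMap.ext fun m => (map_add v _ _).symm.trans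
      (congrArg v (Prod.ext (add_zero _) (zero_add _))))

lemma homO_sh_left (k : ℤ) : AcycOn U (homO (P.sh k) Z) ↔ AcycOn U (homO P Z) := by
  have e : ∀ g n, deg (P.sh k) Z g n = deg P Z g (n - k) := fun g n => AddSubgroup.ext fun f =>
    ⟨fun h g' n' m hm => mem_cast (h g' (n' - k) m (mem_cast (M := P) hm rfl (by ring))) rfl
      (by ring), fun h g' n' m hm => mem_cast (h g' (n' + k) m hm) rfl (by ring)⟩
  rw [← acycOn_sh (M := homO P Z) (-k)]
  simp only [AcycOn, Cx.Acyc, Cx.AcycAt, Cx.Bd, e, sub_eq_add_neg]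
  rfl

lemma homO_tg_left (a g : G) :
    ((homO (P.tg a) Z).cx g).Acyc ↔ ((homO P Z).cx (g - a)).Acyc := by
  have e : ∀ n, deg (P.tg a) Z g n = deg P Z (g - a) n := fun n => AddSubgroup.ext fun f =>
    ⟨fun h g' n' m hm => mem_cast (h (g' - a) n' m (mem_cast (M := P) hm (by abel) rfl))
      (by abel) rfl, fun h g' n' m hm => mem_cast (h (g' + a) n' m hm) (by abel) rfl⟩
  simp only [Cx.Acyc, Cx.AcycAt, Cx.Bd, e]
  rfl

/-- A homotopy retract of an acyclic module is acyclic. -/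
lemma AcycOn.retract {i : M.M →ₗ[R] N.M} {r : N.M →ₗ[R] M.M} (hi : IsHom M N i) (hr : IsHom N M r)
    {s : M.M →ₗ[R] M.M} (hs : s ∈ deg M M 0 (-1)) (e : r ∘ₗ i = LinearMap.id + homD M M s)
    (h : AcycOn U N) : AcycOn U M := by
  intro g hg n z hz h0
  have h1 := (hr.cx g).bd (h g hg n (i z) (hi.mem hz) ((hi.cx g).cyc hz h0))
  have h2 : r (i z) = z + M.d (s z) := by
    rw [← LinearMap.comp_apply, e, LinearMap.add_apply, homD_apply, show M.d z = 0 from h0,
      map_zero, add_zero]; rfl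
  exact Cx.Bd.of_add (C := M.cx g) (h2 ▸ h1) ⟨s z, mem_cast (hs _ _ _ hz) (by abel) (by ring), rfl⟩

lemma _root_.FMD.DGF.acycOn_retract (F : DGF A) {i : M.M →ₗ[R] N.M} {r : N.M →ₗ[R] M.M}
    (hi : IsHom M N i) (hr : IsHom N M r) {s : M.M →ₗ[R] M.M} (hs : s ∈ deg M M 0 (-1))
    (e : r ∘ₗ i = LinearMap.id + homD M M s) (h : AcycOn U (F.obj N)) : AcycOn U (F.obj M) :=
  h.retract (F.isHom hi) (F.isHom hr) (F.map_deg hs)
    (by rw [← F.map_comp, e, map_add, F.map_id, F.map_d])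

lemma acycOn_homO_retract {i : M.M →ₗ[R] N.M} {r : N.M →ₗ[R] M.M}
    (hi : IsHom M N i) (hr : IsHom N M r) {s : M.M →ₗ[R] M.M} (hs : s ∈ deg M M 0 (-1))
    (e : r ∘ₗ i = LinearMap.id + homD M M s) (h : AcycOn U (homO N Z)) : AcycOn U (homO M Z) :=
  h.retract (hr.preO Z) (hi.preO Z) (pre_deg hs) (by
    rw [homD_pre]
    refine LinearMap.ext fun v => ?_
    change v ∘ₗ (r ∘ₗ i) = v + v ∘ₗ homD M M s
    rw [e, LinearMap.comp_add, LinearMap.comp_id])

/-- `M` is a sum of retracts of the `Q j` and its differential is triangular. -/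
structure Pieces (M : DG A) {J : Type} [Fintype J] (Q : J → DG A) (ht : J → ℤ)
    (p : ∀ j, M.M →ₗ[R] (Q j).M) (s : ∀ j, (Q j).M →ₗ[R] M.M) : Prop where
  hp : ∀ j, p j ∈ deg M (Q j) 0 0
  hs : ∀ j, s j ∈ deg (Q j) M 0 0
  tot : ∑ j, s j ∘ₗ p j = LinearMap.id
  ps : ∀ j, homD (Q j) (Q j) (p j ∘ₗ s j) = 0
  ps' : ∀ i j, i ≠ j → p i ∘ₗ s j = 0
  tri : ∀ i j, ¬ ht j < ht i → p i ∘ₗ homD (Q j) M (s j) = 0

section pieces
variable {J : Type} [Fintype J] {Q : J → DG A} {ht : J → ℤ} {p : ∀ j, M.M →ₗ[R] (Q j).M}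
  {s : ∀ j, (Q j).M →ₗ[R] M.M}

lemma Pieces.cx (H : Pieces M Q ht p s) (g : G) :
    (M.cx g).Pieces (fun j => (Q j).cx g) ht (fun j => (p j).toAddMonoidHom)
      (fun j => (s j).toAddMonoidHom) := by
  have e : ∀ i j v, ¬ ht j < ht i → p i (M.d (s j v)) = p i (s j ((Q j).d v)) := fun i j v hij =>
    ((Q i).cx 0).eq_of_add ((map_add _ _ _).symm.trans (LinearMap.congr_fun (H.tri i j hij) v))
  exact ⟨fun j _ _ hv => mem_cast (H.hp j _ _ _ hv) (by abel) (by ring),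
    fun j _ _ hv => mem_cast (H.hs j _ _ _ hv) (by abel) (by ring),
    fun v => by simpa using LinearMap.congr_fun H.tot v, fun j => comm_of_homD (H.ps j),
    fun i j v hij => LinearMap.congr_fun (H.ps' i j hij) v,
    fun j v => (e j j v (lt_irrefl _)).trans (comm_of_homD (H.ps j) v).symm,
    fun i j v hij hl => (e i j v hl).trans (LinearMap.congr_fun (H.ps' i j hij) _)⟩

lemma Pieces.acycAt (H : Pieces M Q ht p s) {g : G} {n : ℤ} (h : ∀ j, ((Q j).cx g).AcycAt n) :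
    (M.cx g).AcycAt n := (H.cx g).acycAt h

lemma Pieces.acycOn (H : Pieces M Q ht p s) (h : ∀ j, AcycOn U (Q j)) : AcycOn U M :=
  fun g hg n => H.acycAt fun j => h j g hg n

lemma Pieces.map (H : Pieces M Q ht p s) (F : DGF A) :
    Pieces (F.obj M) (fun j => F.obj (Q j)) ht (fun j => F.map _ _ (p j))
      (fun j => F.map _ _ (s j)) where
  hp j := F.map_deg (H.hp j)
  hs j := F.map_deg (H.hs j)
  tot := by simp only [← F.map_comp, ← map_sum, H.tot, F.map_id]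
  ps j := by rw [← F.map_comp, F.map_d, H.ps, map_zero]
  ps' i j h := by rw [← F.map_comp, H.ps' i j h, map_zero]
  tri i j h := by rw [F.map_d, ← F.map_comp, H.tri i j h, map_zero]

lemma Pieces.tri' (H : Pieces M Q ht p s) (i j : J) (h : ¬ ht j < ht i) :
    homD M (Q i) (p i) ∘ₗ s j = 0 := by
  have e := homD_comp (p i) (s j)
  rw [H.tri i j h, add_zero] at e
  rw [← e]
  by_cases hij : i = j
  · subst hij; exact H.ps i
  · rw [H.ps' i j hij, map_zero]

lemma Pieces.pre (H : Pieces M Q ht p s) (Z : DG A) :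
    Pieces (homO M Z) (fun j => homO (Q j) Z) (fun j => -ht j) (fun j => DG.pre Z (s j))
      (fun j => DG.pre Z (p j)) where
  hp j := pre_deg (H.hs j)
  hs j := pre_deg (H.hp j)
  tot := LinearMap.ext fun v => LinearMap.ext fun m => by
    simpa using congrArg v (LinearMap.congr_fun H.tot m)
  ps j := (homD_pre (p j ∘ₗ s j)).trans (by rw [H.ps]; exact map_zero _)
  ps' i j h := LinearMap.ext fun v => LinearMap.ext fun m =>
    (congrArg v (LinearMap.congr_fun (H.ps' j i h.symm) m)).trans (map_zero v)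
  tri i j h := by
    rw [homD_pre]
    exact LinearMap.ext fun v => LinearMap.ext fun m =>
      (congrArg v (LinearMap.congr_fun (H.tri' j i (by omega)) m)).trans (map_zero v)

end pieces

/-- Killed by a set of ring elements. -/
def Kill (I : Set R) (M : DG A) : Prop := ∀ r ∈ I, ∀ m : M.M, r • m = 0

variable {I : Set R}

lemma Kill.map (h : Kill I M) (F : DGF A) : Kill I (F.obj M) := fun r hr m => by
  rw [← F.id_apply m, ← LinearMap.smul_apply, ← map_smul,
    show r • (LinearMap.id : M.M →ₗ[R] M.M) = 0 from LinearMap.ext (h r hr), map_zero,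
    LinearMap.zero_apply]

lemma Kill.ext {f : M.M →ₗ[R] N.M} (hf : IsTw M N f) (h : Kill I M) (h' : Kill I N) :
    Kill I (ext hf) := fun r hr m => Prod.ext (h r hr m.1) (h' r hr m.2)

lemma Kill.sh (h : Kill I M) (k : ℤ) : Kill I (M.sh k) := h

lemma Kill.tg (h : Kill I M) (a : G) : Kill I (M.tg a) := h

lemma Kill.of_inj (h : Kill I N) (f : M.M →ₗ[R] N.M) (hf : Function.Injective f) : Kill I M :=
  fun r hr m => hf (by rw [map_smul, h r hr, map_zero])

/-- K-projective relative to a class `𝒵` of targets. -/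
def KP (𝒵 : DG A → Prop) (P : DG A) : Prop := ∀ Z, 𝒵 Z → Z.Acyc → (homO P Z).Acyc

variable {𝒵 : DG A → Prop}

lemma KP.mono {𝒵' : DG A → Prop} (h : KP 𝒵 P) (h' : ∀ Z, 𝒵' Z → 𝒵 Z) : KP 𝒵' P :=
  fun Z hZ => h Z (h' Z hZ)

lemma KP.ext {f : M.M →ₗ[R] N.M} (hf : IsTw M N f) (h : KP 𝒵 M) (h' : KP 𝒵 N) : KP 𝒵 (ext hf) :=
  fun Z hZ ha => (pre_ext_ses hf Z).acyc₂ (h Z hZ ha) (h' Z hZ ha)

lemma KP.sh (h : KP 𝒵 P) (k : ℤ) : KP 𝒵 (P.sh k) :=
  fun Z hZ ha => (homO_sh_left k).2 (h Z hZ ha)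

lemma KP.tg (h : KP 𝒵 P) (a : G) : KP 𝒵 (P.tg a) :=
  fun Z hZ ha g _ => (homO_tg_left a g).2 (h Z hZ ha _ trivial)

lemma KP.retract {i : M.M →ₗ[R] N.M} {r : N.M →ₗ[R] M.M} (hi : IsHom M N i) (hr : IsHom N M r)
    {s : M.M →ₗ[R] M.M} (hs : s ∈ deg M M 0 (-1)) (e : r ∘ₗ i = LinearMap.id + homD M M s)
    (h : KP 𝒵 N) : KP 𝒵 M := fun Z hZ ha => acycOn_homO_retract hi hr hs e (h Z hZ ha)

lemma Pieces.kp {J : Type} [Fintype J] {Q : J → DG A} {ht : J → ℤ} {p : ∀ j, M.M →ₗ[R] (Q j).M}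
    {s : ∀ j, (Q j).M →ₗ[R] M.M} (H : Pieces M Q ht p s) (h : ∀ j, KP 𝒵 (Q j)) : KP 𝒵 M :=
  fun Z hZ ha => (H.pre Z).acycOn fun j => h j Z hZ ha

lemma KP.post_qis (h : KP 𝒵 P) {f : M.M →ₗ[R] N.M} (hf : Qis M N f) (hZ : 𝒵 (cone hf.isHom)) :
    Qis (homO P M) (homO P N) (post P f) :=
  ((homF P).qisOn_iff hf.isHom).2 (h _ hZ ((qisOn_iff_cone hf.isHom).1 hf))

/-- An acyclic K-projective module is contractible. -/
lemma KP.contr (h : KP 𝒵 P) (hP : 𝒵 P) (ha : P.Acyc) :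
    ∃ s ∈ deg P P 0 (-1), homD P P s = LinearMap.id :=
  h P hP ha 0 trivial 0 LinearMap.id (IsHom.id P).deg (IsHom.id P).homD

lemma acyc_homO_of_contr {s : P.M →ₗ[R] P.M} (hs : s ∈ deg P P 0 (-1))
    (e : homD P P s = LinearMap.id) (Z : DG A) : (homO P Z).Acyc := by
  intro g _ n z hz h0
  refine ⟨z ∘ₗ s, deg_cast (comp_deg hz hs) (by abel) (by ring), ?_⟩
  change homD P Z (z ∘ₗ s) = z
  rw [homD_comp, e, show homD P Z z = 0 from h0, LinearMap.zero_comp, zero_add, LinearMap.comp_id]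

lemma pre_qisOn_iff {f : M.M →ₗ[R] N.M} (hf : IsHom M N f) :
    QisOn {0} (homO N Z) (homO M Z) (pre Z f) ↔ Cx.Qis (hom N Z) (hom M Z) (pre Z f).toAddMonoidHom :=
  ⟨fun h => h.qis 0 rfl, fun h => ⟨hf.preO Z, fun _ hg => hg ▸ h⟩⟩

variable [SetLike.GradedMonoid A]

variable (A) in
/-- The quotient of the ring by an ideal, in degree 0. -/
abbrev cyc (I : Ideal R) : DG A := (ring A).quo I fun _ _ => zero_mem _

lemma kill_cyc (I : Ideal R) : Kill I (cyc A I) := fun r hr m => by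
  obtain ⟨m, rfl⟩ := I.mkQ_surjective m
  exact (Submodule.Quotient.mk_eq_zero _).2 (I.mul_mem_right m hr)

lemma one_mem_ring : (1 : R) ∈ (ring A).gr 0 0 := SetLike.one_mem_graded A

lemma ring_smul_mem {g g' : G} {n n' : ℤ} {r : R} (hr : r ∈ (ring A).gr g' n') {z : Z.M}
    (hz : z ∈ Z.gr g n) : r • z ∈ Z.gr (g + g') (n' + n) := by
  change r ∈ (if n' = 0 then (A g').toAddSubgroup else ⊥) at hr
  split_ifs at hr with h
  · exact mem_cast (Z.smul_mem hr hz) (add_comm _ _) (by omega)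
  · rw [AddSubgroup.mem_bot.1 hr, zero_smul]; exact zero_mem _

/-- Evaluation at `1`. -/
lemma ev_ring_qis (Z : DG A) : Qis (homO (ring A) Z) Z (LinearMap.applyₗ (1 : R)) := by
  have hh : IsHom (homO (ring A) Z) Z (LinearMap.applyₗ (1 : R)) :=
    ⟨fun h => mem_cast (h _ _ _ one_mem_ring) (by abel) (by ring), fun v => by
      change Z.d (v 1) = Z.d (v 1) + v 0
      rw [map_zero, add_zero]⟩
  exact ⟨hh, fun g _ => Cx.Qis.of_bij (hh.cx g) (fun _ v _ h => LinearMap.ext_ring h)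
    fun _ w hw => ⟨LinearMap.toSpanSingleton R _ w, fun _ _ _ hr => ring_smul_mem hr hw,
      one_smul R w⟩⟩

/-- Evaluation at `1`. -/
lemma ev_cyc_qis {I : Ideal R} (hZ : Kill I Z) :
    Qis (homO (cyc A I) Z) Z (LinearMap.applyₗ (I.mkQ 1)) := by
  have hh : IsHom (homO (cyc A I) Z) Z (LinearMap.applyₗ (I.mkQ 1)) :=
    ⟨fun h => mem_cast (h _ _ _ ⟨1, one_mem_ring, rfl⟩) (by abel) (by ring), fun v => by
      change Z.d (v _) = Z.d (v _) + v (I.mkQ 0)
      rw [map_zero, map_zero, add_zero]⟩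
  refine ⟨hh, fun g _ => Cx.Qis.of_bij (hh.cx g)
    (fun _ v _ h => Submodule.linearMap_qext _ (LinearMap.ext_ring h))
    fun _ w hw => ⟨Submodule.liftQ I (LinearMap.toSpanSingleton R _ w) fun r hr => hZ r hr w, ?_,
      one_smul R w⟩⟩
  rintro _ _ _ ⟨r, hr, rfl⟩
  exact ring_smul_mem hr hw

lemma kp_ring : KP 𝒵 (ring A) := fun Z _ ha => (ev_ring_qis Z).acyc_left ha

lemma kp_cyc (I : Ideal R) : KP (Kill I) (cyc A I) := fun _ hZ ha => (ev_cyc_qis hZ).acyc_left ha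

end DG
end FMD
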