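import Pool.Agent.MP_0e6a9f_ag.H36.Bridge

/-! Shifts, triangles, the class `W` and morphisms in the derived category. -/

set_option backward.isDefEq.respectTransparency false
set_option linter.unusedSectionVars false

open CategoryTheory Limits CochainComplex HomComplex Pretriangulated

noncomputable section
namespace FMD
open DG

variable {K G R : Type} [Field K] [CharP K 2] [AddCommGroup G] [DecidableEq G] [CommRing R]
  [Algebra K R] {A : G → Submodule K R} [GradedAlgebra A] {I : HomogeneousIdeal A}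
  {L M N P Z : DG A} (hL : KI I L) (hM : KI I M) (hN : KI I N) (hP : KI I P)

/-- The quotient functor to the homotopy category. -/
abbrev qt (I : HomogeneousIdeal A) := HomotopyCategory.quotient (GrMod A I) (ComplexShape.up ℤ)

/-- `toCx` commutes with shifts. -/
def shIso (k : ℤ) : toCx (hM.sh k) ≅ (toCx hM)⟦k⟧ :=
  HomologicalComplex.Hom.isoOfComponents (fun _ => Iso.refl _) fun i j h => by
    rw [shiftFunctor_obj_d', units_smul_hom K, toCx_d hM (show i + k + 1 = j + k by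
      have : i + 1 = j := h
      omega), toCx_d (hM.sh k) h]
    exact (Category.id_comp _).trans (Category.comp_id _).symm

lemma shIso_hom_f (k i : ℤ) : (shIso hM k).hom.f i = 𝟙 _ := rfl

lemma shIso_inv_f (k i : ℤ) : (shIso hM k).inv.f i = 𝟙 _ := rfl

lemma split_dist {i : L.M →ₗ[R] M.M} {p : M.M →ₗ[R] N.M} (hi : IsHom L M i) (hp : IsHom M N p)
    {r : M.M →ₗ[R] L.M} {s : N.M →ₗ[R] M.M} (hr : r ∈ deg M L 0 0) (hs : s ∈ deg N M 0 0)
    (ri : r ∘ₗ i = LinearMap.id) (ps : p ∘ₗ s = LinearMap.id) (pi0 : p ∘ₗ i = 0)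
    (tot : i ∘ₗ r + s ∘ₗ p = LinearMap.id) {w : N.M →ₗ[R] L.M} (hw : IsHom N (L.sh 1) w)
    (e : ∀ m, r (M.d (s m)) = w m) :
    (qt I).mapTriangle.obj (Triangle.mk (toMap hL hM hi) (toMap hM hN hp)
      (toMap hN (hL.sh 1) hw ≫ (shIso hL 1).hom)) ∈ distTriang _ := by
  let S := ShortComplex.mk (toMap hL hM hi) (toMap hM hN hp) (HomologicalComplex.hom_ext _ _ fun n =>
    sl_ext hL hN fun g m hm => by simpa [toMap_f] using LinearMap.congr_fun pi0 m)
  let σ : ∀ n, (S.map (HomologicalComplex.eval _ _ n)).Splitting := fun n =>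
    { r := (toCo hM hL hr).v n n (add_zero n)
      s := (toCo hN hM hs).v n n (add_zero n)
      f_r := show (toMap hL hM hi).f n ≫ (toCo hM hL hr).v n n _ = 𝟙 ((toCx hL).X n) from
        sl_ext hL hL fun g m hm => by simpa [toMap_f, toCo_v] using LinearMap.congr_fun ri m
      s_g := show (toCo hN hM hs).v n n _ ≫ (toMap hM hN hp).f n = 𝟙 ((toCx hN).X n) from
        sl_ext hN hN fun g m hm => by simpa [toMap_f, toCo_v] using LinearMap.congr_fun ps m
      id := show (toCo hM hL hr).v n n _ ≫ (toMap hL hM hi).f n +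
          (toMap hM hN hp).f n ≫ (toCo hN hM hs).v n n _ = 𝟙 ((toCx hM).X n) from
        sl_ext hM hM fun g m hm => by simpa [toMap_f, toCo_v] using LinearMap.congr_fun tot m }
  refine (HomotopyCategory.distinguished_iff_iso_trianglehOfDegreewiseSplit _).2
    ⟨S, σ, ⟨(qt I).mapTriangle.mapIso (eqToIso (congrArg (Triangle.mk _ _) ?_))⟩⟩
  refine HomologicalComplex.hom_ext _ _ fun n => ?_
  rw [homOfDegreewiseSplit_f]
  change _ ≫ 𝟙 _ = (toCo hN hM hs).v n n (add_zero n) ≫ (toCx hM).d n (n + 1) ≫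
    (toCo hM hL hr).v (n + 1) (n + 1) (add_zero _)
  rw [toCx_d hM rfl, Category.comp_id]
  refine sl_ext hN hL fun g m hm => ?_
  change evs hL _ (ap (cmp hN hL w fun _ _ h => hw.mem h) _) = _
  simp [toCo_v, e]

lemma cone_dist {f : M.M →ₗ[R] N.M} (hf : IsHom M N f) {i : N.M →ₗ[R] P.M} {p : P.M →ₗ[R] M.M}
    (hi : IsHom N P i) (hp : IsHom P (M.sh 1) p) {r : P.M →ₗ[R] N.M} {s : M.M →ₗ[R] P.M}
    (hr : r ∈ deg P N 0 0) (hs : s ∈ deg (M.sh 1) P 0 0) (ri : r ∘ₗ i = LinearMap.id)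
    (ps : p ∘ₗ s = LinearMap.id) (pi0 : p ∘ₗ i = 0) (tot : i ∘ₗ r + s ∘ₗ p = LinearMap.id)
    (e : ∀ m, r (P.d (s m)) = f m) :
    (qt I).mapTriangle.obj (Triangle.mk (toMap hM hN hf) (toMap hN hP hi)
      (toMap hP (hM.sh 1) hp ≫ (shIso hM 1).hom)) ∈ distTriang _ := by
  rw [rotate_distinguished_triangle]
  refine isomorphic_distinguished _ (split_dist hN hP (hM.sh 1) hi hp hr hs ri ps pi0 tot
    (w := f) ⟨hf.mem, hf.comm⟩ e) _ ((qt I).mapTriangleRotateIso.app _ ≪≫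
      (qt I).mapTriangle.mapIso (Triangle.isoMk _ _ (Iso.refl _) (Iso.refl _) (shIso hM 1).symm
        (by simp [rotate]) (by simp [rotate]) ?_))
  refine HomologicalComplex.hom_ext _ _ fun n => ?_
  simp [rotate, shIso_hom_f, shIso_inv_f, hom_neg K]
  rfl

lemma cone_dist' {f : M.M →ₗ[R] N.M} (hf : IsHom M N f) :
    (qt I).mapTriangle.obj (Triangle.mk (toMap hM hN hf)
      (toMap hN (Kill.ext hf.coneTw (hM.sh 1) hN) (ext_inr hf.coneTw))
      (toMap _ (hM.sh 1) (ext_fst hf.coneTw) ≫ (shIso hM 1).hom)) ∈ distTriang _ :=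
  cone_dist hM hN _ hf _ _ (ext_snd_deg hf.coneTw) (ext_inl_deg hf.coneTw) rfl rfl rfl
    (by ext <;> simp) fun m => by
      change f m + N.d 0 = f m
      rw [map_zero, add_zero]

variable {C : Type} {x : C → R} {xs : List (HE A)}

/-- The list `xs` enumerates the chart elements. -/
structure Charts (x : C → R) (xs : List (HE A)) : Prop where
  sub : ∀ c, ∃ y ∈ xs, y.x = x c
  sup : ∀ y ∈ xs, ∃ c, x c = y.x

variable (hx : Charts x xs)
include hx

lemma tors_toCx : Tors I x ((qt I).obj (toCx hM)) ↔ TorsL xs M := by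
  rw [tors_iff]
  constructor
  · intro h y hy g _ n z hz h0
    obtain ⟨c, hc⟩ := hx.sup y hy
    obtain ⟨m, w, e⟩ := h c (n - 1) n (n + 1) (by ring) rfl (inc hM z hz) (by
      rw [toCx_d hM rfl]
      exact evs_inj hM (ap_mem _ (inc_mem hM z hz)) (zero_mem _) ((ev_cmp hM hM _ _ _).trans (by
        rw [ev_inc, h0, map_zero])))
    obtain ⟨v, hv, e'⟩ := exists_inc hM
      (FMX.prj_mem ((toCx hM).X (n - 1)).property (m • y.deg + g) w)
    have e1 := FMX.hom_pr ((toCx hM).d (n - 1) n) (m • y.deg + g) w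
    rw [e, hc, FMX.pr, FMX.prj_same _ (((toCx hM).X n).obj.smul_mem (y.pow_mem m)
      (inc_mem hM z hz)), toCx_d hM (by ring)] at e1
    refine ⟨m, v, hv, ?_⟩
    have e2 := (congrArg (evs hM n) e1).trans (ev_cmp hM hM _ _ _)
    rw [map_smul, ev_inc, FMX.pr, ← e', ev_inc] at e2
    exact e2.symm
  · intro h c i j k hi hk z hz
    obtain ⟨y, hy, hc⟩ := hx.sub c
    obtain ⟨s, hs⟩ := FMX.exists_sum_prj ((toCx hM).X j).property z
    rw [← hs, ← hc]
    refine Finset.sum_induction _ (fun z => ∃ (m : ℕ) (w : ((toCx hM).X i).obj.M),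
      ap ((toCx hM).d i j) w = y.x ^ m • z) ?_ ⟨0, 0, by simp⟩ fun g _ => ?_
    · rintro a b ⟨m, u, e⟩ ⟨l, v, e'⟩
      exact ⟨l + m, y.x ^ l • u + y.x ^ m • v, by
        rw [map_add, map_smul, map_smul, e, e', smul_add, smul_smul, smul_smul, ← pow_add,
          ← pow_add, add_comm m l]⟩
    · obtain ⟨v, hv, e⟩ := exists_inc hM (FMX.prj_mem ((toCx hM).X j).property g z)
      have e1 := FMX.hom_pr ((toCx hM).d j k) g z
      rw [hz, map_zero, toCx_d hM hk] at e1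
      have e2 := (congrArg (evs hM k) e1).trans (ev_cmp hM hM _ _ _)
      rw [map_zero, FMX.pr, ← e, ev_inc] at e2
      obtain ⟨m, w, hw, e3⟩ := h y hy g trivial j v hv e2.symm
      refine ⟨m, inc hM w (mem_cast hw rfl (show j - 1 = i by omega)), ?_⟩
      rw [toCx_d hM hi, cmp_inc, ← e]
      exact evs_inj hM (inc_mem hM _ _) (((toCx hM).X j).obj.smul_mem (y.pow_mem m)
        (inc_mem hM v hv)) (by rw [map_smul, ev_inc, ev_inc]; exact e3)

lemma trW_iff {f : M.M →ₗ[R] N.M} (hf : IsHom M N f) :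
    (Tors I x).trW ((qt I).map (toMap hM hN hf)) ↔ IsW xs M N f :=
  ((Tors I x).trW_iff_of_distinguished _ (cone_dist' hM hN hf)).trans
    ((tors_toCx _ hx).trans (isW_iff hf).symm)

omit hx in
variable (x) in
/-- The morphism in the derived category given by a closed map. -/
abbrev dm {f : M.M →ₗ[R] N.M} (hf : IsHom M N f) :
    (Q I x).obj (toCx hM) ⟶ (Q I x).obj (toCx hN) := (Q I x).map (toMap hM hN hf)

omit hx in
lemma dm_comp {f : M.M →ₗ[R] N.M} {g : N.M →ₗ[R] P.M} (hf : IsHom M N f) (hg : IsHom N P g) :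
    dm hM hP x (hg.comp hf) = dm hM hN x hf ≫ dm hN hP x hg := by
  rw [dm, toMap_comp hM hN hP, Functor.map_comp]

omit hx in
lemma dm_add {f g : M.M →ₗ[R] N.M} (hf : IsHom M N f) (hg : IsHom M N g) :
    dm hM hN x (hf.add hg) = dm hM hN x hf + dm hM hN x hg := by
  rw [dm, toMap_add, Functor.map_add]

omit hx in
lemma dm_eq_zero {f : M.M →ₗ[R] N.M} (hf : IsHom M N f) (h : (hom M N).Bd 0 f) :
    dm hM hN x hf = 0 :=
  (congrArg (Tors I x).trW.Q.map (quot_eq_zero hM hN hf h)).trans (Functor.map_zero _ _ _)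

omit hx in
lemma dm_eq {f g : M.M →ₗ[R] N.M} (hf : IsHom M N f) (hg : IsHom M N g)
    (h : (hom M N).Bd 0 (f + g)) : dm hM hN x hf = dm hM hN x hg := by
  have := dm_eq_zero (x := x) hM hN (hf.add hg) h
  rw [dm_add hM hN hf hg] at this
  rw [← hom_neg K (dm hM hN x hg)]
  exact eq_neg_of_add_eq_zero_left this

lemma isIso_dm {f : M.M →ₗ[R] N.M} (hf : IsW xs M N f) : IsIso (dm hM hN x hf.isHom) :=
  Localization.inverts (Tors I x).trW.Q (Tors I x).trW _ ((trW_iff hM hN hx hf.isHom).2 hf)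

lemma exists_isW (h : M.Hon) {Y : HomotopyCategory (GrMod A I) (.up ℤ)}
    (s : (qt I).obj (toCx hM) ⟶ Y) : ∃ f, ∃ hf : IsHom M (ofCx Y.as) f,
      (qt I).map (toMap hM (ki_ofCx _) hf) = s ≫ (qt I).map (kapIso Y.as).inv ∧
      ((Tors I x).trW s → IsW xs M _ f) := by
  obtain ⟨φ, hφ⟩ := (qt I).map_surjective (Y := toCx (ki_ofCx Y.as))
    (s ≫ (qt I).map (kapIso Y.as).inv)
  obtain ⟨f, hf, rfl⟩ := exists_toMap hM _ h φ
  exact ⟨f, hf, hφ, fun hs => (trW_iff _ _ hx hf).1 (hφ ▸ (Tors I x).trW.comp_mem _ _ hs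
    ((Tors I x).trW_of_isIso _))⟩

variable (h₁ : P.Hon) (h₂ : KP (SL xs I.toIdeal) P) (h₃ : Z.Hon) (hZ : SL xs I.toIdeal Z)
include h₁ h₂ h₃

/-- Every morphism in the derived category comes from a closed map. -/
lemma dm_surj (φ : (Q I x).obj (toCx hP) ⟶ (Q I x).obj (toCx hZ.kill)) :
    ∃ f, ∃ hf : IsHom P Z f, dm hP hZ.kill x hf = φ := by
  obtain ⟨ψ, rfl⟩ := Localization.exists_leftFraction (Tors I x).trW.Q (Tors I x).trW φ
  obtain ⟨g, hg, eg, -⟩ := exists_isW hP hx h₁ ψ.f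
  obtain ⟨s, hs, es, hW⟩ := exists_isW hZ.kill hx h₃ ψ.s
  have hη := cechEta_isW xs (ofCx ψ.Y'.as)
  have hY := sl_cech (xs := xs) (ki_ofCx ψ.Y'.as)
  obtain ⟨f, hf, h0, hb⟩ := ((h₂.post_isW (hη.comp (hW ψ.hs)) hZ hY).qis 0 trivial).surj 0 _
    (hη.isHom.comp hg).deg (hη.isHom.comp hg).homD
  have hf' : IsHom P Z f := isHom_of hf h0
  have := isIso_dm hZ.kill hY.kill hx (hη.comp (hW ψ.hs))
  refine ⟨f, hf', (cancel_mono (dm hZ.kill hY.kill x (hη.comp (hW ψ.hs)).isHom)).1 ?_⟩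
  rw [← dm_comp, dm_eq _ _ _ (hη.isHom.comp hg) hb, dm_comp _ (ki_ofCx _) _ hg hη.isHom,
    dm_comp _ (ki_ofCx _) _ hs hη.isHom, ← Category.assoc]
  congr 1
  change (Tors I x).trW.Q.map _ = _ ≫ (Tors I x).trW.Q.map _
  rw [eg, es, Functor.map_comp, Functor.map_comp,
    MorphismProperty.LeftFraction.map_comp_map_s_assoc]

/-- A closed map that vanishes in the derived category is a boundary. -/
lemma dm_inj {f : P.M →ₗ[R] Z.M} (hf : IsHom P Z f) (e : dm hP hZ.kill x hf = 0) :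
    (hom P Z).Bd 0 f := by
  obtain ⟨Y, t, ht, e'⟩ := (MorphismProperty.map_eq_iff_postcomp (Tors I x).trW.Q (Tors I x).trW
    ((qt I).map (toMap hP hZ.kill hf)) 0).1 (e.trans (Functor.map_zero _ _ _).symm)
  obtain ⟨s, hs, es, hW⟩ := exists_isW hZ.kill hx h₃ t
  have hη := cechEta_isW xs (ofCx Y.as)
  have hb := bd_of_quot_eq_zero hP (ki_ofCx _) (hs.comp hf) h₁ (by
    rw [toMap_comp _ hZ.kill _ hf hs, Functor.map_comp, es, reassoc_of% e', zero_comp])
  exact ((h₂.post_isW (hη.comp (hW ht)) hZ (sl_cech (ki_ofCx _))).qis 0 trivial).inj 0 f hf.deg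
    hf.homD ((hη.isHom.post P).bd hb)

end FMD
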