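import Pool.Agent.MP_0e6a9f_ag.H36.Fun

/-! Localization at a homogeneous element, torsion cohomology. -/

set_option linter.unusedSectionVars false

noncomputable section
namespace FMD
open DG

variable {K G R : Type} [Field K] [AddCommGroup G] [CommRing R] [Algebra K R]

/-- A homogeneous element with its degree. -/
structure HE (A : G → Submodule K R) where
  x : R
  deg : G
  mem : x ∈ A deg

variable {A : G → Submodule K R} [SetLike.GradedMonoid A]

lemma HE.pow_mem (x : HE A) (k : ℕ) : x.x ^ k ∈ A (k • x.deg) := SetLike.pow_mem_graded k x.mem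

/-- The product of homogeneous elements. -/
def HE.mul (x y : HE A) : HE A := ⟨x.x * y.x, x.deg + y.deg, SetLike.mul_mem_graded x.mem y.mem⟩

/-- The unit. -/
def HE.one (A : G → Submodule K R) [SetLike.GradedMonoid A] : HE A :=
  ⟨1, 0, SetLike.one_mem_graded A⟩

namespace DG
variable {L M N M' : DG A} {U : Set G} (x : HE A)

lemma pow_smul_mem (k : ℕ) {g : G} {n : ℤ} {m : M.M} (h : m ∈ M.gr g n) :
    x.x ^ k • m ∈ M.gr (k • x.deg + g) n := M.smul_mem (x.pow_mem k) h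

/-- The map `m ↦ m / 1`. -/
abbrev toLoc (M : DG A) : M.M →ₗ[R] LocalizedModule (Submonoid.powers x.x) M.M :=
  LocalizedModule.mkLinearMap (Submonoid.powers x.x) M.M

/-- The map induced on localizations. -/
abbrev locMap (M N : DG A) : (M.M →ₗ[R] N.M) →ₗ[R]
    (LocalizedModule (Submonoid.powers x.x) M.M →ₗ[R] LocalizedModule (Submonoid.powers x.x) N.M) :=
  IsLocalizedModule.map (Submonoid.powers x.x) (toLoc x M) (toLoc x N)

lemma locMap_toLoc (f : M.M →ₗ[R] N.M) (m : M.M) :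
    locMap x M N f (toLoc x M m) = toLoc x N (f m) := IsLocalizedModule.map_apply _ _ _ f m

lemma loc_inj (k : ℕ) {u : LocalizedModule (Submonoid.powers x.x) M.M} (h : x.x ^ k • u = 0) :
    u = 0 :=
  IsLocalizedModule.smul_injective (toLoc x M) (⟨x.x ^ k, k, rfl⟩ : Submonoid.powers x.x)
    (h.trans (smul_zero _).symm)

lemma loc_surj (u : LocalizedModule (Submonoid.powers x.x) M.M) :
    ∃ (k : ℕ) (m : M.M), x.x ^ k • u = toLoc x M m := by
  obtain ⟨⟨m, _, k, rfl⟩, h⟩ := IsLocalizedModule.surj (Submonoid.powers x.x) (toLoc x M) u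
  exact ⟨k, m, h⟩

lemma loc_div (k : ℕ) (u : LocalizedModule (Submonoid.powers x.x) M.M) : ∃ v, x.x ^ k • v = u :=
  ((Module.End.isUnit_iff _).mp (IsLocalizedModule.map_units (toLoc x M)
    (⟨x.x ^ k, k, rfl⟩ : Submonoid.powers x.x))).surjective u

lemma toLoc_eq_zero {m : M.M} (h : toLoc x M m = 0) : ∃ k : ℕ, x.x ^ k • m = 0 := by
  obtain ⟨⟨_, k, rfl⟩, h⟩ := (IsLocalizedModule.eq_zero_iff (Submonoid.powers x.x) _).1 h
  exact ⟨k, h⟩

/-- The grading of the localization. -/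
def locGr (M : DG A) (g : G) (n : ℤ) : AddSubgroup (LocalizedModule (Submonoid.powers x.x) M.M) where
  carrier := {u | ∃ k : ℕ, ∃ m ∈ M.gr (k • x.deg + g) n, x.x ^ k • u = toLoc x M m}
  add_mem' := by
    rintro u v ⟨k, m, hm, e⟩ ⟨l, m', hm', e'⟩
    refine ⟨l + k, x.x ^ l • m + x.x ^ k • m', add_mem
      (mem_cast (pow_smul_mem x l hm) (by rw [add_nsmul]; abel) rfl)
      (mem_cast (pow_smul_mem x k hm') (by rw [add_nsmul]; abel) rfl), ?_⟩
    rw [map_add, map_smul, map_smul, ← e, ← e', smul_add, smul_smul, smul_smul, ← pow_add,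
      ← pow_add, add_comm k l]
  zero_mem' := ⟨0, 0, zero_mem _, by simp⟩
  neg_mem' := by
    rintro u ⟨k, m, hm, e⟩
    exact ⟨k, -m, neg_mem hm, by rw [map_neg, smul_neg, e]⟩

lemma locMap_mem {a : G} {k : ℤ} {f : M.M →ₗ[R] N.M} (hf : f ∈ deg M N a k) {g : G} {n : ℤ}
    {u} (hu : u ∈ locGr x M g n) : locMap x M N f u ∈ locGr x N (a + g) (n + k) := by
  obtain ⟨l, m, hm, e⟩ := hu
  exact ⟨l, f m, mem_cast (hf _ _ _ hm) (by abel) rfl, by rw [← map_smul, e, locMap_toLoc]⟩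

/-- The localization `M[1/x]`. -/
@[reducible] def loc (M : DG A) : DG A where
  M := LocalizedModule (Submonoid.powers x.x) M.M
  gr := locGr x M
  smul_mem := by
    rintro a g n r u hr ⟨k, m, hm, e⟩
    exact ⟨k, r • m, mem_cast (M.smul_mem hr hm) (by abel) rfl, by rw [smul_comm, e, map_smul]⟩
  d := locMap x M M M.d
  d_mem {g n _} h := by simpa only [zero_add] using locMap_mem x M.d_deg h
  d_d u := by
    rw [← LinearMap.comp_apply, ← IsLocalizedModule.map_comp',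
      show M.d ∘ₗ M.d = 0 from LinearMap.ext M.d_d, map_zero, LinearMap.zero_apply]

lemma toLoc_isHom (M : DG A) : IsHom M (loc x M) (toLoc x M) :=
  ⟨fun {g n m} h => ⟨0, m, mem_cast h (by simp) rfl, by simp⟩,
    fun m => locMap_toLoc x M.d m⟩

/-- `x` acts bijectively on the graded pieces. -/
structure Inv (M : DG A) : Prop where
  inj : ∀ {g n m}, m ∈ M.gr g n → x.x • m = 0 → m = 0
  div : ∀ {g n m}, m ∈ M.gr (x.deg + g) n → ∃ m' ∈ M.gr g n, x.x • m' = m

variable {x} in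
lemma Inv.pow_inj (h : Inv x M) (k : ℕ) {g n m} (hm : m ∈ M.gr g n) (e : x.x ^ k • m = 0) :
    m = 0 := by
  induction k with
  | zero => simpa using e
  | succ k ih => exact ih (h.inj (pow_smul_mem x k hm) (by rw [smul_smul, ← pow_succ', e]))

variable {x} in
lemma Inv.pow_div (h : Inv x M) (k : ℕ) {g n m} (hm : m ∈ M.gr (k • x.deg + g) n) :
    ∃ m' ∈ M.gr g n, x.x ^ k • m' = m := by
  induction k generalizing m with
  | zero => exact ⟨m, mem_cast hm (by simp) rfl, by simp⟩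
  | succ k ih =>
    obtain ⟨u, hu, rfl⟩ := h.div (g := k • x.deg + g) (mem_cast hm (by rw [succ_nsmul]; abel) rfl)
    obtain ⟨v, hv, rfl⟩ := ih hu
    exact ⟨v, hv, by rw [smul_smul, pow_succ']⟩

lemma inv_loc (M : DG A) : Inv x (loc x M) where
  inj _ h := loc_inj x 1 (by simpa using h)
  div := by
    rintro g n u ⟨k, m, hm, e⟩
    obtain ⟨v, rfl⟩ := loc_div x 1 u
    exact ⟨v, ⟨k + 1, m, mem_cast hm (by rw [succ_nsmul]; abel) rfl, by
      rw [← e, smul_smul, ← pow_add]⟩, by simp⟩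

/-- If a product acts bijectively, so do its factors. -/
lemma Inv.of_mul {x y : HE A} (h : Inv (x.mul y) M) : Inv x M where
  inj hm e := h.inj hm (by change (x.x * y.x) • _ = 0; rw [mul_comm, mul_smul, e, smul_zero])
  div {g n m} hm := by
    obtain ⟨u, hu, e⟩ := h.div (g := g - y.deg) (n := n) (m := m)
      (mem_cast hm (by simp [HE.mul]) rfl)
    exact ⟨y.x • u, mem_cast (M.smul_mem y.mem hu) (by abel) rfl, by rw [smul_smul]; exact e⟩

lemma Inv.mul {x y : HE A} (h : Inv x M) (h' : Inv y M) : Inv (x.mul y) M where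
  inj hm e := h'.inj hm (h.inj (M.smul_mem y.mem hm) (by rw [smul_smul]; exact e))
  div {g n m} hm := by
    obtain ⟨u, hu, rfl⟩ := h.div (g := y.deg + g) (mem_cast hm (by simp [HE.mul, add_assoc]) rfl)
    obtain ⟨v, hv, rfl⟩ := h'.div hu
    exact ⟨v, hv, mul_smul _ _ _⟩

/-- `f : M → M'` is a localization at `x` on the graded pieces. -/
structure IsLoc (M M' : DG A) (f : M.M →ₗ[R] M'.M) : Prop where
  isHom : IsHom M M' f
  inv : Inv x M'
  surj : ∀ {g n u}, u ∈ M'.gr g n → ∃ k : ℕ, ∃ m ∈ M.gr (k • x.deg + g) n, x.x ^ k • u = f m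
  ker : ∀ {g n m}, m ∈ M.gr g n → f m = 0 → ∃ k : ℕ, x.x ^ k • m = 0

lemma isLoc_toLoc (M : DG A) : IsLoc x M (loc x M) (toLoc x M) :=
  ⟨toLoc_isHom x M, inv_loc x M, fun h => h, fun _ h => toLoc_eq_zero x h⟩

variable {x} in
lemma Inv.isLoc (h : Inv x M) : IsLoc x M M LinearMap.id :=
  ⟨IsHom.id M, h, fun {g n u} hu => ⟨0, u, mem_cast hu (by simp) rfl, by simp⟩,
    fun _ h => ⟨0, by simpa using h⟩⟩

variable [CharP K 2]

/-- The cohomology in the degrees of `U` is killed by powers of `x`. -/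
def TorsOn (U : Set G) (x : HE A) (M : DG A) : Prop :=
  ∀ g ∈ U, ∀ n, ∀ z ∈ M.gr g n, M.d z = 0 → ∃ k : ℕ, (M.cx (k • x.deg + g)).Bd n (x.x ^ k • z)

/-- The cohomology is killed by powers of `x`. -/
abbrev Tors (x : HE A) (M : DG A) : Prop := TorsOn Set.univ x M

lemma bd_smul {a g : G} {r : R} (hr : r ∈ A a) {n : ℤ} {z : M.M} (h : (M.cx g).Bd n z) :
    (M.cx (a + g)).Bd n (r • z) := by
  obtain ⟨w, hw, rfl⟩ := h
  exact ⟨r • w, M.smul_mem hr hw, M.d.map_smul r w⟩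

lemma bd_cast {g g' : G} {n : ℤ} {z z' : M.M} (h : (M.cx g).Bd n z) (hg : g = g') (hz : z = z') :
    (M.cx g').Bd n z' := hg ▸ hz ▸ h

lemma AcycOn.torsOn (h : AcycOn U M) : TorsOn U x M := fun g hg n z hz h0 =>
  ⟨0, bd_cast (h g hg n z hz h0) (by simp) (by simp)⟩

/-- `U` is closed under adding `a`. -/
def Stab (U : Set G) (a : G) : Prop := ∀ g ∈ U, a + g ∈ U

omit [SetLike.GradedMonoid A] [CharP K 2] in
lemma Stab.nsmul {a : G} (h : Stab U a) (k : ℕ) : Stab U (k • a) := by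
  induction k with
  | zero => intro g hg; simpa using hg
  | succ k ih => intro g hg; rw [succ_nsmul', add_assoc]; exact h _ (ih g hg)

omit [SetLike.GradedMonoid A] [CharP K 2] in
lemma stab_univ (a : G) : Stab Set.univ a := fun _ _ => trivial

variable {x} {f : M.M →ₗ[R] M'.M}

lemma IsLoc.acycOn (h : IsLoc x M M' f) (hU : Stab U x.deg) (hM : TorsOn U x M) : AcycOn U M' := by
  intro g hg n z hz h0
  obtain ⟨k, m, hm, e⟩ := h.surj hz
  obtain ⟨l, hl⟩ := h.ker (M.d_mem hm) (by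
    rw [← h.isHom.comm, ← e, map_smul, show M'.d z = 0 from h0, smul_zero])
  obtain ⟨j, w, hw, e'⟩ := hM _ (hU.nsmul l _ (hU.nsmul k g hg)) n _ (pow_smul_mem x l hm)
    (by rw [map_smul, hl])
  obtain ⟨v, hv, e''⟩ := h.inv.pow_div (j + l + k) (g := g)
    (mem_cast (h.isHom.mem hw) (by simp only [add_nsmul]; abel) rfl)
  refine ⟨v, hv, (M'.cx g).eq_of_add (h.inv.pow_inj (j + l + k)
    (add_mem (Cx.d_mem' (C := M'.cx g) hv) hz) ?_)⟩
  change _ • (M'.d v + z) = 0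
  rw [smul_add, ← map_smul, e'', h.isHom.comm, show M.d w = _ from e', map_smul, map_smul, ← e,
    smul_smul, smul_smul, ← pow_add, ← pow_add, M'.two]

lemma IsLoc.torsOn (h : IsLoc x M M' f) (hM : AcycOn U M') : TorsOn U x M := by
  intro g hg n z hz h0
  obtain ⟨w, hw, e⟩ := hM g hg n (f z) (h.isHom.mem hz) ((h.isHom.cx g).cyc hz h0)
  obtain ⟨k, m, hm, e'⟩ := h.surj hw
  obtain ⟨l, hl⟩ := h.ker (add_mem (Cx.d_mem' (C := M.cx _) hm) (pow_smul_mem x k hz)) (by
    change f (M.d m + _) = 0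
    rw [map_add, ← h.isHom.comm, ← e', map_smul, map_smul, show M'.d w = _ from e, M'.two])
  refine ⟨l + k, x.x ^ l • m, mem_cast (pow_smul_mem x l hm) (by rw [add_nsmul]; abel) rfl,
    (M.cx 0).eq_of_add ?_⟩
  change M.d _ + _ = 0
  rw [map_smul, pow_add, mul_smul, ← smul_add]
  exact hl

lemma tors_iff : Tors x M ↔ (loc x M).Acyc :=
  ⟨(isLoc_toLoc x M).acycOn (stab_univ _), (isLoc_toLoc x M).torsOn⟩

lemma Inv.acycOn (h : Inv x M) (hU : Stab U x.deg) (hM : TorsOn U x M) : AcycOn U M :=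
  h.isLoc.acycOn hU hM

end DG

variable [CharP K 2] {U : Set G}

/-- Localization as a DG functor. -/
@[reducible] def locF (x : HE A) : DGF A where
  obj := loc x
  map := locMap x
  map_id _ := IsLocalizedModule.map_id _ _
  map_comp _ _ _ _ _ := IsLocalizedModule.map_comp' _ _ _ _ _ _
  map_deg h _ _ _ hu := locMap_mem x h hu
  map_d M N f := by
    rw [homD_def, homD_def, map_add, IsLocalizedModule.map_comp' _ _ (toLoc x N),
      IsLocalizedModule.map_comp' _ _ (toLoc x M)]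

/-- The natural map to the localization. -/
@[reducible] def toLocT (x : HE A) : NatT (DGF.id A) (locF x) :=
  ⟨toLoc x, toLoc_isHom x, fun _ _ f m => (locMap_toLoc x f m).symm⟩

lemma good_loc (x : HE A) (hU : Stab U x.deg) : (locF x).Good U := by
  refine ⟨fun {L M N i p} S => ⟨(locF x).isHom S.hi, (locF x).isHom S.hp, fun g hg => ?_⟩,
    fun h => (isLoc_toLoc x _).acycOn hU (h.torsOn x)⟩
  have S' := fun k : ℕ => S.ses _ (hU.nsmul k g hg)
  refine ⟨((locF x).isHom S.hi).cx g, ((locF x).isHom S.hp).cx g, ?_, ?_, ?_, ?_⟩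
  · rintro n v ⟨k, m, hm, e⟩ (h0 : locMap x L M i v = 0)
    obtain ⟨l, hl⟩ := toLoc_eq_zero x (M := M) (m := i m)
      (by rw [← locMap_toLoc, ← e, map_smul, h0, smul_zero])
    have := (S' (l + k)).inj n (x.x ^ l • m)
      (mem_cast (pow_smul_mem x l hm) (by rw [add_nsmul]; abel) rfl) ((i.map_smul _ _).trans hl)
    exact loc_inj x (l + k) (by rw [pow_add, mul_smul, e, ← map_smul, this, map_zero])
  · rintro n v ⟨k, m, hm, e⟩
    change locMap x M N p (locMap x L M i v) = 0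
    refine loc_inj x k ?_
    rw [← map_smul, ← map_smul, e, locMap_toLoc, locMap_toLoc,
      show p (i m) = 0 from (S' k).zero n m hm, map_zero]
  · rintro n v ⟨k, m, hm, e⟩ (h0 : locMap x M N p v = 0)
    obtain ⟨l, hl⟩ := toLoc_eq_zero x (M := N) (m := p m)
      (by rw [← locMap_toLoc, ← e, map_smul, h0, smul_zero])
    obtain ⟨u, hu, e'⟩ := (S' (l + k)).ex n (x.x ^ l • m)
      (mem_cast (pow_smul_mem x l hm) (by rw [add_nsmul]; abel) rfl) ((p.map_smul _ _).trans hl)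
    obtain ⟨t, ht⟩ := loc_div x (l + k) (toLoc x L u)
    refine ⟨t, ⟨l + k, u, hu, ht⟩, ((loc x M).cx 0).eq_of_add (loc_inj x (l + k) ?_)⟩
    change _ • (locMap x L M i t + v) = 0
    rw [smul_add, ← map_smul, ht, locMap_toLoc, show i u = _ from e', pow_add, mul_smul, e,
      map_smul, (loc x M).two]
  · rintro n v ⟨k, m, hm, e⟩
    obtain ⟨u, hu, e'⟩ := (S' k).surj n m hm
    obtain ⟨t, ht⟩ := loc_div x k (toLoc x M u)
    refine ⟨t, ⟨k, u, hu, ht⟩, ((loc x N).cx 0).eq_of_add (loc_inj x k ?_)⟩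
    change _ • (locMap x M N p t + v) = 0
    rw [smul_add, ← map_smul, ht, locMap_toLoc, show p u = _ from e', e, (loc x N).two]

/-- `F` commutes with localizations. -/
def DGF.PL (F : DGF A) : Prop :=
  ∀ (x : HE A) (M M' : DG A) f, IsLoc x M M' f → IsLoc x (F.obj M) (F.obj M') (F.map M M' f)

variable {F F' : DGF A}

lemma DGF.pl_id : (DGF.id A).PL := fun _ _ _ _ h => h

lemma DGF.PL.comp (h : F.PL) (h' : F'.PL) : (F.comp F').PL :=
  fun x _ _ _ H => h x _ _ _ (h' x _ _ _ H)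

lemma DGF.pl_sh (k : ℤ) : (DGF.sh A k).PL := fun _ _ _ _ h =>
  ⟨⟨h.isHom.mem, h.isHom.comm⟩, ⟨h.inv.inj, h.inv.div⟩, h.surj, h.ker⟩

lemma DGF.pl_tg (a : G) : (DGF.tg A a).PL := fun _ M M' _ h =>
  ⟨⟨h.isHom.mem, h.isHom.comm⟩,
    ⟨h.inv.inj, fun hm => h.inv.div (mem_cast (M := M') hm (by abel) rfl)⟩, fun hu => by
      obtain ⟨k, m, hm, e⟩ := h.surj hu
      exact ⟨k, m, mem_cast (M := M) hm (by abel) rfl, e⟩, h.ker⟩

lemma NatTw.pl (τ : NatTw F F') (h : F.PL) (h' : F'.PL) : τ.ext.PL := by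
  intro x M M' f H
  have H₁ := h x _ _ _ H
  have H₂ := h' x _ _ _ H
  refine ⟨τ.ext.isHom H.isHom, ⟨fun hm e => Prod.ext (H₁.inv.inj hm.1 (Prod.ext_iff.1 e).1)
    (H₂.inv.inj hm.2 (Prod.ext_iff.1 e).2), fun hm => ?_⟩, fun {_ _ u} hu => ?_, fun {_ _ u} hm e => ?_⟩
  · obtain ⟨a, ha, e1⟩ := H₁.inv.div hm.1
    obtain ⟨b, hb, e2⟩ := H₂.inv.div hm.2
    exact ⟨(a, b), ⟨ha, hb⟩, Prod.ext e1 e2⟩
  · obtain ⟨k, a, ha, e1⟩ := H₁.surj hu.1
    obtain ⟨l, b, hb, e2⟩ := H₂.surj hu.2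
    refine ⟨l + k, (x.x ^ l • a, x.x ^ k • b),
      ⟨mem_cast (pow_smul_mem x l ha) (by rw [add_nsmul]; abel) rfl,
        mem_cast (pow_smul_mem x k hb) (by rw [add_nsmul]; abel) rfl⟩, Prod.ext ?_ ?_⟩
    · change x.x ^ (l + k) • u.1 = F.map M M' f (x.x ^ l • a)
      rw [map_smul, ← e1, smul_smul, pow_add]
    · change x.x ^ (l + k) • u.2 = F'.map M M' f (x.x ^ k • b)
      rw [map_smul, ← e2, smul_smul, add_comm l k, pow_add]
  · obtain ⟨k, e1⟩ := H₁.ker hm.1 (Prod.ext_iff.1 e).1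
    obtain ⟨l, e2⟩ := H₂.ker hm.2 (Prod.ext_iff.1 e).2
    refine ⟨l + k, Prod.ext ?_ ?_⟩
    · change x.x ^ (l + k) • u.1 = 0
      rw [pow_add, mul_smul, e1, smul_zero]
    · change x.x ^ (l + k) • u.2 = 0
      rw [add_comm, pow_add, mul_smul, e2, smul_zero]

lemma pl_loc (y : HE A) : (locF y).PL := by
  intro x M M' f H
  refine ⟨(locF y).isHom H.isHom, ⟨?_, ?_⟩, ?_, ?_⟩
  · rintro g n u ⟨k, m, hm, e⟩ h0
    obtain ⟨l, hl⟩ := toLoc_eq_zero y (M := M') (m := x.x • m)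
      (by rw [map_smul, ← e, smul_comm, h0, smul_zero])
    have := H.inv.inj (pow_smul_mem y l hm) (by rw [smul_comm, hl])
    exact loc_inj y (l + k) (by rw [pow_add, mul_smul, e, ← map_smul, this, map_zero])
  · rintro g n u ⟨k, m, hm, e⟩
    obtain ⟨m', hm', rfl⟩ := H.inv.div (g := k • y.deg + g) (mem_cast hm (by abel) rfl)
    obtain ⟨t, ht⟩ := loc_div y k (toLoc y M' m')
    refine ⟨t, ⟨k, m', hm', ht⟩, ((loc y M').cx 0).eq_of_add (loc_inj y k ?_)⟩
    change _ • (x.x • t + u) = 0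
    rw [smul_add, smul_comm, ht, e, map_smul, (loc y M').two]
  · rintro g n u ⟨k, m, hm, e⟩
    obtain ⟨l, m', hm', e'⟩ := H.surj hm
    obtain ⟨t, ht⟩ := loc_div y k (toLoc y M m')
    refine ⟨l, t, ⟨k, m', mem_cast hm' (by abel) rfl, ht⟩,
      ((loc y M').cx 0).eq_of_add (loc_inj y k ?_)⟩
    change _ • (_ • u + locMap y M M' f t) = 0
    rw [smul_add, smul_comm, e, ← map_smul (locMap y M M' f), ht, locMap_toLoc, ← e', map_smul,
      (loc y M').two]
  · rintro g n u ⟨k, m, hm, e⟩ (h0 : locMap y M M' f u = 0)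
    obtain ⟨l, hl⟩ := toLoc_eq_zero y (M := M') (m := f m)
      (by rw [← locMap_toLoc, ← e, map_smul, h0, smul_zero])
    obtain ⟨j, hj⟩ := H.ker (pow_smul_mem y l hm) (by rw [map_smul, hl])
    refine ⟨j, loc_inj y (l + k) ?_⟩
    rw [smul_comm, pow_add, mul_smul, e, ← map_smul, ← map_smul, hj, map_zero]

variable {M : DG A} {x : HE A}

lemma DGF.PL.inv (h : F.PL) (hM : Inv x M) : Inv x (F.obj M) := (h x _ _ _ hM.isLoc).inv

lemma DGF.PL.tors (h : F.PL) (h' : F.Good Set.univ) (hM : Tors x M) : Tors x (F.obj M) :=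
  (h x _ _ _ (isLoc_toLoc x M)).torsOn (h'.acyc (tors_iff.1 hM))

lemma DGF.PL.acyc_loc (h : F.PL) (hM : (F.obj M).Acyc) : (F.obj (loc x M)).Acyc :=
  (h x _ _ _ (isLoc_toLoc x M)).acycOn (stab_univ _) (hM.torsOn x)

end FMD
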