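import Pool.Agent.MP_0e6a9f_ag.H36.KP
import Pool.Agent.MP_0e6a9f_ag.H36.Alg

/-! Representations of a small DG category on a differential module; realizations of twisted
complexes. -/

set_option linter.unusedSectionVars false

open MulOpposite

noncomputable section
namespace FMD
open DG

variable {K G R G' R' : Type} [Field K] [AddCommGroup G] [CommRing R] [Algebra K R] [CharP K 2]
  [AddCommGroup G'] [CommRing R'] [Algebra K R']
  {A : G → Submodule K R} {A' : G' → Submodule K R'} {U : Set G} {L M N P M' T T' T'' : DG A}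

namespace DG

/-- Sums of maps of bidegree `(0, n)`. -/
def pres (M N : DG A) : AddSubgroup (M.M →ₗ[R] N.M) := ⨆ n, deg M N 0 n

lemma mem_pres {n : ℤ} {f : M.M →ₗ[R] N.M} (h : f ∈ deg M N 0 n) : f ∈ pres M N :=
  AddSubgroup.mem_iSup_of_mem n h

lemma comp_pres {g : N.M →ₗ[R] P.M} {f : M.M →ₗ[R] N.M} (hg : g ∈ pres N P) (hf : f ∈ pres M N) :
    g ∘ₗ f ∈ pres M P := by
  induction hg using AddSubgroup.iSup_induction' with
  | h1 => rw [LinearMap.zero_comp]; exact zero_mem _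
  | hadd x y _ _ hx hy => rw [LinearMap.add_comp]; exact add_mem hx hy
  | hp n x hx =>
    induction hf using AddSubgroup.iSup_induction' with
    | h1 => rw [LinearMap.comp_zero]; exact zero_mem _
    | hadd x y _ _ hx hy => rw [LinearMap.comp_add]; exact add_mem hx hy
    | hp m y hy => exact mem_pres (deg_cast (comp_deg hx hy) (add_zero _) rfl)

lemma homD_pres {f : M.M →ₗ[R] N.M} (hf : f ∈ pres M N) : homD M N f ∈ pres M N :=
  add_mem (comp_pres (mem_pres N.d_deg) hf) (comp_pres hf (mem_pres M.d_deg))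

end DG

/-- A DG functor defined on the modules in `𝒪` and the sums of maps of bidegree `(0, n)`. -/
structure PF (𝒪 : DG A → Prop) (A' : G' → Submodule K R') where
  obj : ∀ M, 𝒪 M → DG A'
  map : ∀ {M N} (hM : 𝒪 M) (hN : 𝒪 N), (M.M →ₗ[R] N.M) → ((obj M hM).M →ₗ[R'] (obj N hN).M)
  map_add : ∀ {M N} hM hN {f g}, f ∈ pres M N → g ∈ pres M N →
    map hM hN (f + g) = map hM hN f + map hM hN g
  map_smul : ∀ {M N} hM hN (c : K) {f}, f ∈ pres M N →
    map hM hN (algebraMap K R c • f) = algebraMap K R' c • map hM hN f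
  map_id : ∀ {M} (hM : 𝒪 M), map hM hM LinearMap.id = LinearMap.id
  map_comp : ∀ {M N P} hM hN hP {g f}, g ∈ pres N P → f ∈ pres M N →
    map hM hP (g ∘ₗ f) = map hN hP g ∘ₗ map hM hN f
  map_deg : ∀ {M N} hM hN {n f}, f ∈ deg M N 0 n → map hM hN f ∈ deg (obj M hM) (obj N hN) 0 n
  map_d : ∀ {M N} hM hN {f}, f ∈ pres M N →
    homD (obj M hM) (obj N hN) (map hM hN f) = map hM hN (homD M N f)

/-- A DG functor is one. -/
@[reducible] def DGF.toPF (F : DGF A) : PF (fun _ : DG A => True) A where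
  obj M _ := F.obj M
  map _ _ f := F.map _ _ f
  map_add _ _ _ _ _ _ := map_add _ _ _
  map_smul _ _ _ _ _ := map_smul _ _ _
  map_id _ := F.map_id _
  map_comp _ _ _ _ _ _ _ := F.map_comp _ _ _ _ _
  map_deg _ _ _ _ h := F.map_deg h
  map_d _ _ _ _ := F.map_d _ _ _

namespace PF
variable {𝒪 : DG A → Prop} (F : PF 𝒪 A') (hM : 𝒪 M) (hN : 𝒪 N)

lemma map_zero : F.map hM hN 0 = 0 := by
  have := F.map_add hM hN (zero_mem _) (zero_mem _)
  rwa [add_zero, left_eq_add] at this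

lemma map_sum {J : Type} (s : Finset J) {f : J → M.M →ₗ[R] N.M} (h : ∀ j, f j ∈ pres M N) :
    F.map hM hN (∑ j ∈ s, f j) = ∑ j ∈ s, F.map hM hN (f j) := by
  classical
  induction s using Finset.induction_on with
  | empty => exact F.map_zero hM hN
  | insert a s ha ih =>
    rw [Finset.sum_insert ha, Finset.sum_insert ha,
      F.map_add hM hN (h a) (sum_mem fun j _ => h j), ih]

lemma isHom {f : M.M →ₗ[R] N.M} (hf : IsHom M N f) :
    IsHom (F.obj M hM) (F.obj N hN) (F.map hM hN f) :=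
  isHom_of (F.map_deg hM hN hf.deg) (by rw [F.map_d _ _ (mem_pres hf.deg), hf.homD, map_zero])

end PF

/-- A representation of a small DG category on `T`. -/
structure Rep (C : DGR) (T : DG A) where
  ρ : C.B →+* Module.End R T.M
  ρ_mem : ∀ {n b}, b ∈ C.gr n → ρ b ∈ deg T T 0 n
  ρ_d : ∀ b, homD T T (ρ b) = ρ (C.d b)

namespace Rep
variable {C C' C'' : DGR}

lemma ρ_pres (ρ : Rep C T) (hC : C.Span) (b : C.B) : ρ.ρ b ∈ pres T T := by
  induction hC b using AddSubgroup.iSup_induction' with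
  | h1 => rw [map_zero]; exact zero_mem _
  | hadd x y _ _ hx hy => rw [map_add]; exact add_mem hx hy
  | hp n x hx => exact mem_pres (ρ.ρ_mem hx)

/-- The image under a functor. -/
@[reducible] def map (ρ : Rep C T) (hC : C.Span) {𝒪 : DG A → Prop} (F : PF 𝒪 A') (hT : 𝒪 T) :
    Rep C (F.obj T hT) where
  ρ :=
    { toFun b := F.map hT hT (ρ.ρ b)
      map_one' := by rw [map_one]; exact F.map_id hT
      map_mul' a b := by rw [map_mul]; exact F.map_comp hT hT hT (ρ.ρ_pres hC a) (ρ.ρ_pres hC b)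
      map_zero' := by rw [map_zero]; exact F.map_zero hT hT
      map_add' a b := by rw [map_add]; exact F.map_add hT hT (ρ.ρ_pres hC a) (ρ.ρ_pres hC b) }
  ρ_mem h := F.map_deg hT hT (ρ.ρ_mem h)
  ρ_d b := (F.map_d hT hT (ρ.ρ_pres hC b)).trans (congrArg _ (ρ.ρ_d b))

/-- The image under a DG functor. -/
@[reducible] def mapF (ρ : Rep C T) (F : DGF A) : Rep C (F.obj T) where
  ρ :=
    { toFun b := F.map T T (ρ.ρ b)
      map_one' := by rw [map_one]; exact F.map_id T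
      map_mul' a b := by rw [map_mul]; exact F.map_comp _ _ _ _ _
      map_zero' := by rw [map_zero]; exact map_zero _
      map_add' a b := by rw [map_add]; exact map_add _ _ _ }
  ρ_mem h := F.map_deg (ρ.ρ_mem h)
  ρ_d b := (F.map_d _ _ _).trans (congrArg _ (ρ.ρ_d b))

/-- Restriction along a DG ring map. -/
@[reducible] def comap (ρ : Rep C T) (g : C'.B →+* C.B) (h : ∀ {n b}, b ∈ C'.gr n → g b ∈ C.gr n)
    (h' : ∀ b, C.d (g b) = g (C'.d b)) : Rep C' T where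
  ρ := ρ.ρ.comp g
  ρ_mem hb := ρ.ρ_mem (h hb)
  ρ_d b := (ρ.ρ_d _).trans (congrArg _ (h' b))

/-- The bimodule of maps between two representations. -/
def homB (ρ : Rep C T) (ρ' : Rep C' T') : Bimod C C' where
  H := T.M →ₗ[R] T'.M
  modL := Module.compHom _ ρ'.ρ
  modR :=
    { smul b h := h ∘ₗ ρ.ρ b.unop
      one_smul h := by change h ∘ₗ ρ.ρ 1 = h; rw [map_one]; rfl
      mul_smul a b h := by change h ∘ₗ ρ.ρ (_ * _) = _; rw [map_mul]; rfl
      smul_zero _ := rfl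
      smul_add _ _ _ := rfl
      add_smul a b h := by change h ∘ₗ ρ.ρ (_ + _) = _; rw [map_add]; exact LinearMap.comp_add _ _ _
      zero_smul h := by change h ∘ₗ ρ.ρ 0 = _; rw [map_zero]; exact LinearMap.comp_zero _ }
  comm := @SMulCommClass.mk _ _ _ (_) (_) fun _ _ _ => rfl
  gr := deg T T' 0
  d := (homD T T').toAddMonoidHom
  d_mem := (hom T T').d_mem
  d_d := homD_homD
  l_mem hb hh := deg_cast (comp_deg (ρ'.ρ_mem hb) hh) (add_zero _) rfl
  r_mem hb hh := deg_cast (comp_deg hh (ρ.ρ_mem hb)) (add_zero _) rfl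
  d_l b h := (homD_comp (ρ'.ρ b) h).trans (by rw [ρ'.ρ_d]; rfl)
  d_r b h := (homD_comp h (ρ.ρ b)).trans (by rw [ρ.ρ_d]; rfl)

lemma homB_l (ρ : Rep C T) (ρ' : Rep C' T') (b : C'.B) (h : (homB ρ ρ').H) :
    b • h = ρ'.ρ b ∘ₗ h := rfl

lemma homB_r (ρ : Rep C T) (ρ' : Rep C' T') (b : C.B) (h : (homB ρ ρ').H) :
    op b • h = h ∘ₗ ρ.ρ b := rfl

lemma homB_cx (ρ : Rep C T) (ρ' : Rep C' T') : (homB ρ ρ').cx = hom T T' := rfl

/-- `b ↦ u ∘ ρ b` for a closed map `u` of representations. -/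
def unitMap (ρ : Rep C T) (u : T.M →ₗ[R] T'.M) : C.B →+ (T.M →ₗ[R] T'.M) :=
  (LinearMap.llcomp R _ _ _ u).toAddMonoidHom.comp ρ.ρ.toAddMonoidHom

lemma unitMap_isHom (ρ : Rep C T) (ρ' : Rep C T') {u : T.M →ₗ[R] T'.M} (hu : IsHom T T' u)
    (h : ∀ b, u ∘ₗ ρ.ρ b = ρ'.ρ b ∘ₗ u) : Bimod.IsHom C.self (homB ρ ρ') (ρ.unitMap u) where
  mem hb := deg_cast (comp_deg hu.deg (ρ.ρ_mem hb)) (add_zero _) (zero_add _)
  comm b := by
    change homD T T' (u ∘ₗ ρ.ρ b) = u ∘ₗ ρ.ρ (C.d b)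
    rw [homD_comp, hu.homD, ρ.ρ_d, LinearMap.zero_comp, zero_add]
  l b a := by
    change u ∘ₗ ρ.ρ (b * a) = ρ'.ρ b ∘ₗ (u ∘ₗ ρ.ρ a)
    rw [map_mul, ← LinearMap.comp_assoc, ← h]; rfl
  r b a := by
    change u ∘ₗ ρ.ρ (a * b) = (u ∘ₗ ρ.ρ a) ∘ₗ ρ.ρ b
    rw [map_mul]; rfl

lemma post_isHom (ρ : Rep C T) (ρ' : Rep C' T') (ρ'' : Rep C' T'') {u : T'.M →ₗ[R] T''.M}
    (hu : IsHom T' T'' u) (h : ∀ b, u ∘ₗ ρ'.ρ b = ρ''.ρ b ∘ₗ u) :
    Bimod.IsHom (homB ρ ρ') (homB ρ ρ'') (LinearMap.llcomp R _ _ _ u).toAddMonoidHom where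
  mem := (hu.post T).mem
  comm := ((homF T).isHom hu).comm
  l b a := by
    change u ∘ₗ (ρ'.ρ b ∘ₗ a) = ρ''.ρ b ∘ₗ (u ∘ₗ a)
    rw [← LinearMap.comp_assoc, h]; rfl
  r _ _ := rfl

/-- `M` with the maps `ι`, `π` realizes the twisted complex `x`. -/
structure IsReal (ρ : Rep C T) (x : Tw C) (M : DG A) (ι : x.I → T.M →ₗ[R] M.M)
    (π : x.I → M.M →ₗ[R] T.M) : Prop where
  hι : ∀ i, ι i ∈ deg T M 0 (-x.deg i)
  hπ : ∀ i, π i ∈ deg M T 0 (x.deg i)
  πι : ∀ i, π i ∘ₗ ι i = ρ.ρ (C.e (x.ob i))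
  πι' : ∀ i j, i ≠ j → π i ∘ₗ ι j = 0
  tot : ∑ i, ι i ∘ₗ π i = LinearMap.id
  dπ : ∀ i, homD M T (π i) = ∑ j, ρ.ρ (x.δ i j) ∘ₗ π j

variable {ρ : Rep C T} {ρ' : Rep C' T'} {ρ'' : Rep C'' T''} {x : Tw C} {y : Tw C'} {z : Tw C''}
  {ι : x.I → T.M →ₗ[R] M.M} {π : x.I → M.M →ₗ[R] T.M}
  {ι' : y.I → T'.M →ₗ[R] N.M} {π' : y.I → N.M →ₗ[R] T'.M}
  {ι'' : z.I → T''.M →ₗ[R] P.M} {π'' : z.I → P.M →ₗ[R] T''.M}

lemma IsReal.sum_apply (H : IsReal ρ x M ι π) (m : M.M) : ∑ i, ι i (π i m) = m := by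
  simpa using LinearMap.congr_fun H.tot m

lemma IsReal.π_sum (H : IsReal ρ x M ι π) (i : x.I) (t : x.I → T.M) :
    π i (∑ j, ι j (t j)) = ρ.ρ (C.e (x.ob i)) (t i) := by
  rw [map_sum, Finset.sum_eq_single i
    (fun j _ hj => show π i (ι j (t j)) = 0 from LinearMap.congr_fun (H.πι' i j hj.symm) (t j))
    (by simp), ← H.πι]; rfl

lemma IsReal.e_π (H : IsReal ρ x M ι π) (i : x.I) (m : M.M) :
    ρ.ρ (C.e (x.ob i)) (π i m) = π i m := by rw [← H.π_sum i fun j => π j m, H.sum_apply]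

lemma IsReal.ι_e (H : IsReal ρ x M ι π) (i : x.I) (t : T.M) :
    ι i (ρ.ρ (C.e (x.ob i)) t) = ι i t := by
  conv_rhs => rw [← H.sum_apply (ι i t)]
  rw [Finset.sum_eq_single i (fun j _ hj => by
    rw [show π j (ι i t) = 0 from LinearMap.congr_fun (H.πι' j i hj) t, map_zero]) (by simp),
    ← H.πι]; rfl

lemma IsReal.ext (H : IsReal ρ x M ι π) {m m' : M.M} (h : ∀ i, π i m = π i m') : m = m' := by
  rw [← H.sum_apply m, ← H.sum_apply m']; simp only [h]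

lemma IsReal.π_d (H : IsReal ρ x M ι π) (i : x.I) (m : M.M) :
    π i (M.d m) = T.d (π i m) + ∑ j, ρ.ρ (x.δ i j) (π j m) := by
  have := LinearMap.congr_fun (H.dπ i) m
  rw [homD_apply] at this
  simp only [LinearMap.coe_sum, Finset.sum_apply, LinearMap.comp_apply] at this
  rw [← this, ← add_assoc, T.two, zero_add]

lemma IsReal.π_dι (H : IsReal ρ x M ι π) (i j : x.I) :
    π i ∘ₗ homD T M (ι j) = ρ.ρ (x.δ i j) := by
  have e := homD_comp (π i) (ι j)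
  have e1 : homD T T (π i ∘ₗ ι j) = 0 := by
    by_cases h : i = j
    · subst h; rw [H.πι, ρ.ρ_d, C.d_e, map_zero]
    · rw [H.πι' i j h, map_zero]
  rw [e1, H.dπ] at e
  refine ((hom T T).eq_of_add e.symm).symm.trans (LinearMap.ext fun t => ?_)
  simp only [LinearMap.coe_sum, Finset.sum_apply, LinearMap.comp_apply]
  rw [Finset.sum_eq_single j (fun k _ hk => by
    rw [show π k (ι j t) = 0 from LinearMap.congr_fun (H.πι' k j hk) t, map_zero]) (by simp),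
    show π j (ι j t) = _ from LinearMap.congr_fun (H.πι j) t]
  exact LinearMap.congr_fun
    ((map_mul ρ.ρ _ _).symm.trans (congrArg _ (Bimod.cor_r (x.δ_mem i j)))) t

lemma IsReal.d_ι (H : IsReal ρ x M ι π) (j : x.I) (t : T.M) :
    M.d (ι j t) = ι j (T.d t) + ∑ i, ι i (ρ.ρ (x.δ i j) t) := by
  simp only [← H.π_dι, LinearMap.comp_apply, H.sum_apply]
  rw [homD_apply, add_left_comm, M.two, add_zero]

lemma IsReal.pieces (H : IsReal ρ x M ι π) :
    Pieces M (fun i => T.sh (x.deg i)) (fun i => x.ht i) π ι where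
  hp i _ _ _ h := mem_cast (M := T) (H.hπ i _ _ _ h) rfl (by ring)
  hs i _ _ _ h := mem_cast (H.hι i _ _ _ h) rfl (by ring)
  tot := H.tot
  ps i := by rw [H.πι]; exact (ρ.ρ_d _).trans (by rw [C.d_e, map_zero])
  ps' := H.πι'
  tri i j h := (H.π_dι i j).trans (by rw [x.δ_ht i j (by omega), map_zero])

lemma IsReal.map (H : IsReal ρ x M ι π) (hC : C.Span) {𝒪 : DG A → Prop} (F : PF 𝒪 A') (hT : 𝒪 T)
    (hM : 𝒪 M) : IsReal (ρ.map hC F hT) x (F.obj M hM) (fun i => F.map hT hM (ι i))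
      (fun i => F.map hM hT (π i)) where
  hι i := F.map_deg _ _ (H.hι i)
  hπ i := F.map_deg _ _ (H.hπ i)
  πι i := by rw [← F.map_comp _ _ _ (mem_pres (H.hπ i)) (mem_pres (H.hι i)), H.πι]; rfl
  πι' i j h := by
    rw [← F.map_comp _ _ _ (mem_pres (H.hπ i)) (mem_pres (H.hι j)), H.πι' i j h, F.map_zero]
  tot := by
    rw [← F.map_id, ← H.tot,
      F.map_sum _ _ _ fun i => comp_pres (mem_pres (H.hι i)) (mem_pres (H.hπ i))]
    exact Finset.sum_congr rfl fun i _ =>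
      (F.map_comp _ _ _ (mem_pres (H.hι i)) (mem_pres (H.hπ i))).symm
  dπ i := by
    rw [F.map_d _ _ (mem_pres (H.hπ i)), H.dπ,
      F.map_sum _ _ _ fun j => comp_pres (ρ.ρ_pres hC _) (mem_pres (H.hπ j))]
    exact Finset.sum_congr rfl fun j _ => F.map_comp _ _ _ (ρ.ρ_pres hC _) (mem_pres (H.hπ j))

lemma IsReal.mapF (H : IsReal ρ x M ι π) (F : DGF A) :
    IsReal (ρ.mapF F) x (F.obj M) (fun i => F.map T M (ι i)) (fun i => F.map M T (π i)) where
  hι i := F.map_deg (H.hι i)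
  hπ i := F.map_deg (H.hπ i)
  πι i := by rw [← F.map_comp, H.πι]; rfl
  πι' i j h := by rw [← F.map_comp, H.πι' i j h, map_zero]
  tot := by simp only [← F.map_comp, ← map_sum, H.tot, F.map_id]
  dπ i := by
    rw [F.map_d, H.dπ, map_sum]
    exact Finset.sum_congr rfl fun j _ => F.map_comp _ _ _ _ _

/-- The matrix of a map between realizations. -/
def toMat {I J : Type} (ι : I → T.M →ₗ[R] M.M) (π' : J → N.M →ₗ[R] T'.M) :
    (M.M →ₗ[R] N.M) →+ Matrix J I (T.M →ₗ[R] T'.M) :=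
  AddMonoidHom.mk' (fun f => Matrix.of fun i j => π' i ∘ₗ f ∘ₗ ι j) fun f g => by
    ext i j m; simp

/-- The map between realizations given by a matrix. -/
def ofMat {I J : Type} [Fintype I] [Fintype J] (π : I → M.M →ₗ[R] T.M) (ι' : J → T'.M →ₗ[R] N.M) :
    Matrix J I (T.M →ₗ[R] T'.M) →+ (M.M →ₗ[R] N.M) :=
  AddMonoidHom.mk' (fun h => ∑ i, ∑ j, ι' i ∘ₗ h i j ∘ₗ π j) fun f g => by
    ext m; simp [Finset.sum_add_distrib]

lemma toMat_apply {I J : Type} (ι : I → T.M →ₗ[R] M.M) (π' : J → N.M →ₗ[R] T'.M)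
    (f : M.M →ₗ[R] N.M) (i : J) (j : I) (t : T.M) : toMat ι π' f i j t = π' i (f (ι j t)) := rfl

lemma ofMat_apply {I J : Type} [Fintype I] [Fintype J] (π : I → M.M →ₗ[R] T.M)
    (ι' : J → T'.M →ₗ[R] N.M) (h : Matrix J I (T.M →ₗ[R] T'.M)) (m : M.M) :
    ofMat π ι' h m = ∑ i, ι' i (∑ j, h i j (π j m)) := by
  change (∑ i, ∑ j, ι' i ∘ₗ h i j ∘ₗ π j) m = _
  simp

lemma IsReal.ofMat_toMat (H : IsReal ρ x M ι π) (H' : IsReal ρ' y N ι' π') (f : M.M →ₗ[R] N.M) :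
    ofMat π ι' (toMat ι π' f) = f := LinearMap.ext fun m => by
  simp only [ofMat_apply, toMat_apply, ← map_sum, H.sum_apply, H'.sum_apply]

lemma IsReal.toMat_ofMat (H : IsReal ρ x M ι π) (H' : IsReal ρ' y N ι' π') {n : ℤ}
    {h : Matrix y.I x.I (T.M →ₗ[R] T'.M)} (hh : h ∈ (homB ρ ρ').twGr x y n) :
    toMat ι π' (ofMat π ι' h) = h := by
  ext i j t
  rw [toMat_apply, ofMat_apply, H'.π_sum, Finset.sum_eq_single j (fun k _ hk => by
    rw [show π k (ι j t) = 0 from LinearMap.congr_fun (H.πι' k j hk) t, map_zero]) (by simp),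
    show π j (ι j t) = _ from LinearMap.congr_fun (H.πι j) t]
  exact LinearMap.congr_fun (hh i j).2 t

lemma IsReal.toMat_mem (H : IsReal ρ x M ι π) (H' : IsReal ρ' y N ι' π') {n : ℤ}
    {f : M.M →ₗ[R] N.M} (hf : f ∈ deg M N 0 n) : toMat ι π' f ∈ (homB ρ ρ').twGr x y n :=
  fun i j => ⟨deg_cast (comp_deg (H'.hπ i) (comp_deg hf (H.hι j))) (by abel) (by ring),
    LinearMap.ext fun t => by
      change ρ'.ρ _ (π' i (f (ι j (ρ.ρ (C.e _) t)))) = π' i (f (ι j t))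
      rw [H'.e_π, H.ι_e]⟩

lemma IsReal.ofMat_mem (H : IsReal ρ x M ι π) (H' : IsReal ρ' y N ι' π') {n : ℤ}
    {h : Matrix y.I x.I (T.M →ₗ[R] T'.M)} (hh : h ∈ (homB ρ ρ').twGr x y n) :
    ofMat π ι' h ∈ deg M N 0 n :=
  sum_mem fun i _ => sum_mem fun j _ =>
    deg_cast (comp_deg (H'.hι i) (comp_deg (hh i j).1 (H.hπ j))) (by abel) (by ring)

lemma IsReal.twD_toMat (H : IsReal ρ x M ι π) (H' : IsReal ρ' y N ι' π') (f : M.M →ₗ[R] N.M) :
    (homB ρ ρ').twD x y (toMat ι π' f) = toMat ι π' (homD M N f) := by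
  refine Matrix.ext fun i j => LinearMap.ext fun t => ?_
  change (homD T T' (toMat ι π' f i j) + (∑ k, ρ'.ρ (y.δ i k) ∘ₗ toMat ι π' f k j) +
    (∑ k, toMat ι π' f i k ∘ₗ ρ.ρ (x.δ k j))) t = _
  simp only [LinearMap.add_apply, LinearMap.coe_sum, Finset.sum_apply, LinearMap.comp_apply,
    toMat_apply, homD_apply, map_add, H'.π_d, H.d_ι, map_sum]
  abel

lemma IsReal.toMat_qis (H : IsReal ρ x M ι π) (H' : IsReal ρ' y N ι' π') :
    Cx.Qis (hom M N) ((homB ρ ρ').tw x y) (toMat ι π') :=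
  Cx.Qis.of_bij ⟨H.toMat_mem H', fun _ => H.twD_toMat H' _⟩
    (fun _ f _ h => (H.ofMat_toMat H' f).symm.trans ((congrArg _ h).trans (map_zero _)))
    fun _ _ hh => ⟨_, H.ofMat_mem H' hh, H.toMat_ofMat H' hh⟩

lemma IsReal.homD_ofMat (H : IsReal ρ x M ι π) (H' : IsReal ρ' y N ι' π') {n : ℤ}
    {h : Matrix y.I x.I (T.M →ₗ[R] T'.M)} (hh : h ∈ (homB ρ ρ').twGr x y n) :
    homD M N (ofMat π ι' h) = ofMat π ι' ((homB ρ ρ').twD x y h) := by
  conv_rhs => rw [← H.toMat_ofMat H' hh, H.twD_toMat H', H.ofMat_toMat H']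

lemma IsReal.ofMat_qis (H : IsReal ρ x M ι π) (H' : IsReal ρ' y N ι' π') :
    Cx.Qis ((homB ρ ρ').tw x y) (hom M N) (ofMat π ι') :=
  (H.toMat_qis H').of_comp_left ⟨H.ofMat_mem H', fun h => H.homD_ofMat H' h⟩
    ((Cx.Qis.id _).congr fun _ _ hv => H.toMat_ofMat H' hv)

/-- The map between realizations given by a matrix over `C`. -/
def rmap (ρ : Rep C T) {I J : Type} [Fintype I] [Fintype J] (π : I → M.M →ₗ[R] T.M)
    (ι' : J → T.M →ₗ[R] N.M) : Matrix J I C.B →+ (M.M →ₗ[R] N.M) :=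
  (ofMat π ι').comp ρ.ρ.toAddMonoidHom.mapMatrix

lemma rmap_apply (ρ : Rep C T) {I J : Type} [Fintype I] [Fintype J] (π : I → M.M →ₗ[R] T.M)
    (ι' : J → T.M →ₗ[R] N.M) (g : Matrix J I C.B) (m : M.M) :
    ρ.rmap π ι' g m = ∑ i, ι' i (∑ j, ρ.ρ (g i j) (π j m)) := ofMat_apply _ _ _ _

section rmap
variable {x' x'' : Tw C} {κ : x'.I → T.M →ₗ[R] L.M} {μ : x'.I → L.M →ₗ[R] T.M}
  {κ' : x''.I → T.M →ₗ[R] P.M} {μ' : x''.I → P.M →ₗ[R] T.M}

lemma map_ρ_mem (ρ : Rep C T) {n : ℤ} {g : Matrix x'.I x.I C.B} (hg : g ∈ C.self.twGr x x' n) :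
    g.map ρ.ρ ∈ (homB ρ ρ).twGr x x' n :=
  ((ρ.unitMap_isHom ρ (IsHom.id T) fun _ => rfl).tw x x').mem hg

lemma IsReal.rmap_isMap (H : IsReal ρ x M ι π) (H' : IsReal ρ x' L κ μ) :
    Cx.IsMap (C.self.tw x x') (hom M L) (ρ.rmap π κ) :=
  (H.ofMat_qis H').toIsMap.comp ((ρ.unitMap_isHom ρ (IsHom.id T) fun _ => rfl).tw x x')

lemma IsReal.π_rmap (H' : IsReal ρ x' L κ μ) {n : ℤ} {g : Matrix x'.I x.I C.B}
    (hg : g ∈ C.self.twGr x x' n) (i : x'.I) (m : M.M) :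
    μ i (ρ.rmap π κ g m) = ∑ j, ρ.ρ (g i j) (π j m) := by
  rw [rmap_apply, H'.π_sum, map_sum]
  exact Finset.sum_congr rfl fun j _ => LinearMap.congr_fun
    ((map_mul ρ.ρ _ _).symm.trans (congrArg _ (Bimod.cor_l (hg i j)))) _

lemma IsReal.ofMat_rmul (H : IsReal ρ x M ι π) {n : ℤ} {g : Matrix x.I x'.I C.B}
    (hg : g ∈ C.self.twGr x' x n) {J : Type} [Fintype J] (ι' : J → T'.M →ₗ[R] N.M)
    (h : Matrix J x.I (T.M →ₗ[R] T'.M)) :
    ofMat μ ι' ((homB ρ ρ').rmul h g) = ofMat π ι' h ∘ₗ ρ.rmap μ ι g := LinearMap.ext fun m => by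
  rw [LinearMap.comp_apply, ofMat_apply, ofMat_apply]
  refine Finset.sum_congr rfl fun i _ => congrArg _ ?_
  simp only [H.π_rmap hg, map_sum]
  rw [Finset.sum_comm]
  exact Finset.sum_congr rfl fun j _ => LinearMap.sum_apply _ _ _

lemma IsReal.ofMat_lmul (H : IsReal ρ x M ι π) {w : Tw C'} {n : ℤ}
    {h : Matrix x.I w.I (T'.M →ₗ[R] T.M)} (hh : h ∈ (homB ρ' ρ).twGr w x n)
    (ν : w.I → N.M →ₗ[R] T'.M) {J : Type} [Fintype J] (κ : J → T.M →ₗ[R] L.M)
    (g : Matrix J x.I C.B) :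
    ofMat ν κ ((homB ρ' ρ).lmul g h) = ρ.rmap π κ g ∘ₗ ofMat ν ι h := LinearMap.ext fun m => by
  rw [LinearMap.comp_apply, ofMat_apply, rmap_apply]
  refine Finset.sum_congr rfl fun i _ => congrArg _ ?_
  have e : ∀ k, π k (ofMat ν ι h m) = ∑ j, h k j (ν j m) := fun k => by
    rw [ofMat_apply, H.π_sum, map_sum]
    exact Finset.sum_congr rfl fun j _ => LinearMap.congr_fun (Bimod.cor_l (hh k j)) _
  simp only [e, map_sum]
  rw [Finset.sum_comm]
  exact Finset.sum_congr rfl fun j _ => LinearMap.sum_apply _ _ _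

lemma IsReal.rmap_mul (H : IsReal ρ x M ι π) {n : ℤ} {g : Matrix x.I x'.I C.B}
    (hg : g ∈ C.self.twGr x' x n) {J : Type} [Fintype J] (κ' : J → T.M →ₗ[R] N.M)
    (f : Matrix J x.I C.B) : ρ.rmap μ κ' (f * g) = ρ.rmap π κ' f ∘ₗ ρ.rmap μ ι g :=
  (congrArg (ofMat μ κ') (by
    rw [← Bimod.self_rmul]
    exact (ρ.unitMap_isHom ρ (IsHom.id T) fun _ => rfl).map_rmul f g)).trans
    (H.ofMat_rmul (ρ' := ρ) hg κ' (f.map ρ.ρ))

lemma IsReal.rmap_one (H : IsReal ρ x M ι π) :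
    ρ.rmap π ι (Matrix.diagonal fun i => C.e (x.ob i)) = LinearMap.id := LinearMap.ext fun m => by
  rw [rmap_apply]
  refine Eq.trans (Finset.sum_congr rfl fun i _ => congrArg _ ?_) (H.sum_apply m)
  rw [Finset.sum_eq_single i (fun j _ hj => by rw [Matrix.diagonal_apply_ne' _ hj, map_zero]; rfl)
    (by simp), Matrix.diagonal_apply_eq, H.e_π]

lemma IsReal.map_rmap (H : IsReal ρ x M ι π) (H' : IsReal ρ x' L κ μ) (hC : C.Span)
    {𝒪 : DG A → Prop} (F : PF 𝒪 A') (hT : 𝒪 T) (hM : 𝒪 M) (hL : 𝒪 L) (g : Matrix x'.I x.I C.B) :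
    F.map hM hL (ρ.rmap π κ g) =
      (ρ.map hC F hT).rmap (fun i => F.map hM hT (π i)) (fun i => F.map hT hL (κ i)) g := by
  have h1 := fun i j => comp_pres (ρ.ρ_pres hC (g i j)) (mem_pres (H.hπ j))
  have h2 := fun i j => comp_pres (mem_pres (H'.hι i)) (h1 i j)
  refine (F.map_sum _ _ _ fun i => sum_mem fun j _ => h2 i j).trans
    (Finset.sum_congr rfl fun i _ => (F.map_sum _ _ _ (h2 i)).trans
      (Finset.sum_congr rfl fun j _ => ?_))
  rw [F.map_comp _ hT _ (mem_pres (H'.hι i)) (h1 i j),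
    F.map_comp _ hT _ (ρ.ρ_pres hC _) (mem_pres (H.hπ j))]
  rfl

lemma mapF_rmap (ρ : Rep C T) (F : DGF A) {I J : Type} [Fintype I] [Fintype J]
    (π : I → M.M →ₗ[R] T.M) (κ : J → T.M →ₗ[R] L.M) (g : Matrix J I C.B) :
    F.map M L (ρ.rmap π κ g) =
      (ρ.mapF F).rmap (fun i => F.map M T (π i)) (fun i => F.map T L (κ i)) g := by
  refine (map_sum _ _ _).trans (Finset.sum_congr rfl fun i _ => (map_sum _ _ _).trans
    (Finset.sum_congr rfl fun j _ => ?_))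
  rw [F.map_comp, F.map_comp]
  rfl

/-- Full faithfulness on twisted complexes, into the image of a functor `F` under `η : id → F`. -/
lemma IsReal.unit_qis (H : IsReal ρ x M ι π) (H' : IsReal ρ x' L κ μ) {F : DGF A}
    (η : NatT (DGF.id A) F) (h : Cx.Qis C.self.cx (hom T (F.obj T)) (ρ.unitMap (η.app T))) :
    Cx.Qis (C.self.tw x x') (hom M (F.obj L))
      ((LinearMap.llcomp R _ _ _ (η.app L)).toAddMonoidHom.comp (ρ.rmap π κ)) := by
  refine ((H.ofMat_qis (H'.mapF F)).comp ((ρ.unitMap_isHom (ρ.mapF F) (η.isHom T)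
    fun b => LinearMap.ext (η.nat T T (ρ.ρ b))).tw_qis h x x')).congr fun n g _ =>
      LinearMap.ext fun m => ?_
  change η.app L (ρ.rmap π κ g m) = ofMat _ _ _ m
  rw [rmap_apply, ofMat_apply, map_sum]
  refine Finset.sum_congr rfl fun i _ => (η.nat T L (κ i) _).trans (congrArg _ ?_)
  exact map_sum _ _ _

end rmap

/-- The twisted differential on `x.I → T`. -/
def realD (ρ : Rep C T) (x : Tw C) : (x.I → T.M) →ₗ[R] (x.I → T.M) :=
  LinearMap.pi fun i => T.d ∘ₗ LinearMap.proj i + ∑ j, ρ.ρ (x.δ i j) ∘ₗ LinearMap.proj j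

lemma realD_apply (ρ : Rep C T) (x : Tw C) (v : x.I → T.M) (i : x.I) :
    ρ.realD x v i = T.d (v i) + ∑ j, ρ.ρ (x.δ i j) (v j) := by simp [realD]

lemma d_ρ (ρ : Rep C T) (b : C.B) (t : T.M) : T.d (ρ.ρ b t) = ρ.ρ b (T.d t) + ρ.ρ (C.d b) t := by
  rw [← ρ.ρ_d, homD_apply, add_left_comm, T.two, add_zero]

lemma ρ_ρ (ρ : Rep C T) (a b : C.B) (t : T.M) : ρ.ρ a (ρ.ρ b t) = ρ.ρ (a * b) t := by
  rw [map_mul]; rfl

/-- All of `x.I → T` with the twisted differential. -/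
@[reducible] def realAll (ρ : Rep C T) (x : Tw C) : DG A where
  M := x.I → T.M
  gr g n := AddSubgroup.pi Set.univ fun i => T.gr g (n + x.deg i)
  smul_mem hr h i hi := T.smul_mem hr (h i hi)
  d := ρ.realD x
  d_mem h i hi := by
    rw [realD_apply]
    exact add_mem (mem_cast (T.d_mem (h i hi)) rfl (by ring)) (sum_mem fun j _ =>
      mem_cast (ρ.ρ_mem (x.δ_mem i j).1 _ _ _ (h j trivial)) (by abel) (by ring))
  d_d v := funext fun i => by
    have e : ∀ j, C.d (x.δ i j) = ∑ k, x.δ i k * x.δ k j := fun j => congrFun (congrFun x.mc i) j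
    have e' : ∑ j, ρ.ρ (C.d (x.δ i j)) (v j) = ∑ k, ∑ j, ρ.ρ (x.δ i k * x.δ k j) (v j) := by
      rw [Finset.sum_comm]; simp [e]
    simp only [realD_apply, map_add, map_sum, T.d_d, d_ρ, ρ_ρ, Finset.sum_add_distrib, e', zero_add]
    exact T.two _

/-- The part of `x.I → T` cut out by the idempotents. -/
def realSub (ρ : Rep C T) (x : Tw C) : Submodule R (x.I → T.M) where
  carrier := {v | ∀ i, ρ.ρ (C.e (x.ob i)) (v i) = v i}
  add_mem' h h' i := by rw [Pi.add_apply, map_add, h i, h' i]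
  zero_mem' _ := map_zero _
  smul_mem' r v h i := by rw [Pi.smul_apply, map_smul, h i]

/-- The realization of a twisted complex. -/
abbrev real (ρ : Rep C T) (x : Tw C) : DG A :=
  (ρ.realAll x).sub (ρ.realSub x) fun v hv i => by
    change ρ.ρ _ (ρ.realD x v i) = ρ.realD x v i
    rw [realD_apply, map_add, map_sum]
    congr 1
    · conv_rhs => rw [← hv i, d_ρ, C.d_e, map_zero, LinearMap.zero_apply, add_zero]
    · exact Finset.sum_congr rfl fun j _ =>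
        (ρ.ρ_ρ _ _ _).trans (by rw [show C.e _ * _ = _ from Bimod.cor_l (x.δ_mem i j)])

/-- The projections of the realization. -/
def realπ (ρ : Rep C T) (x : Tw C) (i : x.I) : (ρ.real x).M →ₗ[R] T.M :=
  LinearMap.proj i ∘ₗ (ρ.realSub x).subtype

/-- The inclusions into the realization. -/
def realι (ρ : Rep C T) (x : Tw C) (i : x.I) : T.M →ₗ[R] (ρ.real x).M :=
  LinearMap.codRestrict (ρ.realSub x) (LinearMap.single R (fun _ => T.M) i ∘ₗ ρ.ρ (C.e (x.ob i)))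
    fun t j => by
      by_cases h : j = i
      · subst h; simp [ρ_ρ, C.e_mul_self]
      · simp [h]

lemma isReal_real (ρ : Rep C T) (x : Tw C) : IsReal ρ x (ρ.real x) (ρ.realι x) (ρ.realπ x) where
  hι i g n t h j _ := by
    change (Pi.single i (ρ.ρ (C.e (x.ob i)) t) : x.I → T.M) j ∈ T.gr _ _
    by_cases hj : j = i
    · subst hj
      rw [Pi.single_eq_same]
      exact mem_cast (ρ.ρ_mem (C.e_mem _) _ _ _ h) rfl (by ring)
    · rw [Pi.single_eq_of_ne hj]; exact zero_mem _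
  hπ i g n v h := mem_cast (h i trivial) (by abel) rfl
  πι i := LinearMap.ext fun _ => Pi.single_eq_same (M := fun _ => T.M) _ _
  πι' i j h := LinearMap.ext fun _ => Pi.single_eq_of_ne (M := fun _ => T.M) h _
  tot := LinearMap.ext fun v => Subtype.ext (by
    simp only [LinearMap.coe_sum, Finset.sum_apply, AddSubmonoidClass.coe_finsetSum]
    refine Eq.trans (Finset.sum_congr rfl fun i _ => ?_) (Finset.univ_sum_single v.1)
    exact congrArg (Pi.single i) (v.2 i))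
  dπ i := LinearMap.ext fun v => by
    change T.d (v.1 i) + ρ.realD x v.1 i = _
    rw [realD_apply, ← add_assoc, T.two, zero_add, LinearMap.sum_apply]; rfl

end Rep
end FMD
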