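import Pool.Agent.MP_0e6a9f_ag.H36.Final
import Pool.Agent.MP_0e6a9f_ag.H19.Alg
import Pool.Agent.MP_0e6a9f_ag.H38.Base
import Pool.Agent.MP_0e6a9f_ag.H14.Cp
import Pool.Agent.MP_0e6a9f_ag.H33.Ks
import Pool.Agent.MP_0e6a9f_ag.H3.Kun2
import Pool.Agent.MP_0e6a9f_ag.H83.Kun3
import Pool.Agent.MP_0e6a9f_ag.H92.Dir
import Pool.Agent.MP_0e6a9f_ag.H56.Field
import Pool.Agent.MP_0e6a9f_ag.H45.Rep
import Pool.Agent.MP_0e6a9f_ag.H33.Tower
import Pool.Agent.MP_0e6a9f_ag.H32.LadCon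
import Pool.Agent.MP_0e6a9f_ag.H45.Lad
import Pool.Agent.MP_0e6a9f_ag.H24.S3

/-! Assembly of all the rows. -/

noncomputable section
namespace FMD
open _root_.FMD.DGR _root_.FMD.Bimod

theorem goal_of_real (real : ∀ (K : Type) [Field K] [CharP K 2] (p : K), p ≠ 0 → p ≠ 1 →
    Nonempty (FMX.Real K (Cp p))) : Goal := by
  obtain ⟨K, _, _, s, t, D, D', h1, h2, h3, h4⟩ := field
  have ne : ∀ (E : Derivation ℤ K K) (p : K), E p = 1 → p ≠ 0 ∧ p ≠ 1 := fun E p h =>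
    ⟨fun e => by rw [e, map_zero] at h; exact zero_ne_one h,
      fun e => by rw [e, E.map_one_eq_zero] at h; exact zero_ne_one h⟩
  obtain ⟨B⟩ := base cp ks kun1 kun2 kun3 K s t D D' h1 h2 h3 h4
  obtain ⟨Rs⟩ := real K s (ne D s h1).1 (ne D s h1).2
  obtain ⟨Rt⟩ := real K t (ne D' t h4).1 (ne D' t h4).2
  obtain ⟨R, -⟩ := FMX.prod K _ _ Rs Rt
  have hA : Deg0 (tens K (Cp s) (Cp t)) := (can_deg0 _).tens (can_deg0 _)
  have ho : (tens K (Cp s) (Cp t)).e (.z, .z) ≠ 0 := fun e => by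
    have := R.ok.dom
    have h := congrFun (congrFun (R.theta.e (.z, .z)) (.z, .z)) (.z, .z)
    rw [e, map_zero, Matrix.single_apply_same] at h
    exact zero_ne_one h
  obtain ⟨n, n', N, g, g', h, h', c, c', q, q', sc, x, nov⟩ := alg s3 K _ hA ⟨_, ho⟩ B
  have geo := FMX.geo K (FMX.tower K) (FMX.prod K) (FMX.lad_of_con K (FMX.con K)) _ hA.mem
    (fun _ _ => hA.zero) hA.d R
  obtain ⟨Γ⟩ := geo n c
  obtain ⟨Γ'⟩ := geo n' c'
  obtain ⟨_, d⟩ := dir K s t n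
  obtain ⟨_, d'⟩ := dir K s t n'
  exact goal_of K (glue.map h) (glue.map h') (glue.map_e h) (glue.map_e h')
    Function.surjective_id Function.surjective_id (glue.map_qis h q) (glue.map_qis h' q') Γ Γ'
    (glue_fr_honest hA n).span (glue_fr_honest hA n').span d d' sc nov

end FMD
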